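import Pool.Agent.CGL.Tool
/-! WPA: pairing the equation with `w v̄` -/
open MeasureTheory Set Filter Topology
namespace CGL
variable {N : ℕ} {α θ γ T : ℝ} {J : E N → ℝ} {K : ℝ}

private theorem wpa_comm (z u : ℂ) :
    ((starRingEnd ℂ) z * u).re = ((starRingEnd ℂ) u * z).re := by
  simp only [Complex.mul_re, Complex.conj_re, Complex.conj_im]; ring

private theorem wpa_self (z : ℂ) : ((starRingEnd ℂ) z * z).re = ‖z‖ ^ 2 := by
  rw [← Complex.normSq_eq_conj_mul_self, Complex.ofReal_re, Complex.normSq_eq_norm_sq]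

private theorem wpa_pow (hα : 0 < α) (z : ℂ) :
    (starRingEnd ℂ) z * nl α z = ((‖z‖ ^ (α + 2) : ℝ) : ℂ) := by
  unfold nl
  rw [mul_left_comm, ← Complex.normSq_eq_conj_mul_self, Complex.normSq_eq_norm_sq,
    ← Complex.ofReal_mul, Real.rpow_add_of_nonneg (norm_nonneg z) hα.le (by norm_num)]
  norm_num

private theorem wpa_nl_cont (hα : 0 < α) : Continuous (nl α) := by
  unfold nl
  exact (Complex.continuous_ofReal.comp (continuous_norm.rpow_const fun _ => Or.inr hα.le)).mul
    continuous_id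

private theorem wpa_ph : (starRingEnd ℂ) (ph θ) * ph θ = 1 := by
  rw [← Complex.normSq_eq_conj_mul_self]
  unfold ph
  rw [Complex.normSq_eq_norm_sq, Complex.norm_exp_ofReal_mul_I]; simp

/-- the equation solved for the Laplacian -/
private theorem wpa_lap (A : ASol N α θ γ T) {t : ℝ} (ht : t ∈ Icc (0:ℝ) T) (x : E N) :
    (∑ i, A.ddv i t x) = (starRingEnd ℂ) (ph θ) * A.vt t x - A.R t x
      - ((Real.exp (α * γ * t) : ℝ) : ℂ) * nl α (A.v t x) := by
  have h := A.eq t ht x
  rw [h, ← mul_assoc, wpa_ph]; ring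

private theorem wpa_lap_re (A : ASol N α θ γ T) (hα : 0 < α) {t : ℝ} (ht : t ∈ Icc (0:ℝ) T)
    (x : E N) : (∑ i, ((starRingEnd ℂ) (A.ddv i t x) * A.v t x).re)
      = ((starRingEnd ℂ) (A.v t x) * ((starRingEnd ℂ) (ph θ) * A.vt t x - A.R t x)).re
        - Real.exp (α * γ * t) * ‖A.v t x‖ ^ (α + 2) := by
  have h1 : (∑ i, ((starRingEnd ℂ) (A.ddv i t x) * A.v t x).re)
      = ((starRingEnd ℂ) (A.v t x) * ∑ i, A.ddv i t x).re := by
    rw [Finset.mul_sum, Complex.re_sum]
    exact Finset.sum_congr rfl fun i _ => wpa_comm _ _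
  rw [h1, wpa_lap A ht x, mul_sub, Complex.sub_re]
  congr 1
  rw [mul_left_comm, wpa_pow hα, Complex.re_ofReal_mul, Complex.ofReal_re]

private theorem wpa_split {s f g : E N → ℝ} (hf : Integrable f) (hg : Integrable g)
    (he : ∀ x, s x = f x + g x) : (∫ x, s x) = (∫ x, f x) + ∫ x, g x := by
  have hs : s = fun x => f x + g x := funext he
  rw [hs, integral_add hf hg]

private theorem wpa_bddC {w : E N → ℝ} (hw : Continuous w) {C : ℝ} (bw : ∀ x, |w x| ≤ C) :
    Bdd T (fun _ x => w x) :=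
  ⟨hw.comp continuous_snd, C, (abs_nonneg _).trans (bw 0), fun _ _ x => bw x⟩

private theorem wpa_dom_add {G : E N → ℝ} {f g : ℝ → E N → ℂ} (hf : Dom T G f) (hg : Dom T G g) :
    Dom T G (fun t x => f t x - g t x) := by
  obtain ⟨hc, C, hC, hb⟩ := hf
  obtain ⟨hc', C', hC', hb'⟩ := hg
  refine ⟨hc.sub hc', C + C', by positivity, fun t ht x => ?_⟩
  calc ‖f t x - g t x‖ ≤ ‖f t x‖ + ‖g t x‖ := norm_sub_le _ _
    _ ≤ C * G x + C' * G x := add_le_add (hb t ht x) (hb' t ht x)
    _ = (C + C') * G x := by ring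

private theorem wpa_dom_cmul {G : E N → ℝ} {f : ℝ → E N → ℂ} (c : ℂ) (hf : Dom T G f) :
    Dom T G (fun t x => c * f t x) := by
  obtain ⟨hc, C, hC, hb⟩ := hf
  refine ⟨continuous_const.mul hc, ‖c‖ * C, by positivity, fun t ht x => ?_⟩
  rw [norm_mul, mul_assoc]
  exact mul_le_mul_of_nonneg_left (hb t ht x) (norm_nonneg _)

private theorem wpa_dom_rhs (A : ASol N α θ γ T) :
    Dom T A.G (fun t x => (starRingEnd ℂ) (ph θ) * A.vt t x - A.R t x) :=
  wpa_dom_add (wpa_dom_cmul _ A.dom_vt) A.dom_R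

private theorem wpa_sl {f : ℝ → E N → ℂ} (hf : Continuous (Function.uncurry f)) (t : ℝ) :
    Continuous (f t) := hf.comp (Continuous.prodMk_right t)
private theorem wpa_slr {f : ℝ → E N → ℝ} (hf : Continuous (Function.uncurry f)) (t : ℝ) :
    Continuous (f t) := hf.comp (Continuous.prodMk_right t)

/-- pairing at a fixed time with a weight `w`. -/
theorem wpair_slice (A : ASol N α θ γ T) (hα : 0 < α) {t : ℝ} (ht : t ∈ Icc (0:ℝ) T)
    (w : E N → ℝ) (dw : Fin N → E N → ℝ) (hw : Continuous w) (hdw : ∀ i, Continuous (dw i))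
    (hwd : ∀ i x, HasLineDerivAt ℝ w (dw i x) x (ev i))
    {C : ℝ} (bw : ∀ x, |w x| ≤ C) (bdw : ∀ i x, |dw i x| ≤ C) :
    (∫ x, w x * (Real.exp (α * γ * t) * ‖A.v t x‖ ^ (α + 2) - A.dsq t x))
      = (∫ x, w x * ((starRingEnd ℂ) (A.v t x) *
            ((starRingEnd ℂ) (ph θ) * A.vt t x - A.R t x)).re)
        + ∫ x, ∑ i, dw i x * ((starRingEnd ℂ) (A.v t x) * A.dv i t x).re := by
  have bW := wpa_bddC (T := T) hw bw
  have bdW := fun i => wpa_bddC (T := T) (hdw i) (bdw i)
  have ibp : ∀ i, (∫ x, w x * ‖A.dv i t x‖ ^ 2)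
      = - (∫ x, w x * ((starRingEnd ℂ) (A.ddv i t x) * A.v t x).re)
        - (∫ x, dw i x * ((starRingEnd ℂ) (A.v t x) * A.dv i t x).re) := by
    intro i
    set C' := max 1 C with hC
    have hC1 : (1:ℝ) ≤ C' := le_max_left _ _
    have up : ∀ x, A.G x ≤ C' * A.G x := fun x => by
      have := A.G0 x; nlinarith
    have h := slice_ibp A.gok (wpa_sl (A.cdv i) t) (wpa_sl A.cv t) (wpa_sl (A.cddv i) t)
      (wpa_sl (A.cdv i) t) hw (hdw i) (A.hdv i t ht) (A.hv i t ht) (hwd i) (C := C')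
      (fun x => (A.bdv i t ht x).trans (up x)) (fun x => (A.bv t ht x).trans (up x))
      (fun x => (A.bddv i t ht x).trans (up x)) (fun x => (A.bdv i t ht x).trans (up x))
      (fun x => (bw x).trans (le_max_right _ _)) (fun x => (bdw i x).trans (le_max_right _ _))
    simp only [wpa_self] at h
    rw [h]
    congr 1
    refine integral_congr_ae (ae_of_all _ fun x => ?_)
    simp only [wpa_comm (A.dv i t x)]
  have a1 : ∀ i, Integrable (fun x => w x * ‖A.dv i t x‖ ^ 2) :=
    fun i => adm_slice A.gok (adm_wmul bW (adm_normsq (A.dom_dv i))) ht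
  have a2 : ∀ i, Integrable (fun x => w x * ((starRingEnd ℂ) (A.ddv i t x) * A.v t x).re) :=
    fun i => adm_slice A.gok (adm_wmul bW (adm_re A.G0 (A.dom_ddv i) A.dom_v)) ht
  have a3 : ∀ i, Integrable (fun x => dw i x * ((starRingEnd ℂ) (A.v t x) * A.dv i t x).re) :=
    fun i => adm_slice A.gok (adm_wmul (bdW i) (adm_re A.G0 A.dom_v (A.dom_dv i))) ht
  have hsum : (∫ x, w x * A.dsq t x)
      = - (∫ x, ∑ i, w x * ((starRingEnd ℂ) (A.ddv i t x) * A.v t x).re)
        - (∫ x, ∑ i, dw i x * ((starRingEnd ℂ) (A.v t x) * A.dv i t x).re) := by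
    rw [integral_finsetSum _ fun i _ => a2 i, integral_finsetSum _ fun i _ => a3 i]
    have : (∫ x, w x * A.dsq t x) = ∑ i, ∫ x, w x * ‖A.dv i t x‖ ^ 2 := by
      rw [← integral_finsetSum _ fun i _ => a1 i]
      refine integral_congr_ae (ae_of_all _ fun x => ?_)
      simp only [ASol.dsq, Finset.mul_sum]
    rw [this]
    simp_rw [ibp]
    rw [Finset.sum_sub_distrib, Finset.sum_neg_distrib]
  have b1 : Integrable (fun x => w x * (Real.exp (α * γ * t) * ‖A.v t x‖ ^ (α + 2))) :=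
    adm_slice A.gok (adm_wmul bW (adm_wmul (w := fun t _ => Real.exp (α * γ * t))
      (bdd_time (by fun_prop)) (A.adm_vp hα))) ht
  have b2 : Integrable (fun x => w x * A.dsq t x) :=
    adm_slice A.gok (adm_wmul bW A.adm_dsq) ht
  have b3 : Integrable (fun x => w x * ((starRingEnd ℂ) (A.v t x) *
            ((starRingEnd ℂ) (ph θ) * A.vt t x - A.R t x)).re) :=
    adm_slice A.gok (adm_wmul bW (adm_re A.G0 A.dom_v (wpa_dom_rhs A))) ht
  have e1 : (∫ x, w x * (Real.exp (α * γ * t) * ‖A.v t x‖ ^ (α + 2) - A.dsq t x))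
      = (∫ x, w x * (Real.exp (α * γ * t) * ‖A.v t x‖ ^ (α + 2))) - ∫ x, w x * A.dsq t x := by
    rw [← integral_sub b1 b2]
    refine integral_congr_ae (ae_of_all _ fun x => ?_)
    simp only [mul_sub]
  have e2 : (∫ x, ∑ i, w x * ((starRingEnd ℂ) (A.ddv i t x) * A.v t x).re)
      = (∫ x, w x * ((starRingEnd ℂ) (A.v t x) *
            ((starRingEnd ℂ) (ph θ) * A.vt t x - A.R t x)).re)
        - ∫ x, w x * (Real.exp (α * γ * t) * ‖A.v t x‖ ^ (α + 2)) := by
    rw [← integral_sub b3 b1]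
    refine integral_congr_ae (ae_of_all _ fun x => ?_)
    simp only
    rw [← Finset.mul_sum, wpa_lap_re A hα ht x, mul_sub]
  rw [e1, hsum, e2]
  ring

/-- derivative of `M`. -/
theorem M_deriv (A : ASol N α θ γ T) :
    ∀ t ∈ Ioo (0:ℝ) T, HasDerivAt A.M
      (2 * (∫ x, (starRingEnd ℂ) (A.v t x) * A.vt t x).re) t := by
  intro t ht
  have ht' : t ∈ Icc (0:ℝ) T := ⟨ht.1.le, ht.2.le⟩
  have h := adm_hasDeriv A.gok (adm_normsq A.dom_v)
    (adm_cmul 2 (adm_re A.G0 A.dom_v A.dom_vt)) (fun s hs x => by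
      have := (A.ht s hs x).norm_sq
      rw [Complex.inner, mul_comm (A.vt s x)] at this
      exact this) t ht
  refine h.congr_deriv ?_
  rw [integral_const_mul]
  congr 1
  have hint : Integrable (fun x => (starRingEnd ℂ) (A.v t x) * A.vt t x) := by
    refine (adm_slice A.gok (adm_normmul A.G0 A.dom_v A.dom_vt) ht').mono'
      ((Complex.continuous_conj.comp (wpa_sl A.cv t)).mul (wpa_sl A.cvt t)).aestronglyMeasurable
      (ae_of_all _ fun x => ?_)
    rw [norm_mul, Complex.norm_conj]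
  exact integral_re hint

theorem M_cont (A : ASol N α θ γ T) : ContinuousOn A.M (Icc (0:ℝ) T) :=
  adm_contOn A.gok (adm_normsq A.dom_v)

private theorem wpa_int {A : ASol N α θ γ T} {f g : ℝ → E N → ℂ} (hf : Dom T A.G f)
    (hg : Dom T A.G g) {t : ℝ} (ht : t ∈ Icc (0:ℝ) T) :
    Integrable (fun x => (starRingEnd ℂ) (f t x) * g t x) := by
  refine (adm_slice A.gok (adm_normmul A.G0 hf hg) ht).mono'
    ((Complex.continuous_conj.comp (wpa_sl hf.1 t)).mul (wpa_sl hg.1 t)).aestronglyMeasurable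
    (ae_of_all _ fun x => ?_)
  rw [norm_mul, Complex.norm_conj]

/-- `∫ v̄ ∂_i∂_i v = -∫ |∂_i v|²` -/
private theorem wpa_ibp_c (A : ASol N α θ γ T) {t : ℝ} (ht : t ∈ Icc (0:ℝ) T) (i : Fin N) :
    (∫ x, (starRingEnd ℂ) (A.v t x) * A.ddv i t x)
      = -((∫ x, ‖A.dv i t x‖ ^ 2 : ℝ) : ℂ) := by
  have hint := wpa_int (A := A) A.dom_v (A.dom_ddv i) ht
  have h1 := slice_ibp A.gok (w := fun _ => (1:ℝ)) (w' := fun _ => (0:ℝ)) (i := i)
    (wpa_sl A.cv t) (wpa_sl (A.cdv i) t) (wpa_sl (A.cdv i) t)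
    (wpa_sl (A.cddv i) t) continuous_const continuous_const (A.hv i t ht) (A.hdv i t ht)
    (fun x => by unfold HasLineDerivAt; simpa using hasDerivAt_const (0:ℝ) (1:ℝ)) (C := 1)
    (fun x => by simpa using A.bv t ht x) (fun x => by simpa using A.bdv i t ht x)
    (fun x => by simpa using A.bdv i t ht x) (fun x => by simpa using A.bddv i t ht x)
    (fun x => by simp) (fun x => by simp)
  have h2 := slice_ibp A.gok (f := fun x => Complex.I * A.v t x)
    (f' := fun x => Complex.I * A.dv i t x)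
    (w := fun _ => (1:ℝ)) (w' := fun _ => (0:ℝ)) (i := i)
    (continuous_const.mul (wpa_sl A.cv t)) (wpa_sl (A.cdv i) t)
    (continuous_const.mul (wpa_sl (A.cdv i) t))
    (wpa_sl (A.cddv i) t) continuous_const continuous_const
    (fun x => by
      have := A.hv i t ht x
      unfold HasLineDerivAt at this ⊢
      exact this.const_mul Complex.I) (A.hdv i t ht)
    (fun x => by unfold HasLineDerivAt; simpa using hasDerivAt_const (0:ℝ) (1:ℝ)) (C := 1)
    (fun x => by simpa using A.bv t ht x) (fun x => by simpa using A.bdv i t ht x)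
    (fun x => by simpa using A.bdv i t ht x) (fun x => by simpa using A.bddv i t ht x)
    (fun x => by simp) (fun x => by simp)
  simp only [one_mul, zero_mul, integral_zero, sub_zero, wpa_self] at h1
  have e1 : ∀ z u : ℂ, ((starRingEnd ℂ) (Complex.I * z) * u).re
      = ((starRingEnd ℂ) z * u).im := by
    intro z u
    simp only [Complex.mul_re, Complex.mul_im, Complex.conj_re, Complex.conj_im, Complex.I_re,
      Complex.I_im]
    ring
  have e2 : ∀ z : ℂ, ((starRingEnd ℂ) z * z).im = 0 := by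
    intro z
    simp only [Complex.mul_im, Complex.conj_re, Complex.conj_im]; ring
  simp only [one_mul, zero_mul, integral_zero, sub_zero, e1, e2, neg_zero] at h2
  apply Complex.ext
  · have := integral_re hint
    simp only [Complex.neg_re, Complex.ofReal_re]
    exact this.symm.trans h1
  · have := integral_im hint
    simp only [Complex.neg_im, Complex.ofReal_im, neg_zero]
    exact this.symm.trans h2

/-- complex unweighted pairing: `∫ v̄ v_t = e^{iθ} (ωF − D) + e^{iθ} ∫ v̄ R`. -/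
theorem pair_complex (A : ASol N α θ γ T) (hα : 0 < α) {t : ℝ} (ht : t ∈ Icc (0:ℝ) T) :
    (∫ x, (starRingEnd ℂ) (A.v t x) * A.vt t x)
      = ph θ * ((Real.exp (α * γ * t) * A.F t - A.D t : ℝ) : ℂ)
        + ph θ * ∫ x, (starRingEnd ℂ) (A.v t x) * A.R t x := by
  have i1 : ∀ i, Integrable (fun x => (starRingEnd ℂ) (A.v t x) * A.ddv i t x) :=
    fun i => wpa_int A.dom_v (A.dom_ddv i) ht
  have i1' : Integrable (fun x => ∑ i, (starRingEnd ℂ) (A.v t x) * A.ddv i t x) :=
    integrable_finsetSum _ fun i _ => i1 i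
  have i2 : Integrable (fun x => ((Real.exp (α * γ * t) * ‖A.v t x‖ ^ (α + 2) : ℝ) : ℂ)) :=
    ((adm_slice A.gok (A.adm_vp hα) ht).const_mul _).ofReal
  have i3 : Integrable (fun x => (starRingEnd ℂ) (A.v t x) * A.R t x) :=
    wpa_int A.dom_v A.dom_R ht
  have i12 : Integrable (fun x => (∑ i, (starRingEnd ℂ) (A.v t x) * A.ddv i t x)
      + ((Real.exp (α * γ * t) * ‖A.v t x‖ ^ (α + 2) : ℝ) : ℂ)) := i1'.add i2
  have e1 : (∫ x, (starRingEnd ℂ) (A.v t x) * A.vt t x)
      = ph θ * ∫ x, ((∑ i, (starRingEnd ℂ) (A.v t x) * A.ddv i t x)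
        + ((Real.exp (α * γ * t) * ‖A.v t x‖ ^ (α + 2) : ℝ) : ℂ))
        + (starRingEnd ℂ) (A.v t x) * A.R t x := by
    rw [← integral_const_mul]
    refine integral_congr_ae (ae_of_all _ fun x => ?_)
    simp only
    rw [A.eq t ht x, ← Finset.mul_sum, Complex.ofReal_mul, ← wpa_pow hα]
    ring
  rw [e1, integral_add i12 i3, integral_add i1' i2, integral_finsetSum _ fun i _ => i1 i]
  simp_rw [wpa_ibp_c A ht]
  rw [integral_complex_ofReal, integral_const_mul, Finset.sum_neg_distrib]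
  have hD : A.D t = ∑ i, ∫ x, ‖A.dv i t x‖ ^ 2 := by
    unfold ASol.D ASol.dsq
    exact integral_finsetSum _ fun i _ => adm_slice A.gok (adm_normsq (A.dom_dv i)) ht
  rw [hD]
  unfold ASol.F
  push_cast
  ring

/-- the integrated weighted pairing with the space-time weight. -/
theorem wpair_int (A : ASol N α θ γ T) (hα : 0 < α) (hT : 0 < T) (S : STW N T K J) :
    II T (fun t x => S.a t x * (Real.exp (α * γ * t) * ‖A.v t x‖ ^ (α + 2) - A.dsq t x))
      = II T (fun t x => S.a t x * ((starRingEnd ℂ) (A.v t x) *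
            ((starRingEnd ℂ) (ph θ) * A.vt t x - A.R t x)).re)
        - II T (fun t x => ∑ i, S.ddB i t x * ((starRingEnd ℂ) (A.v t x) * A.vt t x).re) := by
  have m1 : ∀ i, Adm T A.G (fun t x => S.da i t x * ((starRingEnd ℂ) (A.v t x)
      * A.dv i t x).re) := fun i => adm_wmul (S.bda i) (adm_re A.G0 A.dom_v (A.dom_dv i))
  have m2 : ∀ i, Adm T A.G (fun t x => S.dda i t x * ‖A.v t x‖ ^ 2) :=
    fun i => adm_wmul (S.bdda i) (adm_normsq A.dom_v)
  have m3 : ∀ i, Adm T A.G (fun t x => S.ddB i t x * ((starRingEnd ℂ) (A.v t x)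
      * A.vt t x).re) := fun i => adm_wmul (S.bddB i) (adm_re A.G0 A.dom_v A.dom_vt)
  have m4 : ∀ i, Adm T A.G (fun t x => S.ddB i t x * ‖A.v t x‖ ^ 2) :=
    fun i => adm_wmul (S.bddB i) (adm_normsq A.dom_v)
  have m5 : Adm T A.G (fun t x => S.a t x * ((starRingEnd ℂ) (A.v t x) *
            ((starRingEnd ℂ) (ph θ) * A.vt t x - A.R t x)).re) :=
    adm_wmul S.ba (adm_re A.G0 A.dom_v (wpa_dom_rhs A))
  have m6 : Adm T A.G (fun t x => ∑ i, S.da i t x * ((starRingEnd ℂ) (A.v t x)
      * A.dv i t x).re) := adm_sum Finset.univ fun i _ => m1 i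
  have h0 : (0:ℝ) ∈ Icc (0:ℝ) T := ⟨le_rfl, hT.le⟩
  have h1 : T ∈ Icc (0:ℝ) T := ⟨hT.le, le_rfl⟩
  -- step 1: slices
  have s1 : II T (fun t x => S.a t x * (Real.exp (α * γ * t) * ‖A.v t x‖ ^ (α + 2) - A.dsq t x))
      = II T (fun t x => S.a t x * ((starRingEnd ℂ) (A.v t x) *
            ((starRingEnd ℂ) (ph θ) * A.vt t x - A.R t x)).re)
        + II T (fun t x => ∑ i, S.da i t x * ((starRingEnd ℂ) (A.v t x) * A.dv i t x).re) := by
    unfold II
    rw [← intervalIntegral.integral_add (adm_ii A.gok m5 h0 h1) (adm_ii A.gok m6 h0 h1)]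
    refine intervalIntegral.integral_congr fun t ht => ?_
    rw [uIcc_of_le hT.le] at ht
    obtain ⟨hac, Ca, hCa, hab⟩ := S.ba
    have hb := fun i => S.bda i
    choose hdc Cd hCd hdb using hb
    set C := max Ca (∑ i, Cd i) with hC
    exact wpair_slice A hα ht (S.a t) (fun i => S.da i t) (wpa_slr hac t)
      (fun i => wpa_slr (hdc i) t) (fun i x => S.hxa i t ht x) (C := C)
      (fun x => (hab t ht x).trans (le_max_left _ _))
      (fun i x => (hdb i t ht x).trans ((Finset.single_le_sum (fun j _ => hCd j)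
        (Finset.mem_univ i)).trans (le_max_right _ _)))
  -- step 2: sum over coordinates
  have s2 : ∀ i, II T (fun t x => S.da i t x * ((starRingEnd ℂ) (A.v t x) * A.dv i t x).re)
      = - II T (fun t x => S.ddB i t x * ((starRingEnd ℂ) (A.v t x) * A.vt t x).re) := by
    intro i
    have t1 : II T (fun t x => S.da i t x * ((starRingEnd ℂ) (A.v t x) * A.dv i t x).re)
        = - (1/2) * II T (fun t x => S.dda i t x * ‖A.v t x‖ ^ 2) := by
      unfold II
      rw [← intervalIntegral.integral_const_mul]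
      refine intervalIntegral.integral_congr fun t ht => ?_
      rw [uIcc_of_le hT.le] at ht
      obtain ⟨hdc, Cd, hCd, hdb⟩ := S.bda i
      obtain ⟨hec, Ce, hCe, heb⟩ := S.bdda i
      set C := max 1 (max Cd Ce) with hC
      have hC1 : (1:ℝ) ≤ C := le_max_left _ _
      have up : ∀ x, A.G x ≤ C * A.G x := fun x => by
        have := A.G0 x; nlinarith
      have h := slice_ibp A.gok (wpa_sl A.cv t) (wpa_sl A.cv t) (wpa_sl (A.cdv i) t)
        (wpa_sl (A.cdv i) t) (wpa_slr hdc t) (wpa_slr hec t) (A.hv i t ht) (A.hv i t ht)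
        (S.hxda i t ht) (C := C)
        (fun x => (A.bv t ht x).trans (up x)) (fun x => (A.bv t ht x).trans (up x))
        (fun x => (A.bdv i t ht x).trans (up x)) (fun x => (A.bdv i t ht x).trans (up x))
        (fun x => (hdb t ht x).trans ((le_max_left _ _).trans (le_max_right _ _)))
        (fun x => (heb t ht x).trans ((le_max_right _ _).trans (le_max_right _ _)))
      simp only [wpa_self, wpa_comm (A.dv i t _)] at h
      simp only
      linarith
    have t2 := adm_ftc A.gok (f := fun t x => S.ddB i t x * ‖A.v t x‖ ^ 2)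
      (f' := fun t x => 2 * (S.ddB i t x * ((starRingEnd ℂ) (A.v t x) * A.vt t x).re)
        - S.dda i t x * ‖A.v t x‖ ^ 2) (m4 i)
      (adm_sub (adm_cmul 2 (m3 i)) (m2 i)) (fun s hs x => by
        have h1 := (A.ht s hs x).norm_sq
        rw [Complex.inner, mul_comm (A.vt s x)] at h1
        have h2 := (S.htddB i s hs x).mul h1
        refine h2.congr_deriv ?_
        ring) h1
    simp only [S.ddB0, S.ddBT, zero_mul, integral_zero, sub_self] at t2
    have t3 := II_sub A.gok hT.le (adm_cmul 2 (m3 i)) (m2 i)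
    rw [II_cmul] at t3
    have t4 : II T (fun t x => 2 * (S.ddB i t x * ((starRingEnd ℂ) (A.v t x) * A.vt t x).re)
        - S.dda i t x * ‖A.v t x‖ ^ 2) = 0 := t2.symm
    rw [t1]
    linarith
  have s3 : ∀ (f : Fin N → ℝ → E N → ℝ), (∀ i, Adm T A.G (f i)) →
      II T (fun t x => ∑ i, f i t x) = ∑ i, II T (f i) := by
    intro f hf
    unfold II
    rw [← intervalIntegral.integral_finsetSum fun i _ => adm_ii A.gok (hf i) h0 h1]
    refine intervalIntegral.integral_congr fun t ht => ?_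
    rw [uIcc_of_le hT.le] at ht
    exact integral_finsetSum _ fun i _ => adm_slice A.gok (hf i) ht
  rw [s1, s3 _ m1, s3 _ m3]
  simp_rw [s2]
  rw [Finset.sum_neg_distrib]
  ring
end CGL
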