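import Pool.Agent.CGL.Wen
import Pool.Agent.CGL.Wpa
/-! ACT: the two weighted inequalities -/
open MeasureTheory Set Filter Topology
namespace CGL
variable {N : ℕ} {α θ γ T : ℝ} {J : E N → ℝ} {K : ℝ}

/-- `a² + Σ |∂_i² B|²`. -/
noncomputable def STW.a2 (S : STW N T K J) (t : ℝ) (x : E N) : ℝ :=
  S.a t x ^ 2 + ∑ i, S.ddB i t x ^ 2

/-- `∫∫ a e`. -/
noncomputable def ASol.IE (A : ASol N α θ γ T) (S : STW N T K J) : ℝ :=
  II T (fun t x => S.a t x * A.ed t x)
/-- `∫∫ a |∇v|²`. -/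
noncomputable def ASol.IX (A : ASol N α θ γ T) (S : STW N T K J) : ℝ :=
  II T (fun t x => S.a t x * A.dsq t x)
/-- `∫∫ a ω |v|^{α+2}`. -/
noncomputable def ASol.IF (A : ASol N α θ γ T) (S : STW N T K J) : ℝ :=
  II T (fun t x => S.a t x * (Real.exp (α * γ * t) * ‖A.v t x‖ ^ (α + 2)))

private theorem actAdmF (A : ASol N α θ γ T) (hα : 0 < α) (S : STW N T K J) :
    Adm T A.G (fun t x => S.a t x * (Real.exp (α * γ * t) * ‖A.v t x‖ ^ (α + 2))) :=
  adm_wmul S.ba (adm_wmul (bdd_time (φ := fun t => Real.exp (α * γ * t)) (by fun_prop))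
    (A.adm_vp hα))

private theorem actAdmX (A : ASol N α θ γ T) (S : STW N T K J) :
    Adm T A.G (fun t x => S.a t x * A.dsq t x) := adm_wmul S.ba A.adm_dsq

theorem IE_eq (A : ASol N α θ γ T) (hα : 0 < α) (hT : 0 < T) (S : STW N T K J) :
    2 * A.IE S = A.IX S - 2 / (α + 2) * A.IF S := by
  have h1 : 2 * A.IE S = II T (fun t x => 2 * (S.a t x * A.ed t x)) := by
    rw [II_cmul]; rfl
  have h2 : 2 / (α + 2) * A.IF S = II T (fun t x => 2 / (α + 2) *
      (S.a t x * (Real.exp (α * γ * t) * ‖A.v t x‖ ^ (α + 2)))) := by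
    rw [II_cmul]; rfl
  rw [h1, h2]
  unfold ASol.IX
  rw [← II_sub A.gok hT.le (actAdmX A S) (adm_cmul _ (actAdmF A hα S))]
  refine II_congr hT.le fun t _ x => ?_
  unfold ASol.ed
  have h3 : α + 2 ≠ 0 := by positivity
  field_simp
  try ring

theorem act1 (N : ℕ) (K : ℝ) (hK : 0 < K) : ∃ C : ℝ, 0 < C ∧
    ∀ (α θ γ T : ℝ) (J : E N → ℝ), 0 < α → 0 < Real.cos θ → 0 ≤ γ → 0 < T →
    ∀ (A : ASol N α θ γ T) (S : STW N T K J) (ε : ℝ), 0 < ε → ε ≤ 1 →
      A.IE S ≤ A.En 0 + ε * A.IX S + (C / ε) * (A.Kap T + A.Rho T) := by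
  refine ⟨1 / 2 + N * K / 4, by positivity, ?_⟩
  intro α θ γ T J hα hc hγ hT A S ε hε hε1
  have hTm : T ∈ Icc (0:ℝ) T := ⟨hT.le, le_refl _⟩
  have h0m : (0:ℝ) ∈ Icc (0:ℝ) T := ⟨le_refl _, hT.le⟩
  have key := wenergy_int A hα S.B (fun t x => -(S.a t x)) S.dB S.bB
    (by
      have := bdd_mul (T := T) (bdd_const (N := N) (-1)) S.ba
      simpa using this)
    S.bdB S.htB S.hxB hTm
  have e1 : (∫ x, S.B T x * A.ed T x) = 0 := by simp [S.BT]
  have e2 : (∫ x, S.B 0 x * A.ed 0 x) = A.En 0 := by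
    rw [← int_ed A hα h0m]; simp [S.B0]
  have e3 : (∫ t in (0:ℝ)..T, ∫ x, -(S.a t x) * A.ed t x) = -(A.IE S) := by
    have : (fun t => ∫ x, -(S.a t x) * A.ed t x) = fun t => -(∫ x, S.a t x * A.ed t x) := by
      funext t; rw [← integral_neg]; congr 1; funext x; ring
    rw [this, intervalIntegral.integral_neg]; rfl
  rw [e1, e2, e3] at key
  have hd : (∫ t in (0:ℝ)..T, ∫ x, A.diss S.B S.dB t x) = II T (A.diss S.B S.dB) := rfl
  rw [hd] at key
  have hIE : A.IE S = A.En 0 + II T (A.diss S.B S.dB) := by linarith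
  rw [hIE]
  have admX := actAdmX A S
  have admV := adm_normsq A.dom_vt
  have admR := adm_normsq A.dom_R
  set C : ℝ := 1 / 2 + N * K / 4 with hC
  have hup : II T (A.diss S.B S.dB) ≤ II T (fun t x => ε * (S.a t x * A.dsq t x) +
      (C / ε) * (‖A.vt t x‖ ^ 2 + ‖A.R t x‖ ^ 2)) := by
    refine II_mono A.gok hT.le (adm_diss A hα _ _ S.bB S.bdB)
      (adm_add (adm_cmul _ admX) (adm_cmul _ (adm_add admV admR))) ?_
    intro t ht x
    unfold ASol.diss
    have hB0 := S.B_nonneg t ht x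
    have hB1 := S.B_le_one t ht x
    have p1 : 0 ≤ Real.cos θ * (S.B t x * ‖A.vt t x‖ ^ 2) := by positivity
    have p2 : 0 ≤ (α * γ * Real.exp (α * γ * t) / (α + 2)) * (S.B t x * ‖A.v t x‖ ^ (α + 2)) := by
      positivity
    have p3 : S.B t x * ((starRingEnd ℂ) (A.R t x) * A.vt t x).re
        ≤ 1 / 2 * (‖A.vt t x‖ ^ 2 + ‖A.R t x‖ ^ 2) := by
      have q1 : ((starRingEnd ℂ) (A.R t x) * A.vt t x).re ≤ ‖A.R t x‖ * ‖A.vt t x‖ := by
        refine (Complex.re_le_norm _).trans ?_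
        rw [norm_mul, RCLike.norm_conj]
      have q2 : S.B t x * ((starRingEnd ℂ) (A.R t x) * A.vt t x).re
          ≤ S.B t x * (‖A.R t x‖ * ‖A.vt t x‖) := mul_le_mul_of_nonneg_left q1 hB0
      have q3 : S.B t x * (‖A.R t x‖ * ‖A.vt t x‖) ≤ 1 * (‖A.R t x‖ * ‖A.vt t x‖) :=
        mul_le_mul_of_nonneg_right hB1 (by positivity)
      nlinarith [sq_nonneg (‖A.R t x‖ - ‖A.vt t x‖)]
    have p4 : -(∑ i, S.dB i t x * ((starRingEnd ℂ) (A.dv i t x) * A.vt t x).re)
        ≤ ε * (S.a t x * A.dsq t x) + N * (K / (4 * ε) * ‖A.vt t x‖ ^ 2) := by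
      have : ∀ i, -(S.dB i t x * ((starRingEnd ℂ) (A.dv i t x) * A.vt t x).re)
          ≤ ε * S.a t x * ‖A.dv i t x‖ ^ 2 + K / (4 * ε) * ‖A.vt t x‖ ^ 2 := by
        intro i
        have q1 : |((starRingEnd ℂ) (A.dv i t x) * A.vt t x).re| ≤ ‖A.dv i t x‖ * ‖A.vt t x‖ := by
          refine (Complex.abs_re_le_norm _).trans ?_
          rw [norm_mul, RCLike.norm_conj]
        have q2 : -(S.dB i t x * ((starRingEnd ℂ) (A.dv i t x) * A.vt t x).re)
            ≤ |S.dB i t x| * (‖A.dv i t x‖ * ‖A.vt t x‖) := by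
          refine (neg_le_abs _).trans ?_
          rw [abs_mul]
          exact mul_le_mul_of_nonneg_left q1 (abs_nonneg _)
        have q3 := S.dB_sq i t ht x
        have q4 : |S.dB i t x| * (‖A.dv i t x‖ * ‖A.vt t x‖)
            ≤ (ε / K) * (S.dB i t x ^ 2 * ‖A.dv i t x‖ ^ 2) + K / (4 * ε) * ‖A.vt t x‖ ^ 2 := by
          have hs : 0 ≤ (ε / K) * (|S.dB i t x| * ‖A.dv i t x‖ - K / (2 * ε) * ‖A.vt t x‖) ^ 2 := by
            positivity
          have hsq : |S.dB i t x| ^ 2 = S.dB i t x ^ 2 := sq_abs _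
          have he : (ε / K) * (|S.dB i t x| * ‖A.dv i t x‖ - K / (2 * ε) * ‖A.vt t x‖) ^ 2
              = (ε / K) * (|S.dB i t x| ^ 2 * ‖A.dv i t x‖ ^ 2) + K / (4 * ε) * ‖A.vt t x‖ ^ 2
                - |S.dB i t x| * (‖A.dv i t x‖ * ‖A.vt t x‖) := by
            field_simp
            ring
          rw [he, hsq] at hs
          linarith
        have q5 : (ε / K) * (S.dB i t x ^ 2 * ‖A.dv i t x‖ ^ 2)
            ≤ ε * S.a t x * ‖A.dv i t x‖ ^ 2 := by
          have : (ε / K) * (S.dB i t x ^ 2 * ‖A.dv i t x‖ ^ 2)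
              ≤ (ε / K) * (K * S.a t x * ‖A.dv i t x‖ ^ 2) := by
            apply mul_le_mul_of_nonneg_left _ (by positivity)
            exact mul_le_mul_of_nonneg_right q3 (by positivity)
          refine this.trans (le_of_eq ?_)
          field_simp
        linarith
      have hsum := Finset.sum_le_sum (s := Finset.univ) fun i _ => this i
      rw [Finset.sum_neg_distrib, Finset.sum_add_distrib, ← Finset.mul_sum] at hsum
      simp only [Finset.sum_const, Finset.card_univ, Fintype.card_fin, nsmul_eq_mul] at hsum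
      unfold ASol.dsq
      linarith
    have p5 : 1 / 2 * (‖A.vt t x‖ ^ 2 + ‖A.R t x‖ ^ 2) + N * (K / (4 * ε) * ‖A.vt t x‖ ^ 2)
        ≤ (C / ε) * (‖A.vt t x‖ ^ 2 + ‖A.R t x‖ ^ 2) := by
      have r1 : (1:ℝ) / 2 ≤ 1 / 2 / ε := by
        rw [le_div_iff₀ hε]; nlinarith
      have r2 : C / ε = 1 / 2 / ε + N * (K / (4 * ε)) := by
        rw [hC]; field_simp; try ring
      rw [r2, add_mul]
      have r3 : N * (K / (4 * ε) * ‖A.vt t x‖ ^ 2)
          ≤ N * (K / (4 * ε)) * (‖A.vt t x‖ ^ 2 + ‖A.R t x‖ ^ 2) := by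
        have : (0:ℝ) ≤ N * (K / (4 * ε)) * ‖A.R t x‖ ^ 2 := by positivity
        linarith
      have r4 := mul_le_mul_of_nonneg_right r1
        (by positivity : (0:ℝ) ≤ ‖A.vt t x‖ ^ 2 + ‖A.R t x‖ ^ 2)
      linarith
    linarith
  have hsplit : II T (fun t x => ε * (S.a t x * A.dsq t x) +
      (C / ε) * (‖A.vt t x‖ ^ 2 + ‖A.R t x‖ ^ 2))
      = ε * A.IX S + (C / ε) * (A.Kap T + A.Rho T) := by
    rw [II_add A.gok hT.le (adm_cmul _ admX) (adm_cmul _ (adm_add admV admR)), II_cmul, II_cmul,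
      II_add A.gok hT.le admV admR]
    rfl
  linarith

private theorem actBddSum {ι : Type*} (s : Finset ι) {f : ι → ℝ → E N → ℝ}
    (hf : ∀ i ∈ s, Bdd T (f i)) : Bdd T (fun t x => ∑ i ∈ s, f i t x) := by
  classical
  induction s using Finset.induction_on with
  | empty => simpa using bdd_const (N := N) (T := T) 0
  | insert a s ha ih =>
    simp only [Finset.sum_insert ha]
    exact bdd_add (hf a (Finset.mem_insert_self a s))
      (ih fun i hi => hf i (Finset.mem_insert_of_mem hi))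

theorem act2 (N : ℕ) (K : ℝ) (hK : 0 < K) : ∃ C : ℝ, 0 < C ∧
    ∀ (α θ γ T : ℝ) (J : E N → ℝ), 0 < α → 0 < Real.cos θ → 0 ≤ γ → 0 < T →
    ∀ (A : ASol N α θ γ T) (S : STW N T K J) (ε : ℝ), 0 < ε → ε ≤ 1 →
      α / (α + 2) * A.IF S ≤ 2 * A.IE S + ε * II T (fun t x => S.a2 t x * ‖A.v t x‖ ^ 2)
        + (C / ε) * (A.Kap T + A.Rho T) := by
  refine ⟨1 / 2 + N / 4, by positivity, ?_⟩
  intro α θ γ T J hα hc hγ hT A S ε hε hε1
  have key := wpair_int A hα hT S
  have hIE := IE_eq A hα hT S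
  have admX := actAdmX A S
  have admF := actAdmF A hα S
  have admV := adm_normsq A.dom_vt
  have admR := adm_normsq A.dom_R
  have hph : ‖ph θ‖ = 1 := by
    unfold ph; exact Complex.norm_exp_ofReal_mul_I θ
  have k1 : II T (fun t x => S.a t x * (Real.exp (α * γ * t) * ‖A.v t x‖ ^ (α + 2) - A.dsq t x))
      = A.IF S - A.IX S := by
    unfold ASol.IF ASol.IX
    rw [← II_sub A.gok hT.le admF admX]
    refine II_congr hT.le fun t _ x => ?_
    ring
  rw [k1] at key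
  have domc : Dom T A.G (fun t x => (starRingEnd ℂ) (ph θ) * A.vt t x - A.R t x) := by
    obtain ⟨c1, C1, hC1, b1⟩ := A.dom_vt
    obtain ⟨c2, C2, hC2, b2⟩ := A.dom_R
    refine ⟨?_, C1 + C2, by positivity, ?_⟩
    · exact (continuous_const.mul c1).sub c2
    · intro t ht x
      refine (norm_sub_le _ _).trans ?_
      rw [norm_mul, RCLike.norm_conj, hph, one_mul, add_mul]
      exact add_le_add (b1 t ht x) (b2 t ht x)
  have adm1 : Adm T A.G (fun t x => S.a t x * ((starRingEnd ℂ) (A.v t x) *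
            ((starRingEnd ℂ) (ph θ) * A.vt t x - A.R t x)).re) :=
    adm_wmul S.ba (adm_re A.G0 A.dom_v domc)
  have adm2 : Adm T A.G (fun t x => ∑ i, S.ddB i t x *
      ((starRingEnd ℂ) (A.v t x) * A.vt t x).re) :=
    adm_sum _ fun i _ => adm_wmul (S.bddB i) (adm_re A.G0 A.dom_v A.dom_vt)
  rw [← II_sub A.gok hT.le adm1 adm2] at key
  have bdda2 : Bdd T S.a2 := by
    unfold STW.a2
    refine bdd_add ?_ ?_
    · have := bdd_mul S.ba S.ba
      simpa [pow_two] using this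
    · refine actBddSum _ fun i _ => ?_
      have := bdd_mul (S.bddB i) (S.bddB i)
      simpa [pow_two] using this
  have adma2 : Adm T A.G (fun t x => S.a2 t x * ‖A.v t x‖ ^ 2) :=
    adm_wmul bdda2 (adm_normsq A.dom_v)
  set C : ℝ := 1 / 2 + N / 4 with hC
  have hup : II T (fun t x => S.a t x * ((starRingEnd ℂ) (A.v t x) *
            ((starRingEnd ℂ) (ph θ) * A.vt t x - A.R t x)).re
        - ∑ i, S.ddB i t x * ((starRingEnd ℂ) (A.v t x) * A.vt t x).re)
      ≤ II T (fun t x => ε * (S.a2 t x * ‖A.v t x‖ ^ 2)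
        + (C / ε) * (‖A.vt t x‖ ^ 2 + ‖A.R t x‖ ^ 2)) := by
    refine II_mono A.gok hT.le (adm_sub adm1 adm2)
      (adm_add (adm_cmul _ adma2) (adm_cmul _ (adm_add admV admR))) ?_
    intro t ht x
    have ha := S.a_nonneg t ht x
    have young : ∀ p q : ℝ, p * q ≤ ε / 2 * p ^ 2 + 1 / (2 * ε) * q ^ 2 := by
      intro p q
      have hs : 0 ≤ (ε / 2) * (p - q / ε) ^ 2 := by positivity
      have he : (ε / 2) * (p - q / ε) ^ 2 = ε / 2 * p ^ 2 + 1 / (2 * ε) * q ^ 2 - p * q := by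
        field_simp
        ring
      linarith
    have young2 : ∀ p q : ℝ, p * q ≤ ε * p ^ 2 + 1 / (4 * ε) * q ^ 2 := by
      intro p q
      have hs : 0 ≤ ε * (p - q / (2 * ε)) ^ 2 := by positivity
      have he : ε * (p - q / (2 * ε)) ^ 2 = ε * p ^ 2 + 1 / (4 * ε) * q ^ 2 - p * q := by
        field_simp
        ring
      linarith
    have p1 : S.a t x * ((starRingEnd ℂ) (A.v t x) *
            ((starRingEnd ℂ) (ph θ) * A.vt t x - A.R t x)).re
        ≤ ε * (S.a t x ^ 2 * ‖A.v t x‖ ^ 2) + 1 / (2 * ε) * (‖A.vt t x‖ ^ 2 + ‖A.R t x‖ ^ 2) := by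
      have q1 : ((starRingEnd ℂ) (A.v t x) *
            ((starRingEnd ℂ) (ph θ) * A.vt t x - A.R t x)).re
          ≤ ‖A.v t x‖ * (‖A.vt t x‖ + ‖A.R t x‖) := by
        refine (Complex.re_le_norm _).trans ?_
        rw [norm_mul, RCLike.norm_conj]
        refine mul_le_mul_of_nonneg_left ?_ (norm_nonneg _)
        refine (norm_sub_le _ _).trans ?_
        rw [norm_mul, RCLike.norm_conj, hph, one_mul]
      have q2 := mul_le_mul_of_nonneg_left q1 ha
      have q3 := young (S.a t x * ‖A.v t x‖) ‖A.vt t x‖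
      have q4 := young (S.a t x * ‖A.v t x‖) ‖A.R t x‖
      have q5 : (S.a t x * ‖A.v t x‖) ^ 2 = S.a t x ^ 2 * ‖A.v t x‖ ^ 2 := by ring
      rw [q5] at q3 q4
      nlinarith
    have p2 : -(∑ i, S.ddB i t x * ((starRingEnd ℂ) (A.v t x) * A.vt t x).re)
        ≤ ε * ((∑ i, S.ddB i t x ^ 2) * ‖A.v t x‖ ^ 2)
          + N * (1 / (4 * ε) * ‖A.vt t x‖ ^ 2) := by
      have : ∀ i, -(S.ddB i t x * ((starRingEnd ℂ) (A.v t x) * A.vt t x).re)
          ≤ ε * (S.ddB i t x ^ 2 * ‖A.v t x‖ ^ 2) + 1 / (4 * ε) * ‖A.vt t x‖ ^ 2 := by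
        intro i
        have q1 : |((starRingEnd ℂ) (A.v t x) * A.vt t x).re| ≤ ‖A.v t x‖ * ‖A.vt t x‖ := by
          refine (Complex.abs_re_le_norm _).trans ?_
          rw [norm_mul, RCLike.norm_conj]
        have q2 : -(S.ddB i t x * ((starRingEnd ℂ) (A.v t x) * A.vt t x).re)
            ≤ |S.ddB i t x| * (‖A.v t x‖ * ‖A.vt t x‖) := by
          refine (neg_le_abs _).trans ?_
          rw [abs_mul]
          exact mul_le_mul_of_nonneg_left q1 (abs_nonneg _)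
        have q3 := young2 (|S.ddB i t x| * ‖A.v t x‖) ‖A.vt t x‖
        have q5 : (|S.ddB i t x| * ‖A.v t x‖) ^ 2 = S.ddB i t x ^ 2 * ‖A.v t x‖ ^ 2 := by
          rw [mul_pow, sq_abs]
        rw [q5] at q3
        linarith
      have hsum := Finset.sum_le_sum (s := Finset.univ) fun i _ => this i
      rw [Finset.sum_neg_distrib, Finset.sum_add_distrib, ← Finset.mul_sum] at hsum
      simp only [Finset.sum_const, Finset.card_univ, Fintype.card_fin, nsmul_eq_mul] at hsum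
      rw [Finset.sum_mul]
      linarith
    have p5 : 1 / (2 * ε) * (‖A.vt t x‖ ^ 2 + ‖A.R t x‖ ^ 2)
          + N * (1 / (4 * ε) * ‖A.vt t x‖ ^ 2)
        ≤ (C / ε) * (‖A.vt t x‖ ^ 2 + ‖A.R t x‖ ^ 2) := by
      have r2 : C / ε = 1 / (2 * ε) + N * (1 / (4 * ε)) := by
        rw [hC]; field_simp; try ring
      rw [r2, add_mul]
      have : (0:ℝ) ≤ N * (1 / (4 * ε)) * ‖A.R t x‖ ^ 2 := by positivity
      linarith
    have p6 : S.a2 t x * ‖A.v t x‖ ^ 2 = S.a t x ^ 2 * ‖A.v t x‖ ^ 2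
        + (∑ i, S.ddB i t x ^ 2) * ‖A.v t x‖ ^ 2 := by
      unfold STW.a2; ring
    rw [p6, mul_add]
    linarith
  have hsplit : II T (fun t x => ε * (S.a2 t x * ‖A.v t x‖ ^ 2) +
      (C / ε) * (‖A.vt t x‖ ^ 2 + ‖A.R t x‖ ^ 2))
      = ε * II T (fun t x => S.a2 t x * ‖A.v t x‖ ^ 2) + (C / ε) * (A.Kap T + A.Rho T) := by
    rw [II_add A.gok hT.le (adm_cmul _ adma2) (adm_cmul _ (adm_add admV admR)), II_cmul, II_cmul,
      II_add A.gok hT.le admV admR]
    rfl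
  have hfin : α / (α + 2) * A.IF S = A.IF S - 2 / (α + 2) * A.IF S := by
    have : α + 2 ≠ 0 := by positivity
    field_simp
    ring
  rw [hfin]
  linarith
end CGL
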