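import Pool.Agent.CGL.Defs
/-! BW: the space-time weight `B(t,x) = (1 - t J(x))_+^4` -/
open MeasureTheory Set Filter Topology
namespace CGL

private theorem bw_m2 (x : ℝ) : HasDerivAt (fun y : ℝ => max y 0 ^ 2) (2 * max x 0) x := by
  rcases lt_trichotomy x 0 with hx | hx | hx
  · have h : (fun y : ℝ => max y 0 ^ 2) =ᶠ[𝓝 x] fun _ => 0 := by
      filter_upwards [Iio_mem_nhds hx] with y hy
      rw [max_eq_right (le_of_lt hy)]; ring
    rw [max_eq_right hx.le, mul_zero]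
    exact (hasDerivAt_const x (0:ℝ)).congr_of_eventuallyEq h
  · subst hx
    rw [max_self, mul_zero, hasDerivAt_iff_isLittleO_nhds_zero]
    have h2 : (fun h : ℝ => h ^ 2) =o[𝓝 0] fun h => h := Asymptotics.isLittleO_pow_id (by norm_num)
    refine Asymptotics.IsBigO.trans_isLittleO ?_ h2
    refine Asymptotics.IsBigO.of_bound 1 (Eventually.of_forall fun h => ?_)
    have e : max (0 + h) 0 ^ 2 - max (0:ℝ) 0 ^ 2 - h • (0:ℝ) = max h 0 ^ 2 := by
      rw [zero_add, max_self]; simp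
    rw [e, one_mul, Real.norm_eq_abs, Real.norm_eq_abs, abs_of_nonneg (by positivity),
      abs_of_nonneg (by positivity)]
    rcases le_total h 0 with h0 | h0
    · rw [max_eq_right h0]; nlinarith [sq_nonneg h]
    · rw [max_eq_left h0]
  · have h : (fun y : ℝ => max y 0 ^ 2) =ᶠ[𝓝 x] fun y => y ^ 2 := by
      filter_upwards [Ioi_mem_nhds hx] with y hy
      rw [max_eq_left (le_of_lt hy)]
    rw [max_eq_left hx.le]
    have h2 := hasDerivAt_pow 2 x
    norm_num at h2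
    exact h2.congr_of_eventuallyEq h

private theorem bw_mm (x : ℝ) : x * max x 0 = max x 0 ^ 2 := by
  rcases le_total x 0 with h | h
  · rw [max_eq_right h]; ring
  · rw [max_eq_left h]; ring

private theorem bw_m3 (x : ℝ) : HasDerivAt (fun y : ℝ => max y 0 ^ 3) (3 * max x 0 ^ 2) x := by
  have h := (hasDerivAt_id x).mul (bw_m2 x)
  have e : (fun y : ℝ => max y 0 ^ 3) = fun y => id y * max y 0 ^ 2 := by
    funext y
    have := bw_mm y
    simp only [id]
    rw [show y * max y 0 ^ 2 = (y * max y 0) * max y 0 by ring, this]; ring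
  rw [e]
  refine h.congr_deriv ?_
  have := bw_mm x
  simp only [id]
  rw [show x * (2 * max x 0) = 2 * (x * max x 0) by ring, this]; ring

private theorem bw_m4 (x : ℝ) : HasDerivAt (fun y : ℝ => max y 0 ^ 4) (4 * max x 0 ^ 3) x := by
  have h := (bw_m2 x).mul (bw_m2 x)
  have e : (fun y : ℝ => max y 0 ^ 4) = fun y => max y 0 ^ 2 * max y 0 ^ 2 := by
    funext y; ring
  rw [e]
  refine h.congr_deriv ?_
  ring

private theorem bw_c2 {u : ℝ → ℝ} {u' s : ℝ} (h : HasDerivAt u u' s) :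
    HasDerivAt (fun y => max (u y) 0 ^ 2) (2 * max (u s) 0 * u') s := (bw_m2 (u s)).comp s h

private theorem bw_c3 {u : ℝ → ℝ} {u' s : ℝ} (h : HasDerivAt u u' s) :
    HasDerivAt (fun y => max (u y) 0 ^ 3) (3 * max (u s) 0 ^ 2 * u') s := (bw_m3 (u s)).comp s h

private theorem bw_c4 {u : ℝ → ℝ} {u' s : ℝ} (h : HasDerivAt u u' s) :
    HasDerivAt (fun y => max (u y) 0 ^ 4) (4 * max (u s) 0 ^ 3 * u') s := (bw_m4 (u s)).comp s h

section bdd
variable {N : ℕ} {T : ℝ}

private theorem bw_mul {f g : ℝ → E N → ℝ} (hf : Bdd T f) (hg : Bdd T g) :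
    Bdd T (fun t x => f t x * g t x) := by
  obtain ⟨cf, C, hC, hfC⟩ := hf
  obtain ⟨cg, D, hD, hgD⟩ := hg
  refine ⟨cf.mul cg, C * D, mul_nonneg hC hD, fun t ht x => ?_⟩
  rw [abs_mul]
  exact mul_le_mul (hfC t ht x) (hgD t ht x) (abs_nonneg _) hC

private theorem bw_add {f g : ℝ → E N → ℝ} (hf : Bdd T f) (hg : Bdd T g) :
    Bdd T (fun t x => f t x + g t x) := by
  obtain ⟨cf, C, hC, hfC⟩ := hf
  obtain ⟨cg, D, hD, hgD⟩ := hg
  refine ⟨cf.add cg, C + D, add_nonneg hC hD, fun t ht x => ?_⟩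
  exact (abs_add_le _ _).trans (add_le_add (hfC t ht x) (hgD t ht x))

private theorem bw_neg {f : ℝ → E N → ℝ} (hf : Bdd T f) :
    Bdd T (fun t x => -f t x) := by
  obtain ⟨cf, C, hC, hfC⟩ := hf
  refine ⟨cf.neg, C, hC, fun t ht x => ?_⟩
  rw [abs_neg]
  exact hfC t ht x

private theorem bw_sub {f g : ℝ → E N → ℝ} (hf : Bdd T f) (hg : Bdd T g) :
    Bdd T (fun t x => f t x - g t x) := by
  simp only [sub_eq_add_neg]
  exact bw_add hf (bw_neg hg)

private theorem bw_const (c : ℝ) : Bdd (N := N) T (fun _ _ => c) :=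
  ⟨continuous_const, |c|, abs_nonneg _, fun _ _ _ => le_rfl⟩

private theorem bw_t : Bdd (N := N) T (fun t _ => t) := by
  refine ⟨continuous_fst, |T|, abs_nonneg _, fun t ht _ => ?_⟩
  rw [abs_of_nonneg ht.1, abs_of_nonneg (ht.1.trans ht.2)]
  exact ht.2

private theorem bw_x {f : E N → ℝ} (hf : Continuous f) (hb : ∃ C, ∀ x, |f x| ≤ C) :
    Bdd T (fun _ x => f x) := by
  obtain ⟨C, hC⟩ := hb
  refine ⟨hf.comp continuous_snd, max C 0, le_max_right _ _, fun t _ x => ?_⟩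
  exact (hC x).trans (le_max_left _ _)

private theorem bw_pow {f : ℝ → E N → ℝ} (hf : Bdd T f) (n : ℕ) :
    Bdd T (fun t x => f t x ^ n) := by
  induction n with
  | zero => simp only [pow_zero]; exact bw_const 1
  | succ n ih => simp only [pow_succ]; exact bw_mul ih hf

end bdd

theorem exists_stw (N : ℕ) (C : ℝ) (hC : 0 < C) : ∃ K : ℝ, 0 < K ∧
    ∀ (R T : ℝ) (W : Wt N C R), 0 < R → C * R ^ 2 ≤ T → Nonempty (STW N T K W.J) := by
  refine ⟨16 * C + 16, by linarith, fun R T W hR hT => ?_⟩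
  have hJ0 : ∀ x, 0 < W.J x := fun x => lt_of_lt_of_le (by positivity) (W.lower x)
  have hT0 : 0 < T := lt_of_lt_of_le (by positivity) hT
  have hTJ : ∀ x, 1 ≤ T * W.J x := by
    intro x
    have h1 := W.lower x
    have h2 : (0:ℝ) < C * R ^ 2 := by positivity
    have h3 : 1 = (C * R ^ 2) * (1 / (C * R ^ 2)) := by field_simp
    calc (1:ℝ) = (C * R ^ 2) * (1 / (C * R ^ 2)) := h3
      _ ≤ T * W.J x := mul_le_mul hT h1 (by positivity) hT0.le
  -- bounded pieces
  obtain ⟨b, hb⟩ := W.upper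
  have hb0 : ∀ x, 0 ≤ b := fun x => (hJ0 x).le.trans (hb x)
  have bJ : Bdd T (fun _ x => W.J x) := bw_x W.cJ ⟨b, fun x => by
    rw [abs_of_pos (hJ0 x)]; exact hb x⟩
  have bdJ : ∀ i, Bdd T (fun _ x => W.dJ i x) := fun i => bw_x (W.cdJ i)
    ⟨Real.sqrt (C * b ^ 3), fun x => by
      apply Real.abs_le_sqrt
      refine (W.bdJ i x).trans ?_
      exact mul_le_mul_of_nonneg_left (pow_le_pow_left₀ (hJ0 x).le (hb x) 3) hC.le⟩
  have bddJ : ∀ i, Bdd T (fun _ x => W.ddJ i x) := fun i => bw_x (W.cddJ i)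
    ⟨C * b ^ 2, fun x => (W.bddJ i x).trans
      (mul_le_mul_of_nonneg_left (pow_le_pow_left₀ (hJ0 x).le (hb x) 2) hC.le)⟩
  have bm : Bdd T (fun t x => max (1 - t * W.J x) 0) := by
    refine ⟨?_, 1, zero_le_one, fun t ht x => ?_⟩
    · exact (continuous_const.sub (continuous_fst.mul (W.cJ.comp continuous_snd))).max
        continuous_const
    · have h0 : 0 ≤ t * W.J x := mul_nonneg ht.1 (hJ0 x).le
      rw [abs_of_nonneg (le_max_right _ _)]
      exact max_le (by linarith) zero_le_one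
  have hm1 : ∀ t ∈ Icc (0:ℝ) T, ∀ x, 0 ≤ max (1 - t * W.J x) 0 ∧ max (1 - t * W.J x) 0 ≤ 1 := by
    intro t ht x
    have h0 : 0 ≤ t * W.J x := mul_nonneg ht.1 (hJ0 x).le
    exact ⟨le_max_right _ _, max_le (by linarith) zero_le_one⟩
  have hms : ∀ t x, 1 ≤ t * W.J x → max (1 - t * W.J x) 0 = 0 := by
    intro t x h
    exact max_eq_right (by linarith)
  -- `s m ≤ 1`
  have hsm : ∀ t ∈ Icc (0:ℝ) T, ∀ x, (t * W.J x) * max (1 - t * W.J x) 0 ≤ 1 := by
    intro t ht x
    have h0 : 0 ≤ t * W.J x := mul_nonneg ht.1 (hJ0 x).le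
    rcases le_total 1 (t * W.J x) with h | h
    · rw [hms t x h, mul_zero]; exact zero_le_one
    · have := hm1 t ht x
      nlinarith
  have hut : ∀ t x, HasDerivAt (fun s => 1 - s * W.J x) (-(W.J x)) t := by
    intro t x
    have := ((hasDerivAt_id t).mul_const (W.J x)).const_sub 1
    simpa using this
  have hux : ∀ i t x, HasDerivAt (fun s : ℝ => 1 - t * W.J (x + s • ev i)) (-(t * W.dJ i x)) 0 := by
    intro i t x
    have h := W.hJ i x
    unfold HasLineDerivAt at h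
    exact (h.const_mul t).const_sub 1
  refine ⟨{
    B := fun t x => max (1 - t * W.J x) 0 ^ 4
    a := fun t x => 4 * W.J x * max (1 - t * W.J x) 0 ^ 3
    dB := fun i t x => -(4 * t * W.dJ i x * max (1 - t * W.J x) 0 ^ 3)
    da := fun i t x => 4 * W.dJ i x * max (1 - t * W.J x) 0 ^ 3 -
      12 * t * W.J x * W.dJ i x * max (1 - t * W.J x) 0 ^ 2
    ddB := fun i t x => -(4 * t * W.ddJ i x * max (1 - t * W.J x) 0 ^ 3) +
      12 * t ^ 2 * W.dJ i x ^ 2 * max (1 - t * W.J x) 0 ^ 2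
    dda := fun i t x => 4 * W.ddJ i x * max (1 - t * W.J x) 0 ^ 3 -
      12 * t * W.J x * W.ddJ i x * max (1 - t * W.J x) 0 ^ 2 -
      24 * t * W.dJ i x ^ 2 * max (1 - t * W.J x) 0 ^ 2 +
      24 * t ^ 2 * W.J x * W.dJ i x ^ 2 * max (1 - t * W.J x) 0
    bB := bw_pow bm 4
    ba := bw_mul (bw_mul (bw_const 4) bJ) (bw_pow bm 3)
    bdB := fun i => bw_neg (bw_mul (bw_mul (bw_mul (bw_const 4) bw_t) (bdJ i)) (bw_pow bm 3))
    bda := fun i => bw_sub (bw_mul (bw_mul (bw_const 4) (bdJ i)) (bw_pow bm 3))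
      (bw_mul (bw_mul (bw_mul (bw_mul (bw_const 12) bw_t) bJ) (bdJ i)) (bw_pow bm 2))
    bddB := fun i => bw_add
      (bw_neg (bw_mul (bw_mul (bw_mul (bw_const 4) bw_t) (bddJ i)) (bw_pow bm 3)))
      (bw_mul (bw_mul (bw_mul (bw_const 12) (bw_pow bw_t 2)) (bw_pow (bdJ i) 2)) (bw_pow bm 2))
    bdda := fun i => bw_add (bw_sub (bw_sub
      (bw_mul (bw_mul (bw_const 4) (bddJ i)) (bw_pow bm 3))
      (bw_mul (bw_mul (bw_mul (bw_mul (bw_const 12) bw_t) bJ) (bddJ i)) (bw_pow bm 2)))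
      (bw_mul (bw_mul (bw_mul (bw_const 24) bw_t) (bw_pow (bdJ i) 2)) (bw_pow bm 2)))
      (bw_mul (bw_mul (bw_mul (bw_mul (bw_const 24) (bw_pow bw_t 2)) bJ) (bw_pow (bdJ i) 2)) bm)
    B0 := ?_
    BT := ?_
    ddB0 := ?_
    ddBT := ?_
    B_nonneg := ?_
    B_le_one := ?_
    a_nonneg := ?_
    htB := ?_
    htddB := ?_
    hxB := ?_
    hxa := ?_
    hxda := ?_
    dB_sq := ?_
    a_le := ?_
    ddB_le := ?_
    a_supp := ?_
    ddB_supp := ?_ }⟩
  · intro x; simp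
  · intro x; beta_reduce; rw [hms T x (hTJ x)]; norm_num
  · intro i x; simp
  · intro i x; beta_reduce; rw [hms T x (hTJ x)]; norm_num
  · intro t ht x; exact pow_nonneg (hm1 t ht x).1 4
  · intro t ht x; exact pow_le_one₀ (hm1 t ht x).1 (hm1 t ht x).2
  · intro t ht x
    exact mul_nonneg (mul_nonneg (by norm_num) (hJ0 x).le) (pow_nonneg (hm1 t ht x).1 3)
  · intro t _ x
    refine (bw_c4 (hut t x)).congr_deriv ?_
    ring
  · intro i t _ x
    have h3 := bw_c3 (hut t x)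
    have h2 := bw_c2 (hut t x)
    have hid := hasDerivAt_id t
    have e1 := (((hid.const_mul 4).mul_const (W.ddJ i x)).mul h3).neg
    have e2 := (((hid.pow 2).const_mul 12).mul_const (W.dJ i x ^ 2)).mul h2
    have e := e1.add e2
    refine HasDerivAt.congr_deriv (f := fun s => -(4 * s * W.ddJ i x * max (1 - s * W.J x) 0 ^ 3) +
        12 * s ^ 2 * W.dJ i x ^ 2 * max (1 - s * W.J x) 0 ^ 2) e ?_
    simp only [id, Pi.pow_apply, Pi.mul_apply]
    push_cast
    ring
  · intro i t _ x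
    have h := bw_c4 (hux i t x)
    unfold HasLineDerivAt
    refine h.congr_deriv ?_
    simp only [zero_smul, add_zero]
    ring
  · intro i t _ x
    have h := bw_c3 (hux i t x)
    have hJ := W.hJ i x
    unfold HasLineDerivAt at hJ ⊢
    refine ((hJ.const_mul 4).mul h).congr_deriv ?_
    simp only [zero_smul, add_zero]
    ring
  · intro i t _ x
    have h3 := bw_c3 (hux i t x)
    have h2 := bw_c2 (hux i t x)
    have hJ := W.hJ i x
    have hdJ := W.hdJ i x
    unfold HasLineDerivAt at hJ hdJ ⊢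
    have e1 := (hdJ.const_mul 4).mul h3
    have e2 := ((hJ.const_mul (12 * t)).mul hdJ).mul h2
    refine (e1.sub e2).congr_deriv ?_
    simp only [zero_smul, add_zero, Pi.mul_apply]
    ring
  · intro i t ht x
    beta_reduce
    have hm := hm1 t ht x
    have hs := hsm t ht x
    have hd := W.bdJ i x
    have hJ := hJ0 x
    have h0 : 0 ≤ t * W.J x := mul_nonneg ht.1 hJ.le
    generalize max (1 - t * W.J x) 0 = m at *
    generalize W.dJ i x = d at *
    generalize W.J x = J at *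
    have h1 : (t * J * m) ^ 2 ≤ 1 := pow_le_one₀ (mul_nonneg h0 hm.1) hs
    have h2 : t ^ 2 * d ^ 2 * m ^ 2 ≤ C * J := by
      calc t ^ 2 * d ^ 2 * m ^ 2 ≤ t ^ 2 * (C * J ^ 3) * m ^ 2 := by gcongr
        _ = C * J * (t * J * m) ^ 2 := by ring
        _ ≤ C * J * 1 := by gcongr
        _ = C * J := by ring
    have h3 : 0 ≤ J * m ^ 3 := mul_nonneg hJ.le (pow_nonneg hm.1 3)
    calc (-(4 * t * d * m ^ 3)) ^ 2 = 16 * m ^ 4 * (t ^ 2 * d ^ 2 * m ^ 2) := by ring
      _ ≤ 16 * m ^ 4 * (C * J) := by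
        apply mul_le_mul_of_nonneg_left h2; positivity
      _ = 16 * C * (J * m ^ 3) * m := by ring
      _ ≤ 16 * C * (J * m ^ 3) * 1 := by
        apply mul_le_mul_of_nonneg_left hm.2; positivity
      _ ≤ (16 * C + 16) * (4 * J * m ^ 3) := by nlinarith
  · intro t ht x
    beta_reduce
    have hm := hm1 t ht x
    have hJ := hJ0 x
    generalize max (1 - t * W.J x) 0 = m at *
    have h1 : m ^ 3 ≤ 1 := pow_le_one₀ hm.1 hm.2
    have h2 : W.J x * m ^ 3 ≤ W.J x * 1 := mul_le_mul_of_nonneg_left h1 hJ.le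
    have h3 : 0 < C * W.J x := mul_pos hC hJ
    nlinarith
  · intro i t ht x
    beta_reduce
    have hm := hm1 t ht x
    have hs := hsm t ht x
    have hd := W.bdJ i x
    have hdd := W.bddJ i x
    have hJ := hJ0 x
    have ht0 : 0 ≤ t := ht.1
    have h0 : 0 ≤ t * W.J x := mul_nonneg ht.1 hJ.le
    generalize max (1 - t * W.J x) 0 = m at *
    generalize W.dJ i x = d at *
    generalize W.ddJ i x = dd at *
    generalize W.J x = J at *
    have hsm0 : 0 ≤ t * J * m := mul_nonneg h0 hm.1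
    have h1 : (t * J * m) ^ 2 ≤ 1 := pow_le_one₀ hsm0 hs
    have h2 : |t ^ 2 * d ^ 2 * m ^ 2| ≤ C * J := by
      rw [abs_of_nonneg (by positivity)]
      calc t ^ 2 * d ^ 2 * m ^ 2 ≤ t ^ 2 * (C * J ^ 3) * m ^ 2 := by gcongr
        _ = C * J * (t * J * m) ^ 2 := by ring
        _ ≤ C * J * 1 := by gcongr
        _ = C * J := by ring
    have h3 : |t * dd * m ^ 3| ≤ C * J := by
      rw [abs_mul, abs_mul, abs_of_nonneg ht0, abs_of_nonneg (pow_nonneg hm.1 3)]
      calc t * |dd| * m ^ 3 ≤ t * (C * J ^ 2) * m ^ 3 := by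
            have := pow_nonneg hm.1 3
            gcongr
        _ = C * J * ((t * J * m) * m ^ 2) := by ring
        _ ≤ C * J * (1 * 1) := by
            apply mul_le_mul_of_nonneg_left _ (by positivity)
            exact mul_le_mul hs (pow_le_one₀ hm.1 hm.2) (by positivity) zero_le_one
        _ = C * J := by ring
    have h4 : -(4 * t * dd * m ^ 3) + 12 * t ^ 2 * d ^ 2 * m ^ 2 =
      -(4 * (t * dd * m ^ 3)) + 12 * (t ^ 2 * d ^ 2 * m ^ 2) := by ring
    rw [h4]
    rw [abs_le] at h2 h3 ⊢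
    have h5 : 0 < C * J := mul_pos hC hJ
    constructor <;> nlinarith
  · intro t _ x h
    beta_reduce
    rw [hms t x h]; norm_num
  · intro i t _ x h
    beta_reduce
    rw [hms t x h]; norm_num
end CGL
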