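import Mathlib

/-!
# Complex Ginzburg–Landau blowup criterion (MP_78fff0_an): definitions

`v_t = e^{iθ} (Δ v + ω(t) |v|^α v)`, `ω(t) = exp (α γ t)`, is the equation of `v = e^{-γ t} u`.
-/

open MeasureTheory Set Filter Topology

namespace CGL

/-- Euclidean space `ℝ^N`. -/
abbrev E (N : ℕ) := EuclideanSpace ℝ (Fin N)

/-- the `i`-th unit vector. -/
noncomputable abbrev ev {N : ℕ} (i : Fin N) : E N := EuclideanSpace.single i (1 : ℝ)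

/-- the nonlinearity `|z|^α z`. -/
noncomputable def nl (α : ℝ) (z : ℂ) : ℂ := ((‖z‖ ^ α : ℝ) : ℂ) * z

/-- the phase `e^{iθ}`. -/
noncomputable def ph (θ : ℝ) : ℂ := Complex.exp ((θ : ℂ) * Complex.I)

/-- the integral kernel of `exp (t e^{iθ} Δ)` on `ℝ^N`:
`(4 π t e^{iθ})^{-N/2} exp (- |z|² / (4 t e^{iθ}))`. -/
noncomputable def ker (N : ℕ) (θ t : ℝ) (z : E N) : ℂ :=
  (((4 * Real.pi * t) ^ (-(N : ℝ) / 2) : ℝ) : ℂ)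
    * Complex.exp (-(((N : ℝ) * θ / 2 : ℝ) : ℂ) * Complex.I)
    * Complex.exp (-(Complex.exp (-(θ : ℂ) * Complex.I)) * ((‖z‖ ^ 2 / (4 * t) : ℝ) : ℂ))

/-- the real Gauss kernel, kernel of `exp (s Δ)`. -/
noncomputable def gk (N : ℕ) (s : ℝ) (z : E N) : ℝ :=
  (4 * Real.pi * s) ^ (-(N : ℝ) / 2) * Real.exp (-(‖z‖ ^ 2 / (4 * s)))

/-- `g` is the weak `i`-th partial derivative of `u`. -/
def IsWeakDeriv {N : ℕ} (u g : E N → ℂ) (i : Fin N) : Prop :=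
  ∀ φ : E N → ℝ, ContDiff ℝ (⊤ : ℕ∞) φ → HasCompactSupport φ →
    (∫ x, (fderiv ℝ φ x (ev i)) • u x) = - ∫ x, φ x • g x

/-- `u : [0,∞) → C₀(ℝ^N)` is a global solution of the Duhamel (integral) formulation of
`u_t = e^{iθ} (Δ u + |u|^α u) + γ u`, `u(0) = u₀`. -/
structure IsGlobalMild (N : ℕ) (α θ γ : ℝ) (u0 : ZeroAtInftyContinuousMap (E N) ℂ)
    (u : ℝ → ZeroAtInftyContinuousMap (E N) ℂ) : Prop where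
  cont : ContinuousOn u (Set.Ici 0)
  init : u 0 = u0
  duhamel : ∀ t : ℝ, 0 < t → ∀ x : E N,
    u t x = (∫ y, ker N θ t (x - y) * u0 y)
      + ∫ s in (0:ℝ)..t, ∫ y, ker N θ (t - s) (x - y) *
          (ph θ * nl α (u s y) + (γ : ℂ) * u s y)

/-- Approximate smooth solutions on `[0,T]`, with all derivatives explicit and everything
dominated by one function `G ∈ L² ∩ L^∞`. -/
structure ASol (N : ℕ) (α θ γ T : ℝ) where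
  v : ℝ → E N → ℂ
  dv : Fin N → ℝ → E N → ℂ
  ddv : Fin N → ℝ → E N → ℂ
  vt : ℝ → E N → ℂ
  dvt : Fin N → ℝ → E N → ℂ
  R : ℝ → E N → ℂ
  G : E N → ℝ
  cv : Continuous (Function.uncurry v)
  cdv : ∀ i, Continuous (Function.uncurry (dv i))
  cddv : ∀ i, Continuous (Function.uncurry (ddv i))
  cvt : Continuous (Function.uncurry vt)
  cdvt : ∀ i, Continuous (Function.uncurry (dvt i))
  cR : Continuous (Function.uncurry R)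
  c1 : ContDiff ℝ 1 (v 0)
  hv : ∀ i, ∀ t ∈ Icc (0:ℝ) T, ∀ x, HasLineDerivAt ℝ (v t) (dv i t x) x (ev i)
  hdv : ∀ i, ∀ t ∈ Icc (0:ℝ) T, ∀ x, HasLineDerivAt ℝ (dv i t) (ddv i t x) x (ev i)
  hvtx : ∀ i, ∀ t ∈ Icc (0:ℝ) T, ∀ x, HasLineDerivAt ℝ (vt t) (dvt i t x) x (ev i)
  ht : ∀ t ∈ Ioo (0:ℝ) T, ∀ x, HasDerivAt (fun s => v s x) (vt t x) t
  hdt : ∀ i, ∀ t ∈ Ioo (0:ℝ) T, ∀ x, HasDerivAt (fun s => dv i s x) (dvt i t x) t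
  G0 : ∀ x, 0 ≤ G x
  Gc : Continuous G
  Gb : ∃ C, ∀ x, G x ≤ C
  G2 : Integrable (fun x => G x ^ 2)
  bv : ∀ t ∈ Icc (0:ℝ) T, ∀ x, ‖v t x‖ ≤ G x
  bdv : ∀ i, ∀ t ∈ Icc (0:ℝ) T, ∀ x, ‖dv i t x‖ ≤ G x
  bddv : ∀ i, ∀ t ∈ Icc (0:ℝ) T, ∀ x, ‖ddv i t x‖ ≤ G x
  bvt : ∀ t ∈ Icc (0:ℝ) T, ∀ x, ‖vt t x‖ ≤ G x
  bdvt : ∀ i, ∀ t ∈ Icc (0:ℝ) T, ∀ x, ‖dvt i t x‖ ≤ G x
  bR : ∀ t ∈ Icc (0:ℝ) T, ∀ x, ‖R t x‖ ≤ G x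
  eq : ∀ t ∈ Icc (0:ℝ) T, ∀ x,
    vt t x = ph θ * ((∑ i, ddv i t x) + ((Real.exp (α * γ * t) : ℝ) : ℂ) * nl α (v t x) + R t x)

variable {N : ℕ} {α θ γ T : ℝ}

/-- `∫ |∇v(t)|²` density. -/
noncomputable def ASol.dsq (A : ASol N α θ γ T) (t : ℝ) (x : E N) : ℝ := ∑ i, ‖A.dv i t x‖ ^ 2

/-- `M(t) = ∫ |v|²`. -/
noncomputable def ASol.M (A : ASol N α θ γ T) (t : ℝ) : ℝ := ∫ x, ‖A.v t x‖ ^ 2

/-- `D(t) = ∫ |∇v|²`. -/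
noncomputable def ASol.D (A : ASol N α θ γ T) (t : ℝ) : ℝ := ∫ x, A.dsq t x

/-- `F(t) = ∫ |v|^{α+2}`. -/
noncomputable def ASol.F (A : ASol N α θ γ T) (t : ℝ) : ℝ := ∫ x, ‖A.v t x‖ ^ (α + 2)

/-- the energy `½ D − ω F / (α+2)`. -/
noncomputable def ASol.En (A : ASol N α θ γ T) (t : ℝ) : ℝ :=
  A.D t / 2 - Real.exp (α * γ * t) / (α + 2) * A.F t

/-- `∫_0^S ∫ |v_t|²`. -/
noncomputable def ASol.Kap (A : ASol N α θ γ T) (S : ℝ) : ℝ :=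
  ∫ t in (0:ℝ)..S, ∫ x, ‖A.vt t x‖ ^ 2

/-- `∫_0^S ∫ |R|²`. -/
noncomputable def ASol.Rho (A : ASol N α θ γ T) (S : ℝ) : ℝ :=
  ∫ t in (0:ℝ)..S, ∫ x, ‖A.R t x‖ ^ 2

/-- the energy density `½|∇v|² − ω|v|^{α+2}/(α+2)`. -/
noncomputable def ASol.ed (A : ASol N α θ γ T) (t : ℝ) (x : E N) : ℝ :=
  A.dsq t x / 2 - Real.exp (α * γ * t) / (α + 2) * ‖A.v t x‖ ^ (α + 2)

/-- Dominated complex space-time functions. -/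
def Dom (T : ℝ) (G : E N → ℝ) (f : ℝ → E N → ℂ) : Prop :=
  Continuous (Function.uncurry f) ∧ ∃ C : ℝ, 0 ≤ C ∧ ∀ t ∈ Icc (0:ℝ) T, ∀ x, ‖f t x‖ ≤ C * G x

/-- Admissible real space-time integrands: continuous and `≤ C G²` on `[0,T]`. -/
def Adm (T : ℝ) (G : E N → ℝ) (f : ℝ → E N → ℝ) : Prop :=
  Continuous (Function.uncurry f) ∧ ∃ C : ℝ, 0 ≤ C ∧ ∀ t ∈ Icc (0:ℝ) T, ∀ x, |f t x| ≤ C * G x ^ 2

/-- Bounded continuous space-time weights. -/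
def Bdd (T : ℝ) (w : ℝ → E N → ℝ) : Prop :=
  Continuous (Function.uncurry w) ∧ ∃ C : ℝ, 0 ≤ C ∧ ∀ t ∈ Icc (0:ℝ) T, ∀ x, |w t x| ≤ C

/-! ### static objects -/

/-- `|∇w|²`. -/
noncomputable def gsq (w : E N → ℂ) (x : E N) : ℝ := ∑ i : Fin N, ‖fderiv ℝ w x (ev i)‖ ^ 2

/-- nice static functions. -/
structure Nice (w : E N → ℂ) : Prop where
  c1 : ContDiff ℝ 1 w
  l2 : Integrable (fun x => ‖w x‖ ^ 2)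
  bdd : ∃ C, ∀ x, ‖w x‖ ≤ C
  g1 : Integrable (gsq w)

/-- points around which `|w| ≥ h/2` on at least half of the ball of radius `s`. -/
def Sset (w : E N → ℂ) (h s : ℝ) : Set (E N) :=
  {y | (1/2) * volume.real (Metric.ball y s)
    ≤ volume.real ({z | h / 2 ≤ ‖w z‖} ∩ Metric.ball y s)}

/-- dyadic heights. -/
noncomputable def hk (k : ℤ) : ℝ := (2:ℝ) ^ k

/-- the radius `c₁ h_k^{-α/2}` attached to the height `h_k = 2^k`. -/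
noncomputable def sk (α c1 : ℝ) (k : ℤ) : ℝ := c1 * (hk k) ^ (-(α / 2))

/-- `min (R², min_p (p.2² + |x - p.1|²))` over a finite set of seeds `(y, s)`. -/
noncomputable def rsq (Sd : Finset (E N × ℝ)) (R : ℝ) (x : E N) : ℝ :=
  Sd.fold min (R ^ 2) (fun p => p.2 ^ 2 + dist x p.1 ^ 2)

/-- spatial weights `J ~ r^{-2}` with their first and (pure) second derivatives. -/
structure Wt (N : ℕ) (C R : ℝ) where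
  J : E N → ℝ
  dJ : Fin N → E N → ℝ
  ddJ : Fin N → E N → ℝ
  cJ : Continuous J
  cdJ : ∀ i, Continuous (dJ i)
  cddJ : ∀ i, Continuous (ddJ i)
  hJ : ∀ i x, HasLineDerivAt ℝ J (dJ i x) x (ev i)
  hdJ : ∀ i x, HasLineDerivAt ℝ (dJ i) (ddJ i x) x (ev i)
  lower : ∀ x, 1 / (C * R ^ 2) ≤ J x
  bdJ : ∀ i x, (dJ i x) ^ 2 ≤ C * (J x) ^ 3
  bddJ : ∀ i x, |ddJ i x| ≤ C * (J x) ^ 2
  upper : ∃ B, ∀ x, J x ≤ B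

/-- space-time weights `B` on `[0,T]`, `a = -∂_t B`, built from `J`. -/
structure STW (N : ℕ) (T K : ℝ) (J : E N → ℝ) where
  B : ℝ → E N → ℝ
  a : ℝ → E N → ℝ
  dB : Fin N → ℝ → E N → ℝ
  da : Fin N → ℝ → E N → ℝ
  ddB : Fin N → ℝ → E N → ℝ
  dda : Fin N → ℝ → E N → ℝ
  bB : Bdd T B
  ba : Bdd T a
  bdB : ∀ i, Bdd T (dB i)
  bda : ∀ i, Bdd T (da i)
  bddB : ∀ i, Bdd T (ddB i)
  bdda : ∀ i, Bdd T (dda i)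
  B0 : ∀ x, B 0 x = 1
  BT : ∀ x, B T x = 0
  ddB0 : ∀ i x, ddB i 0 x = 0
  ddBT : ∀ i x, ddB i T x = 0
  B_nonneg : ∀ t ∈ Icc (0:ℝ) T, ∀ x, 0 ≤ B t x
  B_le_one : ∀ t ∈ Icc (0:ℝ) T, ∀ x, B t x ≤ 1
  a_nonneg : ∀ t ∈ Icc (0:ℝ) T, ∀ x, 0 ≤ a t x
  htB : ∀ t ∈ Ioo (0:ℝ) T, ∀ x, HasDerivAt (fun s => B s x) (-(a t x)) t
  htddB : ∀ i, ∀ t ∈ Ioo (0:ℝ) T, ∀ x, HasDerivAt (fun s => ddB i s x) (-(dda i t x)) t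
  hxB : ∀ i, ∀ t ∈ Icc (0:ℝ) T, ∀ x, HasLineDerivAt ℝ (B t) (dB i t x) x (ev i)
  hxa : ∀ i, ∀ t ∈ Icc (0:ℝ) T, ∀ x, HasLineDerivAt ℝ (a t) (da i t x) x (ev i)
  hxda : ∀ i, ∀ t ∈ Icc (0:ℝ) T, ∀ x, HasLineDerivAt ℝ (da i t) (dda i t x) x (ev i)
  dB_sq : ∀ i, ∀ t ∈ Icc (0:ℝ) T, ∀ x, (dB i t x) ^ 2 ≤ K * a t x
  a_le : ∀ t ∈ Icc (0:ℝ) T, ∀ x, a t x ≤ K * J x
  ddB_le : ∀ i, ∀ t ∈ Icc (0:ℝ) T, ∀ x, |ddB i t x| ≤ K * J x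
  a_supp : ∀ t ∈ Icc (0:ℝ) T, ∀ x, 1 ≤ t * J x → a t x = 0
  ddB_supp : ∀ i, ∀ t ∈ Icc (0:ℝ) T, ∀ x, 1 ≤ t * J x → ddB i t x = 0

/-- `∫_0^T ∫ f`. -/
noncomputable def II (T : ℝ) (f : ℝ → E N → ℝ) : ℝ := ∫ t in (0:ℝ)..T, ∫ x, f t x

end CGL
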