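import Pool.Agent.CGL.PBuild
/-! PERR: the error term is small; convergence of the initial data -/
open MeasureTheory Set Filter Topology
namespace CGL
variable {N : ℕ} {α θ γ : ℝ}

private theorem perr_J {J : E N → ℝ} {η : ℝ} (hJ : Mol J η) : Integrable J :=
  hJ.t.s.continuous.integrable_of_hasCompactSupport hJ.t.k

private theorem perr_Jx {J : E N → ℝ} {η : ℝ} (hJ : Mol J η) (x : E N) :
    Integrable (fun y => J (x - y)) := (perr_J hJ).comp_sub_left x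

private theorem perr_one {J : E N → ℝ} {η : ℝ} (hJ : Mol J η) (x : E N) :
    (∫ y, J (x - y)) = 1 := by
  rw [integral_sub_left_eq_self (fun y => J y) volume x, hJ.int1]

private theorem perr_int {J : E N → ℝ} {η : ℝ} (hJ : Mol J η) {g : E N → ℂ} (hg : Continuous g)
    (x : E N) : Integrable (fun y => J (x - y) • g y) := by
  apply Continuous.integrable_of_hasCompactSupport
  · exact (hJ.t.s.continuous.comp (continuous_const.sub continuous_id)).smul hg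
  · exact (hJ.t.k.comp_homeomorph (Homeomorph.subLeft x)).smul_right

private theorem perr_intr {J : E N → ℝ} {η : ℝ} (hJ : Mol J η) {g : E N → ℝ} (hg : Continuous g)
    (x : E N) : Integrable (fun y => J (x - y) * g y) := by
  apply Continuous.integrable_of_hasCompactSupport
  · exact (hJ.t.s.continuous.comp (continuous_const.sub continuous_id)).mul hg
  · exact (hJ.t.k.comp_homeomorph (Homeomorph.subLeft x)).mul_right

private theorem perr_norm_le {J : E N → ℝ} {η : ℝ} (hJ : Mol J η) {h : E N → ℂ} {k : E N → ℝ}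
    (hk : Continuous k) {L : ℝ} (x : E N) (hh : ∀ y, ‖h y‖ ≤ L * k y) :
    ‖∫ y, J (x - y) • h y‖ ≤ L * ∫ y, J (x - y) * k y := by
  have h1 := perr_intr hJ hk x
  calc ‖∫ y, J (x - y) • h y‖ ≤ ∫ y, ‖J (x - y) • h y‖ := norm_integral_le_integral_norm _
    _ ≤ ∫ y, L * (J (x - y) * k y) := by
        apply integral_mono_of_nonneg (Filter.Eventually.of_forall fun y => norm_nonneg _)
          (h1.const_mul L)
        refine Filter.Eventually.of_forall fun y => ?_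
        simp only [norm_smul, Real.norm_of_nonneg (hJ.nn _)]
        calc J (x - y) * ‖h y‖ ≤ J (x - y) * (L * k y) :=
              mul_le_mul_of_nonneg_left (hh y) (hJ.nn _)
          _ = L * (J (x - y) * k y) := by ring
    _ = L * ∫ y, J (x - y) * k y := integral_const_mul _ _

private theorem perr_bd {J : E N → ℝ} {η : ℝ} (hJ : Mol J η) {g : E N → ℂ} {B : ℝ}
    (hB : ∀ y, ‖g y‖ ≤ B) (x : E N) : ‖cvl J g x‖ ≤ B := by
  have h1 := perr_norm_le (h := g) (k := fun _ => (1:ℝ)) (L := B) hJ continuous_const x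
    (fun y => by rw [mul_one]; exact hB y)
  simp only [mul_one] at h1
  rw [perr_one hJ x, mul_one] at h1
  exact h1

private theorem perr_sub {J : E N → ℝ} {η : ℝ} (hJ : Mol J η) {g : E N → ℂ} (hg : Continuous g)
    (c : ℂ) (x : E N) : cvl J g x - c = ∫ y, J (x - y) • (g y - c) := by
  have h1 : (fun y => J (x - y) • (g y - c)) = fun y => J (x - y) • g y - J (x - y) • c := by
    funext y
    rw [smul_sub]
  rw [h1, integral_sub (perr_int hJ hg x) ((perr_Jx hJ x).smul_const c),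
    integral_smul_const, perr_one hJ x, one_smul]
  rfl

private theorem perr_u_bd {u0 : ZeroAtInftyContinuousMap (E N) ℂ}
    {u : ℝ → ZeroAtInftyContinuousMap (E N) ℂ} (hu : IsGlobalMild N α θ γ u0 u) {T : ℝ}
    (hT : 0 < T) : ∃ B : ℝ, 0 ≤ B ∧ ∀ t ∈ Icc (0:ℝ) T, ∀ y, ‖u t y‖ ≤ B := by
  obtain ⟨B, hB⟩ := (isCompact_Icc (a := (0:ℝ)) (b := T)).exists_bound_of_continuousOn
    (hu.cont.mono (fun s hs => hs.1))
  refine ⟨B, le_trans (norm_nonneg _) (hB 0 ⟨le_rfl, hT.le⟩), ?_⟩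
  intro t ht y
  have h2 := hB _ ht
  have h3 := BoundedContinuousFunction.norm_coe_le_norm (u t).toBCF y
  rw [ZeroAtInftyContinuousMap.norm_toBCF_eq_norm] at h3
  exact h3.trans h2

private theorem perr_vv {u : ℝ → ZeroAtInftyContinuousMap (E N) ℂ} {t : ℝ} (ht : 0 ≤ t) (y : E N) :
    vv γ u t y = ((Real.exp (-(γ * t)) : ℝ) : ℂ) * u t y := by
  unfold vv
  rw [max_eq_left ht]

private theorem perr_exp_le (hγ : 0 ≤ γ) {t : ℝ} (ht : 0 ≤ t) : Real.exp (-(γ * t)) ≤ 1 := by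
  rw [← Real.exp_zero]
  apply Real.exp_le_exp.mpr
  have := mul_nonneg hγ ht
  linarith

private theorem perr_vv_le (hγ : 0 ≤ γ) {u : ℝ → ZeroAtInftyContinuousMap (E N) ℂ} {t : ℝ}
    (ht : 0 ≤ t) (y : E N) : ‖vv γ u t y‖ ≤ ‖u t y‖ := by
  rw [perr_vv ht y, norm_mul, Complex.norm_real, Real.norm_of_nonneg (Real.exp_pos _).le]
  calc Real.exp (-(γ * t)) * ‖u t y‖ ≤ 1 * ‖u t y‖ :=
        mul_le_mul_of_nonneg_right (perr_exp_le hγ ht) (norm_nonneg _)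
    _ = ‖u t y‖ := one_mul _

private theorem perr_vv_sub_le (hγ : 0 ≤ γ) {u : ℝ → ZeroAtInftyContinuousMap (E N) ℂ} {t : ℝ}
    (ht : 0 ≤ t) (y z : E N) : ‖vv γ u t y - vv γ u t z‖ ≤ ‖u t y - u t z‖ := by
  rw [perr_vv ht y, perr_vv ht z, ← mul_sub, norm_mul, Complex.norm_real,
    Real.norm_of_nonneg (Real.exp_pos _).le]
  calc Real.exp (-(γ * t)) * ‖u t y - u t z‖ ≤ 1 * ‖u t y - u t z‖ :=
        mul_le_mul_of_nonneg_right (perr_exp_le hγ ht) (norm_nonneg _)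
    _ = ‖u t y - u t z‖ := one_mul _

private theorem perr_vv_cont {u0 : ZeroAtInftyContinuousMap (E N) ℂ}
    {u : ℝ → ZeroAtInftyContinuousMap (E N) ℂ} (hu : IsGlobalMild N α θ γ u0 u) (t : ℝ) :
    Continuous (vv γ u t) := (vv_cont hu).comp (Continuous.prodMk_right t)

/-- square integrals of translation differences. -/
private theorem perr_transl4 {g : E N → ℂ} (hg : Integrable (fun x => ‖g x‖ ^ 2)) (z : E N) :
    Integrable (fun x => 2 * ‖g (x - z)‖ ^ 2 + 2 * ‖g x‖ ^ 2) ∧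
    (∀ x, ‖g (x - z) - g x‖ ^ 2 ≤ 2 * ‖g (x - z)‖ ^ 2 + 2 * ‖g x‖ ^ 2) ∧
    (∫ x, ‖g (x - z) - g x‖ ^ 2) ≤ 4 * ∫ x, ‖g x‖ ^ 2 := by
  have h1 : Integrable (fun x => ‖g (x - z)‖ ^ 2) := hg.comp_sub_right z
  have h2 : Integrable (fun x => 2 * ‖g (x - z)‖ ^ 2 + 2 * ‖g x‖ ^ 2) :=
    (h1.const_mul 2).add (hg.const_mul 2)
  have h3 : ∀ x, ‖g (x - z) - g x‖ ^ 2 ≤ 2 * ‖g (x - z)‖ ^ 2 + 2 * ‖g x‖ ^ 2 := by
    intro x
    have h4 := norm_sub_le (g (x - z)) (g x)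
    have h5 : ‖g (x - z) - g x‖ ^ 2 ≤ (‖g (x - z)‖ + ‖g x‖) ^ 2 :=
      pow_le_pow_left₀ (norm_nonneg _) h4 2
    nlinarith [sq_nonneg (‖g (x - z)‖ - ‖g x‖)]
  refine ⟨h2, h3, ?_⟩
  calc (∫ x, ‖g (x - z) - g x‖ ^ 2) ≤ ∫ x, (2 * ‖g (x - z)‖ ^ 2 + 2 * ‖g x‖ ^ 2) :=
        integral_mono_of_nonneg (Filter.Eventually.of_forall fun x => sq_nonneg _) h2
          (Filter.Eventually.of_forall h3)
    _ = 2 * (∫ x, ‖g (x - z)‖ ^ 2) + 2 * ∫ x, ‖g x‖ ^ 2 := by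
        rw [integral_add (h1.const_mul 2) (hg.const_mul 2), integral_const_mul,
          integral_const_mul]
    _ = 4 * ∫ x, ‖g x‖ ^ 2 := by
        have h6 : (∫ x, ‖g (x - z)‖ ^ 2) = ∫ x, ‖g x‖ ^ 2 :=
          integral_sub_right_eq_self (fun x => ‖g x‖ ^ 2) z
        rw [h6]
        ring

theorem R_small (hα : 0 < α) (hγ : 0 ≤ γ) (hθ : 0 ≤ θ) (hθ' : θ < Real.pi / 2)
    {u0 : ZeroAtInftyContinuousMap (E N) ℂ} (hu0 : Integrable (fun x => ‖u0 x‖ ^ 2))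
    {u : ℝ → ZeroAtInftyContinuousMap (E N) ℂ} (hu : IsGlobalMild N α θ γ u0 u)
    {T : ℝ} (hT : 0 < T) {ε : ℝ} (hε : 0 < ε) : ∃ η0 : ℝ, 0 < η0 ∧
      ∀ (η : ℝ) (J : E N → ℝ), 0 < η → η ≤ η0 → Mol J η → ∀ t ∈ Icc (0:ℝ) T,
        (∫ x, ‖cvl J (ff α γ u t) x
          - ((Real.exp (α * γ * t) : ℝ) : ℂ) * nl α (cvl J (vv γ u t) x)‖ ^ 2) ≤ ε := by
  obtain ⟨B, hB0, hB⟩ := perr_u_bd hu hT
  obtain ⟨L, hL, hlip⟩ := nl_lip hα hB0
  obtain ⟨C, hC, hl2⟩ := mild_l2 hα hγ hθ hθ' hu0 hu hT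
  obtain ⟨W, hW⟩ : ∃ W : ℝ, W = Real.exp (α * γ * T) := ⟨_, rfl⟩
  have hW0 : 0 < W := by rw [hW]; exact Real.exp_pos _
  obtain ⟨K, hK⟩ : ∃ K : ℝ, K = (2 * W * L) ^ 2 := ⟨_, rfl⟩
  have hK0 : 0 ≤ K := by rw [hK]; exact sq_nonneg _
  have hε' : 0 < ε / (K + 1) := by positivity
  have hmem : MemLp (u0 : E N → ℂ) 2 volume :=
    (memLp_two_iff_integrable_sq_norm u0.continuous.aestronglyMeasurable).mpr hu0
  obtain ⟨δ, hδ, htr⟩ := transl_l2 hmem (ε := ε / (K + 1) / C) (by positivity)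
  refine ⟨δ, hδ, ?_⟩
  intro η J hη hηδ hJ t ht
  have hvc : Continuous (vv γ u t) := perr_vv_cont hu t
  have hvB : ∀ y, ‖vv γ u t y‖ ≤ B := fun y => (perr_vv_le hγ ht.1 y).trans (hB t ht y)
  have hvi : Integrable (fun x => ‖vv γ u t x‖ ^ 2) := by
    refine Integrable.mono' (hl2 t ht).1 ((hvc.norm.pow 2).aestronglyMeasurable) ?_
    refine Filter.Eventually.of_forall fun x => ?_
    rw [Real.norm_of_nonneg (sq_nonneg _)]
    exact pow_le_pow_left₀ (norm_nonneg _) (perr_vv_le hγ ht.1 x) 2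
  have hvtr : ∀ z : E N, ‖z‖ ≤ η →
      (∫ x, ‖vv γ u t (x - z) - vv γ u t x‖ ^ 2) ≤ ε / (K + 1) := by
    intro z hz
    have h0 := perr_transl4 (hl2 t ht).1 z
    have h1 : (∫ x, ‖vv γ u t (x - z) - vv γ u t x‖ ^ 2) ≤ ∫ x, ‖u t (x - z) - u t x‖ ^ 2 := by
      apply integral_mono_of_nonneg (Filter.Eventually.of_forall fun x => sq_nonneg _)
      · refine Integrable.mono' h0.1 ?_ ?_
        · have h2 : Continuous (fun x => ‖u t (x - z) - u t x‖ ^ 2) :=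
            ((((u t).continuous.comp (continuous_id.sub continuous_const)).sub
              (u t).continuous).norm).pow 2
          exact h2.aestronglyMeasurable
        · refine Filter.Eventually.of_forall fun x => ?_
          rw [Real.norm_of_nonneg (sq_nonneg _)]
          exact h0.2.1 x
      · refine Filter.Eventually.of_forall fun x => ?_
        exact pow_le_pow_left₀ (norm_nonneg _) (perr_vv_sub_le hγ ht.1 _ _) 2
    have h2 := (hl2 t ht).2.2 z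
    have h3 := htr z (hz.trans hηδ)
    calc (∫ x, ‖vv γ u t (x - z) - vv γ u t x‖ ^ 2) ≤ C * ∫ x, ‖u0 (x - z) - u0 x‖ ^ 2 :=
          h1.trans h2
      _ ≤ C * (ε / (K + 1) / C) := mul_le_mul_of_nonneg_left h3 hC.le
      _ = ε / (K + 1) := by field_simp
  obtain ⟨hI, hIle⟩ := moll_abs_l2 hJ hvc ⟨B, hvB⟩ hvi hvtr
  have hffc : Continuous (ff α γ u t) := (ff_cont hα hu).comp (Continuous.prodMk_right t)
  have hωW : Real.exp (α * γ * t) ≤ W := by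
    rw [hW]
    apply Real.exp_le_exp.mpr
    have : 0 ≤ α * γ := mul_nonneg hα.le hγ
    exact mul_le_mul_of_nonneg_left ht.2 this
  have hω0 : 0 ≤ Real.exp (α * γ * t) := (Real.exp_pos _).le
  have hpt : ∀ x, ‖cvl J (ff α γ u t) x
      - ((Real.exp (α * γ * t) : ℝ) : ℂ) * nl α (cvl J (vv γ u t) x)‖ ≤
      2 * W * L * ∫ y, J (x - y) * ‖vv γ u t y - vv γ u t x‖ := by
    intro x
    have hk : Continuous (fun y => ‖vv γ u t y - vv γ u t x‖) := (hvc.sub continuous_const).norm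
    have hI0 : 0 ≤ ∫ y, J (x - y) * ‖vv γ u t y - vv γ u t x‖ :=
      integral_nonneg fun y => mul_nonneg (hJ.nn _) (norm_nonneg _)
    have h1 : ‖cvl J (ff α γ u t) x - ff α γ u t x‖ ≤
        (W * L) * ∫ y, J (x - y) * ‖vv γ u t y - vv γ u t x‖ := by
      rw [perr_sub hJ hffc]
      apply perr_norm_le hJ hk
      intro y
      unfold ff
      rw [← mul_sub, norm_mul, Complex.norm_real, Real.norm_of_nonneg hω0]
      calc Real.exp (α * γ * t) * ‖nl α (vv γ u t y) - nl α (vv γ u t x)‖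
          ≤ W * (L * ‖vv γ u t y - vv γ u t x‖) :=
            mul_le_mul hωW (hlip _ _ (hvB y) (hvB x)) (norm_nonneg _) hW0.le
        _ = W * L * ‖vv γ u t y - vv γ u t x‖ := by ring
    have h2 : ‖cvl J (vv γ u t) x - vv γ u t x‖ ≤
        1 * ∫ y, J (x - y) * ‖vv γ u t y - vv γ u t x‖ := by
      rw [perr_sub hJ hvc]
      apply perr_norm_le hJ hk
      intro y
      rw [one_mul]
    have h3 : ‖ff α γ u t x - ((Real.exp (α * γ * t) : ℝ) : ℂ) * nl α (cvl J (vv γ u t) x)‖ ≤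
        (W * L) * ∫ y, J (x - y) * ‖vv γ u t y - vv γ u t x‖ := by
      unfold ff
      rw [← mul_sub, norm_mul, Complex.norm_real, Real.norm_of_nonneg hω0]
      have h4 := hlip (vv γ u t x) (cvl J (vv γ u t) x) (hvB x) (perr_bd hJ hvB x)
      rw [norm_sub_rev (vv γ u t x)] at h4
      calc Real.exp (α * γ * t) * ‖nl α (vv γ u t x) - nl α (cvl J (vv γ u t) x)‖
          ≤ W * (L * (1 * ∫ y, J (x - y) * ‖vv γ u t y - vv γ u t x‖)) := by
            apply mul_le_mul hωW _ (norm_nonneg _) hW0.le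
            exact h4.trans (mul_le_mul_of_nonneg_left h2 hL)
        _ = (W * L) * ∫ y, J (x - y) * ‖vv γ u t y - vv γ u t x‖ := by ring
    calc ‖cvl J (ff α γ u t) x
          - ((Real.exp (α * γ * t) : ℝ) : ℂ) * nl α (cvl J (vv γ u t) x)‖
        = ‖(cvl J (ff α γ u t) x - ff α γ u t x) + (ff α γ u t x
          - ((Real.exp (α * γ * t) : ℝ) : ℂ) * nl α (cvl J (vv γ u t) x))‖ := by
          congr 1
          ring
      _ ≤ _ := norm_add_le _ _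
      _ ≤ (W * L) * (∫ y, J (x - y) * ‖vv γ u t y - vv γ u t x‖) +
          (W * L) * ∫ y, J (x - y) * ‖vv γ u t y - vv γ u t x‖ := add_le_add h1 h3
      _ = 2 * W * L * ∫ y, J (x - y) * ‖vv γ u t y - vv γ u t x‖ := by ring
  calc (∫ x, ‖cvl J (ff α γ u t) x
        - ((Real.exp (α * γ * t) : ℝ) : ℂ) * nl α (cvl J (vv γ u t) x)‖ ^ 2)
      ≤ ∫ x, K * (∫ y, J (x - y) * ‖vv γ u t y - vv γ u t x‖) ^ 2 := by
        apply integral_mono_of_nonneg (Filter.Eventually.of_forall fun x => sq_nonneg _)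
          (hI.const_mul K)
        refine Filter.Eventually.of_forall fun x => ?_
        have h1 := pow_le_pow_left₀ (norm_nonneg _) (hpt x) 2
        rw [mul_pow, ← hK] at h1
        exact h1
    _ = K * ∫ x, (∫ y, J (x - y) * ‖vv γ u t y - vv γ u t x‖) ^ 2 := integral_const_mul _ _
    _ ≤ K * (ε / (K + 1)) := mul_le_mul_of_nonneg_left hIle hK0
    _ ≤ ε := by
        rw [mul_div_assoc', div_le_iff₀ (by positivity)]
        nlinarith

/-- `L²` bound, uniform in the mollifier. -/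
theorem M_bound (hα : 0 < α) (hγ : 0 ≤ γ) (hθ : 0 ≤ θ) (hθ' : θ < Real.pi / 2)
    {u0 : ZeroAtInftyContinuousMap (E N) ℂ} (hu0 : Integrable (fun x => ‖u0 x‖ ^ 2))
    {u : ℝ → ZeroAtInftyContinuousMap (E N) ℂ} (hu : IsGlobalMild N α θ γ u0 u)
    {T : ℝ} (hT : 0 < T) : ∃ Y : ℝ, 0 < Y ∧
      ∀ (η : ℝ) (J : E N → ℝ), Mol J η → ∀ t ∈ Icc (0:ℝ) T,
        (∫ x, ‖cvl J (vv γ u t) x‖ ^ 2) ≤ Y := by
  obtain ⟨C, hC, hl2⟩ := mild_l2 hα hγ hθ hθ' hu0 hu hT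
  have h0 : 0 ≤ ∫ x, ‖u0 x‖ ^ 2 := integral_nonneg fun x => sq_nonneg _
  refine ⟨C * (∫ x, ‖u0 x‖ ^ 2) + 1, by positivity, ?_⟩
  intro η J hJ t ht
  have hvc : Continuous (vv γ u t) := perr_vv_cont hu t
  have hvi : Integrable (fun x => ‖vv γ u t x‖ ^ 2) := by
    refine Integrable.mono' (hl2 t ht).1 ((hvc.norm.pow 2).aestronglyMeasurable) ?_
    refine Filter.Eventually.of_forall fun x => ?_
    rw [Real.norm_of_nonneg (sq_nonneg _)]
    exact pow_le_pow_left₀ (norm_nonneg _) (perr_vv_le hγ ht.1 x) 2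
  have hmem : MemLp (vv γ u t) 2 volume :=
    (memLp_two_iff_integrable_sq_norm hvc.aestronglyMeasurable).mpr hvi
  have h1 := (moll_l2 (ε := 4 * ∫ x, ‖vv γ u t x‖ ^ 2) hJ hmem
    (fun z _ => (perr_transl4 hvi z).2.2)).2.2
  have h2 : (∫ x, ‖vv γ u t x‖ ^ 2) ≤ ∫ x, ‖u t x‖ ^ 2 := by
    apply integral_mono_of_nonneg (Filter.Eventually.of_forall fun x => sq_nonneg _) (hl2 t ht).1
    refine Filter.Eventually.of_forall fun x => ?_
    exact pow_le_pow_left₀ (norm_nonneg _) (perr_vv_le hγ ht.1 x) 2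
  have h3 := (hl2 t ht).2.1
  linarith

/-- mollification is close in `L²`. -/
private theorem perr_near {g : E N → ℂ} (hg : MemLp g 2 volume) {ε : ℝ} (hε : 0 < ε) :
    ∃ δ : ℝ, 0 < δ ∧ ∀ (η : ℝ) (J : E N → ℝ), η ≤ δ → Mol J η →
      MemLp (cvl J g) 2 volume ∧ (∫ x, ‖cvl J g x - g x‖ ^ 2) ≤ ε ∧
      (∫ x, ‖cvl J g x‖ ^ 2) ≤ ∫ x, ‖g x‖ ^ 2 := by
  obtain ⟨δ, hδ, h⟩ := transl_l2 hg hε
  exact ⟨δ, hδ, fun η J hη hJ => moll_l2 hJ hg (fun z hz => h z (hz.trans hη))⟩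

private theorem perr_near_norm {g : E N → ℂ} (hg : MemLp g 2 volume) {ε : ℝ} (hε : 0 < ε) :
    ∃ δ : ℝ, 0 < δ ∧ ∀ (η : ℝ) (J : E N → ℝ), η ≤ δ → Mol J η →
      MemLp (cvl J g) 2 volume ∧
      |(∫ x, ‖cvl J g x‖ ^ 2) - ∫ x, ‖g x‖ ^ 2| ≤ ε := by
  obtain ⟨A, hA⟩ : ∃ A : ℝ, A = ∫ x, ‖g x‖ ^ 2 := ⟨_, rfl⟩
  have hA0 : 0 ≤ A := by rw [hA]; exact integral_nonneg fun x => sq_nonneg _
  obtain ⟨s, hs⟩ : ∃ s : ℝ, s = ε / (2 * (A + 1)) := ⟨_, rfl⟩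
  have hs0 : 0 < s := by rw [hs]; positivity
  obtain ⟨δ, hδ, h⟩ := perr_near hg (ε := ε / (2 * (1 + 1 / s))) (by positivity)
  refine ⟨δ, hδ, fun η J hη hJ => ?_⟩
  obtain ⟨h1, h2, h3⟩ := h η J hη hJ
  refine ⟨h1, ?_⟩
  rw [abs_sub_comm, abs_of_nonneg (by linarith)]
  have hgi : Integrable (fun x => ‖g x‖ ^ 2) := (memLp_two_iff_integrable_sq_norm hg.1).mp hg
  have hci : Integrable (fun x => ‖cvl J g x‖ ^ 2) :=
    (memLp_two_iff_integrable_sq_norm h1.1).mp h1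
  have hdi : Integrable (fun x => ‖cvl J g x - g x‖ ^ 2) :=
    (memLp_two_iff_integrable_sq_norm (h1.sub hg).1).mp (h1.sub hg)
  have h4 : (∫ x, ‖g x‖ ^ 2) ≤ (1 + s) * (∫ x, ‖cvl J g x‖ ^ 2) +
      (1 + 1 / s) * ∫ x, ‖cvl J g x - g x‖ ^ 2 := by
    rw [← integral_const_mul, ← integral_const_mul,
      ← integral_add (hci.const_mul _) (hdi.const_mul _)]
    apply integral_mono hgi ((hci.const_mul _).add (hdi.const_mul _))
    intro x
    change ‖g x‖ ^ 2 ≤ (1 + s) * ‖cvl J g x‖ ^ 2 + (1 + 1 / s) * ‖cvl J g x - g x‖ ^ 2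
    have h5 : ‖g x‖ ≤ ‖cvl J g x‖ + ‖cvl J g x - g x‖ := by
      have h6 := norm_sub_le (cvl J g x) (cvl J g x - g x)
      have h7 : cvl J g x - (cvl J g x - g x) = g x := by ring
      rwa [h7] at h6
    have h6 : ‖g x‖ ^ 2 ≤ (‖cvl J g x‖ + ‖cvl J g x - g x‖) ^ 2 :=
      pow_le_pow_left₀ (norm_nonneg _) h5 2
    have h7 : 2 * (‖cvl J g x‖ * ‖cvl J g x - g x‖) ≤
        s * ‖cvl J g x‖ ^ 2 + (1 / s) * ‖cvl J g x - g x‖ ^ 2 := by
      have h8 := sq_nonneg (s * ‖cvl J g x‖ - ‖cvl J g x - g x‖)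
      have h9 : 0 ≤ (s * ‖cvl J g x‖ - ‖cvl J g x - g x‖) ^ 2 / s := by positivity
      have h10 : (s * ‖cvl J g x‖ - ‖cvl J g x - g x‖) ^ 2 / s =
          s * ‖cvl J g x‖ ^ 2 + (1 / s) * ‖cvl J g x - g x‖ ^ 2 -
          2 * (‖cvl J g x‖ * ‖cvl J g x - g x‖) := by
        field_simp
        ring
      rw [h10] at h9
      linarith
    nlinarith
  have h5 : (1 + 1 / s) * (∫ x, ‖cvl J g x - g x‖ ^ 2) ≤ ε / 2 := by
    calc (1 + 1 / s) * (∫ x, ‖cvl J g x - g x‖ ^ 2) ≤ (1 + 1 / s) * (ε / (2 * (1 + 1 / s))) :=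
          mul_le_mul_of_nonneg_left h2 (by positivity)
      _ = ε / 2 := by field_simp
  have h6 : s * (∫ x, ‖cvl J g x‖ ^ 2) ≤ ε / 2 := by
    calc s * (∫ x, ‖cvl J g x‖ ^ 2) ≤ s * (A + 1) := by
          apply mul_le_mul_of_nonneg_left _ hs0.le
          rw [hA]
          linarith
      _ = ε / 2 := by
          rw [hs]
          field_simp
  linarith

/-- the pointwise difference of the powers. -/
private theorem perr_pow {B L : ℝ} (hB : 0 ≤ B) (hα : 0 < α)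
    (hL : 0 ≤ L) (hlip : ∀ z w : ℂ, ‖z‖ ≤ B → ‖w‖ ≤ B → ‖nl α z - nl α w‖ ≤ L * ‖z - w‖)
    {z w : ℂ} (hz : ‖z‖ ≤ B) (hw : ‖w‖ ≤ B) :
    |‖z‖ ^ (α + 2) - ‖w‖ ^ (α + 2)| ≤ (L + B ^ α) * ((‖z‖ + ‖w‖) * ‖z - w‖) := by
  have hp : ∀ v : ℂ, ‖v‖ ^ (α + 2) = ‖v‖ * ‖nl α v‖ := by
    intro v
    rw [nl_norm]
    rcases eq_or_lt_of_le (norm_nonneg v) with h | h
    · rw [← h]
      rw [Real.zero_rpow (by linarith)]
      ring
    · rw [Real.rpow_add h, Real.rpow_two]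
      ring
  rw [hp z, hp w]
  have h1 : ‖z‖ * ‖nl α z‖ - ‖w‖ * ‖nl α w‖ =
      ‖z‖ * (‖nl α z‖ - ‖nl α w‖) + (‖z‖ - ‖w‖) * ‖nl α w‖ := by ring
  have h2 : |‖nl α z‖ - ‖nl α w‖| ≤ L * ‖z - w‖ :=
    (abs_norm_sub_norm_le _ _).trans (hlip z w hz hw)
  have h3 : |‖z‖ - ‖w‖| ≤ ‖z - w‖ := abs_norm_sub_norm_le _ _
  have h4 : ‖nl α w‖ ≤ B ^ α * ‖w‖ := by
    rw [nl_norm]
    exact mul_le_mul_of_nonneg_right (Real.rpow_le_rpow (norm_nonneg _) hw hα.le) (norm_nonneg _)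
  have hBα : 0 ≤ B ^ α := Real.rpow_nonneg hB _
  rw [h1]
  calc |‖z‖ * (‖nl α z‖ - ‖nl α w‖) + (‖z‖ - ‖w‖) * ‖nl α w‖|
      ≤ |‖z‖ * (‖nl α z‖ - ‖nl α w‖)| + |(‖z‖ - ‖w‖) * ‖nl α w‖| := abs_add_le _ _
    _ = ‖z‖ * |‖nl α z‖ - ‖nl α w‖| + |‖z‖ - ‖w‖| * ‖nl α w‖ := by
        rw [abs_mul, abs_mul, abs_of_nonneg (norm_nonneg z), abs_of_nonneg (norm_nonneg (nl α w))]
    _ ≤ ‖z‖ * (L * ‖z - w‖) + ‖z - w‖ * (B ^ α * ‖w‖) :=
        add_le_add (mul_le_mul_of_nonneg_left h2 (norm_nonneg _))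
          (mul_le_mul h3 h4 (norm_nonneg _) (norm_nonneg _))
    _ ≤ (L + B ^ α) * ((‖z‖ + ‖w‖) * ‖z - w‖) := by
        have e1 : 0 ≤ L * (‖w‖ * ‖z - w‖) := by positivity
        have e2 : 0 ≤ B ^ α * (‖z‖ * ‖z - w‖) := by positivity
        nlinarith

private theorem perr_near_pow (hα : 0 < α) {u0 : ZeroAtInftyContinuousMap (E N) ℂ}
    (hu0 : MemLp u0 2 volume) {ε : ℝ} (hε : 0 < ε) :
    ∃ δ : ℝ, 0 < δ ∧ ∀ (η : ℝ) (J : E N → ℝ), η ≤ δ → Mol J η →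
      |(∫ x, ‖cvl J u0 x‖ ^ (α + 2)) - ∫ x, ‖u0 x‖ ^ (α + 2)| ≤ ε := by
  obtain ⟨B, hB⟩ : ∃ B : ℝ, B = ‖u0‖ := ⟨_, rfl⟩
  have hB0 : 0 ≤ B := by rw [hB]; exact norm_nonneg _
  have huB : ∀ x, ‖u0 x‖ ≤ B := by
    intro x
    have h3 := BoundedContinuousFunction.norm_coe_le_norm u0.toBCF x
    rw [ZeroAtInftyContinuousMap.norm_toBCF_eq_norm] at h3
    rw [hB]
    exact h3
  obtain ⟨L, hL, hlip⟩ := nl_lip hα hB0
  obtain ⟨K, hK⟩ : ∃ K : ℝ, K = L + B ^ α + 1 := ⟨_, rfl⟩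
  have hBα : 0 ≤ B ^ α := Real.rpow_nonneg hB0 _
  have hK0 : 0 < K := by rw [hK]; positivity
  obtain ⟨M, hM⟩ : ∃ M : ℝ, M = ∫ x, ‖u0 x‖ ^ 2 := ⟨_, rfl⟩
  have hM0 : 0 ≤ M := by rw [hM]; exact integral_nonneg fun x => sq_nonneg _
  obtain ⟨s, hs⟩ : ∃ s : ℝ, s = ε / (8 * K * (M + 1)) := ⟨_, rfl⟩
  have hs0 : 0 < s := by rw [hs]; positivity
  obtain ⟨δ, hδ, h⟩ := perr_near hu0 (ε := 2 * s * ε / K) (by positivity)
  refine ⟨δ, hδ, fun η J hη hJ => ?_⟩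
  obtain ⟨h1, h2, h3⟩ := h η J hη hJ
  have hgi : Integrable (fun x => ‖u0 x‖ ^ 2) := (memLp_two_iff_integrable_sq_norm hu0.1).mp hu0
  have hci : Integrable (fun x => ‖cvl J u0 x‖ ^ 2) :=
    (memLp_two_iff_integrable_sq_norm h1.1).mp h1
  have hdi : Integrable (fun x => ‖cvl J u0 x - u0 x‖ ^ 2) :=
    (memLp_two_iff_integrable_sq_norm (h1.sub hu0).1).mp (h1.sub hu0)
  have hcB : ∀ x, ‖cvl J u0 x‖ ≤ B := perr_bd hJ huB
  -- the powers are integrable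
  have hpi : ∀ f : E N → ℂ, AEStronglyMeasurable f volume → (∀ x, ‖f x‖ ≤ B) →
      Integrable (fun x => ‖f x‖ ^ 2) → Integrable (fun x => ‖f x‖ ^ (α + 2)) := by
    intro f hf hfB hfi
    refine Integrable.mono' (hfi.const_mul (B ^ α)) ?_ ?_
    · exact (hf.norm.aemeasurable.pow_const _).aestronglyMeasurable
    · refine Filter.Eventually.of_forall fun x => ?_
      rw [Real.norm_of_nonneg (Real.rpow_nonneg (norm_nonneg _) _)]
      rcases eq_or_lt_of_le (norm_nonneg (f x)) with h | h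
      · rw [← h, Real.zero_rpow (by linarith)]
        positivity
      · rw [Real.rpow_add h, Real.rpow_two]
        exact mul_le_mul_of_nonneg_right (Real.rpow_le_rpow (norm_nonneg _) (hfB x) hα.le)
          (sq_nonneg _)
  have hc' := hpi _ h1.1 hcB hci
  have hu' := hpi _ hu0.1 huB hgi
  have hKL : L + B ^ α ≤ K := by rw [hK]; linarith
  have hbd : ∀ x, |‖cvl J u0 x‖ ^ (α + 2) - ‖u0 x‖ ^ (α + 2)| ≤
      K * (2 * s * ‖cvl J u0 x‖ ^ 2 + 2 * s * ‖u0 x‖ ^ 2 +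
        (1 / (4 * s)) * ‖cvl J u0 x - u0 x‖ ^ 2) := by
    intro x
    refine (perr_pow hB0 hα hL hlip (hcB x) (huB x)).trans ?_
    have e0 : 0 ≤ (‖cvl J u0 x‖ + ‖u0 x‖) * ‖cvl J u0 x - u0 x‖ := by positivity
    refine (mul_le_mul_of_nonneg_right hKL e0).trans ?_
    apply mul_le_mul_of_nonneg_left _ hK0.le
    set a := ‖cvl J u0 x‖
    set b := ‖u0 x‖
    set d := ‖cvl J u0 x - u0 x‖
    have e1 : 0 ≤ (2 * s * (a + b) - d) ^ 2 / (4 * s) := by positivity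
    have e2 : (2 * s * (a + b) - d) ^ 2 / (4 * s) =
        s * (a + b) ^ 2 - (a + b) * d + (1 / (4 * s)) * d ^ 2 := by
      field_simp
      ring
    rw [e2] at e1
    have e3 : s * (a + b) ^ 2 ≤ 2 * s * a ^ 2 + 2 * s * b ^ 2 := by
      have e4 : 0 ≤ s * (a - b) ^ 2 := by positivity
      have e5 : 2 * s * a ^ 2 + 2 * s * b ^ 2 - s * (a + b) ^ 2 = s * (a - b) ^ 2 := by ring
      linarith
    linarith
  have hsumi : Integrable (fun x => 2 * s * ‖cvl J u0 x‖ ^ 2 + 2 * s * ‖u0 x‖ ^ 2 +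
        (1 / (4 * s)) * ‖cvl J u0 x - u0 x‖ ^ 2) :=
    ((hci.const_mul _).add (hgi.const_mul _)).add (hdi.const_mul _)
  rw [← integral_sub hc' hu']
  calc |∫ x, (‖cvl J u0 x‖ ^ (α + 2) - ‖u0 x‖ ^ (α + 2))|
      ≤ ∫ x, |‖cvl J u0 x‖ ^ (α + 2) - ‖u0 x‖ ^ (α + 2)| := abs_integral_le_integral_abs
    _ ≤ ∫ x, K * (2 * s * ‖cvl J u0 x‖ ^ 2 + 2 * s * ‖u0 x‖ ^ 2 +
        (1 / (4 * s)) * ‖cvl J u0 x - u0 x‖ ^ 2) :=
        integral_mono_of_nonneg (Filter.Eventually.of_forall fun x => abs_nonneg _)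
          (hsumi.const_mul K) (Filter.Eventually.of_forall hbd)
    _ = K * (2 * s * (∫ x, ‖cvl J u0 x‖ ^ 2) + 2 * s * (∫ x, ‖u0 x‖ ^ 2) +
        (1 / (4 * s)) * ∫ x, ‖cvl J u0 x - u0 x‖ ^ 2) := by
        rw [integral_const_mul, integral_add (f := fun x => 2 * s * ‖cvl J u0 x‖ ^ 2 +
          2 * s * ‖u0 x‖ ^ 2) ((hci.const_mul _).add (hgi.const_mul _)) (hdi.const_mul _),
          integral_add (hci.const_mul _) (hgi.const_mul _), integral_const_mul,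
          integral_const_mul, integral_const_mul]
    _ ≤ K * (2 * s * (M + 1) + 2 * s * (M + 1) + (1 / (4 * s)) * (2 * s * ε / K)) := by
        apply mul_le_mul_of_nonneg_left _ hK0.le
        have e1 : (∫ x, ‖cvl J u0 x‖ ^ 2) ≤ M + 1 := by rw [hM]; linarith
        have e2 : (∫ x, ‖u0 x‖ ^ 2) ≤ M + 1 := by rw [hM]; linarith
        have e3 : 0 ≤ 2 * s := by positivity
        have e4 : 0 ≤ 1 / (4 * s) := by positivity
        exact add_le_add (add_le_add (mul_le_mul_of_nonneg_left e1 e3)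
          (mul_le_mul_of_nonneg_left e2 e3)) (mul_le_mul_of_nonneg_left h2 e4)
    _ = ε := by
        have e1 : K * (1 / (4 * s) * (2 * s * ε / K)) = ε / 2 := by
          field_simp
          ring
        have e2 : K * (2 * s * (M + 1) + 2 * s * (M + 1)) = ε / 2 := by
          rw [hs]
          field_simp
          ring
        rw [mul_add, e1, e2]
        ring

/-- differentiation of the mollified function. -/
private theorem perr_pd {u0 : E N → ℂ} {g : E N → ℂ} {i : Fin N} (hd : IsWeakDeriv u0 g i)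
    {J : E N → ℝ} {η : ℝ} (hJ : Mol J η) (x : E N) : cvl (pd i J) u0 x = cvl J g x := by
  have hT := hJ.t.refl x
  have h1 := hd (fun y => J (x - y)) hT.s hT.k
  have h2 : ∀ y, fderiv ℝ (fun y => J (x - y)) y (ev i) = - pd i J (x - y) := by
    intro y
    have h3 : HasFDerivAt J (fderiv ℝ J (x - y)) (x - y) :=
      ((hJ.t.s.differentiable (by simp)) (x - y)).hasFDerivAt
    have h4 : HasFDerivAt (fun y : E N => x - y) (-ContinuousLinearMap.id ℝ (E N)) y := by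
      simpa using (hasFDerivAt_id y).const_sub x
    have h5 := (h3.comp y h4).fderiv
    have h6 : (J ∘ fun y => x - y) = fun y => J (x - y) := rfl
    rw [h6] at h5
    rw [h5]
    simp [pd]
  have h3 : (∫ y, (fderiv ℝ (fun y => J (x - y)) y (ev i)) • u0 y) = - cvl (pd i J) u0 x := by
    unfold cvl
    rw [← integral_neg]
    congr 1
    funext y
    rw [h2 y, neg_smul]
  rw [h3] at h1
  exact neg_injective h1

private theorem perr_min {ι : Type*} [Fintype ι] (δ : ι → ℝ) (h : ∀ i, 0 < δ i) :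
    ∃ δ0 : ℝ, 0 < δ0 ∧ ∀ i, δ0 ≤ δ i := by
  classical
  refine ⟨(insert 1 (Finset.univ.image δ)).min' (Finset.insert_nonempty _ _), ?_, ?_⟩
  · rw [Finset.lt_min'_iff]
    intro y hy
    rcases Finset.mem_insert.1 hy with h1 | h1
    · rw [h1]; norm_num
    · obtain ⟨i, -, rfl⟩ := Finset.mem_image.1 h1
      exact h i
  · intro i
    apply Finset.min'_le
    exact Finset.mem_insert_of_mem (Finset.mem_image_of_mem _ (Finset.mem_univ i))

theorem data_conv (hα : 0 < α) {u0 : ZeroAtInftyContinuousMap (E N) ℂ}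
    {g : Fin N → E N → ℂ} (hu0 : MemLp u0 2 volume) (hg : ∀ i, MemLp (g i) 2 volume)
    (hd : ∀ i, IsWeakDeriv u0 (g i) i) {ε : ℝ} (hε : 0 < ε) : ∃ η0 : ℝ, 0 < η0 ∧
      ∀ (η : ℝ) (J : E N → ℝ), 0 < η → η ≤ η0 → Mol J η →
        |(∫ x, ∑ i, ‖cvl (pd i J) u0 x‖ ^ 2) - ∑ i, ∫ x, ‖g i x‖ ^ 2| ≤ ε ∧
        |(∫ x, ‖cvl J u0 x‖ ^ (α + 2)) - ∫ x, ‖u0 x‖ ^ (α + 2)| ≤ ε ∧
        (∫ x, ‖cvl J u0 x‖ ^ 2) ≤ ∫ x, ‖u0 x‖ ^ 2 := by
  have hε' : 0 < ε / ((N : ℝ) + 1) := by positivity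
  choose δ hδ hδ' using fun i => perr_near_norm (hg i) hε'
  obtain ⟨δ0, hδ0, hδ0'⟩ := perr_min δ hδ
  obtain ⟨δ1, hδ1, hδ1'⟩ := perr_near_pow hα hu0 hε
  obtain ⟨δ2, hδ2, hδ2'⟩ := perr_near hu0 hε
  refine ⟨min δ0 (min δ1 δ2), lt_min hδ0 (lt_min hδ1 hδ2), ?_⟩
  intro η J hη hηm hJ
  have hη0 : η ≤ δ0 := hηm.trans (min_le_left _ _)
  have hη1 : η ≤ δ1 := hηm.trans ((min_le_right _ _).trans (min_le_left _ _))
  have hη2 : η ≤ δ2 := hηm.trans ((min_le_right _ _).trans (min_le_right _ _))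
  refine ⟨?_, hδ1' η J hη1 hJ, (hδ2' η J hη2 hJ).2.2⟩
  have h1 : (fun x => ∑ i, ‖cvl (pd i J) u0 x‖ ^ 2) = fun x => ∑ i, ‖cvl J (g i) x‖ ^ 2 := by
    funext x
    apply Finset.sum_congr rfl
    intro i _
    rw [perr_pd (hd i) hJ x]
  have h2 : ∀ i, Integrable (fun x => ‖cvl J (g i) x‖ ^ 2) := by
    intro i
    have h3 := (hδ' i η J (hη0.trans (hδ0' i)) hJ).1
    exact (memLp_two_iff_integrable_sq_norm h3.1).mp h3
  rw [h1, integral_finsetSum _ (fun i _ => h2 i), ← Finset.sum_sub_distrib]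
  calc |∑ i, ((∫ x, ‖cvl J (g i) x‖ ^ 2) - ∫ x, ‖g i x‖ ^ 2)|
      ≤ ∑ i, |(∫ x, ‖cvl J (g i) x‖ ^ 2) - ∫ x, ‖g i x‖ ^ 2| := Finset.abs_sum_le_sum_abs _ _
    _ ≤ ∑ _i : Fin N, ε / ((N : ℝ) + 1) :=
        Finset.sum_le_sum fun i _ => (hδ' i η J (hη0.trans (hδ0' i)) hJ).2
    _ = N * (ε / ((N : ℝ) + 1)) := by
        rw [Finset.sum_const, Finset.card_univ, Fintype.card_fin, nsmul_eq_mul]
    _ ≤ ε := by
        rw [mul_div_assoc', div_le_iff₀ (by positivity)]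
        nlinarith
end CGL
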