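import Pool.Agent.CGL.Defs
/-! REST: restriction of an approximate solution to a shorter interval -/
open MeasureTheory Set Filter Topology
namespace CGL
variable {N : ℕ} {α θ γ T : ℝ}

/-- restriction to `[0,S]`. -/
def ASol.restrict (A : ASol N α θ γ T) {S : ℝ} (hS : S ≤ T) : ASol N α θ γ S where
  v := A.v
  dv := A.dv
  ddv := A.ddv
  vt := A.vt
  dvt := A.dvt
  R := A.R
  G := A.G
  cv := A.cv
  cdv := A.cdv
  cddv := A.cddv
  cvt := A.cvt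
  cdvt := A.cdvt
  cR := A.cR
  c1 := A.c1
  hv := fun i t ht x => A.hv i t ⟨ht.1, ht.2.trans hS⟩ x
  hdv := fun i t ht x => A.hdv i t ⟨ht.1, ht.2.trans hS⟩ x
  hvtx := fun i t ht x => A.hvtx i t ⟨ht.1, ht.2.trans hS⟩ x
  ht := fun t ht x => A.ht t ⟨ht.1, ht.2.trans_le hS⟩ x
  hdt := fun i t ht x => A.hdt i t ⟨ht.1, ht.2.trans_le hS⟩ x
  G0 := A.G0
  Gc := A.Gc
  Gb := A.Gb
  G2 := A.G2
  bv := fun t ht x => A.bv t ⟨ht.1, ht.2.trans hS⟩ x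
  bdv := fun i t ht x => A.bdv i t ⟨ht.1, ht.2.trans hS⟩ x
  bddv := fun i t ht x => A.bddv i t ⟨ht.1, ht.2.trans hS⟩ x
  bvt := fun t ht x => A.bvt t ⟨ht.1, ht.2.trans hS⟩ x
  bdvt := fun i t ht x => A.bdvt i t ⟨ht.1, ht.2.trans hS⟩ x
  bR := fun t ht x => A.bR t ⟨ht.1, ht.2.trans hS⟩ x
  eq := fun t ht x => A.eq t ⟨ht.1, ht.2.trans hS⟩ x

@[simp] theorem ASol.restrict_v (A : ASol N α θ γ T) {S : ℝ} (hS : S ≤ T) :
    (A.restrict hS).v = A.v := rfl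
@[simp] theorem ASol.restrict_R (A : ASol N α θ γ T) {S : ℝ} (hS : S ≤ T) :
    (A.restrict hS).R = A.R := rfl
theorem ASol.restrict_M (A : ASol N α θ γ T) {S : ℝ} (hS : S ≤ T) (t : ℝ) :
    (A.restrict hS).M t = A.M t := rfl
theorem ASol.restrict_D (A : ASol N α θ γ T) {S : ℝ} (hS : S ≤ T) (t : ℝ) :
    (A.restrict hS).D t = A.D t := rfl
theorem ASol.restrict_F (A : ASol N α θ γ T) {S : ℝ} (hS : S ≤ T) (t : ℝ) :
    (A.restrict hS).F t = A.F t := rfl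
theorem ASol.restrict_En (A : ASol N α θ γ T) {S : ℝ} (hS : S ≤ T) (t : ℝ) :
    (A.restrict hS).En t = A.En t := rfl
theorem ASol.restrict_Kap (A : ASol N α θ γ T) {S : ℝ} (hS : S ≤ T) (t : ℝ) :
    (A.restrict hS).Kap t = A.Kap t := rfl
theorem ASol.restrict_Rho (A : ASol N α θ γ T) {S : ℝ} (hS : S ≤ T) (t : ℝ) :
    (A.restrict hS).Rho t = A.Rho t := rfl
end CGL
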