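import Pool.Agent.CGL.Defs
/-! ODE: the perturbed Levine lemma (pure real analysis) -/
open MeasureTheory Set Filter Topology
namespace CGL

/-- choice of the small parameter -/
lemma ode_delta (c α : ℝ) (hc : 0 < c) (hα : 0 < α) :
    ∃ δ : ℝ, 0 < δ ∧ δ ≤ 1 / 2 ∧ 0 < c - 2 * δ ∧
      (1 + α / 4) * (2 * (c + δ)) ≤ (c - 2 * δ) * (1 - δ) ^ 2 * (α + 2) := by
  have h1 : Continuous fun δ : ℝ =>
      (c - 2 * δ) * (1 - δ) ^ 2 * (α + 2) - (1 + α / 4) * (2 * (c + δ)) := by fun_prop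
  have h2 : (0 : ℝ) < (fun δ : ℝ =>
      (c - 2 * δ) * (1 - δ) ^ 2 * (α + 2) - (1 + α / 4) * (2 * (c + δ))) 0 := by
    simp only
    nlinarith [mul_pos hc hα]
  have h3 : ∀ᶠ δ in 𝓝 (0 : ℝ), 0 < (c - 2 * δ) * (1 - δ) ^ 2 * (α + 2) -
      (1 + α / 4) * (2 * (c + δ)) := h1.continuousAt.eventually (lt_mem_nhds h2)
  have h4 : ∀ᶠ δ in 𝓝 (0 : ℝ), δ < 1 / 2 ∧ δ < c / 4 := by
    filter_upwards [gt_mem_nhds (show (0 : ℝ) < 1 / 2 by norm_num),
      gt_mem_nhds (show (0 : ℝ) < c / 4 by linarith)] with δ a b using ⟨a, b⟩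
  have h5 : ∀ᶠ δ in 𝓝[>] (0 : ℝ), (0 < (c - 2 * δ) * (1 - δ) ^ 2 * (α + 2) -
      (1 + α / 4) * (2 * (c + δ))) ∧ (δ < 1 / 2 ∧ δ < c / 4) :=
    (h3.and h4).filter_mono nhdsWithin_le_nhds
  have h6 : ∀ᶠ δ in 𝓝[>] (0 : ℝ), δ ∈ Ioi (0 : ℝ) := self_mem_nhdsWithin
  obtain ⟨δ, ⟨a, b, b'⟩, d⟩ := (h5.and h6).exists
  have d' : 0 < δ := d
  exact ⟨δ, d', b.le, by linarith, by linarith⟩

/-- the pointwise estimate -/
lemma ode_point {c α δ ρ y z z' Q V : ℝ} {ζ q : ℂ} (hα : 0 < α) (hδ : 0 < δ)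
    (hδ2 : δ ≤ 1 / 2) (hcδ : 0 < c - 2 * δ)
    (hch : (1 + α / 4) * (2 * (c + δ)) ≤ (c - 2 * δ) * (1 - δ) ^ 2 * (α + 2))
    (hζ : ζ.re = c) (hζ1 : ‖ζ‖ = 1) (hρ : 0 ≤ ρ) (hz : 0 < z) (hy : 0 ≤ y) (hV : 0 ≤ V)
    (h1 : ‖q - ζ * (Q : ℂ)‖ ≤ Real.sqrt y * ρ) (h2 : ‖q‖ ≤ Real.sqrt y * V)
    (h3 : c * V ^ 2 - ρ * V ≤ z') (h4 : (α + 2) * z ≤ Q)
    (hs : Real.sqrt y * ρ ≤ δ * ((α + 2) * z)) :
    0 < y ∧ 0 ≤ z' ∧ 2 * (c - δ) * (α + 2) * z ≤ 2 * q.re ∧
      (1 + α / 4) * z * (2 * q.re) ≤ z' * y := by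
  have hα2 : 0 < α + 2 := by linarith
  have hQ : 0 < Q := lt_of_lt_of_le (mul_pos hα2 hz) h4
  have hc : 0 < c := by linarith
  have hsQ : Real.sqrt y * ρ ≤ δ * Q := hs.trans (by nlinarith)
  have hn : ‖ζ * (Q : ℂ)‖ = Q := by
    rw [norm_mul, hζ1, one_mul, Complex.norm_real, Real.norm_of_nonneg hQ.le]
  have hq1 : (1 - δ) * Q ≤ ‖q‖ := by
    have h5 : ‖ζ * (Q : ℂ)‖ ≤ ‖q‖ + ‖q - ζ * (Q : ℂ)‖ := by
      have h6 := norm_sub_le q (q - ζ * (Q : ℂ))
      rwa [sub_sub_cancel] at h6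
    rw [hn] at h5
    linarith
  have hsV : (1 - δ) * Q ≤ Real.sqrt y * V := hq1.trans h2
  have hpos : 0 < (1 - δ) * Q := mul_pos (by linarith) hQ
  have hsy : 0 < Real.sqrt y := by
    rcases (Real.sqrt_nonneg y).lt_or_eq with h | h
    · exact h
    · rw [← h] at hsV
      linarith
  have hy0 : 0 < y := Real.sqrt_pos.1 hsy
  have hyy : Real.sqrt y * Real.sqrt y = y := Real.mul_self_sqrt hy
  have hre : (q - ζ * (Q : ℂ)).re = q.re - c * Q := by
    rw [Complex.sub_re, Complex.mul_re, Complex.ofReal_re, Complex.ofReal_im, hζ]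
    ring
  have hab : |q.re - c * Q| ≤ δ * Q := by
    rw [← hre]
    exact (Complex.abs_re_le_norm _).trans (h1.trans hsQ)
  obtain ⟨hr1, hr2⟩ := abs_le.1 hab
  have hV0 : 0 < V := by
    rcases hV.lt_or_eq with h | h
    · exact h
    · rw [← h, mul_zero] at hsV
      linarith
  -- ρ ≤ 2 δ V
  have hρV : ρ ≤ 2 * δ * V := by
    have h5 : Real.sqrt y * ρ ≤ Real.sqrt y * (2 * δ * V) := by
      have h6 : δ * Q ≤ 2 * δ * ((1 - δ) * Q) := by
        have : 0 ≤ δ * Q * (1 - 2 * δ) := mul_nonneg (mul_pos hδ hQ).le (by linarith)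
        nlinarith
      calc Real.sqrt y * ρ ≤ δ * Q := hsQ
        _ ≤ 2 * δ * ((1 - δ) * Q) := h6
        _ ≤ 2 * δ * (Real.sqrt y * V) := by
            exact mul_le_mul_of_nonneg_left hsV (by linarith)
        _ = Real.sqrt y * (2 * δ * V) := by ring
    exact le_of_mul_le_mul_left h5 hsy
  have hz' : (c - 2 * δ) * V ^ 2 ≤ z' := by
    have : ρ * V ≤ 2 * δ * V * V := mul_le_mul_of_nonneg_right hρV hV
    nlinarith
  have hz'0 : 0 ≤ z' := le_trans (mul_nonneg hcδ.le (sq_nonneg V)) hz'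
  refine ⟨hy0, hz'0, ?_, ?_⟩
  · have h5 : (c - δ) * ((α + 2) * z) ≤ (c - δ) * Q :=
      mul_le_mul_of_nonneg_left h4 (by linarith)
    nlinarith
  · have h5 : 2 * q.re ≤ 2 * (c + δ) * Q := by nlinarith
    have h6 : (c - 2 * δ) * ((1 - δ) * Q) ^ 2 ≤ z' * y := by
      have h7 : ((1 - δ) * Q) ^ 2 ≤ (Real.sqrt y * V) ^ 2 := by
        exact pow_le_pow_left₀ hpos.le hsV 2
      have h8 : (Real.sqrt y * V) ^ 2 = y * V ^ 2 := by
        rw [mul_pow, Real.sq_sqrt hy]
      calc (c - 2 * δ) * ((1 - δ) * Q) ^ 2 ≤ (c - 2 * δ) * (y * V ^ 2) := by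
            rw [← h8]; exact mul_le_mul_of_nonneg_left h7 hcδ.le
        _ = ((c - 2 * δ) * V ^ 2) * y := by ring
        _ ≤ z' * y := mul_le_mul_of_nonneg_right hz' hy
    have hb : 0 < (1 + α / 4) := by linarith
    have h9 : (1 + α / 4) * z * (2 * q.re) ≤ (1 + α / 4) * z * (2 * (c + δ) * Q) :=
      mul_le_mul_of_nonneg_left h5 (mul_pos hb hz).le
    -- (α+2) z ≤ Q
    have h10 : (α + 2) * ((1 + α / 4) * z * (2 * (c + δ) * Q)) ≤
        (α + 2) * ((c - 2 * δ) * ((1 - δ) * Q) ^ 2) := by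
      have e1 : (α + 2) * ((1 + α / 4) * z * (2 * (c + δ) * Q)) =
          ((1 + α / 4) * (2 * (c + δ)) * Q) * ((α + 2) * z) := by ring
      have e2 : (α + 2) * ((c - 2 * δ) * ((1 - δ) * Q) ^ 2) =
          ((c - 2 * δ) * (1 - δ) ^ 2 * (α + 2) * Q) * Q := by ring
      rw [e1, e2]
      have h11 : 0 ≤ (1 + α / 4) * (2 * (c + δ)) * Q := by positivity
      calc ((1 + α / 4) * (2 * (c + δ)) * Q) * ((α + 2) * z)
          ≤ ((1 + α / 4) * (2 * (c + δ)) * Q) * Q := mul_le_mul_of_nonneg_left h4 h11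
        _ ≤ ((c - 2 * δ) * (1 - δ) ^ 2 * (α + 2) * Q) * Q := by
            apply mul_le_mul_of_nonneg_right _ hQ.le
            exact mul_le_mul_of_nonneg_right hch hQ.le
    have h12 := le_of_mul_le_mul_left h10 hα2
    exact h9.trans (h12.trans h6)

theorem ode_levine (c α Y0 ε0 : ℝ) (hc : 0 < c) (hc1 : c ≤ 1) (hα : 0 < α) (hY : 0 < Y0)
    (hε : 0 < ε0) :
    ∃ Ts : ℝ, 0 < Ts ∧ ∃ ρ0 : ℝ, 0 < ρ0 ∧
      ∀ (τ ρ : ℝ) (ζ : ℂ) (y z z' Q V : ℝ → ℝ) (q : ℝ → ℂ),
        ζ.re = c → ‖ζ‖ = 1 → 0 ≤ ρ → ρ ≤ ρ0 →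
        ContinuousOn y (Icc τ (τ + Ts)) → ContinuousOn z (Icc τ (τ + Ts)) →
        (∀ t ∈ Ioo τ (τ + Ts), HasDerivAt y (2 * (q t).re) t) →
        (∀ t ∈ Ioo τ (τ + Ts), HasDerivAt z (z' t) t) →
        (∀ t ∈ Ioo τ (τ + Ts), 0 ≤ y t ∧ 0 ≤ V t ∧
          ‖q t - ζ * (Q t : ℂ)‖ ≤ Real.sqrt (y t) * ρ ∧
          ‖q t‖ ≤ Real.sqrt (y t) * V t ∧
          c * V t ^ 2 - ρ * V t ≤ z' t ∧
          (α + 2) * z t ≤ Q t) →
        y τ ≤ Y0 → ε0 ≤ z τ → False := by
  obtain ⟨δ, hδ, hδ2, hcδ, hch⟩ := ode_delta c α hc hα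
  have hα2 : 0 < α + 2 := by linarith
  obtain ⟨k, hk⟩ : ∃ k, k = (α / 4) * (2 * (c - δ) * (α + 2)) := ⟨_, rfl⟩
  have hk0 : 0 < k := by
    rw [hk]
    exact mul_pos (by linarith) (mul_pos (by linarith) hα2)
  have hA : 0 < Y0 / ε0 := div_pos hY hε
  refine ⟨Y0 / ε0 / k + 1, by positivity, δ * (α + 2) * ε0 / (2 * Real.sqrt Y0), by positivity, ?_⟩
  intro τ ρ ζ y z z' Q V q hζ hζ1 hρ hρ0 hyc hzc hyd hzd hall hy0 hz0
  obtain ⟨T, hT⟩ : ∃ T, T = Y0 / ε0 / k + 1 := ⟨_, rfl⟩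
  rw [← hT] at hyc hzc hyd hzd hall
  have hT0 : 0 < T := by rw [hT]; positivity
  -- the invariant set
  let S : Set ℝ := {t | ε0 ≤ z t ∧ y t ≤ (Y0 / ε0 - k * (t - τ)) * z t}
  have hclosed : IsClosed (S ∩ Icc τ (τ + T)) := by
    have e1 : S ∩ Icc τ (τ + T) = Icc τ (τ + T) ∩ ({t | ε0 ≤ z t} ∩
        {t | y t ≤ (Y0 / ε0 - k * (t - τ)) * z t}) := by
      ext t
      simp only [S, mem_inter_iff, mem_setOf_eq]
      tauto
    rw [e1, inter_inter_distrib_left]
    apply IsClosed.inter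
    · exact hzc.preimage_isClosed_of_isClosed isClosed_Icc isClosed_Ici
    · have h1 : ContinuousOn (fun t => (Y0 / ε0 - k * (t - τ)) * z t - y t) (Icc τ (τ + T)) := by
        apply ContinuousOn.sub _ hyc
        apply ContinuousOn.mul _ hzc
        fun_prop
      have h2 := h1.preimage_isClosed_of_isClosed isClosed_Icc (isClosed_Ici (a := (0 : ℝ)))
      convert h2 using 2
      ext t
      simp
  have hsub : Icc τ (τ + T) ⊆ S := by
    apply hclosed.Icc_subset_of_forall_exists_gt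
    · refine ⟨hz0, ?_⟩
      have : Y0 / ε0 * ε0 ≤ Y0 / ε0 * z τ := mul_le_mul_of_nonneg_left hz0 hA.le
      rw [div_mul_cancel₀ _ hε.ne'] at this
      rw [sub_self, mul_zero, sub_zero]
      linarith
    · rintro t ⟨⟨hz1, hy1⟩, ht1, ht2⟩ u hu
      have hz1' : 0 < z t := lt_of_lt_of_le hε hz1
      -- strict smallness at t
      have hst : Real.sqrt (y t) * ρ < δ * ((α + 2) * z t) := by
        have h1 : y t ≤ Y0 / ε0 * z t := by
          have : 0 ≤ k * (t - τ) * z t := mul_nonneg (mul_nonneg hk0.le (by linarith)) hz1'.le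
          nlinarith
        have h2 : y t ≤ Y0 / ε0 ^ 2 * (z t) ^ 2 := by
          have h3 : Y0 / ε0 * z t ≤ Y0 / ε0 ^ 2 * (z t) ^ 2 := by
            have e : Y0 / ε0 ^ 2 * (z t) ^ 2 - Y0 / ε0 * z t =
                Y0 / ε0 ^ 2 * (z t) * (z t - ε0) := by
              field_simp
            have h4 : 0 ≤ Y0 / ε0 ^ 2 * (z t) * (z t - ε0) :=
              mul_nonneg (by positivity) (by linarith)
            linarith
          linarith
        have h5 : Real.sqrt (y t) ≤ Real.sqrt Y0 / ε0 * z t := by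
          rw [show Real.sqrt Y0 / ε0 * z t = Real.sqrt ((Real.sqrt Y0 / ε0 * z t) ^ 2) by
            rw [Real.sqrt_sq (by positivity)]]
          apply Real.sqrt_le_sqrt
          rw [mul_pow, div_pow, Real.sq_sqrt hY.le]
          exact h2
        have hsY : 0 < Real.sqrt Y0 := Real.sqrt_pos.2 hY
        calc Real.sqrt (y t) * ρ ≤ (Real.sqrt Y0 / ε0 * z t) *
              (δ * (α + 2) * ε0 / (2 * Real.sqrt Y0)) :=
              mul_le_mul h5 hρ0 hρ (by positivity)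
          _ = δ * ((α + 2) * z t) / 2 := by field_simp
          _ < δ * ((α + 2) * z t) := by
              have : 0 < δ * ((α + 2) * z t) := by positivity
              linarith
      -- smallness to the right
      have hIcc : t ∈ Icc τ (τ + T) := ⟨ht1, ht2.le⟩
      have hev : ∀ᶠ s in 𝓝[Icc τ (τ + T)] t,
          Real.sqrt (y s) * ρ < δ * ((α + 2) * z s) ∧ 0 < z s := by
        have c1 : ContinuousWithinAt (fun s => δ * ((α + 2) * z s) - Real.sqrt (y s) * ρ)
            (Icc τ (τ + T)) t := by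
          have a1 := hyc t hIcc
          have a2 := hzc t hIcc
          exact ((a2.const_mul _).const_mul _).sub (a1.sqrt.mul_const _)
        have c2 := c1.eventually (lt_mem_nhds (sub_pos.2 hst))
        have c3 := (hzc t hIcc).eventually (lt_mem_nhds hz1')
        filter_upwards [c2, c3] with s a b
        exact ⟨by linarith, b⟩
      rw [eventually_nhdsWithin_iff, Metric.eventually_nhds_iff] at hev
      obtain ⟨η, hη, hball⟩ := hev
      -- the right end
      have hu' : t < u := hu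
      obtain ⟨w, hw⟩ : ∃ w, w = min (min u (t + η / 2)) (τ + T) := ⟨_, rfl⟩
      have hwu : w ≤ u := by rw [hw]; exact (min_le_left _ _).trans (min_le_left _ _)
      have hwη : w ≤ t + η / 2 := by rw [hw]; exact (min_le_left _ _).trans (min_le_right _ _)
      have hwT : w ≤ τ + T := by rw [hw]; exact min_le_right _ _
      have htw : t < w := by
        rw [hw]
        exact lt_min (lt_min hu' (by linarith)) ht2
      have hsm : ∀ s ∈ Icc t w, Real.sqrt (y s) * ρ < δ * ((α + 2) * z s) ∧ 0 < z s := by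
        intro s hs
        apply hball
        · rw [Real.dist_eq, abs_of_nonneg (by linarith [hs.1])]
          linarith [hs.2]
        · exact ⟨ht1.trans hs.1, hs.2.trans hwT⟩
      have hsubI : Icc t w ⊆ Icc τ (τ + T) := Icc_subset_Icc ht1 hwT
      have hsubO : Ioo t w ⊆ Ioo τ (τ + T) := Ioo_subset_Ioo ht1 hwT
      have hpt : ∀ s ∈ Ioo t w, 0 < y s ∧ 0 ≤ z' s ∧
          2 * (c - δ) * (α + 2) * z s ≤ 2 * (q s).re ∧
          (1 + α / 4) * z s * (2 * (q s).re) ≤ z' s * y s := by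
        intro s hs
        obtain ⟨b1, b2, b3, b4, b5, b6⟩ := hall s (hsubO hs)
        obtain ⟨d1, d2⟩ := hsm s (Ioo_subset_Icc_self hs)
        exact ode_point hα hδ hδ2 hcδ hch hζ hζ1 hρ d2 b1 b2 b3 b4 b5 b6 d1.le
      -- z is monotone
      have hzm : MonotoneOn z (Icc t w) := by
        apply monotoneOn_of_deriv_nonneg (convex_Icc t w) (hzc.mono hsubI)
        · rw [interior_Icc]
          intro s hs
          exact (hzd s (hsubO hs)).differentiableAt.differentiableWithinAt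
        · rw [interior_Icc]
          intro s hs
          rw [(hzd s (hsubO hs)).deriv]
          exact (hpt s hs).2.1
      -- the quotient
      have hqm : AntitoneOn (fun s => y s / z s + k * (s - τ)) (Icc t w) := by
        have hder : ∀ s ∈ Ioo t w, HasDerivAt (fun s => y s / z s + k * (s - τ))
            ((2 * (q s).re * z s - y s * z' s) / (z s) ^ 2 + k * 1) s := by
          intro s hs
          have d2 := (hsm s (Ioo_subset_Icc_self hs)).2
          exact ((hyd s (hsubO hs)).div (hzd s (hsubO hs)) d2.ne').add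
            (((hasDerivAt_id s).sub_const τ).const_mul k)
        apply antitoneOn_of_deriv_nonpos (convex_Icc t w)
        · apply ContinuousOn.add
          · apply (hyc.mono hsubI).div (hzc.mono hsubI)
            intro s hs
            exact (hsm s hs).2.ne'
          · fun_prop
        · rw [interior_Icc]
          intro s hs
          exact (hder s hs).differentiableAt.differentiableWithinAt
        · rw [interior_Icc]
          intro s hs
          rw [(hder s hs).deriv]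
          obtain ⟨b1, b2, b3, b4⟩ := hpt s hs
          have d2 := (hsm s (Ioo_subset_Icc_self hs)).2
          have e1 : 2 * (q s).re * z s - y s * z' s ≤ - k * (z s) ^ 2 := by
            have e2 : 2 * (q s).re * z s - y s * z' s ≤ - (α / 4) * z s * (2 * (q s).re) := by
              nlinarith
            have e3 : (α / 4) * z s * (2 * (c - δ) * (α + 2) * z s) ≤
                (α / 4) * z s * (2 * (q s).re) :=
              mul_le_mul_of_nonneg_left b3 (by positivity)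
            have e4 : (α / 4) * z s * (2 * (c - δ) * (α + 2) * z s) = k * (z s) ^ 2 := by
              rw [hk]; ring
            linarith
          have e5 : (2 * (q s).re * z s - y s * z' s) / (z s) ^ 2 ≤ - k := by
            rw [div_le_iff₀ (by positivity)]
            exact e1
          linarith
      have htI : t ∈ Icc t w := left_mem_Icc.2 htw.le
      have hwI : w ∈ Icc t w := right_mem_Icc.2 htw.le
      refine ⟨w, ⟨?_, ?_⟩, htw, hwu⟩
      · exact hz1.trans (hzm htI hwI htw.le)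
      · have h1 := hqm htI hwI htw.le
        simp only at h1
        have hzw := (hsm w hwI).2
        have h2 : y t / z t ≤ Y0 / ε0 - k * (t - τ) := by
          rw [div_le_iff₀ hz1']
          exact hy1
        have h3 : y w / z w ≤ Y0 / ε0 - k * (w - τ) := by linarith
        rwa [div_le_iff₀ hzw] at h3
  -- conclusion
  have ht : τ + (Y0 / ε0 / k + 1 / 2) ∈ Ioo τ (τ + T) := by
    constructor
    · have : 0 < Y0 / ε0 / k := by positivity
      linarith
    · rw [hT]; linarith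
  obtain ⟨h1, h2⟩ := hsub (Ioo_subset_Icc_self ht)
  have h3 := (hall _ ht).1
  have h4 : Y0 / ε0 - k * (τ + (Y0 / ε0 / k + 1 / 2) - τ) = - (k / 2) := by
    field_simp
    ring
  rw [h4] at h2
  have h5 : 0 < k / 2 * z (τ + (Y0 / ε0 / k + 1 / 2)) :=
    mul_pos (by linarith) (lt_of_lt_of_le hε h1)
  linarith

end CGL
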