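import Pool.Agent.CGL.Wen
import Pool.Agent.CGL.Wpa
import Pool.Agent.CGL.Ode
/-! THC: energy positivity for long approximate solutions -/
open MeasureTheory Set Filter Topology
namespace CGL

private theorem thc_int {N : ℕ} {α θ γ T : ℝ} {A : ASol N α θ γ T} {f g : ℝ → E N → ℂ}
    (hf : Dom T A.G f) (hg : Dom T A.G g) {t : ℝ} (ht : t ∈ Icc (0:ℝ) T) :
    Integrable (fun x => (starRingEnd ℂ) (f t x) * g t x) := by
  have cf : Continuous (f t) := hf.1.comp (Continuous.prodMk_right t)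
  have cg : Continuous (g t) := hg.1.comp (Continuous.prodMk_right t)
  refine (adm_slice A.gok (adm_normmul A.G0 hf hg) ht).mono'
    ((Complex.continuous_conj.comp cf).mul cg).aestronglyMeasurable
    (ae_of_all _ fun x => ?_)
  rw [norm_mul, Complex.norm_conj]

theorem energy_pos (N : ℕ) (α θ : ℝ) (hα : 0 < α) (hc : 0 < Real.cos θ) (Y0 ε0 : ℝ)
    (hY : 0 < Y0) (hε : 0 < ε0) :
    ∃ Ts : ℝ, 0 < Ts ∧ ∃ ρ0 : ℝ, 0 < ρ0 ∧ ∀ (γ T S : ℝ), 0 ≤ γ → 0 ≤ S → S + Ts ≤ T →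
      ∀ A : ASol N α θ γ T, (∀ t ∈ Icc (0:ℝ) T, (∫ x, ‖A.R t x‖ ^ 2) ≤ ρ0 ^ 2) →
        A.M S ≤ Y0 → - ε0 < A.En S := by
  obtain ⟨Ts, hTs, ρ0, hρ0, key⟩ := ode_levine (Real.cos θ) α Y0 ε0 hc (Real.cos_le_one θ) hα hY hε
  refine ⟨Ts, hTs, ρ0, hρ0, fun γ T S hγ hS hST A hR hM => ?_⟩
  by_contra hcon
  push Not at hcon
  have hsub : Icc S (S + Ts) ⊆ Icc (0:ℝ) T := Icc_subset_Icc hS hST
  have hsub' : Ioo S (S + Ts) ⊆ Ioo (0:ℝ) T := Ioo_subset_Ioo hS hST
  have hph1 : (ph θ).re = Real.cos θ := by unfold ph; exact Complex.exp_ofReal_mul_I_re θ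
  have hph2 : ‖ph θ‖ = 1 := by unfold ph; exact Complex.norm_exp_ofReal_mul_I θ
  have hRs : ∀ t ∈ Icc (0:ℝ) T, Real.sqrt (∫ x, ‖A.R t x‖ ^ 2) ≤ ρ0 := fun t ht => by
    rw [show ρ0 = Real.sqrt (ρ0 ^ 2) from (Real.sqrt_sq hρ0.le).symm]
    exact Real.sqrt_le_sqrt (hR t ht)
  refine key S ρ0 (ph θ) A.M (fun t => - A.En t)
    (fun t => - (-(Real.cos θ) * (∫ x, ‖A.vt t x‖ ^ 2)
        + (∫ x, ((starRingEnd ℂ) (A.R t x) * A.vt t x).re)
        - α * γ * Real.exp (α * γ * t) / (α + 2) * A.F t))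
    (fun t => Real.exp (α * γ * t) * A.F t - A.D t)
    (fun t => Real.sqrt (∫ x, ‖A.vt t x‖ ^ 2))
    (fun t => ∫ x, (starRingEnd ℂ) (A.v t x) * A.vt t x)
    hph1 hph2 hρ0.le le_rfl ((M_cont A).mono hsub) ((energy_cont A hα).neg.mono hsub)
    (fun t ht => M_deriv A t (hsub' ht)) (fun t ht => (energy_deriv A hα t (hsub' ht)).neg)
    ?_ hM (by linarith)
  intro t ht
  have ht' : t ∈ Icc (0:ℝ) T := hsub ⟨ht.1.le, ht.2.le⟩
  have hgs : ∀ {f : ℝ → E N → ℂ}, Continuous (Function.uncurry f) → Continuous (f t) :=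
    fun hf => hf.comp (Continuous.prodMk_right t)
  have hD : 0 ≤ A.D t := integral_nonneg fun x => Finset.sum_nonneg fun i _ => by positivity
  have hF : 0 ≤ A.F t := integral_nonneg fun x => by positivity
  have hV2 : 0 ≤ ∫ x, ‖A.vt t x‖ ^ 2 := integral_nonneg fun x => by positivity
  have hM0 : 0 ≤ A.M t := integral_nonneg fun x => by positivity
  refine ⟨hM0, Real.sqrt_nonneg _, ?_, ?_, ?_, ?_⟩
  · rw [pair_complex A hα ht', add_sub_cancel_left, norm_mul, hph2, one_mul]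
    have h := slice_cs A.gok (hgs A.cv) (hgs A.cR) (Cf := 1) (Cg := 1)
      (fun x => by simpa using A.bv t ht' x) (fun x => by simpa using A.bR t ht' x)
    exact h.trans (mul_le_mul_of_nonneg_left (hRs t ht') (Real.sqrt_nonneg _))
  · exact slice_cs A.gok (hgs A.cv) (hgs A.cvt) (Cf := 1) (Cg := 1)
      (fun x => by simpa using A.bv t ht' x) (fun x => by simpa using A.bvt t ht' x)
  · rw [Real.sq_sqrt hV2]
    have h := slice_cs A.gok (hgs A.cR) (hgs A.cvt) (Cf := 1) (Cg := 1)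
      (fun x => by simpa using A.bR t ht' x) (fun x => by simpa using A.bvt t ht' x)
    have h2 : (∫ x, ((starRingEnd ℂ) (A.R t x) * A.vt t x).re)
        ≤ ρ0 * Real.sqrt (∫ x, ‖A.vt t x‖ ^ 2) := by
      have e : (∫ x, ((starRingEnd ℂ) (A.R t x) * A.vt t x).re)
          = (∫ x, (starRingEnd ℂ) (A.R t x) * A.vt t x).re :=
        integral_re (thc_int A.dom_R A.dom_vt ht')
      rw [e]
      exact (Complex.re_le_norm _).trans (h.trans
        (mul_le_mul_of_nonneg_right (hRs t ht') (Real.sqrt_nonneg _)))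
    have h3 : 0 ≤ α * γ * Real.exp (α * γ * t) / (α + 2) * A.F t := by
      have : 0 ≤ α * γ := mul_nonneg hα.le hγ
      positivity
    linarith
  · unfold ASol.En
    have h2 : 0 < α + 2 := by linarith
    have : (α + 2) * -(A.D t / 2 - Real.exp (α * γ * t) / (α + 2) * A.F t)
        = Real.exp (α * γ * t) * A.F t - (α + 2) / 2 * A.D t := by
      field_simp; ring
    rw [this]
    nlinarith
end CGL
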