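import Pool.Agent.CGL.Tha
import Pool.Agent.CGL.Thc
import Pool.Agent.CGL.Rest
import Pool.Agent.CGL.PErr
/-! FIN: the blowup criterion -/
open MeasureTheory Set Filter Topology
namespace CGL

private theorem fin_rho {N : ℕ} {α θ γ T : ℝ} (A : ASol N α θ γ T) {S ρ : ℝ}
    (hS : S ∈ Icc (0:ℝ) T) (h : ∀ t ∈ Icc (0:ℝ) T, (∫ x, ‖A.R t x‖ ^ 2) ≤ ρ) :
    A.Rho S ≤ S * ρ := by
  unfold ASol.Rho
  have h0 : (0:ℝ) ∈ Icc (0:ℝ) T := ⟨le_rfl, hS.1.trans hS.2⟩
  have h1 := intervalIntegral.integral_mono_on hS.1 (adm_ii A.gok (adm_normsq A.dom_R) h0 hS)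
    (intervalIntegrable_const (c := ρ)) (fun t ht => h t ⟨ht.1, ht.2.trans hS.2⟩)
  simpa using h1

theorem main_thm (N : ℕ) (hN : 1 ≤ N) (α θ : ℝ) (hα : 0 < α) (hcrit : ((N:ℝ) - 2) * α ≤ 4)
    (hθ : 0 ≤ θ) (hθ' : θ < Real.pi / 2) :
    ∃ κ : ℝ, 2 / (α + 2) < κ ∧ ∀ γ : ℝ, 0 ≤ γ →
      ∀ (u0 : ZeroAtInftyContinuousMap (E N) ℂ) (g : Fin N → E N → ℂ),
        MemLp u0 2 volume → (∀ i, MemLp (g i) 2 volume) → (∀ i, IsWeakDeriv u0 (g i) i) →
        (∑ i, ∫ x, ‖g i x‖ ^ 2) - κ * (∫ x, ‖u0 x‖ ^ (α + 2)) < 0 →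
        ¬ ∃ u : ℝ → ZeroAtInftyContinuousMap (E N) ℂ, IsGlobalMild N α θ γ u0 u := by
  have hc : 0 < Real.cos θ := Real.cos_pos_of_mem_Ioo ⟨by linarith [Real.pi_pos], hθ'⟩
  obtain ⟨C, hC, core⟩ := core_ineq N hN α θ hα hcrit hc
  set c := Real.cos θ with hcdef
  set C' := C * (1 + 2 / c) with hC'
  have hC'0 : 0 < C' := by positivity
  have hα2 : 0 < α + 2 := by linarith
  refine ⟨min (3/2) (2 / (α + 2) + 1 / C'), ?_, ?_⟩
  · refine lt_min ?_ ?_
    · rw [div_lt_div_iff₀ hα2 (by norm_num)]; linarith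
    · have : 0 < 1 / C' := by positivity
      linarith
  intro γ hγ u0 g hu0 hg hd hlt ⟨u, hu⟩
  set D := ∑ i, ∫ x, ‖g i x‖ ^ 2 with hDdef
  set F := ∫ x, ‖u0 x‖ ^ (α + 2) with hFdef
  set M0 := ∫ x, ‖u0 x‖ ^ 2 with hM0def
  have hD0 : 0 ≤ D := Finset.sum_nonneg fun i _ => integral_nonneg fun x => by positivity
  have hF0 : 0 ≤ F := integral_nonneg fun x => by positivity
  have hM00 : 0 ≤ M0 := integral_nonneg fun x => by positivity
  have hF : 0 < F := by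
    rcases hF0.lt_or_eq with h | h
    · exact h
    · rw [← h] at hlt; linarith
  have hu0' : Integrable (fun x => ‖u0 x‖ ^ 2) :=
    (memLp_two_iff_integrable_sq_norm hu0.aestronglyMeasurable).1 hu0
  have hD1 : D < 3 / 2 * F := by
    have : min (3/2) (2 / (α + 2) + 1 / C') * F ≤ 3 / 2 * F :=
      mul_le_mul_of_nonneg_right (min_le_left _ _) hF0
    linarith
  have hD2 : D < (2 / (α + 2) + 1 / C') * F := by
    have : min (3/2) (2 / (α + 2) + 1 / C') * F ≤ (2 / (α + 2) + 1 / C') * F :=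
      mul_le_mul_of_nonneg_right (min_le_right _ _) hF0
    linarith
  -- parameters
  set C2 := 1 + C * (2 + 4 / c + 1 / c ^ 2) with hC2
  have hC20 : 0 < C2 := by positivity
  obtain ⟨e, he, heF, heC⟩ : ∃ e : ℝ, 0 < e ∧ e ≤ F / 16 ∧ C2 * e ≤ F / 8 := by
    refine ⟨min (F / 16) (F / (8 * C2)), by positivity, min_le_left _ _, ?_⟩
    calc C2 * min (F / 16) (F / (8 * C2)) ≤ C2 * (F / (8 * C2)) :=
          mul_le_mul_of_nonneg_left (min_le_right _ _) hC20.le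
      _ = F / 8 := by field_simp
  obtain ⟨R, hR, hRM⟩ : ∃ R : ℝ, 0 < R ∧ C * (M0 / R ^ 2) ≤ F / 8 := by
    refine ⟨Real.sqrt (8 * C * (M0 + 1) / F), Real.sqrt_pos.2 (by positivity), ?_⟩
    rw [Real.sq_sqrt (by positivity)]
    have : C * (M0 / (8 * C * (M0 + 1) / F)) = (M0 / (M0 + 1)) * (F / 8) := by
      field_simp
    rw [this]
    have h1 : M0 / (M0 + 1) ≤ 1 := by
      rw [div_le_one (by linarith)]; linarith
    nlinarith
  set Tf := C * R ^ 2 with hTf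
  have hTf0 : 0 < Tf := by positivity
  obtain ⟨Y, hY, hYb⟩ := M_bound hα hγ hθ hθ' hu0' hu hTf0
  obtain ⟨Ts, hTs, ρ0, hρ0, hen⟩ := energy_pos N α θ hα hc Y e hY he
  set T := Tf + Ts with hT
  have hT0 : 0 < T := by linarith
  set ρ1 := min (ρ0 ^ 2) (e / Tf) with hρ1
  have hρ10 : 0 < ρ1 := by positivity
  obtain ⟨η1, hη1, hR1⟩ := R_small hα hγ hθ hθ' hu0' hu hT0 hρ10
  obtain ⟨η2, hη2, hdata⟩ := data_conv hα hu0 hg hd he
  set η := min η1 η2 with hη
  have hη0 : 0 < η := lt_min hη1 hη2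
  obtain ⟨J, hJ⟩ := exists_mol N hη0
  obtain ⟨A, hAv, hAdv, hAR⟩ := build hα hγ hθ hθ' hu0' hu hJ hT0
  obtain ⟨dD, dF, dM⟩ := hdata η J hη0 (min_le_right _ _) hJ
  have hv0 : ∀ y, vv γ u 0 y = u0 y := by
    intro y
    simp [vv, hu.init]
  have hvv0 : vv γ u 0 = u0 := funext hv0
  have eD : A.D 0 = ∫ x, ∑ i, ‖cvl (pd i J) u0 x‖ ^ 2 := by
    unfold ASol.D ASol.dsq
    simp only [hAdv, hvv0]
  have eF : A.F 0 = ∫ x, ‖cvl J u0 x‖ ^ (α + 2) := by
    unfold ASol.F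
    simp only [hAv, hvv0]
  have eM : A.M 0 = ∫ x, ‖cvl J u0 x‖ ^ 2 := by
    unfold ASol.M
    simp only [hAv, hvv0]
  rw [← eD] at dD
  rw [← eF] at dF
  rw [← eM] at dM
  obtain ⟨dD1, dD2⟩ := abs_le.1 dD
  obtain ⟨dF1, dF2⟩ := abs_le.1 dF
  have hRsm : ∀ t ∈ Icc (0:ℝ) T, (∫ x, ‖A.R t x‖ ^ 2) ≤ ρ1 := by
    intro t ht
    have := hR1 η J hη0 (min_le_left _ _) hJ t ht
    simp only [hAR, hAv]
    exact this
  have hTfT : Tf ≤ T := by linarith
  have hTfm : Tf ∈ Icc (0:ℝ) T := ⟨hTf0.le, hTfT⟩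
  have hRho : A.Rho Tf ≤ e := by
    have h1 := fin_rho A hTfm hRsm
    have h2 : Tf * ρ1 ≤ Tf * (e / Tf) := mul_le_mul_of_nonneg_left (min_le_right _ _) hTf0.le
    have h3 : Tf * (e / Tf) = e := by field_simp
    linarith
  have hRho0 : 0 ≤ A.Rho Tf := intervalIntegral.integral_nonneg hTf0.le fun t _ =>
    integral_nonneg fun x => by positivity
  have hKap0 : 0 ≤ A.Kap Tf := intervalIntegral.integral_nonneg hTf0.le fun t _ =>
    integral_nonneg fun x => by positivity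
  have hMT : A.M Tf ≤ Y := by
    have := hYb η J hJ Tf ⟨hTf0.le, le_rfl⟩
    unfold ASol.M
    simp only [hAv]
    exact this
  have hEnT : - e < A.En Tf := hen γ T Tf hγ hTf0.le le_rfl A
    (fun t ht => (hRsm t ht).trans (min_le_left _ _)) hMT
  have hkap := kap_bound A hα hγ hc hTfm
  have hcore := core γ R hγ hR (A.restrict hTfT)
    (by rw [ASol.restrict_D, ASol.restrict_F]; linarith)
    (by rw [ASol.restrict_F]; linarith)
  rw [ASol.restrict_F, ASol.restrict_En, ASol.restrict_Kap, ASol.restrict_Rho,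
    ASol.restrict_M] at hcore
  -- the energy at time 0
  have hEn0 : A.En 0 ≤ F / (2 * C') + e := by
    have h1 : A.En 0 = A.D 0 / 2 - A.F 0 / (α + 2) := by
      unfold ASol.En; simp; ring
    have h2 : e / (α + 2) ≤ e / 2 := div_le_div_of_nonneg_left he.le (by norm_num) (by linarith)
    have h3 : (F - e) / (α + 2) ≤ A.F 0 / (α + 2) :=
      div_le_div_of_nonneg_right (by linarith) hα2.le
    have h4 : (F - e) / (α + 2) = F / (α + 2) - e / (α + 2) := by ring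
    have h5 : D / 2 < F / (α + 2) + F / (2 * C') := by
      have : (2 / (α + 2) + 1 / C') * F / 2 = F / (α + 2) + F / (2 * C') := by
        field_simp
      linarith
    rw [h1]
    linarith
  set P := max (A.En 0) 0 with hP
  have hP0 : 0 ≤ P := le_max_right _ _
  have hPle : P ≤ F / (2 * C') + e := max_le hEn0 (by positivity)
  have hK : A.Kap Tf ≤ (2 / c) * P + (2 / c) * e + (1 / c ^ 2) * e := by
    have h1 : A.En 0 ≤ P := le_max_left _ _
    have h2 : c * A.Kap Tf ≤ 2 * P + 2 * e + (1 / c) * e := by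
      have : (1 / c) * A.Rho Tf ≤ (1 / c) * e :=
        mul_le_mul_of_nonneg_left hRho (by positivity)
      linarith
    have h3 : c * ((2 / c) * P + (2 / c) * e + (1 / c ^ 2) * e)
        = 2 * P + 2 * e + (1 / c) * e := by
      field_simp
    rw [← h3] at h2
    exact le_of_mul_le_mul_left h2 hc
  have hfin : A.F 0 ≤ C * ((1 + 2 / c) * P + (2 / c + 1 / c ^ 2 + 1) * e) + F / 8 := by
    have h1 : P + A.Kap Tf + A.Rho Tf + A.M 0 / R ^ 2
        ≤ ((1 + 2 / c) * P + (2 / c + 1 / c ^ 2 + 1) * e) + M0 / R ^ 2 := by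
      have : A.M 0 / R ^ 2 ≤ M0 / R ^ 2 := div_le_div_of_nonneg_right dM (by positivity)
      linarith
    have h2 := mul_le_mul_of_nonneg_left h1 hC.le
    rw [mul_add C _ (M0 / R ^ 2)] at h2
    linarith
  have h6 : C * ((1 + 2 / c) * P) ≤ F / 2 + C' * e := by
    have : C' * P ≤ C' * (F / (2 * C') + e) := mul_le_mul_of_nonneg_left hPle hC'0.le
    have h7 : C' * (F / (2 * C') + e) = F / 2 + C' * e := by field_simp
    rw [h7, hC'] at this
    rw [← mul_assoc]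
    exact this
  have h8 : C2 * e = e + (C' * e + C * ((2 / c + 1 / c ^ 2 + 1) * e)) := by
    rw [hC2, hC']; ring
  have h9 : C * ((1 + 2 / c) * P + (2 / c + 1 / c ^ 2 + 1) * e)
      = C * ((1 + 2 / c) * P) + C * ((2 / c + 1 / c ^ 2 + 1) * e) := by ring
  rw [h9] at hfin
  linarith
end CGL
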