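import Pool.Agent.CGL.Act
/-! MB and PER: cost and persistence (both by `|v(t)-v(0)|² ≤ t ∫_0^t |v_t|²`, pointwise in `x`) -/
open MeasureTheory Set Filter Topology
namespace CGL
variable {N : ℕ} {α θ γ T : ℝ} {J : E N → ℝ} {K : ℝ}

private theorem mbTimeCont {F : Type*} [TopologicalSpace F] {f : ℝ → E N → F}
    (hf : Continuous (Function.uncurry f)) (x : E N) : Continuous (fun s => f s x) :=
  hf.comp (continuous_id.prodMk continuous_const)

theorem incr_sq (A : ASol N α θ γ T) {t : ℝ} (ht : t ∈ Icc (0:ℝ) T) (x : E N) :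
    ‖A.v t x - A.v 0 x‖ ^ 2 ≤ t * ∫ s in (0:ℝ)..T, ‖A.vt s x‖ ^ 2 := by
  have cvt : Continuous (fun s => A.vt s x) := mbTimeCont A.cvt x
  have cv : Continuous (fun s => A.v s x) := mbTimeCont A.cv x
  rcases eq_or_lt_of_le ht.1 with h0 | h0
  · rw [← h0]; simp
  have ftc : (∫ s in (0:ℝ)..t, A.vt s x) = A.v t x - A.v 0 x :=
    intervalIntegral.integral_eq_sub_of_hasDerivAt_of_le ht.1 cv.continuousOn
      (fun s hs => A.ht s ⟨hs.1, hs.2.trans_le ht.2⟩ x) (cvt.intervalIntegrable _ _)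
  rw [← ftc]
  set I : ℝ := ∫ s in (0:ℝ)..t, ‖A.vt s x‖ with hI
  have h1 : ‖∫ s in (0:ℝ)..t, A.vt s x‖ ≤ I := intervalIntegral.norm_integral_le_integral_norm ht.1
  have hI0 : 0 ≤ I := (norm_nonneg _).trans h1
  set Q : ℝ := ∫ s in (0:ℝ)..t, ‖A.vt s x‖ ^ 2 with hQ
  have h2 : 0 ≤ ∫ s in (0:ℝ)..t, (‖A.vt s x‖ - I / t) ^ 2 :=
    intervalIntegral.integral_nonneg ht.1 fun s _ => sq_nonneg _
  have h3 : (∫ s in (0:ℝ)..t, (‖A.vt s x‖ - I / t) ^ 2) = Q - 2 * (I / t) * I + t * (I / t) ^ 2 := by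
    have e : (fun s => (‖A.vt s x‖ - I / t) ^ 2)
        = fun s => (‖A.vt s x‖ ^ 2 - 2 * (I / t) * ‖A.vt s x‖) + (I / t) ^ 2 := by
      funext s; ring
    rw [e, intervalIntegral.integral_add, intervalIntegral.integral_sub,
      intervalIntegral.integral_const_mul, intervalIntegral.integral_const]
    · simp only [sub_zero, smul_eq_mul]
      ring
    · exact (cvt.norm.pow 2).intervalIntegrable _ _
    · exact (continuous_const.mul cvt.norm).intervalIntegrable _ _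
    · exact ((cvt.norm.pow 2).sub (continuous_const.mul cvt.norm)).intervalIntegrable _ _
    · exact continuous_const.intervalIntegrable _ _
  have h4 : I ^ 2 ≤ t * Q := by
    rw [h3] at h2
    have e : Q - 2 * (I / t) * I + t * (I / t) ^ 2 = Q - I ^ 2 / t := by
      field_simp; ring
    rw [e] at h2
    have : I ^ 2 / t ≤ Q := by linarith
    rw [div_le_iff₀ h0] at this
    linarith
  have h5 : Q ≤ ∫ s in (0:ℝ)..T, ‖A.vt s x‖ ^ 2 :=
    intervalIntegral.integral_mono_interval (le_refl _) ht.1 ht.2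
      (Filter.Eventually.of_forall fun s => by positivity)
      ((cvt.norm.pow 2).intervalIntegrable _ _)
  calc ‖∫ s in (0:ℝ)..t, A.vt s x‖ ^ 2 ≤ I ^ 2 := by gcongr
    _ ≤ t * Q := h4
    _ ≤ _ := by gcongr

private theorem mbA2 (S : STW N T K J) (hJ : ∀ x, 0 < J x) {t : ℝ} (ht : t ∈ Icc (0:ℝ) T)
    (x : E N) : S.a2 t x ≤ (K ^ 2 * (1 + N)) * J x ^ 2 := by
  unfold STW.a2
  have h1 : S.a t x ^ 2 ≤ (K * J x) ^ 2 :=
    pow_le_pow_left₀ (S.a_nonneg t ht x) (S.a_le t ht x) 2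
  have h2 : ∀ i, S.ddB i t x ^ 2 ≤ (K * J x) ^ 2 := by
    intro i
    rw [← sq_abs (S.ddB i t x)]
    exact pow_le_pow_left₀ (abs_nonneg _) (S.ddB_le i t ht x) 2
  have h3 := Finset.sum_le_sum (s := Finset.univ) fun i _ => h2 i
  simp only [Finset.sum_const, Finset.card_univ, Fintype.card_fin, nsmul_eq_mul] at h3
  nlinarith

private theorem mbA2zero (S : STW N T K J) {t : ℝ} (ht : t ∈ Icc (0:ℝ) T)
    (x : E N) (h : 1 ≤ t * J x) : S.a2 t x = 0 := by
  unfold STW.a2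
  rw [S.a_supp t ht x h]
  simp [S.ddB_supp _ t ht x h]

private theorem mbBddSum {ι : Type*} (s : Finset ι) {f : ι → ℝ → E N → ℝ}
    (hf : ∀ i ∈ s, Bdd T (f i)) : Bdd T (fun t x => ∑ i ∈ s, f i t x) := by
  classical
  induction s using Finset.induction_on with
  | empty => simpa using bdd_const (N := N) (T := T) 0
  | insert a s ha ih =>
    simp only [Finset.sum_insert ha]
    exact bdd_add (hf a (Finset.mem_insert_self a s))
      (ih fun i hi => hf i (Finset.mem_insert_of_mem hi))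

private theorem mbBddA2 (S : STW N T K J) : Bdd T S.a2 := by
  unfold STW.a2
  refine bdd_add ?_ ?_
  · have := bdd_mul S.ba S.ba
    simpa [pow_two] using this
  · refine mbBddSum _ fun i _ => ?_
    have := bdd_mul (S.bddB i) (S.bddB i)
    simpa [pow_two] using this

theorem mb (N : ℕ) (K : ℝ) (hK : 0 < K) : ∃ C : ℝ, 0 < C ∧
    ∀ (α θ γ T : ℝ) (J : E N → ℝ), 0 < α → 0 < T → Continuous J → (∀ x, 0 < J x) →
      (∃ B, ∀ x, J x ≤ B) →
    ∀ (A : ASol N α θ γ T) (S : STW N T K J),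
      II T (fun t x => S.a2 t x * ‖A.v t x‖ ^ 2)
        ≤ C * ((∫ x, J x * ‖A.v 0 x‖ ^ 2) + A.Kap T) := by
  refine ⟨2 * (K ^ 2 * (1 + N)), by positivity, ?_⟩
  intro α θ γ T J hα hT hJc hJ hJb A S
  obtain ⟨B, hB⟩ := hJb
  set L : ℝ := K ^ 2 * (1 + N) with hL
  have hL0 : 0 ≤ L := by positivity
  have hTm : T ∈ Icc (0:ℝ) T := ⟨hT.le, le_refl _⟩
  have h0m : (0:ℝ) ∈ Icc (0:ℝ) T := ⟨le_refl _, hT.le⟩
  have adm : Adm T A.G (fun t x => S.a2 t x * ‖A.v t x‖ ^ 2) :=
    adm_wmul (mbBddA2 S) (adm_normsq A.dom_v)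
  have admV := adm_normsq A.dom_vt
  have e1 : II T (fun t x => S.a2 t x * ‖A.v t x‖ ^ 2)
      = ∫ x, ∫ t in (0:ℝ)..T, S.a2 t x * ‖A.v t x‖ ^ 2 := adm_swap A.gok adm hTm
  have e2 : A.Kap T = ∫ x, ∫ t in (0:ℝ)..T, ‖A.vt t x‖ ^ 2 := adm_swap A.gok admV hTm
  have i1 : Integrable (fun x => ∫ t in (0:ℝ)..T, S.a2 t x * ‖A.v t x‖ ^ 2) :=
    adm_swap_integrable A.gok adm hTm
  have i2 : Integrable (fun x => ∫ t in (0:ℝ)..T, ‖A.vt t x‖ ^ 2) :=
    adm_swap_integrable A.gok admV hTm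
  have i3 : Integrable (fun x => ‖A.v 0 x‖ ^ 2) := adm_slice A.gok (adm_normsq A.dom_v) h0m
  have i4 : Integrable (fun x => J x * ‖A.v 0 x‖ ^ 2) := by
    refine i3.bdd_mul (c := B) hJc.aestronglyMeasurable ?_
    exact Filter.Eventually.of_forall fun x => by
      rw [Real.norm_eq_abs, abs_of_pos (hJ x)]; exact hB x
  have pt : ∀ x, (∫ t in (0:ℝ)..T, S.a2 t x * ‖A.v t x‖ ^ 2)
      ≤ L * (2 * (J x * ‖A.v 0 x‖ ^ 2) + ∫ t in (0:ℝ)..T, ‖A.vt t x‖ ^ 2) := by
    intro x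
    set κ : ℝ := ∫ t in (0:ℝ)..T, ‖A.vt t x‖ ^ 2 with hκ
    have hκ0 : 0 ≤ κ := intervalIntegral.integral_nonneg hT.le fun s _ => by positivity
    set m : ℝ := min T (1 / J x) with hm
    have hm0 : 0 < m := lt_min hT (one_div_pos.mpr (hJ x))
    have hmT : m ≤ T := min_le_left _ _
    have hmJ : m ≤ 1 / J x := min_le_right _ _
    have cf : Continuous (fun t => S.a2 t x * ‖A.v t x‖ ^ 2) := mbTimeCont adm.1 x
    have s1 : (∫ t in (0:ℝ)..T, S.a2 t x * ‖A.v t x‖ ^ 2)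
        = (∫ t in (0:ℝ)..m, S.a2 t x * ‖A.v t x‖ ^ 2)
          + ∫ t in m..T, S.a2 t x * ‖A.v t x‖ ^ 2 :=
      (intervalIntegral.integral_add_adjacent_intervals (cf.intervalIntegrable _ _)
        (cf.intervalIntegrable _ _)).symm
    have s2 : (∫ t in m..T, S.a2 t x * ‖A.v t x‖ ^ 2) = 0 := by
      rcases le_total T (1 / J x) with h | h
      · have : m = T := min_eq_left h
        rw [this, intervalIntegral.integral_same]
      · have hm' : m = 1 / J x := min_eq_right h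
        refine (intervalIntegral.integral_congr (g := fun _ => (0:ℝ)) ?_).trans (by simp)
        intro t ht
        rw [uIcc_of_le hmT] at ht
        have h1 : 1 ≤ t * J x := by
          have := ht.1
          rw [hm', div_le_iff₀ (hJ x)] at this
          exact this
        have h2 : t ∈ Icc (0:ℝ) T := ⟨hm0.le.trans ht.1, ht.2⟩
        simp [mbA2zero S h2 x h1]
    have s3 : (∫ t in (0:ℝ)..m, S.a2 t x * ‖A.v t x‖ ^ 2)
        ≤ ∫ t in (0:ℝ)..m, (L * J x ^ 2) * (2 * ‖A.v 0 x‖ ^ 2 + 2 * κ * t) := by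
      refine intervalIntegral.integral_mono_on hm0.le (cf.intervalIntegrable _ _)
        (Continuous.intervalIntegrable (by fun_prop) _ _) ?_
      intro t ht
      have htT : t ∈ Icc (0:ℝ) T := ⟨ht.1, ht.2.trans hmT⟩
      have q1 := incr_sq A htT x
      have q2 : ‖A.v t x‖ ^ 2 ≤ 2 * ‖A.v 0 x‖ ^ 2 + 2 * κ * t := by
        have r1 : ‖A.v t x‖ ≤ ‖A.v 0 x‖ + ‖A.v t x - A.v 0 x‖ := by
          have := norm_add_le (A.v 0 x) (A.v t x - A.v 0 x)
          simpa using this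
        have r2 : ‖A.v t x‖ ^ 2 ≤ (‖A.v 0 x‖ + ‖A.v t x - A.v 0 x‖) ^ 2 := by gcongr
        nlinarith [sq_nonneg (‖A.v 0 x‖ - ‖A.v t x - A.v 0 x‖)]
      exact mul_le_mul (mbA2 S hJ htT x) q2 (by positivity) (by positivity)
    have s4 : (∫ t in (0:ℝ)..m, (L * J x ^ 2) * (2 * ‖A.v 0 x‖ ^ 2 + 2 * κ * t))
        = (L * J x ^ 2) * (2 * ‖A.v 0 x‖ ^ 2 * m + κ * m ^ 2) := by
      rw [intervalIntegral.integral_const_mul, intervalIntegral.integral_add,
        intervalIntegral.integral_const, intervalIntegral.integral_const_mul, integral_id]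
      · simp only [sub_zero, smul_eq_mul]; ring
      · exact continuous_const.intervalIntegrable _ _
      · exact Continuous.intervalIntegrable (by fun_prop) _ _
    have s5 : (L * J x ^ 2) * (2 * ‖A.v 0 x‖ ^ 2 * m + κ * m ^ 2)
        ≤ L * (2 * (J x * ‖A.v 0 x‖ ^ 2) + κ) := by
      have u1 : J x * m ≤ 1 := by
        rw [le_div_iff₀ (hJ x)] at hmJ; linarith
      have u0 : 0 ≤ J x * m := by have := hJ x; positivity
      have u2 : (J x * m) ^ 2 ≤ 1 := by nlinarith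
      have u3 : J x ^ 2 * (2 * ‖A.v 0 x‖ ^ 2 * m + κ * m ^ 2)
          = 2 * (J x * ‖A.v 0 x‖ ^ 2) * (J x * m) + κ * (J x * m) ^ 2 := by ring
      have u4 : 2 * (J x * ‖A.v 0 x‖ ^ 2) * (J x * m) ≤ 2 * (J x * ‖A.v 0 x‖ ^ 2) * 1 := by
        have := hJ x
        gcongr
      have u5 : κ * (J x * m) ^ 2 ≤ κ * 1 := by gcongr
      rw [mul_assoc, u3]
      apply mul_le_mul_of_nonneg_left _ hL0
      linarith
    linarith
  rw [e1]
  calc (∫ x, ∫ t in (0:ℝ)..T, S.a2 t x * ‖A.v t x‖ ^ 2)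
      ≤ ∫ x, L * (2 * (J x * ‖A.v 0 x‖ ^ 2) + ∫ t in (0:ℝ)..T, ‖A.vt t x‖ ^ 2) :=
        integral_mono i1 (((i4.const_mul 2).add i2).const_mul L) pt
    _ = L * (2 * (∫ x, J x * ‖A.v 0 x‖ ^ 2) + A.Kap T) := by
        rw [integral_const_mul, integral_add (i4.const_mul 2) i2, integral_const_mul, e2]
    _ ≤ 2 * L * ((∫ x, J x * ‖A.v 0 x‖ ^ 2) + A.Kap T) := by
        have : 0 ≤ A.Kap T := by
          rw [e2]
          exact integral_nonneg fun x =>
            intervalIntegral.integral_nonneg hT.le fun s _ => by positivity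
        nlinarith

theorem per (A : ASol N α θ γ T) (hα : 0 < α) (hγ : 0 ≤ γ) (hT : 0 < T) (hJc : Continuous J)
    (hJ : ∀ x, 0 < J x) (S : STW N T K J) :
    (∫ x, (min ‖A.v 0 x‖ ((J x) ^ (1 / α))) ^ (α + 2))
      ≤ 2 ^ (α + 2) * A.IF S + 4 * A.Kap T := by
  have hTm : T ∈ Icc (0:ℝ) T := ⟨hT.le, le_refl _⟩
  have adm : Adm T A.G (fun t x => S.a t x * (Real.exp (α * γ * t) * ‖A.v t x‖ ^ (α + 2))) :=
    adm_wmul S.ba (adm_wmul (bdd_time (φ := fun t => Real.exp (α * γ * t)) (by fun_prop))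
      (A.adm_vp hα))
  have admV := adm_normsq A.dom_vt
  have e1 : A.IF S = ∫ x, ∫ t in (0:ℝ)..T,
      S.a t x * (Real.exp (α * γ * t) * ‖A.v t x‖ ^ (α + 2)) := adm_swap A.gok adm hTm
  have e2 : A.Kap T = ∫ x, ∫ t in (0:ℝ)..T, ‖A.vt t x‖ ^ 2 := adm_swap A.gok admV hTm
  have i1 := adm_swap_integrable A.gok adm hTm
  have i2 := adm_swap_integrable A.gok admV hTm
  rw [e1, e2, ← integral_const_mul, ← integral_const_mul,
    ← integral_add (i1.const_mul _) (i2.const_mul _)]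
  refine integral_mono_of_nonneg (Filter.Eventually.of_forall fun x => ?_)
    ((i1.const_mul _).add (i2.const_mul _)) (Filter.Eventually.of_forall fun x => ?_)
  · exact Real.rpow_nonneg (le_min (norm_nonneg _) (Real.rpow_nonneg (hJ x).le _)) _
  show (min ‖A.v 0 x‖ ((J x) ^ (1 / α))) ^ (α + 2)
    ≤ 2 ^ (α + 2) * (∫ t in (0:ℝ)..T, S.a t x * (Real.exp (α * γ * t) * ‖A.v t x‖ ^ (α + 2)))
      + 4 * ∫ t in (0:ℝ)..T, ‖A.vt t x‖ ^ 2
  set κ : ℝ := ∫ t in (0:ℝ)..T, ‖A.vt t x‖ ^ 2 with hκ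
  have hκ0 : 0 ≤ κ := intervalIntegral.integral_nonneg hT.le fun s _ => by positivity
  set m : ℝ := min ‖A.v 0 x‖ ((J x) ^ (1 / α)) with hm
  have hm0 : 0 ≤ m := le_min (norm_nonneg _) (Real.rpow_nonneg (hJ x).le _)
  have hmv : m ≤ ‖A.v 0 x‖ := min_le_left _ _
  have hmJ : m ≤ (J x) ^ (1 / α) := min_le_right _ _
  have ca : Continuous (fun t => S.a t x) := mbTimeCont S.ba.1 x
  have cB : Continuous (fun t => S.B t x) := mbTimeCont S.bB.1 x
  have cF : Continuous (fun t => S.a t x * (Real.exp (α * γ * t) * ‖A.v t x‖ ^ (α + 2))) :=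
    mbTimeCont adm.1 x
  have hint : (∫ t in (0:ℝ)..T, S.a t x) = 1 := by
    have h1 : (∫ t in (0:ℝ)..T, -(S.a t x)) = S.B T x - S.B 0 x :=
      intervalIntegral.integral_eq_sub_of_hasDerivAt_of_le hT.le cB.continuousOn
        (fun s hs => S.htB s hs x) (ca.neg.intervalIntegrable _ _)
    rw [intervalIntegral.integral_neg, S.B0, S.BT] at h1
    linarith
  have hpt : ∀ t ∈ Icc (0:ℝ) T, S.a t x * m ^ (α + 2)
      ≤ 2 ^ (α + 2) * (S.a t x * (Real.exp (α * γ * t) * ‖A.v t x‖ ^ (α + 2)))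
        + (4 * κ) * S.a t x := by
    intro t ht
    have ha := S.a_nonneg t ht x
    by_cases h1 : 1 ≤ t * J x
    · rw [S.a_supp t ht x h1]; simp
    · push Not at h1
      have hω : 1 ≤ Real.exp (α * γ * t) := by
        apply Real.one_le_exp
        have := ht.1
        positivity
      have hvp : 0 ≤ ‖A.v t x‖ ^ (α + 2) := Real.rpow_nonneg (norm_nonneg _) _
      have main : m ^ (α + 2) ≤ 2 ^ (α + 2) * ‖A.v t x‖ ^ (α + 2) + 4 * κ := by
        by_cases h2 : m / 2 ≤ ‖A.v t x‖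
        · have h3 : m ≤ 2 * ‖A.v t x‖ := by linarith
          have h4 : m ^ (α + 2) ≤ (2 * ‖A.v t x‖) ^ (α + 2) :=
            Real.rpow_le_rpow hm0 h3 (by linarith)
          rw [Real.mul_rpow (by norm_num) (norm_nonneg _)] at h4
          linarith
        · push Not at h2
          have h3 : m / 2 ≤ ‖A.v t x - A.v 0 x‖ := by
            have := norm_sub_norm_le (A.v 0 x) (A.v t x)
            rw [norm_sub_rev] at this
            linarith
          have h4 := incr_sq A ht x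
          have h5 : m ^ 2 ≤ 4 * (t * κ) := by
            have : (m / 2) ^ 2 ≤ ‖A.v t x - A.v 0 x‖ ^ 2 := by gcongr
            nlinarith
          have h6 : m ^ α ≤ J x := by
            have := Real.rpow_le_rpow hm0 hmJ hα.le
            rw [← Real.rpow_mul (hJ x).le] at this
            rwa [one_div_mul_cancel hα.ne', Real.rpow_one] at this
          have h7 : m ^ (α + 2) = m ^ α * m ^ 2 := by
            rcases eq_or_lt_of_le hm0 with h | h
            · rw [← h, Real.zero_rpow (by linarith)]; simp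
            · rw [Real.rpow_add h, Real.rpow_two]
          have h8 : m ^ α * m ^ 2 ≤ J x * (4 * (t * κ)) :=
            mul_le_mul h6 h5 (by positivity) (hJ x).le
          have h9 : J x * (4 * (t * κ)) = 4 * κ * (t * J x) := by ring
          have h10 : 4 * κ * (t * J x) ≤ 4 * κ * 1 := by gcongr
          have h11 : (0:ℝ) ≤ 2 ^ (α + 2) := by positivity
          have h12 : 0 ≤ 2 ^ (α + 2) * ‖A.v t x‖ ^ (α + 2) := mul_nonneg h11 hvp
          linarith
      have h11 : (0:ℝ) ≤ 2 ^ (α + 2) := by positivity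
      have g1 : ‖A.v t x‖ ^ (α + 2) ≤ Real.exp (α * γ * t) * ‖A.v t x‖ ^ (α + 2) := by
        nlinarith
      have g2 : m ^ (α + 2) ≤ 2 ^ (α + 2) * (Real.exp (α * γ * t) * ‖A.v t x‖ ^ (α + 2))
          + 4 * κ := by
        have := mul_le_mul_of_nonneg_left g1 h11
        linarith
      have g3 := mul_le_mul_of_nonneg_left g2 ha
      linarith
  have hI : (∫ t in (0:ℝ)..T, S.a t x * m ^ (α + 2)) ≤ ∫ t in (0:ℝ)..T,
      (2 ^ (α + 2) * (S.a t x * (Real.exp (α * γ * t) * ‖A.v t x‖ ^ (α + 2)))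
        + (4 * κ) * S.a t x) :=
    intervalIntegral.integral_mono_on hT.le
      ((ca.mul continuous_const).intervalIntegrable 0 T)
      (((continuous_const.mul cF).add (continuous_const.mul ca)).intervalIntegrable 0 T) hpt
  rw [intervalIntegral.integral_mul_const, hint, one_mul, intervalIntegral.integral_add,
    intervalIntegral.integral_const_mul, intervalIntegral.integral_const_mul, hint, mul_one] at hI
  · exact hI
  · exact (continuous_const.mul cF).intervalIntegrable _ _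
  · exact (continuous_const.mul ca).intervalIntegrable _ _
end CGL
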