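import Pool.Agent.CGL.PCvl
/-! PBUILD: the mollified solution is an `ASol` -/
open MeasureTheory Set Filter Topology
namespace CGL
variable {N : ℕ} {α θ γ : ℝ}

private theorem pbuildPh (θ : ℝ) : ‖ph θ‖ = 1 := by
  unfold ph; exact Complex.norm_exp_ofReal_mul_I θ

private theorem pbuildLine {f g : E N → ℂ} {f' g' : ℂ} {x v : E N} (c : ℂ)
    (hf : HasLineDerivAt ℝ f f' x v) (hg : HasLineDerivAt ℝ g g' x v) :
    HasLineDerivAt ℝ (fun y => c * (f y + g y)) (c * (f' + g')) x v := by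
  unfold HasLineDerivAt at *
  exact (hf.add hg).const_mul c

theorem build (hα : 0 < α) (hγ : 0 ≤ γ) (hθ : 0 ≤ θ) (hθ' : θ < Real.pi / 2)
    {u0 : ZeroAtInftyContinuousMap (E N) ℂ} (hu0 : Integrable (fun x => ‖u0 x‖ ^ 2))
    {u : ℝ → ZeroAtInftyContinuousMap (E N) ℂ} (hu : IsGlobalMild N α θ γ u0 u)
    {J : E N → ℝ} {η : ℝ} (hJ : Mol J η) {T : ℝ} (hT : 0 < T) :
    ∃ A : ASol N α θ γ T,
      (∀ t x, A.v t x = cvl J (vv γ u t) x) ∧
      (∀ i t x, A.dv i t x = cvl (pd i J) (vv γ u t) x) ∧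
      (∀ t x, A.R t x = cvl J (ff α γ u t) x
        - ((Real.exp (α * γ * t) : ℝ) : ℂ) * nl α (A.v t x)) := by
  have hG := Gf_ok u0 hu0
  obtain ⟨B, hB⟩ := hG.b
  have hB0 : 0 ≤ B := (hG.nn 0).trans (hB 0)
  have dom : ∀ {ψ : E N → ℝ}, Test ψ → ∃ C : ℝ, 0 < C ∧
      ∀ t ∈ Icc (0:ℝ) T, ∀ x : E N, ‖cvl ψ (vv γ u t) x‖ ≤ C * Gf u0 x ∧
        ‖cvl ψ (ff α γ u t) x‖ ≤ C * Gf u0 x :=
    fun hψ => cvl_vv_dom hα hγ hθ hθ' hu hψ hT
  obtain ⟨c0, hc0, b0⟩ := dom hJ.t
  choose c1 hc1 b1 using fun i => dom (hJ.t.pd i)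
  choose c2 hc2 b2 using fun i => dom ((hJ.t.pd i).pd i)
  obtain ⟨c3, hc3, b3⟩ := dom hJ.t.lap
  choose c4 hc4 b4 using fun i => dom (hJ.t.lap.pd i)
  set Cn : ℝ := Real.exp (α * γ * T) * (c0 * B) ^ α * c0 with hCn
  have hCn0 : 0 ≤ Cn := by positivity
  set C : ℝ := 2 * c0 + (∑ i, c1 i) + (∑ i, c2 i) + c3 + (∑ i, c4 i) + Cn with hC
  have s1 : 0 ≤ ∑ i, c1 i := Finset.sum_nonneg fun i _ => (hc1 i).le
  have s2 : 0 ≤ ∑ i, c2 i := Finset.sum_nonneg fun i _ => (hc2 i).le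
  have s4 : 0 ≤ ∑ i, c4 i := Finset.sum_nonneg fun i _ => (hc4 i).le
  have l1 : ∀ i, c1 i ≤ ∑ i, c1 i := fun i =>
    Finset.single_le_sum (f := c1) (fun j _ => (hc1 j).le) (Finset.mem_univ i)
  have l2 : ∀ i, c2 i ≤ ∑ i, c2 i := fun i =>
    Finset.single_le_sum (f := c2) (fun j _ => (hc2 j).le) (Finset.mem_univ i)
  have l4 : ∀ i, c4 i ≤ ∑ i, c4 i := fun i =>
    Finset.single_le_sum (f := c4) (fun j _ => (hc4 j).le) (Finset.mem_univ i)
  have hC0 : 0 ≤ C := by positivity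
  have up : ∀ {a : ℝ} {x : E N} {y : ℝ}, y ≤ a * Gf u0 x → a ≤ C → y ≤ C * Gf u0 x :=
    fun h1 h2 => h1.trans (mul_le_mul_of_nonneg_right h2 (hG.nn _))
  have cvv := vv_cont hu
  have cff := ff_cont hα hu
  have cvt : ∀ t, Continuous (vv γ u t) := fun t => cvv.comp (continuous_const.prodMk continuous_id)
  have cft : ∀ t, Continuous (ff α γ u t) := fun t =>
    cff.comp (continuous_const.prodMk continuous_id)
  have cexp : Continuous (fun p : ℝ × E N => ((Real.exp (α * γ * p.1) : ℝ) : ℂ)) := by fun_prop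
  refine ⟨{
    v := fun t x => cvl J (vv γ u t) x
    dv := fun i t x => cvl (pd i J) (vv γ u t) x
    ddv := fun i t x => cvl (pd i (pd i J)) (vv γ u t) x
    vt := fun t x => ph θ * (cvl (lap J) (vv γ u t) x + cvl J (ff α γ u t) x)
    dvt := fun i t x => ph θ * (cvl (pd i (lap J)) (vv γ u t) x + cvl (pd i J) (ff α γ u t) x)
    R := fun t x => cvl J (ff α γ u t) x
        - ((Real.exp (α * γ * t) : ℝ) : ℂ) * nl α (cvl J (vv γ u t) x)
    G := fun x => C * Gf u0 x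
    cv := cvl_cont hJ.t cvv
    cdv := fun i => cvl_cont (hJ.t.pd i) cvv
    cddv := fun i => cvl_cont ((hJ.t.pd i).pd i) cvv
    cvt := continuous_const.mul ((cvl_cont hJ.t.lap cvv).add (cvl_cont hJ.t cff))
    cdvt := fun i => continuous_const.mul
      ((cvl_cont (hJ.t.lap.pd i) cvv).add (cvl_cont (hJ.t.pd i) cff))
    cR := (cvl_cont hJ.t cff).sub (cexp.mul ((nl_cont hα).comp (cvl_cont hJ.t cvv)))
    c1 := cvl_contDiff hJ.t (cvt 0)
    hv := fun i t _ x => cvl_lineDeriv hJ.t (cvt t) i x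
    hdv := fun i t _ x => cvl_lineDeriv (hJ.t.pd i) (cvt t) i x
    hvtx := fun i t _ x => pbuildLine _ (cvl_lineDeriv hJ.t.lap (cvt t) i x)
      (cvl_lineDeriv hJ.t (cft t) i x)
    ht := fun t ht x => cvl_time hα hθ hθ' hu hJ.t ht.1 x
    hdt := fun i t ht x => by
      have := cvl_time hα hθ hθ' hu (hJ.t.pd i) ht.1 x
      rwa [lap_pd hJ.t i] at this
    G0 := fun x => mul_nonneg hC0 (hG.nn x)
    Gc := continuous_const.mul hG.c
    Gb := ⟨C * B, fun x => mul_le_mul_of_nonneg_left (hB x) hC0⟩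
    G2 := by
      have := hG.i2.const_mul (C ^ 2)
      refine this.congr (Filter.Eventually.of_forall fun x => ?_)
      simp only [mul_pow]
    bv := fun t ht x => up (b0 t ht x).1 (by linarith)
    bdv := fun i t ht x => up (b1 i t ht x).1 (by have := l1 i; linarith)
    bddv := fun i t ht x => up (b2 i t ht x).1 (by have := l2 i; linarith)
    bvt := fun t ht x => by
      rw [norm_mul, pbuildPh, one_mul]
      refine (norm_add_le _ _).trans ?_
      have h1 := (b3 t ht x).1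
      have h2 := (b0 t ht x).2
      refine up (a := c3 + c0) ?_ (by linarith)
      rw [add_mul]; linarith
    bdvt := fun i t ht x => by
      rw [norm_mul, pbuildPh, one_mul]
      refine (norm_add_le _ _).trans ?_
      have h1 := (b4 i t ht x).1
      have h2 := (b1 i t ht x).2
      have h3 := l1 i
      have h4 := l4 i
      refine up (a := c4 i + c1 i) ?_ (by linarith)
      rw [add_mul]; linarith
    bR := fun t ht x => by
      refine (norm_sub_le _ _).trans ?_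
      have h1 := (b0 t ht x).2
      have h2 := (b0 t ht x).1
      rw [norm_mul, nl_norm, Complex.norm_real, Real.norm_eq_abs, abs_of_pos (Real.exp_pos _)]
      have h3 : ‖cvl J (vv γ u t) x‖ ≤ c0 * B := h2.trans (mul_le_mul_of_nonneg_left (hB x) hc0.le)
      have h4 : ‖cvl J (vv γ u t) x‖ ^ α ≤ (c0 * B) ^ α :=
        Real.rpow_le_rpow (norm_nonneg _) h3 hα.le
      have h5 : Real.exp (α * γ * t) ≤ Real.exp (α * γ * T) := by
        apply Real.exp_le_exp.mpr
        have := ht.2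
        have : 0 ≤ α * γ := by positivity
        nlinarith
      have h6 : Real.exp (α * γ * t) * (‖cvl J (vv γ u t) x‖ ^ α * ‖cvl J (vv γ u t) x‖)
          ≤ Real.exp (α * γ * T) * ((c0 * B) ^ α * (c0 * Gf u0 x)) := by
        have := hG.nn x
        gcongr
      have h7 : Real.exp (α * γ * T) * ((c0 * B) ^ α * (c0 * Gf u0 x)) = Cn * Gf u0 x := by
        rw [hCn]; ring
      refine up (a := c0 + Cn) ?_ (by linarith)
      rw [add_mul]; linarith
    eq := fun t ht x => by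
      rw [cvl_lap hJ.t (cvt t) x]
      ring }, fun t x => rfl, fun i t x => rfl, fun t x => rfl⟩
end CGL
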