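import Pool.Agent.CGL.PGauss
/-! PITER: the iteration lemma for Gaussian domination -/
open MeasureTheory Set Filter Topology
namespace CGL
variable {N : ℕ}

/-- finite sums of the exponential series. -/
noncomputable def piter_S (n : ℕ) (u : ℝ) : ℝ := ∑ j ∈ Finset.range n, u ^ j / j.factorial

theorem piter_int (D t : ℝ) (j : ℕ) :
    D * (∫ s in (0:ℝ)..t, (D * s) ^ j / j.factorial) = (D * t) ^ (j + 1) / (j + 1).factorial := by
  have h1 : (∫ s in (0:ℝ)..t, (D * s) ^ j / j.factorial) =
      D ^ j / j.factorial * ∫ s in (0:ℝ)..t, s ^ j := by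
    rw [← intervalIntegral.integral_const_mul]
    refine intervalIntegral.integral_congr fun s _ => ?_
    rw [mul_pow]
    ring
  rw [h1, integral_pow, Nat.factorial_succ]
  have h2 : (j.factorial : ℝ) ≠ 0 := by positivity
  have h3 : ((j : ℝ) + 1) ≠ 0 := by positivity
  push_cast
  rw [mul_pow, zero_pow (Nat.succ_ne_zero j), sub_zero]
  field_simp
  ring

/-- bounded continuous functions times a translated Gauss kernel are integrable. -/
theorem piter_integrable {a : ℝ} (ha : 0 < a) {f : E N → ℝ} (hf : Continuous f)
    {B : ℝ} (hB : ∀ x, |f x| ≤ B) (x : E N) : Integrable (fun y => gk N a (x - y) * f y) := by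
  have h1 : Integrable (fun y => gk N a (x - y)) := (gk_integrable ha).comp_sub_left x
  refine h1.mul_bdd (c := B) hf.aestronglyMeasurable ?_
  exact Eventually.of_forall fun y => by rw [Real.norm_eq_abs]; exact hB y

/-- the kernel product is integrable on the product space. -/
theorem piter_prod {a b : ℝ} (ha : 0 < a) (hb : 0 < b) {f : E N → ℝ} (hf : Continuous f)
    {B : ℝ} (hB : ∀ x, |f x| ≤ B) (x : E N) :
    Integrable (fun p : E N × E N => gk N a (x - p.1) * (gk N b (p.1 - p.2) * f p.2))
      (volume.prod volume) := by
  have hcont : Continuous (fun p : E N × E N => gk N a (x - p.1) * (gk N b (p.1 - p.2) * f p.2)) := by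
    have h1 := gk_cont (N := N) ha
    have h2 := gk_cont (N := N) hb
    fun_prop
  have hsl : ∀ z : E N, Integrable (fun y => gk N a (x - y) * gk N b (y - z)) := by
    intro z
    have h1 := (gk_semi_integrable ha hb (x - z)).comp_sub_right z
    refine h1.congr (Eventually.of_forall fun y => ?_)
    simp only
    rw [sub_sub_sub_cancel_right]
  have hval : ∀ z : E N, ∫ y, gk N a (x - y) * gk N b (y - z) = gk N (a + b) (x - z) := by
    intro z
    rw [← gk_semi ha hb (x - z)]
    rw [← integral_sub_right_eq_self (fun y => gk N a (x - z - y) * gk N b y) z]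
    refine integral_congr_ae (Eventually.of_forall fun y => ?_)
    simp only
    rw [sub_sub_sub_cancel_right]
  rw [integrable_prod_iff' hcont.aestronglyMeasurable]
  constructor
  · refine Eventually.of_forall fun z => ?_
    refine ((hsl z).mul_const (f z)).congr (Eventually.of_forall fun y => ?_)
    simp only
    ring
  · have h1 := piter_integrable (N := N) (add_pos ha hb) hf hB x
    refine h1.norm.congr (Eventually.of_forall fun z => ?_)
    simp only
    have h2 : ∀ y, ‖gk N a (x - y) * (gk N b (y - z) * f z)‖ =
        gk N a (x - y) * gk N b (y - z) * |f z| := by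
      intro y
      rw [norm_mul, norm_mul, Real.norm_eq_abs, Real.norm_eq_abs, Real.norm_eq_abs,
        abs_of_pos (gk_pos ha _), abs_of_pos (gk_pos hb _)]
      ring
    simp only [h2]
    rw [integral_mul_const, hval z, norm_mul, Real.norm_eq_abs, Real.norm_eq_abs,
      abs_of_pos (gk_pos (add_pos ha hb) _)]

/-- semigroup law for the action on functions. -/
theorem piter_semi {a b : ℝ} (ha : 0 < a) (hb : 0 < b) {f : E N → ℝ} (hf : Continuous f)
    {B : ℝ} (hB : ∀ x, |f x| ≤ B) (x : E N) :
    Integrable (fun y => gk N a (x - y) * ∫ z, gk N b (y - z) * f z) ∧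
    (∫ y, gk N a (x - y) * ∫ z, gk N b (y - z) * f z) = ∫ z, gk N (a + b) (x - z) * f z := by
  have hprod := piter_prod ha hb hf hB x
  have hin : ∀ y, (∫ z, gk N a (x - y) * (gk N b (y - z) * f z)) =
      gk N a (x - y) * ∫ z, gk N b (y - z) * f z := fun y => integral_const_mul _ _
  constructor
  · refine hprod.integral_prod_left.congr (Eventually.of_forall fun y => ?_)
    exact hin y
  · have hval : ∀ z : E N, ∫ y, gk N a (x - y) * gk N b (y - z) = gk N (a + b) (x - z) := by
      intro z
      rw [← gk_semi ha hb (x - z)]
      rw [← integral_sub_right_eq_self (fun y => gk N a (x - z - y) * gk N b y) z]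
      refine integral_congr_ae (Eventually.of_forall fun y => ?_)
      simp only
      rw [sub_sub_sub_cancel_right]
    calc (∫ y, gk N a (x - y) * ∫ z, gk N b (y - z) * f z)
        = ∫ y, ∫ z, gk N a (x - y) * (gk N b (y - z) * f z) := by
          refine integral_congr_ae (Eventually.of_forall fun y => ?_)
          exact (hin y).symm
      _ = ∫ z, ∫ y, gk N a (x - y) * (gk N b (y - z) * f z) :=
          integral_integral_swap hprod
      _ = _ := by
          refine integral_congr_ae (Eventually.of_forall fun z => ?_)
          simp only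
          rw [← hval z, ← integral_mul_const]
          refine integral_congr_ae (Eventually.of_forall fun y => ?_)
          simp only
          ring

/-- iteration lemma. -/
theorem dom_iter {c C L T : ℝ} (hc : 0 < c) (hC : 0 ≤ C) (hL : 0 ≤ L) (hT : 0 < T)
    {w : ℝ → E N → ℝ} {w0 : E N → ℝ} (hw0c : Continuous w0) (hw0 : ∀ x, 0 ≤ w0 x)
    (hw0b : ∃ B, ∀ x, w0 x ≤ B) (hwc : Continuous (Function.uncurry w))
    (hw : ∀ t x, 0 ≤ w t x) (hwb : ∃ B, ∀ t x, w t x ≤ B)
    (h : ∀ t ∈ Ioc (0:ℝ) T, ∀ x, w t x ≤ C * (∫ y, gk N (t / c) (x - y) * w0 y)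
      + C * L * ∫ s in (0:ℝ)..t, ∫ y, gk N ((t - s) / c) (x - y) * w s y) :
    ∀ t ∈ Ioc (0:ℝ) T, ∀ x,
      w t x ≤ C * Real.exp (C * L * t) * ∫ y, gk N (t / c) (x - y) * w0 y := by
  obtain ⟨B0, hB0⟩ := hw0b
  obtain ⟨B, hB⟩ := hwb
  have hB0' : ∀ x, |w0 x| ≤ B0 := fun x => by rw [abs_of_nonneg (hw0 x)]; exact hB0 x
  have hBnn : 0 ≤ B := (hw 0 0).trans (hB 0 0)
  have hDnn : 0 ≤ C * L := mul_nonneg hC hL
  set P : ℝ → E N → ℝ := fun t x => ∫ y, gk N (t / c) (x - y) * w0 y with hP
  have hPnn : ∀ t, 0 < t → ∀ x, 0 ≤ P t x := by
    intro t ht x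
    refine integral_nonneg fun y => ?_
    exact mul_nonneg (gk_pos (div_pos ht hc) _).le (hw0 y)
  -- the induction
  have key : ∀ n : ℕ, ∀ t ∈ Ioc (0:ℝ) T, ∀ x,
      w t x ≤ C * piter_S n (C * L * t) * P t x + B * ((C * L * t) ^ n / n.factorial) := by
    intro n
    induction n with
    | zero =>
      intro t _ x
      simpa [piter_S] using hB t x
    | succ n ih =>
      intro t ht x
      have ht0 : 0 < t := ht.1
      refine (h t ht x).trans ?_
      -- pointwise bound of the inner integral
      have hin : ∀ s ∈ Ioo (0:ℝ) t, (∫ y, gk N ((t - s) / c) (x - y) * w s y) ≤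
          C * piter_S n (C * L * s) * P t x + B * ((C * L * s) ^ n / n.factorial) := by
        intro s hs
        have hs0 : 0 < s / c := div_pos hs.1 hc
        have hts : 0 < (t - s) / c := div_pos (sub_pos.2 hs.2) hc
        obtain ⟨hi1, hi2⟩ := piter_semi (N := N) hts hs0 hw0c hB0' x
        rw [← add_div, sub_add_cancel] at hi2
        have hws : Continuous (w s) := by
          have : w s = fun y => Function.uncurry w (s, y) := rfl
          rw [this]
          fun_prop
        have hint1 : Integrable (fun y => gk N ((t - s) / c) (x - y) * w s y) :=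
          piter_integrable hts hws (B := B)
            (fun y => by rw [abs_of_nonneg (hw s y)]; exact hB s y) x
        have hg : Integrable (fun y => gk N ((t - s) / c) (x - y)) :=
          (gk_integrable hts).comp_sub_left x
        have hgi : ∫ y, gk N ((t - s) / c) (x - y) = 1 := by
          rw [integral_sub_left_eq_self (fun y => gk N ((t - s) / c) y)]
          exact gk_int hts
        calc (∫ y, gk N ((t - s) / c) (x - y) * w s y)
            ≤ ∫ y, (C * piter_S n (C * L * s) *
                (gk N ((t - s) / c) (x - y) * ∫ z, gk N (s / c) (y - z) * w0 z) +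
                B * ((C * L * s) ^ n / n.factorial) * gk N ((t - s) / c) (x - y)) := by
              refine integral_mono hint1 ((hi1.const_mul _).add (hg.const_mul _)) fun y => ?_
              have h1 := ih s ⟨hs.1, hs.2.le.trans ht.2⟩ y
              have h2 := mul_le_mul_of_nonneg_left h1 (gk_pos hts (x - y)).le
              refine h2.trans (le_of_eq ?_)
              simp only [hP]
              ring
          _ = _ := by
              rw [integral_add (hi1.const_mul _) (hg.const_mul _), integral_const_mul,
                integral_const_mul, hi2, hgi, mul_one]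
      have hcontR : Continuous (fun s : ℝ => C * piter_S n (C * L * s) * P t x +
          B * ((C * L * s) ^ n / n.factorial)) := by
        unfold piter_S
        fun_prop
      have hRnn : ∀ s ∈ Ioo (0:ℝ) t, 0 ≤ C * piter_S n (C * L * s) * P t x +
          B * ((C * L * s) ^ n / n.factorial) := by
        intro s hs
        have h1 : 0 ≤ C * L * s := mul_nonneg hDnn hs.1.le
        have h2 : 0 ≤ piter_S n (C * L * s) := by
          unfold piter_S
          exact Finset.sum_nonneg fun j _ => by positivity
        have h3 := hPnn t ht0 x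
        positivity
      have hints : (∫ s in (0:ℝ)..t, ∫ y, gk N ((t - s) / c) (x - y) * w s y) ≤
          ∫ s in (0:ℝ)..t, (C * piter_S n (C * L * s) * P t x +
            B * ((C * L * s) ^ n / n.factorial)) := by
        by_cases hint : IntervalIntegrable
            (fun s => ∫ y, gk N ((t - s) / c) (x - y) * w s y) volume 0 t
        · exact intervalIntegral.integral_mono_on_of_le_Ioo ht0.le hint
            (hcontR.intervalIntegrable 0 t) hin
        · rw [intervalIntegral.integral_undef hint]
          rw [intervalIntegral.integral_of_le ht0.le, integral_Ioc_eq_integral_Ioo]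
          exact setIntegral_nonneg measurableSet_Ioo hRnn
      have hval : C * L * (∫ s in (0:ℝ)..t, (C * piter_S n (C * L * s) * P t x +
          B * ((C * L * s) ^ n / n.factorial))) =
          C * (piter_S (n + 1) (C * L * t) - 1) * P t x +
            B * ((C * L * t) ^ (n + 1) / (n + 1).factorial) := by
        have hc1 : Continuous (fun s : ℝ => piter_S n (C * L * s)) := by
          unfold piter_S
          fun_prop
        have hc2 : Continuous (fun s : ℝ => (C * L * s) ^ n / (n.factorial : ℝ)) := by fun_prop
        have e1 : (∫ s in (0:ℝ)..t, (C * piter_S n (C * L * s) * P t x +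
            B * ((C * L * s) ^ n / n.factorial))) =
            C * P t x * (∫ s in (0:ℝ)..t, piter_S n (C * L * s)) +
            B * ∫ s in (0:ℝ)..t, ((C * L * s) ^ n / (n.factorial : ℝ)) := by
          rw [← intervalIntegral.integral_const_mul, ← intervalIntegral.integral_const_mul,
            ← intervalIntegral.integral_add ((hc1.const_mul _).intervalIntegrable 0 t)
              ((hc2.const_mul _).intervalIntegrable 0 t)]
          refine intervalIntegral.integral_congr fun s _ => ?_
          ring
        have e2 : C * L * (∫ s in (0:ℝ)..t, piter_S n (C * L * s)) =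
            piter_S (n + 1) (C * L * t) - 1 := by
          unfold piter_S
          rw [intervalIntegral.integral_finsetSum (fun j _ =>
            (by fun_prop : Continuous fun s : ℝ => (C * L * s) ^ j / (j.factorial : ℝ)).intervalIntegrable
              0 t), Finset.mul_sum, Finset.sum_range_succ']
          simp only [piter_int]
          simp
        have e3 := piter_int (C * L) t n
        rw [e1, ← e2, ← e3]
        ring
      have h5 := mul_le_mul_of_nonneg_left hints hDnn
      rw [hval] at h5
      have h6 : C * (∫ y, gk N (t / c) (x - y) * w0 y) = C * P t x := rfl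
      rw [h6]
      linarith
  -- the limit
  intro t ht x
  have ht0 : 0 < t := ht.1
  have hlim : Tendsto (fun n : ℕ => C * Real.exp (C * L * t) * P t x +
      B * ((C * L * t) ^ n / n.factorial)) atTop
      (𝓝 (C * Real.exp (C * L * t) * P t x + B * 0)) :=
    ((FloorSemiring.tendsto_pow_div_factorial_atTop (C * L * t)).const_mul B).const_add _
  rw [mul_zero, add_zero] at hlim
  refine ge_of_tendsto' hlim fun n => (key n t ht x).trans ?_
  have h1 : piter_S n (C * L * t) ≤ Real.exp (C * L * t) :=
    Real.sum_le_exp_of_nonneg (mul_nonneg hDnn ht0.le) n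
  have h2 := mul_le_mul_of_nonneg_right (mul_le_mul_of_nonneg_left h1 hC) (hPnn t ht0 x)
  linarith
end CGL
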