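import Pool.Agent.CGL.PKer
import Pool.Agent.CGL.PIter
/-! PDOM: Gaussian domination of mild solutions -/
open MeasureTheory Set Filter Topology
namespace CGL
variable {N : ℕ} {α θ γ : ℝ}

/-! ### elementary facts -/

private theorem exp_int : Integrable (fun z : E N => Real.exp (-‖z‖)) := by
  have h1 : Integrable (fun z : E N => (((N+1).factorial : ℝ) * Real.exp 1) *
      (1 + ‖z‖) ^ (-((N:ℝ)+1))) := by
    apply Integrable.const_mul
    apply integrable_one_add_norm
    simp
  refine h1.mono' (by fun_prop) ?_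
  apply Eventually.of_forall
  intro z
  have h0 : (0:ℝ) ≤ ‖z‖ := norm_nonneg z
  have h2 : (0:ℝ) < 1 + ‖z‖ := by linarith
  rw [Real.norm_of_nonneg (Real.exp_pos _).le, Real.rpow_neg h2.le]
  have h3 := Real.pow_div_factorial_le_exp (1 + ‖z‖) h2.le (N+1)
  have h4 : (1 + ‖z‖) ^ ((N:ℝ)+1) = (1 + ‖z‖) ^ (N+1) := by
    rw [← Real.rpow_natCast]
    push_cast
    rfl
  rw [h4]
  have h5 : (0:ℝ) < ((N+1).factorial : ℝ) := by exact_mod_cast Nat.factorial_pos _
  have h6 : (0:ℝ) < (1 + ‖z‖) ^ (N+1) := by positivity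
  rw [← div_eq_mul_inv, le_div_iff₀ h6]
  rw [div_le_iff₀ h5] at h3
  have h7 : Real.exp (-‖z‖) * Real.exp (1 + ‖z‖) = Real.exp 1 := by
    rw [← Real.exp_add]
    congr 1
    ring
  calc Real.exp (-‖z‖) * (1 + ‖z‖) ^ (N+1)
      ≤ Real.exp (-‖z‖) * (Real.exp (1 + ‖z‖) * ((N+1).factorial : ℝ)) :=
        mul_le_mul_of_nonneg_left h3 (Real.exp_pos _).le
    _ = ((N+1).factorial : ℝ) * Real.exp 1 := by rw [← h7]; ring

private theorem ker_meas : Measurable (fun p : ℝ × E N => ker N θ p.1 p.2) := by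
  unfold ker
  fun_prop

private theorem gk_meas : Measurable (fun p : ℝ × E N => gk N p.1 p.2) := by
  unfold gk
  fun_prop

private theorem gk_sub_int {s : ℝ} (hs : 0 < s) (x : E N) :
    Integrable (fun y => gk N s (x - y)) := (gk_integrable hs).comp_sub_left x

private theorem gk_sub_one {s : ℝ} (hs : 0 < s) (x : E N) :
    (∫ y, gk N s (x - y)) = 1 := by
  rw [MeasureTheory.integral_sub_left_eq_self (fun z => gk N s z) volume x]
  exact gk_int hs

private theorem gk_mul_int {s : ℝ} (hs : 0 < s) (x : E N) {w : E N → ℝ} (hw : Continuous w)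
    {B : ℝ} (hB : ∀ y, |w y| ≤ B) : Integrable (fun y => gk N s (x - y) * w y) := by
  have h := (gk_sub_int hs x).mul_const B
  have hc : Continuous (fun y => gk N s (x - y) * w y) :=
    ((gk_cont hs).comp (continuous_const.sub continuous_id)).mul hw
  refine h.mono' hc.aestronglyMeasurable ?_
  apply Eventually.of_forall
  intro y
  rw [Real.norm_eq_abs, abs_mul, abs_of_pos (gk_pos hs _)]
  exact mul_le_mul_of_nonneg_left (hB y) (gk_pos hs _).le

private theorem gk_mul_bd {s : ℝ} (hs : 0 < s) (x : E N) {w : E N → ℝ}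
    {B : ℝ} (hB : ∀ y, |w y| ≤ B) : |∫ y, gk N s (x - y) * w y| ≤ B := by
  have h1 : ‖∫ y, gk N s (x - y) * w y‖ ≤ ∫ y, gk N s (x - y) * B := by
    apply norm_integral_le_of_norm_le ((gk_sub_int hs x).mul_const B)
    apply Eventually.of_forall
    intro y
    rw [Real.norm_eq_abs, abs_mul, abs_of_pos (gk_pos hs _)]
    exact mul_le_mul_of_nonneg_left (hB y) (gk_pos hs _).le
  rw [integral_mul_const, gk_sub_one hs, one_mul] at h1
  exact h1

private theorem ker_mul_int (hc : 0 < Real.cos θ) {s : ℝ} (hs : 0 < s) (x : E N) {b : E N → ℂ}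
    (hb : Continuous b) {B : ℝ} (hB : ∀ y, ‖b y‖ ≤ B) :
    Integrable (fun y => ker N θ s (x - y) * b y) := by
  have h := (((ker_integrable (N := N) hc hs).norm).comp_sub_left x).mul_const B
  have hk : Continuous (fun z : E N => ker N θ s z) := by
    unfold ker
    fun_prop
  have hcc : Continuous (fun y => ker N θ s (x - y) * b y) :=
    (hk.comp (continuous_const.sub continuous_id)).mul hb
  refine h.mono' hcc.aestronglyMeasurable ?_
  apply Eventually.of_forall
  intro y
  rw [norm_mul]
  exact mul_le_mul_of_nonneg_left (hB y) (norm_nonneg _)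

private theorem ker_mul_bd (hc : 0 < Real.cos θ) {s : ℝ} (hs : 0 < s) (x : E N) {b : E N → ℂ}
    {w : E N → ℝ} (hw : Continuous w) {B : ℝ} (hB : ∀ y, |w y| ≤ B) (hbw : ∀ y, ‖b y‖ ≤ w y) :
    ‖∫ y, ker N θ s (x - y) * b y‖ ≤ C0 N θ * ∫ y, gk N (s / Real.cos θ) (x - y) * w y := by
  rw [← integral_const_mul]
  apply norm_integral_le_of_norm_le ((gk_mul_int (div_pos hs hc) x hw hB).const_mul _)
  apply Eventually.of_forall
  intro y
  rw [norm_mul, ker_norm hc hs, mul_assoc]
  apply mul_le_mul_of_nonneg_left _ (le_trans zero_le_one (C0_ge_one hc))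
  exact mul_le_mul_of_nonneg_left (hbw y) (gk_pos (div_pos hs hc) _).le

private theorem gk_ii {c : ℝ} (hc : 0 < c) {t : ℝ} (ht : 0 < t) {w : ℝ → E N → ℝ}
    (hw : Continuous (Function.uncurry w)) {B : ℝ} (hB : ∀ s y, |w s y| ≤ B) (x : E N) :
    IntervalIntegrable (fun s => ∫ y, gk N ((t - s) / c) (x - y) * w s y) volume 0 t := by
  have hm : StronglyMeasurable (Function.uncurry
      (fun (s : ℝ) (y : E N) => gk N ((t - s) / c) (x - y) * w s y)) := by
    apply Measurable.stronglyMeasurable
    have h1 : Measurable (fun p : ℝ × E N => gk N ((t - p.1) / c) (x - p.2)) :=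
      gk_meas.comp (f := fun p : ℝ × E N => (((t - p.1) / c, x - p.2) : ℝ × E N)) (by fun_prop)
    exact h1.mul hw.measurable
  have hm2 := hm.integral_prod_right (ν := (volume : Measure (E N)))
  rw [intervalIntegrable_iff_integrableOn_Ioc_of_le ht.le]
  rw [integrableOn_Ioc_iff_integrableOn_Ioo]
  refine Measure.integrableOn_of_bounded (M := B) (by simp) hm2.aestronglyMeasurable ?_
  rw [ae_restrict_iff' measurableSet_Ioo]
  apply Eventually.of_forall
  intro s hs
  have hs' : 0 < (t - s) / c := div_pos (by linarith [hs.2]) hc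
  exact gk_mul_bd hs' x (hB s)

private theorem ker_ii (hc : 0 < Real.cos θ) {t : ℝ} (ht : 0 < t) {F : ℝ → E N → ℂ}
    (hF : Continuous (Function.uncurry F)) {B : ℝ} (hB : ∀ s y, ‖F s y‖ ≤ B) (x : E N) :
    IntervalIntegrable (fun s => ∫ y, ker N θ (t - s) (x - y) * F s y) volume 0 t := by
  have hm : StronglyMeasurable (Function.uncurry
      (fun (s : ℝ) (y : E N) => ker N θ (t - s) (x - y) * F s y)) := by
    apply Measurable.stronglyMeasurable
    have h1 : Measurable (fun p : ℝ × E N => ker N θ (t - p.1) (x - p.2)) :=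
      ker_meas.comp (f := fun p : ℝ × E N => ((t - p.1, x - p.2) : ℝ × E N)) (by fun_prop)
    exact h1.mul hF.measurable
  have hm2 := hm.integral_prod_right (ν := (volume : Measure (E N)))
  rw [intervalIntegrable_iff_integrableOn_Ioc_of_le ht.le]
  rw [integrableOn_Ioc_iff_integrableOn_Ioo]
  refine Measure.integrableOn_of_bounded (M := C0 N θ * B) (by simp) hm2.aestronglyMeasurable ?_
  rw [ae_restrict_iff' measurableSet_Ioo]
  apply Eventually.of_forall
  intro s hs
  have hB0 : 0 ≤ B := le_trans (norm_nonneg _) (hB 0 0)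
  have hs' : 0 < t - s := by linarith [hs.2]
  have h1 := ker_mul_bd hc hs' x (b := F s) (w := fun _ => B) continuous_const
    (B := B) (fun _ => (abs_of_nonneg hB0).le) (hB s)
  rw [integral_mul_const, gk_sub_one (div_pos hs' hc), one_mul] at h1
  exact h1

/-- one Duhamel step. -/
private theorem duh_step (hc : 0 < Real.cos θ) {t : ℝ} (ht : 0 < t) {L : ℝ} (hL : 0 ≤ L)
    {b0 : E N → ℂ} {w0 : E N → ℝ} (hw0 : Continuous w0) (hb0 : ∀ x, ‖b0 x‖ ≤ w0 x) {B0 : ℝ}
    (hw0b : ∀ x, |w0 x| ≤ B0) {F : ℝ → E N → ℂ} {w : ℝ → E N → ℝ}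
    (hw : Continuous (Function.uncurry w)) (hFw : ∀ s y, ‖F s y‖ ≤ L * w s y)
    {B : ℝ} (hwb : ∀ s y, |w s y| ≤ B) (x : E N) :
    ‖(∫ y, ker N θ t (x - y) * b0 y) + ∫ s in (0:ℝ)..t, ∫ y, ker N θ (t - s) (x - y) * F s y‖ ≤
      C0 N θ * (∫ y, gk N (t / Real.cos θ) (x - y) * w0 y)
      + C0 N θ * L * ∫ s in (0:ℝ)..t, ∫ y, gk N ((t - s) / Real.cos θ) (x - y) * w s y := by
  refine (norm_add_le _ _).trans (add_le_add (ker_mul_bd hc ht x hw0 hw0b hb0) ?_)
  rw [← intervalIntegral.integral_const_mul]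
  have hii := (gk_ii hc ht hw hwb x).const_mul (C0 N θ * L)
  apply intervalIntegral.norm_integral_le_of_norm_le ht.le _ hii
  have hne : ∀ᵐ s : ℝ, s ≠ t := by
    have := (Set.countable_singleton t).ae_notMem (volume : Measure ℝ)
    filter_upwards [this] with s hs
    simpa using hs
  filter_upwards [hne] with s hst hs
  have hs' : 0 < t - s := by
    rcases lt_or_eq_of_le hs.2 with h | h
    · linarith
    · exact absurd h hst
  have hws : Continuous (w s) := hw.comp (Continuous.prodMk_right s)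
  have h1 := ker_mul_bd hc hs' x (b := F s) (w := fun y => L * w s y) (continuous_const.mul hws)
    (B := L * B) (fun y => by
      rw [abs_mul, abs_of_nonneg hL]
      exact mul_le_mul_of_nonneg_left (hwb s y) hL) (hFw s)
  have h2 : (∫ y, gk N ((t - s) / Real.cos θ) (x - y) * (L * w s y))
      = L * ∫ y, gk N ((t - s) / Real.cos θ) (x - y) * w s y := by
    rw [← integral_const_mul]
    congr 1
    funext y
    ring
  rw [h2] at h1
  linarith

/-! ### the clamped solution -/

private theorem uc_cont {u : ℝ → ZeroAtInftyContinuousMap (E N) ℂ}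
    (hu : ContinuousOn u (Set.Ici 0)) (T : ℝ) :
    Continuous (Function.uncurry (fun (s : ℝ) (y : E N) => u (max 0 (min s T)) y)) := by
  have h1 : Continuous (fun s : ℝ => u (max 0 (min s T))) :=
    hu.comp_continuous (by fun_prop) (fun s => by simp)
  have h2 : Continuous (fun s : ℝ => (u (max 0 (min s T))).toBCF) :=
    ZeroAtInftyContinuousMap.isometry_toBCF.continuous.comp h1
  have h3 : Continuous (fun p : ℝ × E N => ((u (max 0 (min p.1 T))).toBCF) p.2) :=
    (h2.comp continuous_fst).eval continuous_snd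
  exact h3

private theorem uc_bdd {u : ℝ → ZeroAtInftyContinuousMap (E N) ℂ}
    (hu : ContinuousOn u (Set.Ici 0)) {T : ℝ} (hT : 0 < T) :
    ∃ B : ℝ, 0 ≤ B ∧ ∀ s y, ‖u (max 0 (min s T)) y‖ ≤ B := by
  obtain ⟨B, hB⟩ := (isCompact_Icc (a := (0:ℝ)) (b := T)).exists_bound_of_continuousOn
    (hu.mono (fun s hs => hs.1))
  refine ⟨B, le_trans (norm_nonneg _) (hB 0 ⟨le_rfl, hT.le⟩), ?_⟩
  intro s y
  have h1 : max 0 (min s T) ∈ Icc (0:ℝ) T := ⟨le_max_left _ _, max_le hT.le (min_le_right _ _)⟩
  have h2 := hB _ h1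
  have h3 := BoundedContinuousFunction.norm_coe_le_norm (u (max 0 (min s T))).toBCF y
  rw [ZeroAtInftyContinuousMap.norm_toBCF_eq_norm] at h3
  exact h3.trans h2

private theorem rhs_cont (hα : 0 < α) : Continuous (rhs α θ γ) := by
  unfold rhs
  exact (continuous_const.mul (nl_cont hα)).add (continuous_const.mul continuous_id)

private theorem ph_norm : ‖ph θ‖ = 1 := by
  rw [ph]
  exact Complex.norm_exp_ofReal_mul_I θ

private theorem rhs_lip (hα : 0 < α) (hγ : 0 ≤ γ) {B : ℝ} (hB : 0 ≤ B) :
    ∃ L : ℝ, 0 ≤ L ∧ (∀ z w : ℂ, ‖z‖ ≤ B → ‖w‖ ≤ B → ‖rhs α θ γ z - rhs α θ γ w‖ ≤ L * ‖z - w‖) ∧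
      ∀ z : ℂ, ‖z‖ ≤ B → ‖rhs α θ γ z‖ ≤ L * ‖z‖ := by
  obtain ⟨L, hL, hLip⟩ := nl_lip hα hB
  have h1 : ∀ z w : ℂ, ‖z‖ ≤ B → ‖w‖ ≤ B → ‖rhs α θ γ z - rhs α θ γ w‖ ≤ (L + γ) * ‖z - w‖ := by
    intro z w hz hw
    have h2 : rhs α θ γ z - rhs α θ γ w = ph θ * (nl α z - nl α w) + (γ : ℂ) * (z - w) := by
      rw [rhs, rhs]
      ring
    rw [h2]
    refine (norm_add_le _ _).trans ?_
    rw [norm_mul, norm_mul, ph_norm, one_mul, Complex.norm_real, Real.norm_of_nonneg hγ, add_mul]
    exact add_le_add (hLip z w hz hw) le_rfl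
  refine ⟨L + γ, by linarith, h1, ?_⟩
  intro z hz
  have h3 := h1 z 0 hz (by simpa using hB)
  have h4 : rhs α θ γ 0 = 0 := by simp [rhs, nl]
  rw [h4, sub_zero, sub_zero] at h3
  exact h3

private theorem duh_cl {u0 : ZeroAtInftyContinuousMap (E N) ℂ}
    {u : ℝ → ZeroAtInftyContinuousMap (E N) ℂ} (hu : IsGlobalMild N α θ γ u0 u)
    {T t : ℝ} (ht : t ∈ Ioc (0:ℝ) T) (x : E N) :
    u t x = (∫ y, ker N θ t (x - y) * u0 y)
      + ∫ s in (0:ℝ)..t, ∫ y, ker N θ (t - s) (x - y) * rhs α θ γ (u (max 0 (min s T)) y) := by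
  rw [hu.duhamel t ht.1 x]
  congr 1
  apply intervalIntegral.integral_congr
  intro s hs
  rw [uIcc_of_le ht.1.le] at hs
  have h1 : max 0 (min s T) = s := by
    rw [min_eq_left (hs.2.trans ht.2), max_eq_right hs.1]
  simp only [h1]
  rfl

private theorem gk_mul_nonneg {s : ℝ} (hs : 0 < s) (x : E N) {w : E N → ℝ} (hw : ∀ y, 0 ≤ w y) :
    0 ≤ ∫ y, gk N s (x - y) * w y :=
  integral_nonneg (fun y => mul_nonneg (gk_pos hs _).le (hw y))

/-- domination of `u` and of its translates differences, same constant. -/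
theorem mild_dom (hα : 0 < α) (hγ : 0 ≤ γ) (hθ : 0 ≤ θ) (hθ' : θ < Real.pi / 2)
    {u0 : ZeroAtInftyContinuousMap (E N) ℂ}
    {u : ℝ → ZeroAtInftyContinuousMap (E N) ℂ} (hu : IsGlobalMild N α θ γ u0 u)
    {T : ℝ} (hT : 0 < T) : ∃ C : ℝ, 0 < C ∧ ∀ t ∈ Ioc (0:ℝ) T, ∀ x : E N,
      ‖u t x‖ ≤ C * (∫ y, gk N (t / Real.cos θ) (x - y) * ‖u0 y‖) ∧
      ∀ z : E N, ‖u t (x - z) - u t x‖
        ≤ C * ∫ y, gk N (t / Real.cos θ) (x - y) * ‖u0 (y - z) - u0 y‖ := by
  have hc := cos_pos_of hθ hθ'
  have hC0 : (1:ℝ) ≤ C0 N θ := C0_ge_one hc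
  have hC0' : (0:ℝ) ≤ C0 N θ := by linarith
  obtain ⟨B, hB0, hB⟩ := uc_bdd hu.cont hT
  have hucc := uc_cont hu.cont T
  obtain ⟨L, hL, hLip, hLb⟩ := rhs_lip (θ := θ) hα hγ hB0
  have hcl : ∀ t ∈ Ioc (0:ℝ) T, max 0 (min t T) = t := by
    intro t ht
    rw [min_eq_left ht.2, max_eq_right ht.1.le]
  have hu0b : ∀ y, ‖u0 y‖ ≤ B := by
    intro y
    have h := hB 0 y
    rw [min_eq_left hT.le, max_self, hu.init] at h
    exact h
  have hu0c : Continuous (fun y => u0 y) := u0.continuous
  have hrc := rhs_cont (α := α) (θ := θ) (γ := γ) hα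
  -- translated solution
  have htr : ∀ z : E N, Continuous (Function.uncurry
      (fun (s : ℝ) (y : E N) => u (max 0 (min s T)) (y - z))) := by
    intro z
    exact hucc.comp (f := fun p : ℝ × E N => ((p.1, p.2 - z) : ℝ × E N)) (by fun_prop)
  refine ⟨C0 N θ * Real.exp (C0 N θ * L * T), by positivity, ?_⟩
  have hexp : ∀ t ∈ Ioc (0:ℝ) T, ∀ x : E N, ∀ w0 : E N → ℝ, (∀ y, 0 ≤ w0 y) →
      C0 N θ * Real.exp (C0 N θ * L * t) * (∫ y, gk N (t / Real.cos θ) (x - y) * w0 y)
        ≤ C0 N θ * Real.exp (C0 N θ * L * T) * ∫ y, gk N (t / Real.cos θ) (x - y) * w0 y := by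
    intro t ht x w0 hw0
    apply mul_le_mul_of_nonneg_right _ (gk_mul_nonneg (div_pos ht.1 hc) x hw0)
    apply mul_le_mul_of_nonneg_left _ hC0'
    apply Real.exp_le_exp.2
    exact mul_le_mul_of_nonneg_left ht.2 (mul_nonneg hC0' hL)
  intro t ht x
  constructor
  · have key := dom_iter (N := N) (c := Real.cos θ) (C := C0 N θ) (L := L) (T := T) hc hC0' hL hT
      (w := fun s y => ‖u (max 0 (min s T)) y‖) (w0 := fun y => ‖u0 y‖) hu0c.norm
      (fun y => norm_nonneg _) ⟨B, hu0b⟩ hucc.norm (fun s y => norm_nonneg _) ⟨B, hB⟩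
      (by
        intro t ht x
        simp only [hcl t ht]
        rw [duh_cl hu ht x]
        exact duh_step hc ht.1 hL (b0 := fun y => u0 y) (w0 := fun y => ‖u0 y‖) hu0c.norm
          (fun y => le_rfl) (B0 := B) (fun y => by rw [abs_norm]; exact hu0b y)
          (F := fun s y => rhs α θ γ (u (max 0 (min s T)) y))
          (w := fun s y => ‖u (max 0 (min s T)) y‖) hucc.norm (fun s y => hLb _ (hB s y))
          (B := B) (fun s y => by rw [abs_norm]; exact hB s y) x)
      t ht x
    simp only [hcl t ht] at key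
    exact key.trans (hexp t ht x _ (fun y => norm_nonneg _))
  · intro z
    have hdc : Continuous (fun y => u0 (y - z) - u0 y) :=
      (u0.continuous.comp (continuous_id.sub continuous_const)).sub u0.continuous
    have hdb : ∀ y, ‖u0 (y - z) - u0 y‖ ≤ 2 * B := by
      intro y
      have h1 := norm_sub_le (u0 (y - z)) (u0 y)
      linarith [hu0b (y - z), hu0b y]
    have hwc : Continuous (Function.uncurry (fun (s : ℝ) (y : E N) =>
        ‖u (max 0 (min s T)) (y - z) - u (max 0 (min s T)) y‖)) := ((htr z).sub hucc).norm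
    have hwb : ∀ s y, ‖u (max 0 (min s T)) (y - z) - u (max 0 (min s T)) y‖ ≤ 2 * B := by
      intro s y
      have h1 := norm_sub_le (u (max 0 (min s T)) (y - z)) (u (max 0 (min s T)) y)
      linarith [hB s (y - z), hB s y]
    have key := dom_iter (N := N) (c := Real.cos θ) (C := C0 N θ) (L := L) (T := T) hc hC0' hL hT
      (w := fun s y => ‖u (max 0 (min s T)) (y - z) - u (max 0 (min s T)) y‖)
      (w0 := fun y => ‖u0 (y - z) - u0 y‖) hdc.norm
      (fun y => norm_nonneg _) ⟨2 * B, hdb⟩ hwc (fun s y => norm_nonneg _) ⟨2 * B, hwb⟩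
      (by
        intro t ht x
        simp only [hcl t ht]
        have hb1 : Integrable (fun y => ker N θ t (x - y) * u0 (y - z)) :=
          ker_mul_int hc ht.1 x (b := fun y => u0 (y - z))
            (u0.continuous.comp (continuous_id.sub continuous_const)) (fun y => hu0b _)
        have hb2 : Integrable (fun y => ker N θ t (x - y) * u0 y) :=
          ker_mul_int hc ht.1 x (b := fun y => u0 y) u0.continuous (fun y => hu0b _)
        have hRb : ∀ s y, ‖rhs α θ γ (u (max 0 (min s T)) y)‖ ≤ L * B := by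
          intro s y
          exact (hLb _ (hB s y)).trans (mul_le_mul_of_nonneg_left (hB s y) hL)
        have hi1 : IntervalIntegrable (fun s => ∫ y, ker N θ (t - s) (x - y) *
            rhs α θ γ (u (max 0 (min s T)) (y - z))) volume 0 t :=
          ker_ii hc ht.1 (F := fun s y => rhs α θ γ (u (max 0 (min s T)) (y - z)))
            (hrc.comp (htr z)) (B := L * B) (fun s y => hRb s _) x
        have hi2 : IntervalIntegrable (fun s => ∫ y, ker N θ (t - s) (x - y) *
            rhs α θ γ (u (max 0 (min s T)) y)) volume 0 t :=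
          ker_ii hc ht.1 (F := fun s y => rhs α θ γ (u (max 0 (min s T)) y))
            (hrc.comp hucc) (B := L * B) (fun s y => hRb s _) x
        -- translation of the first formula
        have e1 : u t (x - z) = (∫ y, ker N θ t (x - y) * u0 (y - z))
            + ∫ s in (0:ℝ)..t, ∫ y, ker N θ (t - s) (x - y) *
              rhs α θ γ (u (max 0 (min s T)) (y - z)) := by
          rw [duh_cl hu ht (x - z)]
          congr 1
          · rw [← integral_sub_right_eq_self (fun y => ker N θ t (x - z - y) * u0 y) z]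
            congr 1
            funext y
            congr 2
            abel
          · apply intervalIntegral.integral_congr
            intro s _
            simp only
            rw [← integral_sub_right_eq_self (fun y => ker N θ (t - s) (x - z - y) *
              rhs α θ γ (u (max 0 (min s T)) y)) z]
            congr 1
            funext y
            congr 2
            abel
        have e2 : u t (x - z) - u t x = (∫ y, ker N θ t (x - y) * (u0 (y - z) - u0 y))
            + ∫ s in (0:ℝ)..t, ∫ y, ker N θ (t - s) (x - y) *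
              (rhs α θ γ (u (max 0 (min s T)) (y - z)) - rhs α θ γ (u (max 0 (min s T)) y)) := by
          rw [e1, duh_cl hu ht x]
          have e3 : (∫ y, ker N θ t (x - y) * (u0 (y - z) - u0 y))
              = (∫ y, ker N θ t (x - y) * u0 (y - z)) - ∫ y, ker N θ t (x - y) * u0 y := by
            rw [← integral_sub hb1 hb2]
            congr 1
            funext y
            ring
          have hne : ∀ᵐ s : ℝ, s ≠ t := by
            have := (Set.countable_singleton t).ae_notMem (volume : Measure ℝ)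
            filter_upwards [this] with s hs
            simpa using hs
          have e4 : (∫ s in (0:ℝ)..t, ∫ y, ker N θ (t - s) (x - y) *
              (rhs α θ γ (u (max 0 (min s T)) (y - z)) - rhs α θ γ (u (max 0 (min s T)) y)))
              = (∫ s in (0:ℝ)..t, ∫ y, ker N θ (t - s) (x - y) *
              rhs α θ γ (u (max 0 (min s T)) (y - z)))
              - ∫ s in (0:ℝ)..t, ∫ y, ker N θ (t - s) (x - y) *
              rhs α θ γ (u (max 0 (min s T)) y) := by
            rw [← intervalIntegral.integral_sub hi1 hi2]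
            apply intervalIntegral.integral_congr_ae
            filter_upwards [hne] with s hst hs
            rw [uIoc_of_le ht.1.le] at hs
            have hs' : 0 < t - s := by
              rcases lt_or_eq_of_le hs.2 with h | h
              · linarith
              · exact absurd h hst
            have j1 : Integrable (fun y => ker N θ (t - s) (x - y) *
                rhs α θ γ (u (max 0 (min s T)) (y - z))) :=
              ker_mul_int hc hs' x (b := fun y => rhs α θ γ (u (max 0 (min s T)) (y - z)))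
                (hrc.comp ((u _).continuous.comp (continuous_id.sub continuous_const)))
                (fun y => hRb s _)
            have j2 : Integrable (fun y => ker N θ (t - s) (x - y) *
                rhs α θ γ (u (max 0 (min s T)) y)) :=
              ker_mul_int hc hs' x (b := fun y => rhs α θ γ (u (max 0 (min s T)) y))
                (hrc.comp (u _).continuous) (fun y => hRb s _)
            rw [← integral_sub j1 j2]
            congr 1
            funext y
            ring
          rw [e3, e4]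
          ring
        rw [e2]
        exact duh_step hc ht.1 hL (b0 := fun y => u0 (y - z) - u0 y)
          (w0 := fun y => ‖u0 (y - z) - u0 y‖) hdc.norm
          (fun y => le_rfl) (B0 := 2 * B) (fun y => by rw [abs_norm]; exact hdb y)
          (F := fun s y => rhs α θ γ (u (max 0 (min s T)) (y - z)) -
            rhs α θ γ (u (max 0 (min s T)) y))
          (w := fun s y => ‖u (max 0 (min s T)) (y - z) - u (max 0 (min s T)) y‖) hwc
          (fun s y => hLip _ _ (hB s _) (hB s y))
          (B := 2 * B) (fun s y => by rw [abs_norm]; exact hwb s y) x)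
      t ht x
    simp only [hcl t ht] at key
    exact key.trans (hexp t ht x _ (fun y => norm_nonneg _))

private theorem sq_int_transl {u0 : ZeroAtInftyContinuousMap (E N) ℂ}
    (hu0 : Integrable (fun x => ‖u0 x‖ ^ 2)) (z : E N) :
    Integrable (fun x => ‖u0 (x - z) - u0 x‖ ^ 2) := by
  have h1 : Integrable (fun x => ‖u0 (x - z)‖ ^ 2) := hu0.comp_sub_right z
  have h2 := (h1.const_mul 2).add (hu0.const_mul 2)
  have hdc : Continuous (fun y => u0 (y - z) - u0 y) :=
    (u0.continuous.comp (continuous_id.sub continuous_const)).sub u0.continuous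
  refine h2.mono' (hdc.norm.pow 2).aestronglyMeasurable ?_
  apply Eventually.of_forall
  intro x
  simp only [Pi.add_apply]
  rw [Real.norm_of_nonneg (by positivity)]
  have h3 := norm_sub_le (u0 (x - z)) (u0 x)
  have h4 : ‖u0 (x - z) - u0 x‖ ^ 2 ≤ (‖u0 (x - z)‖ + ‖u0 x‖) ^ 2 :=
    pow_le_pow_left₀ (norm_nonneg _) h3 2
  nlinarith [sq_nonneg (‖u0 (x - z)‖ - ‖u0 x‖)]

/-- `L²` consequences. -/
theorem mild_l2 (hα : 0 < α) (hγ : 0 ≤ γ) (hθ : 0 ≤ θ) (hθ' : θ < Real.pi / 2)
    {u0 : ZeroAtInftyContinuousMap (E N) ℂ} (hu0 : Integrable (fun x => ‖u0 x‖ ^ 2))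
    {u : ℝ → ZeroAtInftyContinuousMap (E N) ℂ} (hu : IsGlobalMild N α θ γ u0 u)
    {T : ℝ} (hT : 0 < T) : ∃ C : ℝ, 0 < C ∧ ∀ t ∈ Icc (0:ℝ) T,
      Integrable (fun x => ‖u t x‖ ^ 2) ∧ (∫ x, ‖u t x‖ ^ 2) ≤ C * (∫ x, ‖u0 x‖ ^ 2) ∧
      ∀ z : E N, (∫ x, ‖u t (x - z) - u t x‖ ^ 2) ≤ C * ∫ x, ‖u0 (x - z) - u0 x‖ ^ 2 := by
  have hc := cos_pos_of hθ hθ'
  obtain ⟨C, hC, hdom⟩ := mild_dom hα hγ hθ hθ' hu hT
  obtain ⟨B, hB0, hB⟩ := uc_bdd hu.cont hT
  have hu0b : ∀ y, ‖u0 y‖ ≤ B := by
    intro y
    have h := hB 0 y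
    rw [min_eq_left hT.le, max_self, hu.init] at h
    exact h
  -- general step
  have step : ∀ t ∈ Ioc (0:ℝ) T, ∀ (f : E N → ℝ) (g : E N → ℂ), Continuous f → (∀ x, 0 ≤ f x) →
      (∃ B, ∀ x, f x ≤ B) → Integrable (fun x => f x ^ 2) → Continuous g →
      (∀ x, ‖g x‖ ≤ C * ∫ y, gk N (t / Real.cos θ) (x - y) * f y) →
      Integrable (fun x => ‖g x‖ ^ 2) ∧ (∫ x, ‖g x‖ ^ 2) ≤ C ^ 2 * ∫ x, f x ^ 2 := by
    intro t ht f g hf hf0 hfb hf2 hg hgf
    obtain ⟨h1, h2⟩ := gk_l2 (div_pos ht.1 hc) hf hf0 hfb hf2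
    have h3 : ∀ x, ‖g x‖ ^ 2 ≤ C ^ 2 * (∫ y, gk N (t / Real.cos θ) (x - y) * f y) ^ 2 := by
      intro x
      rw [← mul_pow]
      exact pow_le_pow_left₀ (norm_nonneg _) (hgf x) 2
    constructor
    · refine (h1.const_mul (C ^ 2)).mono' (hg.norm.pow 2).aestronglyMeasurable ?_
      apply Eventually.of_forall
      intro x
      rw [Real.norm_of_nonneg (by positivity)]
      exact h3 x
    · calc (∫ x, ‖g x‖ ^ 2) ≤ ∫ x, C ^ 2 * (∫ y, gk N (t / Real.cos θ) (x - y) * f y) ^ 2 := by
            apply integral_mono_of_nonneg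
            · exact Eventually.of_forall (fun x => by positivity)
            · exact h1.const_mul _
            · exact Eventually.of_forall h3
        _ = C ^ 2 * ∫ x, (∫ y, gk N (t / Real.cos θ) (x - y) * f y) ^ 2 := by
            rw [integral_const_mul]
        _ ≤ C ^ 2 * ∫ x, f x ^ 2 := mul_le_mul_of_nonneg_left h2 (by positivity)
  have hle : ∀ I : ℝ, 0 ≤ I → C ^ 2 * I ≤ (C ^ 2 + 1) * I := by
    intro I hI
    nlinarith
  have hle1 : ∀ I : ℝ, 0 ≤ I → I ≤ (C ^ 2 + 1) * I := by
    intro I hI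
    nlinarith [sq_nonneg C, mul_nonneg (sq_nonneg C) hI]
  refine ⟨C ^ 2 + 1, by positivity, ?_⟩
  intro t ht
  have hI1 : 0 ≤ ∫ x, ‖u0 x‖ ^ 2 := integral_nonneg (fun x => by positivity)
  rcases eq_or_lt_of_le ht.1 with h0 | h0
  · subst h0
    rw [hu.init]
    exact ⟨hu0, hle1 _ hI1, fun z => hle1 _ (integral_nonneg (fun x => by positivity))⟩
  · have ht' : t ∈ Ioc (0:ℝ) T := ⟨h0, ht.2⟩
    have h1 := step t ht' (fun y => ‖u0 y‖) (fun y => u t y) u0.continuous.norm
      (fun x => norm_nonneg _) ⟨B, hu0b⟩ hu0 (u t).continuous (fun x => (hdom t ht' x).1)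
    refine ⟨h1.1, h1.2.trans (hle _ hI1), ?_⟩
    intro z
    have hdc : Continuous (fun y => u0 (y - z) - u0 y) :=
      (u0.continuous.comp (continuous_id.sub continuous_const)).sub u0.continuous
    have hdc2 : Continuous (fun y => u t (y - z) - u t y) :=
      ((u t).continuous.comp (continuous_id.sub continuous_const)).sub (u t).continuous
    have hdb : ∀ y, ‖u0 (y - z) - u0 y‖ ≤ 2 * B := by
      intro y
      have h1 := norm_sub_le (u0 (y - z)) (u0 y)
      linarith [hu0b (y - z), hu0b y]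
    have h2 := step t ht' (fun y => ‖u0 (y - z) - u0 y‖) (fun y => u t (y - z) - u t y) hdc.norm
      (fun x => norm_nonneg _) ⟨2 * B, hdb⟩ (sq_int_transl hu0 z) hdc2
      (fun x => (hdom t ht' x).2 z)
    exact h2.2.trans (hle _ (integral_nonneg (fun x => by positivity)))

/-- domination of convolutions with bounded compactly supported kernels by `Gf u₀`. -/
theorem cvl_dom (hα : 0 < α) (hγ : 0 ≤ γ) (hθ : 0 ≤ θ) (hθ' : θ < Real.pi / 2)
    {u0 : ZeroAtInftyContinuousMap (E N) ℂ}
    {u : ℝ → ZeroAtInftyContinuousMap (E N) ℂ} (hu : IsGlobalMild N α θ γ u0 u)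
    {ψ : E N → ℝ} (hψ : Test ψ) {T : ℝ} (hT : 0 < T) : ∃ C : ℝ, 0 < C ∧
      ∀ t ∈ Icc (0:ℝ) T, ∀ x : E N, (∫ y, |ψ (x - y)| * ‖u t y‖) ≤ C * Gf u0 x := by
  have hc := cos_pos_of hθ hθ'
  obtain ⟨C, hC, hdom⟩ := mild_dom hα hγ hθ hθ' hu hT
  obtain ⟨B, hB0, hB⟩ := uc_bdd hu.cont hT
  have hu0b : ∀ y, ‖u0 y‖ ≤ B := by
    intro y
    have h := hB 0 y
    rw [min_eq_left hT.le, max_self, hu.init] at h
    exact h
  -- `|ψ| ≤ A e^{-|z|}`
  obtain ⟨A, hA⟩ : ∃ A : ℝ, ∀ z : E N, ‖ψ z * Real.exp ‖z‖‖ ≤ A := by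
    have hcc : Continuous (fun z : E N => ψ z * Real.exp ‖z‖) :=
      hψ.s.continuous.mul (by fun_prop)
    exact hcc.bounded_above_of_compact_support hψ.k.mul_right
  have hA0 : 0 ≤ A := le_trans (norm_nonneg _) (hA 0)
  have hψA : ∀ z : E N, |ψ z| ≤ A * Real.exp (-‖z‖) := by
    intro z
    have h := hA z
    rw [norm_mul, Real.norm_eq_abs, Real.norm_of_nonneg (Real.exp_pos _).le] at h
    rw [Real.exp_neg, ← div_eq_mul_inv, le_div_iff₀ (Real.exp_pos _)]
    exact h
  obtain ⟨M, hM, hMexp⟩ := gk_exp (N := N) (T / Real.cos θ) (div_pos hT hc)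
  have hexpx : ∀ x : E N, Integrable (fun y => Real.exp (-‖x - y‖)) := fun x =>
    (exp_int (N := N)).comp_sub_left x
  have hGf0 : ∀ x : E N, 0 ≤ Gf u0 x := by
    intro x
    rw [Gf]
    exact integral_nonneg (fun y => by positivity)
  have hGint : ∀ x : E N, Integrable (fun y => Real.exp (-‖x - y‖) * ‖u0 y‖) := by
    intro x
    refine ((hexpx x).mul_const B).mono' ?_ ?_
    · apply Continuous.aestronglyMeasurable
      exact (by fun_prop : Continuous (fun y : E N => Real.exp (-‖x - y‖))).mul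
        u0.continuous.norm
    · apply Eventually.of_forall
      intro y
      rw [Real.norm_of_nonneg (by positivity)]
      exact mul_le_mul_of_nonneg_left (hu0b y) (Real.exp_pos _).le
  refine ⟨A * C * M + A + 1, by positivity, ?_⟩
  intro t ht x
  rcases eq_or_lt_of_le ht.1 with h0 | h0
  · subst h0
    rw [hu.init]
    have h1 : (∫ y, |ψ (x - y)| * ‖u0 y‖) ≤ A * Gf u0 x := by
      rw [Gf, ← integral_const_mul]
      apply integral_mono_of_nonneg
      · exact Eventually.of_forall (fun y => by positivity)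
      · exact (hGint x).const_mul A
      · apply Eventually.of_forall
        intro y
        have := mul_le_mul_of_nonneg_right (hψA (x - y)) (norm_nonneg (u0 y))
        simp only
        rw [← mul_assoc]
        exact this
    refine h1.trans (mul_le_mul_of_nonneg_right ?_ (hGf0 x))
    have : 0 ≤ A * C * M := by positivity
    linarith
  · have ht' : t ∈ Ioc (0:ℝ) T := ⟨h0, ht.2⟩
    have hs : 0 < t / Real.cos θ := div_pos h0 hc
    set s := t / Real.cos θ with hsdef
    have hsT : s ≤ T / Real.cos θ := div_le_div_of_nonneg_right ht.2 hc.le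
    obtain ⟨hei, hele⟩ := hMexp s hs hsT
    -- the product integrand
    have hprod : Integrable (fun p : E N × E N =>
        (Real.exp (-‖x - p.1‖) * ‖u0 (p.1 - p.2)‖) * gk N s p.2)
        ((volume : Measure (E N)).prod (volume : Measure (E N))) := by
      have h1 : Integrable (fun p : E N × E N => (Real.exp (-‖x - p.1‖) * B) * gk N s p.2)
          ((volume : Measure (E N)).prod (volume : Measure (E N))) :=
        ((hexpx x).mul_const B).mul_prod (gk_integrable hs)
      refine h1.mono' ?_ ?_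
      · apply Continuous.aestronglyMeasurable
        have c1 : Continuous (fun p : E N × E N => Real.exp (-‖x - p.1‖)) := by fun_prop
        have c2 : Continuous (fun p : E N × E N => ‖u0 (p.1 - p.2)‖) :=
          (u0.continuous.comp (continuous_fst.sub continuous_snd)).norm
        exact (c1.mul c2).mul ((gk_cont hs).comp continuous_snd)
      · apply Eventually.of_forall
        intro p
        rw [Real.norm_of_nonneg (mul_nonneg (by positivity) (gk_pos hs _).le)]
        apply mul_le_mul_of_nonneg_right _ (gk_pos hs _).le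
        exact mul_le_mul_of_nonneg_left (hu0b _) (Real.exp_pos _).le
    -- step 1
    have hinner : ∀ y : E N, (∫ y', gk N s (y - y') * ‖u0 y'‖) = ∫ z, gk N s z * ‖u0 (y - z)‖ := by
      intro y
      rw [← MeasureTheory.integral_sub_left_eq_self (fun z => gk N s z * ‖u0 (y - z)‖) volume y]
      congr 1
      funext y'
      simp
    have h1 : (∫ y, |ψ (x - y)| * ‖u t y‖)
        ≤ ∫ y, (A * C) * ∫ z, (Real.exp (-‖x - y‖) * ‖u0 (y - z)‖) * gk N s z := by
      apply integral_mono_of_nonneg
      · exact Eventually.of_forall (fun y => by positivity)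
      · exact (hprod.integral_prod_left).const_mul (A * C)
      · apply Eventually.of_forall
        intro y
        simp only
        have e1 : (∫ z, (Real.exp (-‖x - y‖) * ‖u0 (y - z)‖) * gk N s z)
            = Real.exp (-‖x - y‖) * ∫ y', gk N s (y - y') * ‖u0 y'‖ := by
          rw [hinner y, ← integral_const_mul]
          congr 1
          funext z
          ring
        rw [e1]
        have e2 := (hdom t ht' y).1
        have e3 := hψA (x - y)
        have e4 : 0 ≤ ∫ y', gk N s (y - y') * ‖u0 y'‖ :=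
          gk_mul_nonneg hs y (fun _ => norm_nonneg _)
        calc |ψ (x - y)| * ‖u t y‖
            ≤ (A * Real.exp (-‖x - y‖)) * (C * ∫ y', gk N s (y - y') * ‖u0 y'‖) :=
              mul_le_mul e3 e2 (norm_nonneg _) (by positivity)
          _ = A * C * (Real.exp (-‖x - y‖) * ∫ y', gk N s (y - y') * ‖u0 y'‖) := by ring
    -- step 2: swap
    have h2 : (∫ y, (A * C) * ∫ z, (Real.exp (-‖x - y‖) * ‖u0 (y - z)‖) * gk N s z)
        = (A * C) * ∫ z, gk N s z * ∫ y, Real.exp (-‖x - y‖) * ‖u0 (y - z)‖ := by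
      rw [integral_const_mul]
      congr 1
      have hsw := MeasureTheory.integral_integral_swap (μ := (volume : Measure (E N)))
        (ν := (volume : Measure (E N)))
        (f := fun y z => (Real.exp (-‖x - y‖) * ‖u0 (y - z)‖) * gk N s z) hprod
      rw [hsw]
      congr 1
      funext z
      rw [integral_mul_const, mul_comm]
    -- step 3: the inner integral is at most `e^{|z|} Gf`
    have h3 : ∀ z : E N, (∫ y, Real.exp (-‖x - y‖) * ‖u0 (y - z)‖) ≤ Real.exp ‖z‖ * Gf u0 x := by
      intro z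
      rw [← integral_add_right_eq_self (fun y => Real.exp (-‖x - y‖) * ‖u0 (y - z)‖) z, Gf,
        ← integral_const_mul]
      apply integral_mono_of_nonneg
      · exact Eventually.of_forall (fun y => by positivity)
      · exact (hGint x).const_mul _
      · apply Eventually.of_forall
        intro y
        simp only [add_sub_cancel_right]
        rw [← mul_assoc, ← Real.exp_add]
        apply mul_le_mul_of_nonneg_right _ (norm_nonneg _)
        apply Real.exp_le_exp.2
        have h4 : ‖x - y‖ ≤ ‖x - (y + z)‖ + ‖z‖ := by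
          have := norm_add_le (x - (y + z)) z
          rw [show x - (y + z) + z = x - y by abel] at this
          exact this
        linarith
    have h4 : (∫ z, gk N s z * ∫ y, Real.exp (-‖x - y‖) * ‖u0 (y - z)‖) ≤ M * Gf u0 x := by
      calc (∫ z, gk N s z * ∫ y, Real.exp (-‖x - y‖) * ‖u0 (y - z)‖)
          ≤ ∫ z, (gk N s z * Real.exp ‖z‖) * Gf u0 x := by
            apply integral_mono_of_nonneg
            · exact Eventually.of_forall (fun z => mul_nonneg (gk_pos hs _).le
                (integral_nonneg (fun y => by positivity)))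
            · exact hei.mul_const _
            · apply Eventually.of_forall
              intro z
              simp only
              rw [mul_assoc]
              exact mul_le_mul_of_nonneg_left (h3 z) (gk_pos hs _).le
        _ = (∫ z, gk N s z * Real.exp ‖z‖) * Gf u0 x := by rw [integral_mul_const]
        _ ≤ M * Gf u0 x := mul_le_mul_of_nonneg_right hele (hGf0 x)
    calc (∫ y, |ψ (x - y)| * ‖u t y‖)
        ≤ (A * C) * ∫ z, gk N s z * ∫ y, Real.exp (-‖x - y‖) * ‖u0 (y - z)‖ := h2 ▸ h1
      _ ≤ (A * C) * (M * Gf u0 x) := mul_le_mul_of_nonneg_left h4 (by positivity)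
      _ ≤ (A * C * M + A + 1) * Gf u0 x := by
          have := hGf0 x
          nlinarith
end CGL
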