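import Pool.Agent.CGL.Defs
/-! TOOL: integration toolkit for `Adm`, `Dom`, `Bdd` -/
open MeasureTheory Set Filter Topology
namespace CGL
variable {N : ℕ} {T : ℝ} {G : E N → ℝ}

/-- dominating functions -/
structure GOK (G : E N → ℝ) : Prop where
  c : Continuous G
  nn : ∀ x, 0 ≤ G x
  b : ∃ C, ∀ x, G x ≤ C
  i2 : Integrable (fun x => G x ^ 2)

private theorem tool_slice_cont {f : ℝ → E N → ℝ} (hf : Continuous (Function.uncurry f)) (t : ℝ) :
    Continuous (f t) := hf.comp (Continuous.prodMk_right t)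

private theorem tool_time_cont {f : ℝ → E N → ℝ} (hf : Continuous (Function.uncurry f)) (x : E N) :
    Continuous (fun t => f t x) := hf.comp (Continuous.prodMk_left x)

theorem adm_slice (hG : GOK G) {f : ℝ → E N → ℝ} (hf : Adm T G f) {t : ℝ} (ht : t ∈ Icc (0:ℝ) T) :
    Integrable (f t) := by
  obtain ⟨hc, C, hC, hb⟩ := hf
  refine (hG.i2.const_mul C).mono' (tool_slice_cont hc t).aestronglyMeasurable ?_
  exact ae_of_all _ fun x => by simpa [Real.norm_eq_abs] using hb t ht x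

theorem adm_contOn (hG : GOK G) {f : ℝ → E N → ℝ} (hf : Adm T G f) :
    ContinuousOn (fun t => ∫ x, f t x) (Icc (0:ℝ) T) := by
  obtain ⟨hc, C, hC, hb⟩ := hf
  refine continuousOn_of_dominated (bound := fun x => C * G x ^ 2)
    (fun t _ => (tool_slice_cont hc t).aestronglyMeasurable) ?_ (hG.i2.const_mul C) ?_
  · intro t ht
    exact ae_of_all _ fun x => by simpa [Real.norm_eq_abs] using hb t ht x
  · exact ae_of_all _ fun x => (tool_time_cont hc x).continuousOn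

theorem adm_ii (hG : GOK G) {f : ℝ → E N → ℝ} (hf : Adm T G f) {a b : ℝ}
    (ha : a ∈ Icc (0:ℝ) T) (hb : b ∈ Icc (0:ℝ) T) :
    IntervalIntegrable (fun t => ∫ x, f t x) volume a b := by
  refine ((adm_contOn hG hf).mono ?_).intervalIntegrable
  intro t ht
  rcases le_total a b with h | h
  · rw [uIcc_of_le h] at ht; exact ⟨ha.1.trans ht.1, ht.2.trans hb.2⟩
  · rw [uIcc_of_ge h] at ht; exact ⟨hb.1.trans ht.1, ht.2.trans ha.2⟩

private theorem tool_prod (hG : GOK G) {f : ℝ → E N → ℝ} (hf : Adm T G f) {S : ℝ}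
    (hS : S ∈ Icc (0:ℝ) T) :
    Integrable (Function.uncurry f) ((volume.restrict (Ioc (0:ℝ) S)).prod (volume : Measure (E N))) := by
  obtain ⟨hc, C, hC, hb⟩ := hf
  have h1 : Integrable (fun z : ℝ × E N => (1:ℝ) * (C * G z.2 ^ 2))
      ((volume.restrict (Ioc (0:ℝ) S)).prod (volume : Measure (E N))) := by
    have hfin : IsFiniteMeasure (volume.restrict (Ioc (0:ℝ) S)) := ⟨by simp⟩
    exact Integrable.mul_prod (integrable_const (1:ℝ)) (hG.i2.const_mul C)
  refine h1.mono' hc.aestronglyMeasurable ?_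
  have h2 : ∀ᵐ z ∂((volume.restrict (Ioc (0:ℝ) S)).prod (volume : Measure (E N))),
      z.1 ∈ Ioc (0:ℝ) S := by
    have : ((volume.restrict (Ioc (0:ℝ) S)).prod (volume : Measure (E N)))
        = (volume.prod volume).restrict (Ioc (0:ℝ) S ×ˢ univ) := by
      rw [← Measure.prod_restrict, Measure.restrict_univ]
    rw [this]
    filter_upwards [ae_restrict_mem (measurableSet_Ioc.prod MeasurableSet.univ)] with z hz
    exact hz.1
  filter_upwards [h2] with z hz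
  have := hb z.1 ⟨hz.1.le, hz.2.trans hS.2⟩ z.2
  simpa [Function.uncurry, Real.norm_eq_abs] using this

theorem adm_swap (hG : GOK G) {f : ℝ → E N → ℝ} (hf : Adm T G f) {S : ℝ} (hS : S ∈ Icc (0:ℝ) T) :
    (∫ t in (0:ℝ)..S, ∫ x, f t x) = ∫ x, ∫ t in (0:ℝ)..S, f t x := by
  rw [intervalIntegral.integral_of_le hS.1]
  simp_rw [intervalIntegral.integral_of_le hS.1]
  exact integral_integral_swap (tool_prod hG hf hS)

theorem adm_swap_integrable (hG : GOK G) {f : ℝ → E N → ℝ} (hf : Adm T G f) {S : ℝ}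
    (hS : S ∈ Icc (0:ℝ) T) : Integrable (fun x => ∫ t in (0:ℝ)..S, f t x) := by
  simp_rw [intervalIntegral.integral_of_le hS.1]
  exact (tool_prod hG hf hS).integral_prod_right

theorem adm_add {f g : ℝ → E N → ℝ} (hf : Adm T G f) (hg : Adm T G g) :
    Adm T G (fun t x => f t x + g t x) := by
  obtain ⟨hc, C, hC, hb⟩ := hf
  obtain ⟨hc', C', hC', hb'⟩ := hg
  refine ⟨hc.add hc', C + C', by positivity, fun t ht x => ?_⟩
  calc |f t x + g t x| ≤ |f t x| + |g t x| := abs_add_le _ _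
    _ ≤ C * G x ^ 2 + C' * G x ^ 2 := add_le_add (hb t ht x) (hb' t ht x)
    _ = (C + C') * G x ^ 2 := by ring
theorem adm_neg {f : ℝ → E N → ℝ} (hf : Adm T G f) : Adm T G (fun t x => - f t x) := by
  obtain ⟨hc, C, hC, hb⟩ := hf
  exact ⟨hc.neg, C, hC, fun t ht x => by simpa using hb t ht x⟩
theorem adm_sub {f g : ℝ → E N → ℝ} (hf : Adm T G f) (hg : Adm T G g) :
    Adm T G (fun t x => f t x - g t x) := by
  simpa [sub_eq_add_neg] using adm_add hf (adm_neg hg)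
theorem adm_cmul {f : ℝ → E N → ℝ} (c : ℝ) (hf : Adm T G f) :
    Adm T G (fun t x => c * f t x) := by
  obtain ⟨hc, C, hC, hb⟩ := hf
  refine ⟨continuous_const.mul hc, |c| * C, by positivity, fun t ht x => ?_⟩
  rw [abs_mul, mul_assoc]
  exact mul_le_mul_of_nonneg_left (hb t ht x) (abs_nonneg _)
theorem adm_sum {ι : Type*} (s : Finset ι) {f : ι → ℝ → E N → ℝ} (hf : ∀ i ∈ s, Adm T G (f i)) :
    Adm T G (fun t x => ∑ i ∈ s, f i t x) := by
  classical
  induction s using Finset.induction_on with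
  | empty => exact ⟨by simpa [Function.uncurry_def] using continuous_const, 0, le_rfl, by simp⟩
  | insert a s ha ih =>
    simp only [Finset.sum_insert ha]
    exact adm_add (hf a (Finset.mem_insert_self _ _))
      (ih fun i hi => hf i (Finset.mem_insert_of_mem hi))
theorem adm_wmul {w f : ℝ → E N → ℝ} (hw : Bdd T w) (hf : Adm T G f) :
    Adm T G (fun t x => w t x * f t x) := by
  obtain ⟨hc, C, hC, hb⟩ := hf
  obtain ⟨hc', C', hC', hb'⟩ := hw
  refine ⟨hc'.mul hc, C' * C, by positivity, fun t ht x => ?_⟩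
  rw [abs_mul, mul_assoc]
  exact mul_le_mul (hb' t ht x) (hb t ht x) (abs_nonneg _) hC'
theorem adm_abs {f : ℝ → E N → ℝ} (hf : Adm T G f) : Adm T G (fun t x => |f t x|) := by
  obtain ⟨hc, C, hC, hb⟩ := hf
  exact ⟨hc.abs, C, hC, fun t ht x => by simpa using hb t ht x⟩

theorem bdd_time {φ : ℝ → ℝ} (hφ : Continuous φ) : Bdd T (fun t (_ : E N) => φ t) := by
  obtain ⟨C, hC⟩ := (isCompact_Icc (a := (0:ℝ)) (b := T)).exists_bound_of_continuousOn
    hφ.continuousOn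
  refine ⟨by exact hφ.comp continuous_fst, max C 0, le_max_right _ _, fun t ht x => ?_⟩
  exact (by simpa [Real.norm_eq_abs] using hC t ht : |φ t| ≤ C).trans (le_max_left _ _)
theorem bdd_mul {w z : ℝ → E N → ℝ} (hw : Bdd T w) (hz : Bdd T z) :
    Bdd T (fun t x => w t x * z t x) := by
  obtain ⟨hc, C, hC, hb⟩ := hw
  obtain ⟨hc', C', hC', hb'⟩ := hz
  refine ⟨hc.mul hc', C * C', by positivity, fun t ht x => ?_⟩
  rw [abs_mul]
  exact mul_le_mul (hb t ht x) (hb' t ht x) (abs_nonneg _) hC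
theorem bdd_add {w z : ℝ → E N → ℝ} (hw : Bdd T w) (hz : Bdd T z) :
    Bdd T (fun t x => w t x + z t x) := by
  obtain ⟨hc, C, hC, hb⟩ := hw
  obtain ⟨hc', C', hC', hb'⟩ := hz
  exact ⟨hc.add hc', C + C', by positivity, fun t ht x =>
    (abs_add_le _ _).trans (add_le_add (hb t ht x) (hb' t ht x))⟩
theorem bdd_const (c : ℝ) : Bdd T (fun (_ : ℝ) (_ : E N) => c) :=
  bdd_time continuous_const

theorem adm_normmul (hG0 : ∀ x, 0 ≤ G x) {f g : ℝ → E N → ℂ} (hf : Dom T G f) (hg : Dom T G g) :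
    Adm T G (fun t x => ‖f t x‖ * ‖g t x‖) := by
  obtain ⟨hc, C, hC, hb⟩ := hf
  obtain ⟨hc', C', hC', hb'⟩ := hg
  refine ⟨hc.norm.mul hc'.norm, C * C', by positivity, fun t ht x => ?_⟩
  rw [abs_of_nonneg (by positivity)]
  calc ‖f t x‖ * ‖g t x‖ ≤ (C * G x) * (C' * G x) :=
        mul_le_mul (hb t ht x) (hb' t ht x) (norm_nonneg _) (mul_nonneg hC (hG0 x))
    _ = C * C' * G x ^ 2 := by ring
theorem adm_normsq {f : ℝ → E N → ℂ} (hf : Dom T G f) : Adm T G (fun t x => ‖f t x‖ ^ 2) := by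
  obtain ⟨hc, C, hC, hb⟩ := hf
  refine ⟨hc.norm.pow 2, C ^ 2, by positivity, fun t ht x => ?_⟩
  rw [abs_of_nonneg (by positivity)]
  have h0 := norm_nonneg (f t x)
  have := hb t ht x
  calc ‖f t x‖ ^ 2 ≤ (C * G x) ^ 2 := pow_le_pow_left₀ h0 this 2
    _ = C ^ 2 * G x ^ 2 := by ring
theorem adm_re (hG0 : ∀ x, 0 ≤ G x) {f g : ℝ → E N → ℂ} (hf : Dom T G f) (hg : Dom T G g) :
    Adm T G (fun t x => ((starRingEnd ℂ) (f t x) * g t x).re) := by
  obtain ⟨hc, C, hC, hb⟩ := adm_normmul hG0 hf hg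
  refine ⟨Complex.continuous_re.comp ((Complex.continuous_conj.comp hf.1).mul hg.1), C, hC,
    fun t ht x => ?_⟩
  calc |((starRingEnd ℂ) (f t x) * g t x).re| ≤ ‖(starRingEnd ℂ) (f t x) * g t x‖ :=
        Complex.abs_re_le_norm _
    _ = ‖f t x‖ * ‖g t x‖ := by rw [norm_mul, Complex.norm_conj]
    _ ≤ |‖f t x‖ * ‖g t x‖| := le_abs_self _
    _ ≤ C * G x ^ 2 := hb t ht x
theorem adm_pow (hG : GOK G) {β : ℝ} (hβ : 2 ≤ β) {f : ℝ → E N → ℂ} (hf : Dom T G f) :
    Adm T G (fun t x => ‖f t x‖ ^ β) := by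
  obtain ⟨hc, C, hC, hb⟩ := hf
  obtain ⟨B, hB⟩ := hG.b
  have hB0 : 0 ≤ B := (hG.nn 0).trans (hB 0)
  refine ⟨hc.norm.rpow_const fun _ => Or.inr (by linarith), (C * B) ^ (β - 2) * C ^ 2,
    by positivity, fun t ht x => ?_⟩
  rw [abs_of_nonneg (by positivity)]
  show ‖f t x‖ ^ β ≤ _
  have h0 := norm_nonneg (f t x)
  have h1 := hb t ht x
  have h2 : ‖f t x‖ ≤ C * B := h1.trans (mul_le_mul_of_nonneg_left (hB x) hC)
  rcases eq_or_lt_of_le h0 with h | h
  · rw [← h, Real.zero_rpow (by linarith)]; positivity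
  · have : ‖f t x‖ ^ β = ‖f t x‖ ^ (β - 2) * ‖f t x‖ ^ 2 := by
      rw [← Real.rpow_natCast, ← Real.rpow_add h]; congr 1; push_cast; ring
    rw [this, mul_assoc]
    refine mul_le_mul (Real.rpow_le_rpow h0 h2 (by linarith)) ?_ (by positivity) (by positivity)
    calc ‖f t x‖ ^ 2 ≤ (C * G x) ^ 2 := pow_le_pow_left₀ h0 h1 2
      _ = C ^ 2 * G x ^ 2 := by ring

theorem II_mono (hG : GOK G) (hT : 0 ≤ T) {f g : ℝ → E N → ℝ} (hf : Adm T G f) (hg : Adm T G g)
    (h : ∀ t ∈ Icc (0:ℝ) T, ∀ x, f t x ≤ g t x) : II T f ≤ II T g := by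
  have h0 : (0:ℝ) ∈ Icc (0:ℝ) T := ⟨le_rfl, hT⟩
  have h1 : T ∈ Icc (0:ℝ) T := ⟨hT, le_rfl⟩
  refine intervalIntegral.integral_mono_on hT (adm_ii hG hf h0 h1) (adm_ii hG hg h0 h1) ?_
  intro t ht
  exact integral_mono (adm_slice hG hf ht) (adm_slice hG hg ht) (h t ht)
theorem II_add (hG : GOK G) (hT : 0 ≤ T) {f g : ℝ → E N → ℝ} (hf : Adm T G f) (hg : Adm T G g) :
    II T (fun t x => f t x + g t x) = II T f + II T g := by
  have h0 : (0:ℝ) ∈ Icc (0:ℝ) T := ⟨le_rfl, hT⟩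
  have h1 : T ∈ Icc (0:ℝ) T := ⟨hT, le_rfl⟩
  unfold II
  rw [← intervalIntegral.integral_add (adm_ii hG hf h0 h1) (adm_ii hG hg h0 h1)]
  refine intervalIntegral.integral_congr fun t ht => ?_
  rw [uIcc_of_le hT] at ht
  exact integral_add (adm_slice hG hf ht) (adm_slice hG hg ht)
theorem II_sub (hG : GOK G) (hT : 0 ≤ T) {f g : ℝ → E N → ℝ} (hf : Adm T G f) (hg : Adm T G g) :
    II T (fun t x => f t x - g t x) = II T f - II T g := by
  have h0 : (0:ℝ) ∈ Icc (0:ℝ) T := ⟨le_rfl, hT⟩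
  have h1 : T ∈ Icc (0:ℝ) T := ⟨hT, le_rfl⟩
  unfold II
  rw [← intervalIntegral.integral_sub (adm_ii hG hf h0 h1) (adm_ii hG hg h0 h1)]
  refine intervalIntegral.integral_congr fun t ht => ?_
  rw [uIcc_of_le hT] at ht
  exact integral_sub (adm_slice hG hf ht) (adm_slice hG hg ht)
theorem II_cmul (c : ℝ) (f : ℝ → E N → ℝ) : II T (fun t x => c * f t x) = c * II T f := by
  unfold II
  simp_rw [integral_const_mul]
  rw [intervalIntegral.integral_const_mul]
theorem II_congr {f g : ℝ → E N → ℝ} (hT : 0 ≤ T) (h : ∀ t ∈ Icc (0:ℝ) T, ∀ x, f t x = g t x) :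
    II T f = II T g := by
  refine intervalIntegral.integral_congr fun t ht => ?_
  rw [uIcc_of_le hT] at ht
  exact integral_congr_ae (ae_of_all _ fun x => h t ht x)
theorem II_nonneg (hT : 0 ≤ T) {f : ℝ → E N → ℝ} (h : ∀ t ∈ Icc (0:ℝ) T, ∀ x, 0 ≤ f t x) :
    0 ≤ II T f := by
  refine intervalIntegral.integral_nonneg hT fun t ht => ?_
  exact integral_nonneg fun x => h t ht x

theorem adm_hasDeriv (hG : GOK G) {f f' : ℝ → E N → ℝ} (hf : Adm T G f) (hf' : Adm T G f')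
    (h : ∀ t ∈ Ioo (0:ℝ) T, ∀ x, HasDerivAt (fun s => f s x) (f' t x) t) :
    ∀ t ∈ Ioo (0:ℝ) T, HasDerivAt (fun s => ∫ x, f s x) (∫ x, f' t x) t := by
  intro t ht
  obtain ⟨hc', C, hC, hb⟩ := hf'
  refine (hasDerivAt_integral_of_dominated_loc_of_deriv_le (s := Ioo (0:ℝ) T)
    (bound := fun x => C * G x ^ 2) (Ioo_mem_nhds ht.1 ht.2) ?_
    (adm_slice hG hf ⟨ht.1.le, ht.2.le⟩) (tool_slice_cont hc' t).aestronglyMeasurable ?_
    (hG.i2.const_mul C) ?_).2
  · exact Eventually.of_forall fun s => (tool_slice_cont hf.1 s).aestronglyMeasurable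
  · exact ae_of_all _ fun x s hs => by
      simpa [Real.norm_eq_abs] using hb s ⟨hs.1.le, hs.2.le⟩ x
  · exact ae_of_all _ fun x s hs => h s hs x

theorem adm_ftc (hG : GOK G) {f f' : ℝ → E N → ℝ} (hf : Adm T G f) (hf' : Adm T G f')
    (h : ∀ t ∈ Ioo (0:ℝ) T, ∀ x, HasDerivAt (fun s => f s x) (f' t x) t) {S : ℝ}
    (hS : S ∈ Icc (0:ℝ) T) :
    (∫ x, f S x) - (∫ x, f 0 x) = ∫ t in (0:ℝ)..S, ∫ x, f' t x := by
  have h0 : (0:ℝ) ∈ Icc (0:ℝ) T := ⟨le_rfl, hS.1.trans hS.2⟩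
  rw [intervalIntegral.integral_eq_sub_of_hasDerivAt_of_le (f := fun t => ∫ x, f t x) hS.1
    ((adm_contOn hG hf).mono (Icc_subset_Icc_right hS.2))
    (fun t ht => adm_hasDeriv hG hf hf' h t ⟨ht.1, ht.2.trans_le hS.2⟩) (adm_ii hG hf' h0 hS)]

private theorem tool_int_of {f : E N → ℝ} (hG : GOK G) (hf : Continuous f) {C : ℝ}
    (hb : ∀ x, |f x| ≤ C * G x ^ 2) : Integrable f :=
  (hG.i2.const_mul C).mono' hf.aestronglyMeasurable
    (ae_of_all _ fun x => by simpa [Real.norm_eq_abs] using hb x)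

/-- Cauchy–Schwarz for slices. -/
theorem slice_cs (hG : GOK G) {f g : E N → ℂ} (hf : Continuous f) (hg : Continuous g)
    {Cf Cg : ℝ} (bf : ∀ x, ‖f x‖ ≤ Cf * G x) (bg : ∀ x, ‖g x‖ ≤ Cg * G x) :
    ‖∫ x, (starRingEnd ℂ) (f x) * g x‖ ≤
      Real.sqrt (∫ x, ‖f x‖ ^ 2) * Real.sqrt (∫ x, ‖g x‖ ^ 2) := by
  have hf2 : MemLp f 2 (volume : Measure (E N)) := by
    rw [memLp_two_iff_integrable_sq_norm hf.aestronglyMeasurable]
    refine tool_int_of hG (hf.norm.pow 2) (C := Cf ^ 2) fun x => ?_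
    rw [abs_of_nonneg (by positivity)]
    calc ‖f x‖ ^ 2 ≤ (Cf * G x) ^ 2 := pow_le_pow_left₀ (norm_nonneg _) (bf x) 2
      _ = Cf ^ 2 * G x ^ 2 := by ring
  have hg2 : MemLp g 2 (volume : Measure (E N)) := by
    rw [memLp_two_iff_integrable_sq_norm hg.aestronglyMeasurable]
    refine tool_int_of hG (hg.norm.pow 2) (C := Cg ^ 2) fun x => ?_
    rw [abs_of_nonneg (by positivity)]
    calc ‖g x‖ ^ 2 ≤ (Cg * G x) ^ 2 := pow_le_pow_left₀ (norm_nonneg _) (bg x) 2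
      _ = Cg ^ 2 * G x ^ 2 := by ring
  calc ‖∫ x, (starRingEnd ℂ) (f x) * g x‖ ≤ ∫ x, ‖(starRingEnd ℂ) (f x) * g x‖ :=
        norm_integral_le_integral_norm _
    _ = ∫ x, ‖f x‖ * ‖g x‖ := by simp
    _ ≤ (∫ x, ‖f x‖ ^ (2:ℝ)) ^ (1 / (2:ℝ)) * (∫ x, ‖g x‖ ^ (2:ℝ)) ^ (1 / (2:ℝ)) := by
        have := integral_mul_norm_le_Lp_mul_Lq (μ := (volume : Measure (E N)))
          (Real.HolderConjugate.two_two) (f := f) (g := g)
          (by simpa using hf2) (by simpa using hg2)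
        simpa using this
    _ = Real.sqrt (∫ x, ‖f x‖ ^ 2) * Real.sqrt (∫ x, ‖g x‖ ^ 2) := by
        simp [Real.sqrt_eq_rpow]

/-- integration by parts for dominated functions with a bounded real weight. -/
theorem slice_ibp (hG : GOK G) {f g f' g' : E N → ℂ} {w w' : E N → ℝ} {i : Fin N}
    (hf : Continuous f) (hg : Continuous g) (hf' : Continuous f') (hg' : Continuous g')
    (hw : Continuous w) (hw' : Continuous w')
    (hfd : ∀ x, HasLineDerivAt ℝ f (f' x) x (ev i)) (hgd : ∀ x, HasLineDerivAt ℝ g (g' x) x (ev i))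
    (hwd : ∀ x, HasLineDerivAt ℝ w (w' x) x (ev i))
    {C : ℝ} (bf : ∀ x, ‖f x‖ ≤ C * G x) (bg : ∀ x, ‖g x‖ ≤ C * G x)
    (bf' : ∀ x, ‖f' x‖ ≤ C * G x) (bg' : ∀ x, ‖g' x‖ ≤ C * G x)
    (bw : ∀ x, |w x| ≤ C) (bw' : ∀ x, |w' x| ≤ C) :
    (∫ x, w x * ((starRingEnd ℂ) (f x) * g' x).re)
      = - (∫ x, w x * ((starRingEnd ℂ) (f' x) * g x).re)
        - (∫ x, w' x * ((starRingEnd ℂ) (f x) * g x).re) := by
  -- real inner product `Re (z̄ w)`
  have key : ∀ (a b : E N → ℂ) (z : E N → ℝ), Continuous a → Continuous b → Continuous z →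
      (∀ x, ‖a x‖ ≤ C * G x) → (∀ x, ‖b x‖ ≤ C * G x) → (∀ x, |z x| ≤ C) →
      Integrable (fun x => z x * ((starRingEnd ℂ) (a x) * b x).re) := by
    intro a b z ha hb hz ba bb bz
    refine tool_int_of hG (hz.mul (Complex.continuous_re.comp
      ((Complex.continuous_conj.comp ha).mul hb))) (C := C * C ^ 2) fun x => ?_
    have h1 : |((starRingEnd ℂ) (a x) * b x).re| ≤ ‖a x‖ * ‖b x‖ := by
      calc |((starRingEnd ℂ) (a x) * b x).re| ≤ ‖(starRingEnd ℂ) (a x) * b x‖ :=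
            Complex.abs_re_le_norm _
        _ = ‖a x‖ * ‖b x‖ := by rw [norm_mul, Complex.norm_conj]
    have hCG : 0 ≤ C * G x := (norm_nonneg _).trans (ba x)
    have h2 : ‖a x‖ * ‖b x‖ ≤ (C * G x) * (C * G x) :=
      mul_le_mul (ba x) (bb x) (norm_nonneg _) hCG
    rw [abs_mul]
    calc |z x| * |((starRingEnd ℂ) (a x) * b x).re| ≤ C * ((C * G x) * (C * G x)) :=
          mul_le_mul (bz x) (h1.trans h2) (abs_nonneg _) ((abs_nonneg _).trans (bz x))
      _ = C * C ^ 2 * G x ^ 2 := by ring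
  have hre : ∀ z u : ℂ, ((starRingEnd ℂ) z * u).re = inner ℝ z u := by
    intro z u; rw [Complex.inner, mul_comm]
  -- `F = w f`, derivative `w' f + w f'`
  have hFd : ∀ x, HasLineDerivAt ℝ (fun x => w x • f x) (w' x • f x + w x • f' x) x (ev i) := by
    intro x
    have h1 := hwd x
    have h2 := hfd x
    unfold HasLineDerivAt at h1 h2 ⊢
    refine (HasDerivAt.smul h1 h2).congr_deriv ?_
    simp [add_comm]
  have I1 : Integrable (fun x => inner ℝ (w' x • f x + w x • f' x) (g x)) := by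
    have := (key f g w' hf hg hw' bf bg bw').add (key f' g w hf' hg hw bf' bg bw)
    refine this.congr (ae_of_all _ fun x => ?_)
    simp only [Pi.add_apply, inner_add_left, real_inner_smul_left, hre]
  have I2 : Integrable (fun x => inner ℝ (w x • f x) (g' x)) := by
    refine (key f g' w hf hg' hw bf bg' bw).congr (ae_of_all _ fun x => ?_)
    simp only [real_inner_smul_left, hre]
  have I3 : Integrable (fun x => inner ℝ (w x • f x) (g x)) := by
    refine (key f g w hf hg hw bf bg bw).congr (ae_of_all _ fun x => ?_)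
    simp only [real_inner_smul_left, hre]
  have this : (∫ x, (inner ℝ (w x • f x) (g' x) : ℝ))
      = - ∫ x, (inner ℝ (w' x • f x + w x • f' x) (g x) : ℝ) :=
    integral_bilinear_hasLineDerivAt_right_eq_neg_left_of_integrable
      (μ := (volume : Measure (E N))) (B := innerSL ℝ) (f := fun x => w x • f x)
      (f' := fun x => w' x • f x + w x • f' x) (g := g) (g' := g') (v := ev i)
      I1 I2 I3 (fun x _ => hFd x) (fun x _ => hgd x)
  have e1 : (∫ x, w x * ((starRingEnd ℂ) (f x) * g' x).re) = ∫ x, inner ℝ (w x • f x) (g' x) := by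
    refine integral_congr_ae (ae_of_all _ fun x => ?_)
    simp only [real_inner_smul_left, hre]
  have e2 : (∫ x, inner ℝ (w' x • f x + w x • f' x) (g x))
      = (∫ x, w x * ((starRingEnd ℂ) (f' x) * g x).re)
        + (∫ x, w' x * ((starRingEnd ℂ) (f x) * g x).re) := by
    rw [← integral_add (key f' g w hf' hg hw bf' bg bw) (key f g w' hf hg hw' bf bg bw')]
    refine integral_congr_ae (ae_of_all _ fun x => ?_)
    simp only [inner_add_left, real_inner_smul_left, hre]; ring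
  rw [e1, this, e2]; ring

/-! ### the fields of an approximate solution -/
variable {α θ γ : ℝ}
theorem ASol.gok (A : ASol N α θ γ T) : GOK A.G := ⟨A.Gc, A.G0, A.Gb, A.G2⟩
theorem ASol.dom_v (A : ASol N α θ γ T) : Dom T A.G A.v :=
  ⟨A.cv, 1, by norm_num, fun t ht x => by simpa using A.bv t ht x⟩
theorem ASol.dom_dv (A : ASol N α θ γ T) (i : Fin N) : Dom T A.G (A.dv i) :=
  ⟨A.cdv i, 1, by norm_num, fun t ht x => by simpa using A.bdv i t ht x⟩
theorem ASol.dom_ddv (A : ASol N α θ γ T) (i : Fin N) : Dom T A.G (A.ddv i) :=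
  ⟨A.cddv i, 1, by norm_num, fun t ht x => by simpa using A.bddv i t ht x⟩
theorem ASol.dom_vt (A : ASol N α θ γ T) : Dom T A.G A.vt :=
  ⟨A.cvt, 1, by norm_num, fun t ht x => by simpa using A.bvt t ht x⟩
theorem ASol.dom_dvt (A : ASol N α θ γ T) (i : Fin N) : Dom T A.G (A.dvt i) :=
  ⟨A.cdvt i, 1, by norm_num, fun t ht x => by simpa using A.bdvt i t ht x⟩
theorem ASol.dom_R (A : ASol N α θ γ T) : Dom T A.G A.R :=
  ⟨A.cR, 1, by norm_num, fun t ht x => by simpa using A.bR t ht x⟩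
theorem ASol.adm_dsq (A : ASol N α θ γ T) : Adm T A.G A.dsq :=
  adm_sum Finset.univ fun i _ => adm_normsq (A.dom_dv i)
theorem ASol.adm_vp (A : ASol N α θ γ T) (hα : 0 < α) :
    Adm T A.G (fun t x => ‖A.v t x‖ ^ (α + 2)) := adm_pow A.gok (by linarith) A.dom_v
theorem ASol.adm_ed (A : ASol N α θ γ T) (hα : 0 < α) : Adm T A.G A.ed := by
  have h1 : Adm T A.G (fun t x => (1/2 : ℝ) * A.dsq t x) := adm_cmul _ A.adm_dsq
  have h2 : Adm T A.G (fun t x => (Real.exp (α * γ * t) / (α + 2)) * ‖A.v t x‖ ^ (α + 2)) :=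
    adm_wmul (w := fun t _ => Real.exp (α * γ * t) / (α + 2))
      (bdd_time (by fun_prop)) (A.adm_vp hα)
  have h3 := adm_sub h1 h2
  refine ⟨?_, ?_⟩
  · refine h3.1.congr fun z => ?_
    simp only [Function.uncurry, ASol.ed]; ring
  · obtain ⟨C, hC, hb⟩ := h3.2
    refine ⟨C, hC, fun t ht x => ?_⟩
    have := hb t ht x
    rw [show A.ed t x = 1 / 2 * A.dsq t x - Real.exp (α * γ * t) / (α + 2) * ‖A.v t x‖ ^ (α + 2) by
      unfold ASol.ed; ring]
    exact this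
end CGL
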