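import Pool.Agent.CGL.PDefs
import Pool.Agent.CGL.Tool
/-! PG: the dominating function; translation continuity and mollification in `L²` -/
open MeasureTheory Set Filter Topology
namespace CGL
variable {N : ℕ}

/-- weighted Cauchy-Schwarz. -/
private theorem pg_cs {X : Type*} [MeasurableSpace X] {μ : Measure X} {w f : X → ℝ}
    (hw : Integrable w μ) (hw0 : ∀ x, 0 ≤ w x) (hf : AEStronglyMeasurable f μ)
    (h2 : Integrable (fun x => w x * f x ^ 2) μ) :
    Integrable (fun x => w x * f x) μ ∧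
      (∫ x, w x * f x ∂μ) ^ 2 ≤ (∫ x, w x ∂μ) * ∫ x, w x * f x ^ 2 ∂μ := by
  have h1 : Integrable (fun x => w x * f x) μ := by
    refine (hw.add h2).mono' (hw.aestronglyMeasurable.mul hf) (ae_of_all _ fun x => ?_)
    have h0 := hw0 x
    simp only [Pi.add_apply]
    rw [Real.norm_eq_abs, abs_mul, abs_of_nonneg h0]
    have : |f x| ≤ 1 + f x ^ 2 := by
      rw [abs_le]; constructor <;> nlinarith [sq_nonneg (f x + 1), sq_nonneg (f x - 1)]
    nlinarith
  refine ⟨h1, ?_⟩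
  have key : ∀ l : ℝ, 0 ≤ (∫ x, w x * f x ^ 2 ∂μ) - 2 * l * (∫ x, w x * f x ∂μ)
      + l ^ 2 * ∫ x, w x ∂μ := by
    intro l
    have h3 : (∫ x, (w x * f x ^ 2 - 2 * l * (w x * f x) + l ^ 2 * w x) ∂μ)
        = (∫ x, w x * f x ^ 2 ∂μ) - 2 * l * (∫ x, w x * f x ∂μ) + l ^ 2 * ∫ x, w x ∂μ := by
      have e1 : Integrable (fun x => w x * f x ^ 2 - 2 * l * (w x * f x)) μ :=
        h2.sub (h1.const_mul _)
      rw [integral_add e1 (hw.const_mul _),
        integral_sub h2 (h1.const_mul _), integral_const_mul, integral_const_mul]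
    rw [← h3]
    refine integral_nonneg fun x => ?_
    have : w x * f x ^ 2 - 2 * l * (w x * f x) + l ^ 2 * w x = w x * (f x - l) ^ 2 := by ring
    simp only [Pi.zero_apply]
    rw [this]
    exact mul_nonneg (hw0 x) (sq_nonneg _)
  set A := ∫ x, w x ∂μ with hA
  set B := ∫ x, w x * f x ∂μ with hB
  set C := ∫ x, w x * f x ^ 2 ∂μ with hC
  have hA0 : 0 ≤ A := integral_nonneg hw0
  have hd := discrim_le_zero (a := A) (b := -(2 * B)) (c := C) (fun l => by
    have := key l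
    nlinarith)
  rw [discrim] at hd
  nlinarith

/-- Minkowski type inequality, by Cauchy-Schwarz and Fubini. -/
private theorem pg_wsq {k : E N → ℝ} (hk : Integrable k) (hk0 : ∀ x, 0 ≤ k x)
    {h : E N × E N → ℝ} (hm : AEStronglyMeasurable h ((volume : Measure (E N)).prod volume))
    (hi : Integrable (fun p : E N × E N => k p.2 * h p ^ 2) ((volume : Measure (E N)).prod volume)) :
    (∀ᵐ x : E N, Integrable (fun z => k z * h (x, z)) ∧
      (∫ z, k z * h (x, z)) ^ 2 ≤ (∫ z, k z) * ∫ z, k z * h (x, z) ^ 2) ∧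
    AEStronglyMeasurable (fun x : E N => ∫ z, k z * h (x, z)) volume ∧
    Integrable (fun x : E N => (∫ z, k z * h (x, z)) ^ 2) ∧
    (∫ x : E N, (∫ z, k z * h (x, z)) ^ 2) ≤ (∫ z, k z) * ∫ z, k z * ∫ x, h (x, z) ^ 2 := by
  have hae : ∀ᵐ x : E N, Integrable (fun z => k z * h (x, z)) ∧
      (∫ z, k z * h (x, z)) ^ 2 ≤ (∫ z, k z) * ∫ z, k z * h (x, z) ^ 2 := by
    filter_upwards [hi.prod_right_ae, hm.prodMk_left] with x hx hx2
    exact pg_cs hk hk0 hx2 hx
  have hms : AEStronglyMeasurable (fun x : E N => ∫ z, k z * h (x, z)) volume := by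
    have : AEStronglyMeasurable (fun p : E N × E N => k p.2 * h p)
        ((volume : Measure (E N)).prod volume) := hk.aestronglyMeasurable.comp_snd.mul hm
    exact this.integral_prod_right'
  have hint : Integrable (fun x : E N => ∫ z, k z * h (x, z) ^ 2) := hi.integral_prod_left
  have hI : Integrable (fun x : E N => (∫ z, k z * h (x, z)) ^ 2) := by
    refine (hint.const_mul (∫ z, k z)).mono' (hms.pow 2) ?_
    filter_upwards [hae] with x hx
    rw [Real.norm_eq_abs, abs_of_nonneg (sq_nonneg _)]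
    exact hx.2
  refine ⟨hae, hms, hI, ?_⟩
  calc (∫ x : E N, (∫ z, k z * h (x, z)) ^ 2)
      ≤ ∫ x : E N, (∫ z, k z) * ∫ z, k z * h (x, z) ^ 2 := by
        refine integral_mono_ae hI (hint.const_mul _) ?_
        filter_upwards [hae] with x hx using hx.2
    _ = (∫ z, k z) * ∫ x : E N, ∫ z, k z * h (x, z) ^ 2 := integral_const_mul _ _
    _ = (∫ z, k z) * ∫ z, k z * ∫ x, h (x, z) ^ 2 := by
        congr 1
        rw [integral_integral_swap hi]
        refine integral_congr_ae (ae_of_all _ fun z => ?_)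
        simp only
        rw [integral_const_mul]

private theorem pg_exp_int : Integrable (fun x : E N => Real.exp (-‖x‖)) := by
  have h1 : Integrable (fun x : E N => (1 + ‖x‖) ^ (-((N : ℝ) + 1))) := by
    apply integrable_one_add_norm
    rw [finrank_euclideanSpace_fin]
    linarith
  refine (h1.const_mul (Nat.factorial (N + 1) * Real.exp 1)).mono'
    (by fun_prop) (ae_of_all _ fun x => ?_)
  rw [Real.norm_eq_abs, abs_of_pos (Real.exp_pos _)]
  have h2 : (1 + ‖x‖) ^ (N + 1) / (Nat.factorial (N + 1)) ≤ Real.exp (1 + ‖x‖) :=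
    Real.pow_div_factorial_le_exp _ (by positivity) _
  have h3 : (0:ℝ) < (1 + ‖x‖) ^ (N + 1) := by positivity
  have h4 : (1 + ‖x‖) ^ (-((N : ℝ) + 1)) = ((1 + ‖x‖) ^ (N + 1))⁻¹ := by
    rw [Real.rpow_neg (by positivity)]
    congr 1
    rw [← Real.rpow_natCast]
    push_cast
    rfl
  rw [h4, Real.exp_neg]
  have h5 : (0:ℝ) < Nat.factorial (N + 1) := by exact_mod_cast Nat.factorial_pos _
  rw [div_le_iff₀ h5] at h2
  rw [inv_le_iff_one_le_mul₀ (Real.exp_pos _)]
  have h6 : Real.exp (1 + ‖x‖) = Real.exp 1 * Real.exp ‖x‖ := Real.exp_add _ _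
  rw [h6] at h2
  calc (1:ℝ) = ((1 + ‖x‖) ^ (N + 1)) * ((1 + ‖x‖) ^ (N + 1))⁻¹ := by
        rw [mul_inv_cancel₀ h3.ne']
    _ ≤ (Real.exp 1 * Real.exp ‖x‖ * Nat.factorial (N + 1)) * ((1 + ‖x‖) ^ (N + 1))⁻¹ := by
        gcongr
    _ = _ := by ring

private theorem pg_Gf_eq (u0 : E N → ℂ) (x : E N) :
    Gf u0 x = ∫ z, Real.exp (-‖z‖) * ‖u0 (x - z)‖ := by
  unfold Gf
  rw [← integral_sub_left_eq_self (fun z => Real.exp (-‖z‖) * ‖u0 (x - z)‖) volume x]
  simp

private theorem pg_map_ae {g : E N → ℂ} (hg : AEStronglyMeasurable g volume) :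
    AEStronglyMeasurable (fun p : E N × E N => g (p.1 - p.2))
      ((volume : Measure (E N)).prod volume) := by
  have h := (AEStronglyMeasurable.convolution_integrand (ContinuousLinearMap.lsmul ℝ ℝ)
    (μ := (volume : Measure (E N))) (ν := (volume : Measure (E N)))
    (f := fun _ : E N => (1:ℝ)) aestronglyMeasurable_const hg)
  simpa using h

theorem Gf_ok (u0 : ZeroAtInftyContinuousMap (E N) ℂ)
    (hu0 : Integrable (fun x => ‖u0 x‖ ^ 2)) : GOK (Gf (u0 : E N → ℂ)) := by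
  obtain ⟨B, hB⟩ : ∃ B, ∀ x, ‖u0 x‖ ≤ B :=
    ⟨‖u0.toBCF‖, fun x => u0.toBCF.norm_coe_le_norm x⟩
  have hB0 : 0 ≤ B := (norm_nonneg _).trans (hB 0)
  have hk := pg_exp_int (N := N)
  have huc : Continuous (u0 : E N → ℂ) := u0.continuous
  refine ⟨?_, ?_, ?_, ?_⟩
  · have : (Gf (u0 : E N → ℂ)) = fun x => ∫ z, Real.exp (-‖z‖) * ‖u0 (x - z)‖ :=
      funext (pg_Gf_eq _)
    rw [this]
    refine continuous_of_dominated (bound := fun z => Real.exp (-‖z‖) * B) ?_ ?_
      (hk.mul_const B) ?_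
    · intro x; exact Continuous.aestronglyMeasurable (by fun_prop)
    · intro x
      refine ae_of_all _ fun z => ?_
      rw [Real.norm_eq_abs, abs_of_nonneg (by positivity)]
      have := hB (x - z)
      gcongr
    · refine ae_of_all _ fun z => ?_
      fun_prop
  · intro x
    exact integral_nonneg fun y => by positivity
  · refine ⟨(∫ z : E N, Real.exp (-‖z‖)) * B, fun x => ?_⟩
    rw [pg_Gf_eq, ← integral_mul_const]
    refine integral_mono_of_nonneg (ae_of_all _ fun y => by positivity) (hk.mul_const B) ?_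
    refine ae_of_all _ fun z => ?_
    have := hB (x - z)
    simp only
    gcongr
  · have h := pg_wsq hk (fun x => (Real.exp_pos _).le)
      (h := fun p : E N × E N => ‖u0 (p.1 - p.2)‖)
      (Continuous.aestronglyMeasurable (by fun_prop)) (by
        have h2 := hk.convolution_integrand (ContinuousLinearMap.mul ℝ ℝ) hu0
        simpa using h2)
    have h3 := h.2.2.1
    refine h3.congr (ae_of_all _ fun x => ?_)
    simp only
    rw [pg_Gf_eq]

/-- continuity of translations in `L²`. -/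
theorem transl_l2 {g : E N → ℂ} (hg : MemLp g 2 volume) {ε : ℝ} (hε : 0 < ε) :
    ∃ δ : ℝ, 0 < δ ∧ ∀ z : E N, ‖z‖ ≤ δ → (∫ x, ‖g (x - z) - g x‖ ^ 2) ≤ ε := by
  have i1 : Fact ((1 : ENNReal) ≤ 2) := ⟨by norm_num⟩
  have i2 : Fact ((2 : ENNReal) ≠ ⊤) := ⟨by norm_num⟩
  let F : Lp ℂ 2 (volume : Measure (E N)) := hg.toLp g
  have hc : Continuous (fun z : E N => DomAddAct.mk (-z) +ᵥ F) := by
    have h1 : Continuous (fun z : E N => (DomAddAct.mk (-z) : (E N)ᵈᵃᵃ)) := by
      exact DomAddAct.continuous_mk.comp continuous_neg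
    exact h1.vadd continuous_const
  have h0 : Tendsto (fun z : E N => ‖(DomAddAct.mk (-z) +ᵥ F) - F‖ ^ 2) (𝓝 0) (𝓝 0) := by
    have h2 : Continuous (fun z : E N => ‖(DomAddAct.mk (-z) +ᵥ F) - F‖ ^ 2) := by fun_prop
    have h3 := h2.tendsto 0
    have h4 : DomAddAct.mk (-(0 : E N)) +ᵥ F = F := by
      rw [neg_zero]
      exact zero_vadd _ _
    rw [h4, sub_self, norm_zero] at h3
    simpa using h3
  have hev : ∀ᶠ z : E N in 𝓝 (0 : E N), ‖(DomAddAct.mk (-z) +ᵥ F) - F‖ ^ 2 < ε :=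
    h0.eventually (gt_mem_nhds hε)
  obtain ⟨δ, hδ, hb⟩ := Metric.eventually_nhds_iff.1 hev
  refine ⟨δ / 2, by positivity, fun z hz => ?_⟩
  have h5 := hb (y := z) (by rw [dist_zero_right]; linarith)
  refine le_trans (le_of_eq ?_) h5.le
  have h6 : (((DomAddAct.mk (-z) +ᵥ F) - F : Lp ℂ 2 (volume : Measure (E N))) : E N → ℂ)
      =ᵐ[volume] fun x => g (x - z) - g x := by
    have h7 : DomAddAct.mk (-z) +ᵥ F = (hg.comp_measurePreserving
        (measurePreserving_vadd (-z) (volume : Measure (E N)))).toLp (g <| (-z) +ᵥ ·) := rfl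
    have h8 : (((hg.comp_measurePreserving
        (measurePreserving_vadd (-z) (volume : Measure (E N)))).toLp (g <| (-z) +ᵥ ·) :
          Lp ℂ 2 (volume : Measure (E N))) : E N → ℂ) =ᵐ[volume] (g <| (-z) +ᵥ ·) :=
      (hg.comp_measurePreserving
        (measurePreserving_vadd (-z) (volume : Measure (E N)))).coeFn_toLp
    filter_upwards [Lp.coeFn_sub (DomAddAct.mk (-z) +ᵥ F) F, hg.coeFn_toLp, h8] with x h9 h10 h11
    rw [h9, Pi.sub_apply, h7]
    rw [h11, h10]
    simp [vadd_eq_add, sub_eq_neg_add]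
  have h12 : ‖(DomAddAct.mk (-z) +ᵥ F) - F‖ ^ 2
      = ∫ x, ‖(((DomAddAct.mk (-z) +ᵥ F) - F : Lp ℂ 2 (volume : Measure (E N))) : E N → ℂ) x‖ ^ 2 := by
    have h13 := L2.inner_def (𝕜 := ℂ) ((DomAddAct.mk (-z) +ᵥ F) - F)
      ((DomAddAct.mk (-z) +ᵥ F) - F)
    rw [inner_self_eq_norm_sq_to_K] at h13
    have h14 : ∀ a : E N, inner ℂ ((((DomAddAct.mk (-z) +ᵥ F) - F :
        Lp ℂ 2 (volume : Measure (E N))) : E N → ℂ) a) ((((DomAddAct.mk (-z) +ᵥ F) - F :
        Lp ℂ 2 (volume : Measure (E N))) : E N → ℂ) a) = ((‖(((DomAddAct.mk (-z) +ᵥ F) - F :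
        Lp ℂ 2 (volume : Measure (E N))) : E N → ℂ) a‖ ^ 2 : ℝ) : ℂ) := by
      intro a
      rw [inner_self_eq_norm_sq_to_K]
      push_cast
      rfl
    simp_rw [h14] at h13
    rw [integral_complex_ofReal] at h13
    apply Complex.ofReal_injective
    rw [← h13]
    push_cast
    rfl
  rw [h12]
  refine integral_congr_ae ?_
  filter_upwards [h6] with x hx
  rw [hx]

private theorem pg_cvl_eq (J : E N → ℝ) (g : E N → ℂ) (x : E N) :
    cvl J g x = ∫ z, J z • g (x - z) := by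
  unfold cvl
  rw [← integral_sub_left_eq_self (fun z => J z • g (x - z)) volume x]
  simp

private theorem pg_J {J : E N → ℝ} {η : ℝ} (hJ : Mol J η) : Integrable J :=
  hJ.t.s.continuous.integrable_of_hasCompactSupport hJ.t.k

private theorem pg_sq {J : E N → ℝ} {η : ℝ} (hJ : Mol J η) {g : E N → ℂ} (hg : MemLp g 2 volume) :
    Integrable (fun p : E N × E N => J p.2 * ‖g (p.1 - p.2)‖ ^ 2)
      ((volume : Measure (E N)).prod volume) := by
  have h1 : Integrable (fun x => ‖g x‖ ^ 2) := (memLp_two_iff_integrable_sq_norm hg.1).1 hg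
  have h2 := (pg_J hJ).convolution_integrand (ContinuousLinearMap.mul ℝ ℝ) h1
  simpa using h2

/-- the general form of `moll_abs_l2`. -/
private theorem pg_abs {J : E N → ℝ} {η ε : ℝ} (hJ : Mol J η) {g : E N → ℂ}
    (hg : MemLp g 2 volume)
    (h : ∀ z : E N, ‖z‖ ≤ η → (∫ x, ‖g (x - z) - g x‖ ^ 2) ≤ ε) :
    (∀ᵐ x : E N, Integrable (fun z => J z * ‖g (x - z) - g x‖)) ∧
    Integrable (fun x => (∫ z, J z * ‖g (x - z) - g x‖) ^ 2) ∧
    (∫ x, (∫ z, J z * ‖g (x - z) - g x‖) ^ 2) ≤ ε := by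
  have hm : AEStronglyMeasurable (fun p : E N × E N => g (p.1 - p.2) - g p.1)
      ((volume : Measure (E N)).prod volume) := (pg_map_ae hg.1).sub hg.1.comp_fst
  have hsq : Integrable (fun x => ‖g x‖ ^ 2) := (memLp_two_iff_integrable_sq_norm hg.1).1 hg
  have h1 := pg_sq hJ hg
  have h2 : Integrable (fun p : E N × E N => J p.2 * ‖g p.1‖ ^ 2)
      ((volume : Measure (E N)).prod volume) := by
    have := hsq.mul_prod (pg_J hJ)
    refine this.congr (ae_of_all _ fun p => ?_)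
    simp only
    ring
  have hi : Integrable (fun p : E N × E N => J p.2 * ‖g (p.1 - p.2) - g p.1‖ ^ 2)
      ((volume : Measure (E N)).prod volume) := by
    refine ((h1.add h2).const_mul 2).mono'
      ((pg_J hJ).aestronglyMeasurable.comp_snd.mul (hm.norm.pow 2)) (ae_of_all _ fun p => ?_)
    have h3 := hJ.nn p.2
    rw [Real.norm_eq_abs, abs_of_nonneg (by positivity)]
    simp only [Pi.add_apply]
    have h4 := norm_sub_le (g (p.1 - p.2)) (g p.1)
    have h5 : ‖g (p.1 - p.2) - g p.1‖ ^ 2 ≤ 2 * (‖g (p.1 - p.2)‖ ^ 2 + ‖g p.1‖ ^ 2) := by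
      nlinarith [norm_nonneg (g (p.1 - p.2) - g p.1), norm_nonneg (g (p.1 - p.2)),
        norm_nonneg (g p.1), sq_nonneg (‖g (p.1 - p.2)‖ - ‖g p.1‖)]
    nlinarith
  obtain ⟨ha, hb, hc, hd⟩ := pg_wsq (pg_J hJ) hJ.nn (h := fun p => ‖g (p.1 - p.2) - g p.1‖)
    hm.norm hi
  refine ⟨ha.mono fun x hx => hx.1, hc, hd.trans ?_⟩
  rw [hJ.int1, one_mul]
  have h6 : ∀ z : E N, J z * ∫ x, ‖g (x - z) - g x‖ ^ 2 ≤ J z * ε := by
    intro z
    by_cases hz : ‖z‖ ≤ η
    · exact mul_le_mul_of_nonneg_left (h z hz) (hJ.nn z)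
    · rw [hJ.supp z (not_le.1 hz)]; simp
  calc (∫ z, J z * ∫ x, ‖g (x - z) - g x‖ ^ 2) ≤ ∫ z, J z * ε := by
        refine integral_mono_of_nonneg (ae_of_all _ fun z => ?_) ((pg_J hJ).mul_const ε)
          (ae_of_all _ h6)
        exact mul_nonneg (hJ.nn z) (integral_nonneg fun x => sq_nonneg _)
    _ = ε := by rw [integral_mul_const, hJ.int1, one_mul]

private theorem pg_swap (J : E N → ℝ) (g : E N → ℂ) (x : E N) :
    (∫ y, J (x - y) * ‖g y - g x‖) = ∫ z, J z * ‖g (x - z) - g x‖ := by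
  rw [← integral_sub_left_eq_self (fun z => J z * ‖g (x - z) - g x‖) volume x]
  simp

/-- mollification error in `L²`. -/
theorem moll_l2 {J : E N → ℝ} {η ε : ℝ} (hJ : Mol J η) {g : E N → ℂ} (hg : MemLp g 2 volume)
    (h : ∀ z : E N, ‖z‖ ≤ η → (∫ x, ‖g (x - z) - g x‖ ^ 2) ≤ ε) :
    MemLp (cvl J g) 2 volume ∧ (∫ x, ‖cvl J g x - g x‖ ^ 2) ≤ ε ∧
      (∫ x, ‖cvl J g x‖ ^ 2) ≤ ∫ x, ‖g x‖ ^ 2 := by
  obtain ⟨a1, a2, a3⟩ := pg_abs hJ hg h
  obtain ⟨b1, b2, b3, b4⟩ := pg_wsq (pg_J hJ) hJ.nn (h := fun p => ‖g (p.1 - p.2)‖)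
    (pg_map_ae hg.1).norm (pg_sq hJ hg)
  have hms : AEStronglyMeasurable (cvl J g) volume := by
    have h1 : AEStronglyMeasurable (fun p : E N × E N => J p.2 • g (p.1 - p.2))
        ((volume : Measure (E N)).prod volume) :=
      (pg_J hJ).aestronglyMeasurable.comp_snd.smul (pg_map_ae hg.1)
    have h2 := h1.integral_prod_right'
    refine h2.congr (ae_of_all _ fun x => ?_)
    rw [pg_cvl_eq]
  have hle : ∀ x, ‖cvl J g x‖ ≤ ∫ z, J z * ‖g (x - z)‖ := by
    intro x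
    rw [pg_cvl_eq]
    refine (norm_integral_le_integral_norm _).trans (le_of_eq ?_)
    refine integral_congr_ae (ae_of_all _ fun z => ?_)
    simp only
    rw [norm_smul, Real.norm_eq_abs, abs_of_nonneg (hJ.nn z)]
  have hsq : Integrable (fun x => ‖cvl J g x‖ ^ 2) := by
    refine b3.mono' (hms.norm.pow 2) (ae_of_all _ fun x => ?_)
    rw [Real.norm_eq_abs, abs_of_nonneg (by positivity)]
    have := hle x
    gcongr
  have hle2 : ∀ᵐ x : E N, ‖cvl J g x - g x‖ ^ 2 ≤ (∫ z, J z * ‖g (x - z) - g x‖) ^ 2 := by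
    filter_upwards [a1, b1] with x hx1 hx2
    have h1 : Integrable (fun z => J z • g (x - z)) := by
      refine hx2.1.mono' ?_ (ae_of_all _ fun z => ?_)
      · exact (pg_J hJ).aestronglyMeasurable.smul (hg.1.comp_quasiMeasurePreserving
          (quasiMeasurePreserving_sub_left volume x))
      · rw [norm_smul, Real.norm_eq_abs, abs_of_nonneg (hJ.nn z)]
    have h2 : cvl J g x - g x = ∫ z, J z • (g (x - z) - g x) := by
      have h3 : (∫ z, J z • g x) = g x := by
        rw [integral_smul_const, hJ.int1, one_smul]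
      simp_rw [smul_sub]
      rw [integral_sub h1 ((pg_J hJ).smul_const (g x)), h3, pg_cvl_eq]
    rw [h2]
    have h4 : ‖∫ z, J z • (g (x - z) - g x)‖ ≤ ∫ z, J z * ‖g (x - z) - g x‖ := by
      refine (norm_integral_le_integral_norm _).trans (le_of_eq ?_)
      refine integral_congr_ae (ae_of_all _ fun z => ?_)
      simp only
      rw [norm_smul, Real.norm_eq_abs, abs_of_nonneg (hJ.nn z)]
    gcongr
  refine ⟨(memLp_two_iff_integrable_sq_norm hms).2 hsq, ?_, ?_⟩
  · refine le_trans ?_ a3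
    exact integral_mono_of_nonneg (ae_of_all _ fun x => sq_nonneg _) a2 hle2
  · calc (∫ x, ‖cvl J g x‖ ^ 2) ≤ ∫ x, (∫ z, J z * ‖g (x - z)‖) ^ 2 := by
          refine integral_mono hsq b3 fun x => ?_
          have := hle x
          simp only
          gcongr
      _ ≤ (∫ z, J z) * ∫ z, J z * ∫ x, ‖g (x - z)‖ ^ 2 := b4
      _ = ∫ x, ‖g x‖ ^ 2 := by
          rw [hJ.int1, one_mul]
          have h5 : ∀ z : E N, (∫ x, ‖g (x - z)‖ ^ 2) = ∫ x, ‖g x‖ ^ 2 := fun z =>
            integral_sub_right_eq_self (fun x => ‖g x‖ ^ 2) z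
          simp_rw [h5]
          rw [integral_mul_const, hJ.int1, one_mul]

/-- the same with absolute values inside. -/
theorem moll_abs_l2 {J : E N → ℝ} {η ε : ℝ} (hJ : Mol J η) {g : E N → ℂ} (hgc : Continuous g)
    (hgb : ∃ B, ∀ x, ‖g x‖ ≤ B) (hg : Integrable (fun x => ‖g x‖ ^ 2))
    (h : ∀ z : E N, ‖z‖ ≤ η → (∫ x, ‖g (x - z) - g x‖ ^ 2) ≤ ε) :
    Integrable (fun x => (∫ y, J (x - y) * ‖g y - g x‖) ^ 2) ∧
    (∫ x, (∫ y, J (x - y) * ‖g y - g x‖) ^ 2) ≤ ε := by
  obtain ⟨a1, a2, a3⟩ := pg_abs hJ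
    ((memLp_two_iff_integrable_sq_norm hgc.aestronglyMeasurable).2 hg) h
  simp_rw [pg_swap]
  exact ⟨a2, a3⟩

end CGL
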