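import Pool.Agent.CGL.PWeak
import Pool.Agent.CGL.PDom
import Pool.Agent.CGL.PG
/-! PCVL: regularity of `(t,x) ↦ ∫ ψ(x-y) f(t,y) dy` -/
open MeasureTheory Set Filter Topology
namespace CGL
variable {N : ℕ} {α θ γ : ℝ}

theorem cvl_cont {ψ : E N → ℝ} (hψ : Test ψ) {f : ℝ → E N → ℂ}
    (hf : Continuous (Function.uncurry f)) :
    Continuous (Function.uncurry (fun t x => cvl ψ (f t) x)) := by
  have h1 : (Function.uncurry (fun t x => cvl ψ (f t) x))
      = fun p : ℝ × E N => ∫ z in tsupport ψ, ψ z • f p.1 (p.2 - z) := by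
    funext p
    obtain ⟨t, x⟩ := p
    show (∫ y, ψ (x - y) • f t y) = ∫ z in tsupport ψ, ψ z • f t (x - z)
    rw [← integral_sub_left_eq_self (fun y => ψ (x - y) • f t y) volume x]
    rw [setIntegral_eq_integral_of_forall_compl_eq_zero]
    · simp only [sub_sub_cancel]
    · intro z hz
      rw [image_eq_zero_of_notMem_tsupport hz, zero_smul]
  rw [h1]
  refine continuous_parametric_integral_of_continuous
    (f := fun (p : ℝ × E N) (z : E N) => ψ z • f p.1 (p.2 - z)) ?_ hψ.k.isCompact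
  have h2 : Continuous ψ := hψ.s.continuous
  have h3 : Continuous (fun q : (ℝ × E N) × E N => f q.1.1 (q.1.2 - q.2)) :=
    hf.comp (by fun_prop : Continuous (fun q : (ℝ × E N) × E N => (q.1.1, q.1.2 - q.2)))
  exact (h2.comp continuous_snd).smul h3

/-- the bilinear map `(z, r) ↦ r • z`. -/
private noncomputable def pcvlL : ℂ →L[ℝ] ℝ →L[ℝ] ℂ := (ContinuousLinearMap.lsmul ℝ ℝ).flip

private theorem pcvlConv (ψ : E N → ℝ) (f : E N → ℂ) :
    cvl ψ f = convolution f ψ pcvlL volume := by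
  funext x
  rfl

theorem cvl_lineDeriv {ψ : E N → ℝ} (hψ : Test ψ) {f : E N → ℂ} (hf : Continuous f) (i : Fin N)
    (x : E N) : HasLineDerivAt ℝ (cvl ψ f) (cvl (pd i ψ) f x) x (ev i) := by
  have hfl : LocallyIntegrable f (volume : Measure (E N)) := hf.locallyIntegrable
  have h1 := hψ.k.hasFDerivAt_convolution_right pcvlL hfl
    (hψ.s.of_le (by exact_mod_cast le_top)) x
  have h2 := h1.hasLineDerivAt (ev i)
  rw [convolution_precompR_apply pcvlL hfl (hψ.k.fderiv ℝ)
    ((hψ.s.of_le (m := 1) (by exact_mod_cast le_top)).continuous_fderiv (by norm_num))] at h2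
  rw [pcvlConv, pcvlConv]
  exact h2

theorem cvl_contDiff {ψ : E N → ℝ} (hψ : Test ψ) {f : E N → ℂ} (hf : Continuous f) :
    ContDiff ℝ 1 (cvl ψ f) := by
  rw [pcvlConv]
  exact_mod_cast hψ.k.contDiff_convolution_right (n := 1) pcvlL hf.locallyIntegrable
    (hψ.s.of_le (by exact_mod_cast le_top))

private theorem pcvlInt {ψ : E N → ℝ} (hψ : Test ψ) {f : E N → ℂ} (hf : Continuous f) (x : E N) :
    Integrable (fun y => ψ (x - y) • f y) := by
  have h1 := hψ.refl x
  refine Continuous.integrable_of_hasCompactSupport ?_ ?_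
  · exact h1.s.continuous.smul hf
  · exact h1.k.smul_right

theorem cvl_lap {ψ : E N → ℝ} (hψ : Test ψ) {f : E N → ℂ} (hf : Continuous f) (x : E N) :
    cvl (lap ψ) f x = ∑ i, cvl (pd i (pd i ψ)) f x := by
  unfold cvl
  rw [← integral_finsetSum _ fun i _ => pcvlInt ((hψ.pd i).pd i) hf x]
  congr 1
  funext y
  show (∑ i : Fin N, pd i (pd i ψ) (x - y)) • f y = _
  rw [Finset.sum_smul]

private theorem pcvlU {u0 : ZeroAtInftyContinuousMap (E N) ℂ}
    {u : ℝ → ZeroAtInftyContinuousMap (E N) ℂ} (hu : IsGlobalMild N α θ γ u0 u) :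
    Continuous (fun t => u (max t 0)) := by
  have h := hu.cont
  rw [← continuousOn_univ]
  refine h.comp (by fun_prop) ?_
  intro t _
  exact le_max_right t (0:ℝ)

theorem vv_cont {u0 : ZeroAtInftyContinuousMap (E N) ℂ}
    {u : ℝ → ZeroAtInftyContinuousMap (E N) ℂ} (hu : IsGlobalMild N α θ γ u0 u) :
    Continuous (Function.uncurry (vv γ u)) := by
  have h1 := pcvlU hu
  have h2 : Continuous (fun t => (u (max t 0)).toBCF) :=
    ZeroAtInftyContinuousMap.isometry_toBCF.continuous.comp h1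
  have h3 : Continuous (fun p : ℝ × E N => (u (max p.1 0)).toBCF p.2) :=
    continuous_eval.comp ((h2.comp continuous_fst).prodMk continuous_snd)
  have h4 : Continuous (fun p : ℝ × E N => ((Real.exp (-(γ * p.1)) : ℝ) : ℂ)) := by fun_prop
  exact h4.mul h3

theorem ff_cont (hα : 0 < α) {u0 : ZeroAtInftyContinuousMap (E N) ℂ}
    {u : ℝ → ZeroAtInftyContinuousMap (E N) ℂ} (hu : IsGlobalMild N α θ γ u0 u) :
    Continuous (Function.uncurry (ff α γ u)) := by
  have h3 := vv_cont hu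
  have h4 : Continuous (fun p : ℝ × E N => ((Real.exp (α * γ * p.1) : ℝ) : ℂ)) := by fun_prop
  exact h4.mul ((nl_cont hα).comp h3)

/-- time derivative. -/
theorem cvl_time (hα : 0 < α) (hθ : 0 ≤ θ) (hθ' : θ < Real.pi / 2) {u0 : ZeroAtInftyContinuousMap (E N) ℂ}
    {u : ℝ → ZeroAtInftyContinuousMap (E N) ℂ} (hu : IsGlobalMild N α θ γ u0 u)
    {ψ : E N → ℝ} (hψ : Test ψ) {t : ℝ} (ht : 0 < t) (x : E N) :
    HasDerivAt (fun s => cvl ψ (vv γ u s) x)
      (ph θ * (cvl (lap ψ) (vv γ u t) x + cvl ψ (ff α γ u t) x)) t := by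
  have h := weak_deriv hα hθ hθ' hu (hψ.refl x) ht
  have e : (fun y => lap (fun y => ψ (x - y)) y • vv γ u t y)
      = fun y => lap ψ (x - y) • vv γ u t y := by
    funext y; rw [lap_refl hψ]
  rw [e] at h
  exact h

/-- domination. -/
theorem cvl_vv_dom (hα : 0 < α) (hγ : 0 ≤ γ) (hθ : 0 ≤ θ) (hθ' : θ < Real.pi / 2)
    {u0 : ZeroAtInftyContinuousMap (E N) ℂ}
    {u : ℝ → ZeroAtInftyContinuousMap (E N) ℂ} (hu : IsGlobalMild N α θ γ u0 u)
    {ψ : E N → ℝ} (hψ : Test ψ) {T : ℝ} (hT : 0 < T) : ∃ C : ℝ, 0 < C ∧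
      ∀ t ∈ Icc (0:ℝ) T, ∀ x : E N, ‖cvl ψ (vv γ u t) x‖ ≤ C * Gf u0 x ∧
        ‖cvl ψ (ff α γ u t) x‖ ≤ C * Gf u0 x := by
  obtain ⟨C, hC, hb⟩ := cvl_dom hα hγ hθ hθ' hu hψ hT
  obtain ⟨B, hB⟩ := isCompact_Icc.exists_bound_of_continuousOn
    (hu.cont.mono (Icc_subset_Ici_self : Icc (0:ℝ) T ⊆ Ici 0))
  have hGf : ∀ x, 0 ≤ Gf u0 x := fun x => integral_nonneg fun y => by positivity
  have hB0 : 0 ≤ B := (norm_nonneg _).trans (hB 0 ⟨le_refl _, hT.le⟩)
  have hpt : ∀ t ∈ Icc (0:ℝ) T, ∀ y, ‖u t y‖ ≤ B := by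
    intro t ht y
    have h1 := (u t).toBCF.norm_coe_le_norm y
    exact h1.trans (hB t ht)
  set M : ℝ := Real.exp (α * γ * T) * B ^ α with hM
  have hM0 : 0 ≤ M := by positivity
  refine ⟨C * (1 + M), by positivity, ?_⟩
  intro t ht x
  have hcu : Continuous (fun y => u t y) := (u t).continuous
  have hI0 : 0 ≤ ∫ y, |ψ (x - y)| * ‖u t y‖ := integral_nonneg fun y => by positivity
  have hint : Integrable (fun y => |ψ (x - y)| * ‖u t y‖) := by
    have h1 := (pcvlInt hψ hcu x).norm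
    refine h1.congr (Filter.Eventually.of_forall fun y => ?_)
    simp only [norm_smul, Real.norm_eq_abs]
  have hvn : ∀ y, ‖vv γ u t y‖ ≤ ‖u t y‖ := by
    intro y
    unfold vv
    rw [max_eq_left ht.1, norm_mul, Complex.norm_real, Real.norm_eq_abs, abs_of_pos (Real.exp_pos _)]
    have h1 : Real.exp (-(γ * t)) ≤ 1 := by
      rw [Real.exp_le_one_iff]
      have := ht.1
      have : 0 ≤ γ * t := by positivity
      linarith
    have := norm_nonneg (u t y)
    nlinarith
  have key : ∀ (g : E N → ℂ) (c : ℝ), 0 ≤ c → (∀ y, ‖g y‖ ≤ c * ‖u t y‖) →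
      ‖cvl ψ g x‖ ≤ c * ∫ y, |ψ (x - y)| * ‖u t y‖ := by
    intro g c hc hg
    unfold cvl
    refine (norm_integral_le_integral_norm _).trans ?_
    rw [← integral_const_mul]
    refine integral_mono_of_nonneg (Filter.Eventually.of_forall fun y => norm_nonneg _)
      (hint.const_mul c) (Filter.Eventually.of_forall fun y => ?_)
    show ‖ψ (x - y) • g y‖ ≤ c * (|ψ (x - y)| * ‖u t y‖)
    rw [norm_smul, Real.norm_eq_abs]
    have := mul_le_mul_of_nonneg_left (hg y) (abs_nonneg (ψ (x - y)))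
    linarith
  have hC1 := hb t ht x
  constructor
  · have h1 := key (vv γ u t) 1 zero_le_one (fun y => by rw [one_mul]; exact hvn y)
    have h2 : 0 ≤ C * M * Gf u0 x := by have := hGf x; positivity
    have h3 : C * (1 + M) * Gf u0 x = C * Gf u0 x + C * M * Gf u0 x := by ring
    linarith
  · have h1 := key (ff α γ u t) M hM0 (fun y => by
      unfold ff
      rw [norm_mul, Complex.norm_real, Real.norm_eq_abs, abs_of_pos (Real.exp_pos _), nl_norm]
      have h5 : Real.exp (α * γ * t) ≤ Real.exp (α * γ * T) := by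
        apply Real.exp_le_exp.mpr
        have := ht.2
        have : 0 ≤ α * γ := by positivity
        nlinarith
      have h6 : ‖vv γ u t y‖ ^ α ≤ B ^ α :=
        Real.rpow_le_rpow (norm_nonneg _) ((hvn y).trans (hpt t ht y)) hα.le
      have h7 := hvn y
      calc Real.exp (α * γ * t) * (‖vv γ u t y‖ ^ α * ‖vv γ u t y‖)
          ≤ Real.exp (α * γ * T) * (B ^ α * ‖u t y‖) := by gcongr
        _ = M * ‖u t y‖ := by rw [hM]; ring)
    have h2 : 0 ≤ C * Gf u0 x := by have := hGf x; positivity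
    have h3 : C * (1 + M) * Gf u0 x = C * Gf u0 x + M * (C * Gf u0 x) := by ring
    have h4 := mul_le_mul_of_nonneg_left hC1 hM0
    linarith
end CGL
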