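import Pool.Agent.CGL.Defs
/-! PDEFS: definitions of the PDE part -/
open MeasureTheory Set Filter Topology
namespace CGL
variable {N : ℕ}

/-- convolution `J * f`. -/
noncomputable def cvl (J : E N → ℝ) (f : E N → ℂ) (x : E N) : ℂ := ∫ y, J (x - y) • f y

/-- `i`-th partial derivative of a real function. -/
noncomputable def pd (i : Fin N) (φ : E N → ℝ) (x : E N) : ℝ := fderiv ℝ φ x (ev i)

/-- Laplacian of a real function. -/
noncomputable def lap (φ : E N → ℝ) (x : E N) : ℝ := ∑ i : Fin N, pd i (pd i φ) x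

/-- test functions. -/
structure Test (φ : E N → ℝ) : Prop where
  s : ContDiff ℝ (⊤ : ℕ∞) φ
  k : HasCompactSupport φ

/-- mollifiers. -/
structure Mol (J : E N → ℝ) (η : ℝ) : Prop where
  t : Test J
  nn : ∀ x, 0 ≤ J x
  int1 : (∫ x, J x) = 1
  supp : ∀ x, η < ‖x‖ → J x = 0

/-- the right hand side `e^{iθ}|z|^α z + γ z`. -/
noncomputable def rhs (α θ γ : ℝ) (z : ℂ) : ℂ := ph θ * nl α z + (γ : ℂ) * z

/-- `‖ker‖ = C0 * gk (t / cos θ)`, `C0 = (cos θ)^{-N/2}`. -/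
noncomputable def C0 (N : ℕ) (θ : ℝ) : ℝ := (Real.cos θ) ^ (-(N : ℝ) / 2)

/-- the dominating function `e^{-|·|} * |u₀|`. -/
noncomputable def Gf (u0 : E N → ℂ) (x : E N) : ℝ := ∫ y, Real.exp (-‖x - y‖) * ‖u0 y‖

/-- `v(t) = e^{-γ t} u(t)`, `u` frozen for negative times. -/
noncomputable def vv (γ : ℝ) (u : ℝ → ZeroAtInftyContinuousMap (E N) ℂ) (t : ℝ) (y : E N) : ℂ :=
  ((Real.exp (-(γ * t)) : ℝ) : ℂ) * u (max t 0) y

/-- `f(t) = ω(t) |v|^α v`. -/
noncomputable def ff (α γ : ℝ) (u : ℝ → ZeroAtInftyContinuousMap (E N) ℂ) (t : ℝ) (y : E N) : ℂ :=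
  ((Real.exp (α * γ * t) : ℝ) : ℂ) * nl α (vv γ u t y)

theorem Test.pd {φ : E N → ℝ} (h : Test φ) (i : Fin N) : Test (pd i φ) := by
  refine ⟨?_, h.k.fderiv_apply (𝕜 := ℝ) (ev i)⟩
  have h1 : ContDiff ℝ (⊤ : ℕ∞) (fderiv ℝ φ) := h.s.fderiv_right (by simp)
  exact h1.clm_apply contDiff_const
theorem Test.lap {φ : E N → ℝ} (h : Test φ) : Test (lap φ) := by
  refine ⟨?_, ?_⟩
  · exact ContDiff.sum (fun i _ => ((h.pd i).pd i).s)
  · have h1 : CGL.lap φ = ∑ i : Fin N, CGL.pd i (CGL.pd i φ) := by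
      funext x
      simp [CGL.lap, Finset.sum_apply]
    rw [h1]
    exact HasCompactSupport.finset_sum (fun i _ => ((h.pd i).pd i).k)

private theorem pd_pd {φ : E N → ℝ} (h : Test φ) (i j : Fin N) (x : E N) :
    pd i (pd j φ) x = fderiv ℝ (fderiv ℝ φ) x (ev i) (ev j) := by
  have h1 : ContDiff ℝ (⊤ : ℕ∞) (fderiv ℝ φ) := h.s.fderiv_right (by simp)
  have h2 : DifferentiableAt ℝ (fderiv ℝ φ) x := (h1.differentiable (by simp)) x
  unfold CGL.pd
  have h3 := fderiv_clm_apply (𝕜 := ℝ) (c := fderiv ℝ φ) (u := fun _ : E N => (ev j : E N))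
    (x := x) h2 (differentiableAt_const _)
  rw [h3]
  simp
theorem pd_comm {φ : E N → ℝ} (h : Test φ) (i j : Fin N) : pd i (pd j φ) = pd j (pd i φ) := by
  funext x
  rw [pd_pd h i j x, pd_pd h j i x]
  have h1 : IsSymmSndFDerivAt ℝ φ x := by
    apply ContDiffAt.isSymmSndFDerivAt (n := (⊤ : ℕ∞)) h.s.contDiffAt
    simp only [minSmoothness_of_isRCLikeNormedField]
    have h9 : ((2 : ℕ∞) : WithTop ℕ∞) ≤ ((⊤ : ℕ∞) : WithTop ℕ∞) :=
      WithTop.coe_le_coe.2 le_top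
    exact h9
  exact h1 _ _
theorem lap_pd {φ : E N → ℝ} (h : Test φ) (i : Fin N) : lap (pd i φ) = pd i (lap φ) := by
  funext x
  have h2 : pd i (CGL.lap φ) x = ∑ j : Fin N, pd i (pd j (pd j φ)) x := by
    unfold CGL.pd CGL.lap
    have h3 : fderiv ℝ (fun x => ∑ j : Fin N, CGL.pd j (CGL.pd j φ) x) x
        = ∑ j : Fin N, fderiv ℝ (CGL.pd j (CGL.pd j φ)) x := by
      rw [fderiv_fun_sum]
      intro j _
      exact (((h.pd j).pd j).s.differentiable (by simp)) x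
    rw [h3, _root_.sum_apply]
    rfl
  rw [h2]
  unfold CGL.lap
  refine Finset.sum_congr rfl (fun j _ => ?_)
  rw [pd_comm h j i, pd_comm (h.pd j) j i]
theorem Test.refl {φ : E N → ℝ} (h : Test φ) (x : E N) : Test (fun y => φ (x - y)) := by
  refine ⟨h.s.comp (contDiff_const.sub contDiff_id), ?_⟩
  exact h.k.comp_homeomorph (Homeomorph.subLeft x)

private theorem pd_refl {φ : E N → ℝ} (h : Test φ) (x : E N) (i : Fin N) :
    pd i (fun y => φ (x - y)) = fun y => - pd i φ (x - y) := by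
  funext y
  unfold CGL.pd
  have h1 : HasFDerivAt φ (fderiv ℝ φ (x - y)) (x - y) :=
    ((h.s.differentiable (by simp)) (x - y)).hasFDerivAt
  have h2 : HasFDerivAt (fun y : E N => x - y) (-ContinuousLinearMap.id ℝ (E N)) y := by
    simpa using (hasFDerivAt_id y).const_sub x
  have h3 := (h1.comp y h2).fderiv
  have h4 : (φ ∘ fun y => x - y) = fun y => φ (x - y) := rfl
  rw [h4] at h3
  rw [h3]
  simp
theorem lap_refl {φ : E N → ℝ} (h : Test φ) (x y : E N) :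
    lap (fun y => φ (x - y)) y = lap φ (x - y) := by
  unfold CGL.lap
  refine Finset.sum_congr rfl (fun i _ => ?_)
  rw [pd_refl h x i]
  have h1 : pd i (fun y => - pd i φ (x - y)) y = - pd i (fun y => pd i φ (x - y)) y := by
    unfold CGL.pd
    rw [fderiv_fun_neg]
    rfl
  rw [h1, pd_refl (h.pd i) x i]
  simp
theorem exists_mol (N : ℕ) {η : ℝ} (hη : 0 < η) : ∃ J : E N → ℝ, Mol J η := by
  let f : ContDiffBump (0 : E N) := ⟨η / 2, η, by linarith, by linarith⟩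
  refine ⟨f.normed volume, ⟨f.contDiff_normed, f.hasCompactSupport_normed⟩,
    f.nonneg_normed, f.integral_normed, ?_⟩
  intro x hx
  have h1 : x ∉ Function.support (f.normed volume) := by
    rw [f.support_normed_eq]
    simp only [Metric.mem_ball, dist_zero_right, not_lt]
    exact hx.le
  simpa [Function.mem_support] using h1
theorem nl_cont {α : ℝ} (hα : 0 < α) : Continuous (nl α) := by
  unfold nl
  have h1 : Continuous (fun z : ℂ => ‖z‖ ^ α) :=
    continuous_norm.rpow_const (fun _ => Or.inr hα.le)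
  exact (Complex.continuous_ofReal.comp h1).mul continuous_id
theorem nl_norm {α : ℝ} (z : ℂ) : ‖nl α z‖ = ‖z‖ ^ α * ‖z‖ := by
  unfold nl
  rw [norm_mul, Complex.norm_real, Real.norm_of_nonneg (Real.rpow_nonneg (norm_nonneg z) α)]

private theorem rpow_aux {α B a b : ℝ} (hα : 0 < α) (ha : 0 ≤ a) (hb : 0 ≤ b) (haB : a ≤ B)
    (hbB : b ≤ B) : |a ^ α - b ^ α| * b ≤ (α + 1) * B ^ α * |a - b| := by
  have hB : 0 ≤ B := ha.trans haB
  have key : |a ^ (α + 1) - b ^ (α + 1)| ≤ (α + 1) * B ^ α * |a - b| := by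
    have h1 := Convex.norm_image_sub_le_of_norm_hasDerivWithin_le (f := fun x : ℝ => x ^ (α + 1))
      (f' := fun x => (α + 1) * x ^ α) (s := Icc 0 B) (C := (α + 1) * B ^ α) (x := b) (y := a)
      (fun x hx => by
        have h2 := Real.hasDerivAt_rpow_const (x := x) (p := α + 1) (Or.inr (by linarith))
        rw [add_sub_cancel_right] at h2
        exact h2.hasDerivWithinAt)
      (fun x hx => by
        rw [Real.norm_of_nonneg (by have := Real.rpow_nonneg hx.1 α; positivity)]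
        have := Real.rpow_le_rpow hx.1 hx.2 hα.le
        nlinarith)
      (convex_Icc 0 B) ⟨hb, hbB⟩ ⟨ha, haB⟩
    simpa [Real.norm_eq_abs] using h1
  refine le_trans ?_ key
  have ea : a ^ (α + 1) = a ^ α * a := Real.rpow_add_one' ha (by linarith)
  have eb : b ^ (α + 1) = b ^ α * b := Real.rpow_add_one' hb (by linarith)
  rw [ea, eb]
  have h3 := Real.rpow_nonneg ha α
  have h4 := Real.rpow_nonneg hb α
  rcases le_total b a with h | h
  · have h5 := Real.rpow_le_rpow hb h hα.le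
    rw [abs_of_nonneg (by linarith), abs_of_nonneg (by nlinarith)]
    nlinarith
  · have h5 := Real.rpow_le_rpow ha h hα.le
    rw [abs_of_nonpos (by linarith), abs_of_nonpos (by nlinarith)]
    nlinarith
/-- `nl` is Lipschitz on balls. -/
theorem nl_lip {α : ℝ} (hα : 0 < α) {B : ℝ} (hB : 0 ≤ B) : ∃ L : ℝ, 0 ≤ L ∧ ∀ z w : ℂ,
    ‖z‖ ≤ B → ‖w‖ ≤ B → ‖nl α z - nl α w‖ ≤ L * ‖z - w‖ := by
  have hBα := Real.rpow_nonneg hB α
  refine ⟨B ^ α + (α + 1) * B ^ α, by positivity, ?_⟩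
  intro z w hz hw
  have h1 : nl α z - nl α w
      = ((‖z‖ ^ α : ℝ) : ℂ) * (z - w) + (((‖z‖ ^ α - ‖w‖ ^ α : ℝ)) : ℂ) * w := by
    unfold nl
    push_cast
    ring
  rw [h1]
  refine (norm_add_le _ _).trans ?_
  rw [norm_mul, norm_mul, Complex.norm_real, Complex.norm_real,
    Real.norm_of_nonneg (Real.rpow_nonneg (norm_nonneg z) α), Real.norm_eq_abs]
  have h2 := rpow_aux hα (norm_nonneg z) (norm_nonneg w) hz hw
  have h3 : ‖z‖ ^ α ≤ B ^ α := Real.rpow_le_rpow (norm_nonneg z) hz hα.le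
  have h4 : |‖z‖ - ‖w‖| ≤ ‖z - w‖ := abs_norm_sub_norm_le z w
  have h5 : (α + 1) * B ^ α * |‖z‖ - ‖w‖| ≤ (α + 1) * B ^ α * ‖z - w‖ :=
    mul_le_mul_of_nonneg_left h4 (by positivity)
  have h6 : ‖z‖ ^ α * ‖z - w‖ ≤ B ^ α * ‖z - w‖ :=
    mul_le_mul_of_nonneg_right h3 (norm_nonneg _)
  rw [add_mul]
  linarith
end CGL
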