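import Pool.Agent.CGL.PDefs
/-! PGAUSS: the real Gauss kernel -/
open MeasureTheory Set Filter Topology
namespace CGL
variable {N : ℕ}
theorem gk_pos {s : ℝ} (hs : 0 < s) (z : E N) : 0 < gk N s z := by
  unfold gk; positivity

private theorem pg_rexp (b : ℝ) (hb : 0 < b) :
    (∫ v : E N, Real.exp (-b * ‖v‖ ^ 2)) = (Real.pi / b) ^ ((N:ℝ) / 2) := by
  have h := GaussianFourier.integral_rexp_neg_mul_sq_norm (V := E N) hb
  rw [h]
  simp [E]

private theorem pg_int (b : ℝ) (hb : 0 < b) : Integrable (fun v : E N => Real.exp (-b * ‖v‖ ^ 2)) := by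
  by_contra h
  have h1 := pg_rexp (N := N) b hb
  rw [integral_undef h] at h1
  have h2 : 0 < (Real.pi / b) ^ ((N:ℝ) / 2) := by positivity
  linarith

private theorem pg_form (s : ℝ) (hs : 0 < s) : gk N s = fun z =>
    (4 * Real.pi * s) ^ (-(N : ℝ) / 2) * Real.exp (-(1 / (4 * s)) * ‖z‖ ^ 2) := by
  funext z
  unfold gk
  congr 2
  field_simp

theorem gk_integrable {s : ℝ} (hs : 0 < s) : Integrable (gk N s) := by
  rw [pg_form s hs]
  exact (pg_int _ (by positivity)).const_mul _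

theorem gk_int {s : ℝ} (hs : 0 < s) : (∫ z, gk N s z) = 1 := by
  rw [pg_form s hs, integral_const_mul, pg_rexp _ (by positivity)]
  have e : Real.pi / (1 / (4 * s)) = 4 * Real.pi * s := by field_simp
  rw [e, ← Real.rpow_add (by positivity)]
  rw [show -(N:ℝ) / 2 + (N:ℝ) / 2 = 0 by ring, Real.rpow_zero]

theorem gk_neg (s : ℝ) (z : E N) : gk N s (-z) = gk N s z := by
  unfold gk; rw [norm_neg]

theorem gk_cont {s : ℝ} (hs : 0 < s) : Continuous (gk N s) := by
  rw [pg_form s hs]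
  fun_prop

private theorem pg_sq {a b : ℝ} (ha : 0 < a) (hb : 0 < b) (x y : E N) :
    gk N a (x - y) * gk N b y =
      gk N (a + b) x * gk N (a * b / (a + b)) (y - (b / (a + b)) • x) := by
  have hab : 0 < a + b := by linarith
  unfold gk
  have h1 : ‖x - y‖ ^ 2 / (4 * a) + ‖y‖ ^ 2 / (4 * b) =
      ‖x‖ ^ 2 / (4 * (a + b)) + ‖y - (b / (a + b)) • x‖ ^ 2 / (4 * (a * b / (a + b))) := by
    rw [norm_sub_sq_real, norm_sub_sq_real, real_inner_smul_right, norm_smul, mul_pow,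
      Real.norm_eq_abs, sq_abs, real_inner_comm y x]
    field_simp
    ring
  have h2 : (4 * Real.pi * a) ^ (-(N : ℝ) / 2) * (4 * Real.pi * b) ^ (-(N : ℝ) / 2) =
      (4 * Real.pi * (a + b)) ^ (-(N : ℝ) / 2) *
        (4 * Real.pi * (a * b / (a + b))) ^ (-(N : ℝ) / 2) := by
    rw [← Real.mul_rpow (by positivity) (by positivity),
      ← Real.mul_rpow (by positivity) (by positivity)]
    congr 1
    field_simp
  calc (4 * Real.pi * a) ^ (-(N : ℝ) / 2) * Real.exp (-(‖x - y‖ ^ 2 / (4 * a))) *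
        ((4 * Real.pi * b) ^ (-(N : ℝ) / 2) * Real.exp (-(‖y‖ ^ 2 / (4 * b))))
      = ((4 * Real.pi * a) ^ (-(N : ℝ) / 2) * (4 * Real.pi * b) ^ (-(N : ℝ) / 2)) *
        Real.exp (-(‖x - y‖ ^ 2 / (4 * a) + ‖y‖ ^ 2 / (4 * b))) := by
        rw [neg_add, Real.exp_add]; ring
    _ = ((4 * Real.pi * (a + b)) ^ (-(N : ℝ) / 2) *
        (4 * Real.pi * (a * b / (a + b))) ^ (-(N : ℝ) / 2)) *
        Real.exp (-(‖x‖ ^ 2 / (4 * (a + b)) +
          ‖y - (b / (a + b)) • x‖ ^ 2 / (4 * (a * b / (a + b))))) := by rw [h1, h2]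
    _ = _ := by rw [neg_add, Real.exp_add]; ring

/-- semigroup law. -/
theorem gk_semi {a b : ℝ} (ha : 0 < a) (hb : 0 < b) (x : E N) :
    (∫ y, gk N a (x - y) * gk N b y) = gk N (a + b) x := by
  have hab : 0 < a * b / (a + b) := by positivity
  simp_rw [pg_sq ha hb x]
  rw [integral_const_mul, integral_sub_right_eq_self (gk N (a * b / (a + b))), gk_int hab, mul_one]

theorem gk_semi_integrable {a b : ℝ} (ha : 0 < a) (hb : 0 < b) (x : E N) :
    Integrable (fun y => gk N a (x - y) * gk N b y) := by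
  have hab : 0 < a * b / (a + b) := by positivity
  simp_rw [pg_sq ha hb x]
  exact ((gk_integrable hab).comp_sub_right _).const_mul _

/-- exponential moments are bounded for bounded times. -/
theorem gk_exp (T : ℝ) (hT : 0 < T) : ∃ C : ℝ, 0 < C ∧ ∀ s : ℝ, 0 < s → s ≤ T →
    Integrable (fun z : E N => gk N s z * Real.exp ‖z‖) ∧
    (∫ z : E N, gk N s z * Real.exp ‖z‖) ≤ C := by
  refine ⟨Real.exp (2 * T) * 2 ^ ((N:ℝ) / 2), by positivity, fun s hs hsT => ?_⟩
  have h2s : 0 < 2 * s := by linarith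
  have hb : ∀ z : E N, gk N s z * Real.exp ‖z‖ ≤
      Real.exp (2 * T) * 2 ^ ((N:ℝ) / 2) * gk N (2 * s) z := by
    intro z
    have e1 : gk N (2 * s) z = (2:ℝ) ^ (-(N:ℝ) / 2) * ((4 * Real.pi * s) ^ (-(N : ℝ) / 2) *
        Real.exp (-(‖z‖ ^ 2 / (8 * s)))) := by
      unfold gk
      rw [show 4 * Real.pi * (2 * s) = 2 * (4 * Real.pi * s) by ring,
        Real.mul_rpow (by norm_num) (by positivity), show 4 * (2 * s) = 8 * s by ring]
      ring
    have e2 : (2:ℝ) ^ ((N:ℝ) / 2) * (2:ℝ) ^ (-(N:ℝ) / 2) = 1 := by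
      rw [← Real.rpow_add (by norm_num)]
      rw [show (N:ℝ) / 2 + -(N:ℝ) / 2 = 0 by ring, Real.rpow_zero]
    rw [e1]
    have e3 : Real.exp (2 * T) * 2 ^ ((N:ℝ) / 2) * ((2:ℝ) ^ (-(N:ℝ) / 2) *
        ((4 * Real.pi * s) ^ (-(N : ℝ) / 2) * Real.exp (-(‖z‖ ^ 2 / (8 * s))))) =
        (4 * Real.pi * s) ^ (-(N : ℝ) / 2) * Real.exp (2 * T + -(‖z‖ ^ 2 / (8 * s))) := by
      rw [Real.exp_add]
      calc _ = ((2:ℝ) ^ ((N:ℝ) / 2) * (2:ℝ) ^ (-(N:ℝ) / 2)) *
            ((4 * Real.pi * s) ^ (-(N : ℝ) / 2) *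
              (Real.exp (2 * T) * Real.exp (-(‖z‖ ^ 2 / (8 * s))))) := by ring
        _ = _ := by rw [e2, one_mul]
    rw [e3]
    unfold gk
    rw [mul_assoc, ← Real.exp_add]
    apply mul_le_mul_of_nonneg_left _ (by positivity)
    apply Real.exp_le_exp.2
    have h3 : ‖z‖ ≤ ‖z‖ ^ 2 / (8 * s) + 2 * s := by
      have h4 : 0 ≤ (‖z‖ - 4 * s) ^ 2 / (8 * s) := by positivity
      have h5 : (‖z‖ - 4 * s) ^ 2 / (8 * s) = ‖z‖ ^ 2 / (8 * s) + 2 * s - ‖z‖ := by
        field_simp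
        ring
      linarith
    have h6 : ‖z‖ ^ 2 / (4 * s) = 2 * (‖z‖ ^ 2 / (8 * s)) := by field_simp; ring
    rw [h6]
    linarith
  have hI : Integrable (fun z : E N => gk N s z * Real.exp ‖z‖) := by
    refine ((gk_integrable h2s).const_mul (Real.exp (2 * T) * 2 ^ ((N:ℝ) / 2))).mono'
      ((gk_cont hs).mul (by fun_prop)).aestronglyMeasurable (Eventually.of_forall fun z => ?_)
    rw [Real.norm_eq_abs, abs_of_nonneg (mul_nonneg (gk_pos hs z).le (Real.exp_pos _).le)]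
    exact hb z
  refine ⟨hI, ?_⟩
  calc (∫ z : E N, gk N s z * Real.exp ‖z‖)
      ≤ ∫ z : E N, Real.exp (2 * T) * 2 ^ ((N:ℝ) / 2) * gk N (2 * s) z :=
        integral_mono hI ((gk_integrable h2s).const_mul _) hb
    _ = _ := by rw [integral_const_mul, gk_int h2s, mul_one]

/-- Jensen/Tonelli: `‖gk * |f|‖_2 ≤ ‖f‖_2`. -/
theorem gk_l2 {s : ℝ} (hs : 0 < s) {f : E N → ℝ} (hfc : Continuous f) (hf0 : ∀ x, 0 ≤ f x)
    (hfb : ∃ B, ∀ x, f x ≤ B) (hf2 : Integrable (fun x => f x ^ 2)) :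
    Integrable (fun x => (∫ y, gk N s (x - y) * f y) ^ 2) ∧
    (∫ x, (∫ y, gk N s (x - y) * f y) ^ 2) ≤ ∫ x, f x ^ 2 := by
  obtain ⟨B, hB⟩ := hfb
  have hgx : ∀ x, Integrable (fun y => gk N s (x - y)) := fun x =>
    (gk_integrable hs).comp_sub_left x
  have hg1 : ∀ x : E N, (∫ y, gk N s (x - y)) = 1 := fun x => by
    rw [integral_sub_left_eq_self (gk N s), gk_int hs]
  have hI1 : ∀ x, Integrable (fun y => gk N s (x - y) * f y) := fun x =>
    (hgx x).mul_bdd hfc.aestronglyMeasurable (Eventually.of_forall fun y => by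
      rw [Real.norm_eq_abs, abs_of_nonneg (hf0 y)]; exact hB y)
  have hI2 : ∀ x, Integrable (fun y => gk N s (x - y) * f y ^ 2) := fun x =>
    (hgx x).mul_bdd (hfc.pow 2).aestronglyMeasurable (Eventually.of_forall fun y => by
      rw [Real.norm_eq_abs, abs_of_nonneg (by positivity)]
      exact pow_le_pow_left₀ (hf0 y) (hB y) 2)
  have hJ : ∀ x, (∫ y, gk N s (x - y) * f y) ^ 2 ≤ ∫ y, gk N s (x - y) * f y ^ 2 := by
    intro x
    set m := ∫ y, gk N s (x - y) * f y with hm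
    have h0 : 0 ≤ ∫ y, gk N s (x - y) * (f y - m) ^ 2 :=
      integral_nonneg fun y => mul_nonneg (gk_pos hs _).le (sq_nonneg _)
    have h1 : (∫ y, gk N s (x - y) * (f y - m) ^ 2) =
        (∫ y, gk N s (x - y) * f y ^ 2) - 2 * m * m + m ^ 2 * 1 := by
      have e : (fun y => gk N s (x - y) * (f y - m) ^ 2) = fun y =>
          (gk N s (x - y) * f y ^ 2 - 2 * m * (gk N s (x - y) * f y)) + m ^ 2 * gk N s (x - y) := by
        funext y; ring
      have i1 : Integrable (fun y => 2 * m * (gk N s (x - y) * f y)) := (hI1 x).const_mul _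
      have i2 : Integrable (fun y => m ^ 2 * gk N s (x - y)) := (hgx x).const_mul _
      have i3 : Integrable (fun y => gk N s (x - y) * f y ^ 2 -
        2 * m * (gk N s (x - y) * f y)) := (hI2 x).sub i1
      rw [e, integral_add i3 i2, integral_sub (hI2 x) i1, integral_const_mul, integral_const_mul,
        hg1, ← hm]
    rw [h1] at h0
    nlinarith
  have hconv : Integrable (fun x => ∫ y, gk N s (x - y) * f y ^ 2) ∧
      (∫ x, ∫ y, gk N s (x - y) * f y ^ 2) = ∫ x, f x ^ 2 := by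
    have h1 := hf2.integrable_convolution (ContinuousLinearMap.mul ℝ ℝ) (gk_integrable (N := N) hs)
    have h2 := integral_convolution (ContinuousLinearMap.mul ℝ ℝ) hf2 (gk_integrable (N := N) hs)
      (μ := volume) (ν := volume)
    have e : (fun x => ∫ y, gk N s (x - y) * f y ^ 2) =
        (MeasureTheory.convolution (fun x => f x ^ 2) (gk N s) (ContinuousLinearMap.mul ℝ ℝ) volume) := by
      funext x
      unfold MeasureTheory.convolution
      congr 1
      funext y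
      simp only [ContinuousLinearMap.mul_apply']
      ring
    rw [e]
    refine ⟨h1, ?_⟩
    rw [h2]
    simp only [ContinuousLinearMap.mul_apply']
    rw [gk_int hs, mul_one]
  have hmeas : AEStronglyMeasurable (fun x => (∫ y, gk N s (x - y) * f y) ^ 2) volume := by
    have h1 : Continuous (fun p : E N × E N => gk N s (p.1 - p.2) * f p.2) :=
      ((gk_cont hs).comp (continuous_fst.sub continuous_snd)).mul (hfc.comp continuous_snd)
    have h2 := StronglyMeasurable.integral_prod_right (f := fun x y : E N => gk N s (x - y) * f y)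
      (ν := (volume : Measure (E N))) h1.stronglyMeasurable
    exact (h2.pow 2).aestronglyMeasurable
  have hI : Integrable (fun x => (∫ y, gk N s (x - y) * f y) ^ 2) := by
    refine hconv.1.mono' hmeas (Eventually.of_forall fun x => ?_)
    rw [Real.norm_eq_abs, abs_of_nonneg (by positivity)]
    exact hJ x
  refine ⟨hI, ?_⟩
  rw [← hconv.2]
  exact integral_mono hI hconv.1 hJ
end CGL
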