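import Pool.Agent.CGL.PGauss
/-! PKER: the complex kernel -/
open MeasureTheory Set Filter Topology
namespace CGL
variable {N : ℕ} {θ : ℝ}
theorem cos_pos_of (hθ : 0 ≤ θ) (hθ' : θ < Real.pi / 2) : 0 < Real.cos θ :=
  Real.cos_pos_of_mem_Ioo ⟨by linarith [Real.pi_pos], hθ'⟩

private theorem pker_exp_re : (Complex.exp (-(θ : ℂ) * Complex.I)).re = Real.cos θ := by
  rw [Complex.exp_re]
  simp

private theorem pker_re (r : ℝ) :
    (-(Complex.exp (-(θ : ℂ) * Complex.I)) * ((r : ℝ) : ℂ)).re = -(Real.cos θ * r) := by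
  rw [Complex.re_mul_ofReal, Complex.neg_re, pker_exp_re]
  ring

theorem ker_norm (hc : 0 < Real.cos θ) {t : ℝ} (ht : 0 < t) (z : E N) :
    ‖ker N θ t z‖ = C0 N θ * gk N (t / Real.cos θ) z := by
  have h4 : (0:ℝ) < 4 * Real.pi * t := by positivity
  have hexp1 : ‖Complex.exp (-(((N : ℝ) * θ / 2 : ℝ) : ℂ) * Complex.I)‖ = 1 := by
    have := Complex.norm_exp_ofReal_mul_I (-((N : ℝ) * θ / 2))
    rw [← this]
    push_cast
    ring_nf
  rw [ker, norm_mul, norm_mul, hexp1, mul_one, Complex.norm_real, Complex.norm_exp, pker_re,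
    Real.norm_of_nonneg (Real.rpow_nonneg h4.le _), C0, gk]
  have h1 : (4 * Real.pi * (t / Real.cos θ)) = (4 * Real.pi * t) / Real.cos θ := by ring
  rw [h1, Real.div_rpow h4.le hc.le]
  have h2 : (0:ℝ) < Real.cos θ ^ (-(N : ℝ) / 2) := Real.rpow_pos_of_pos hc _
  have h3 : -(‖z‖ ^ 2 / (4 * (t / Real.cos θ))) = -(Real.cos θ * (‖z‖ ^ 2 / (4 * t))) := by
    field_simp
  rw [h3]
  field_simp

theorem C0_ge_one (hc : 0 < Real.cos θ) : 1 ≤ C0 N θ := by
  rw [C0]
  apply Real.one_le_rpow_of_pos_of_le_one_of_nonpos hc (Real.cos_le_one θ)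
  have : (0:ℝ) ≤ (N:ℝ) := Nat.cast_nonneg N
  linarith

theorem ker_neg (t : ℝ) (z : E N) : ker N θ t (-z) = ker N θ t z := by
  rw [ker, ker, norm_neg]

theorem ker_contOn : ContinuousOn (fun p : ℝ × E N => ker N θ p.1 p.2) (Ioi (0:ℝ) ×ˢ univ) := by
  unfold ker
  have h1 : ContinuousOn (fun p : ℝ × E N => (4 * Real.pi * p.1) ^ (-(N : ℝ) / 2))
      (Ioi (0:ℝ) ×ˢ univ) := by
    apply ContinuousOn.rpow_const
    · fun_prop
    · rintro ⟨t, z⟩ ⟨ht, -⟩
      left
      have : (0:ℝ) < t := ht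
      simp only
      positivity
  have h2 : ContinuousOn (fun p : ℝ × E N => ‖p.2‖ ^ 2 / (4 * p.1)) (Ioi (0:ℝ) ×ˢ univ) := by
    apply ContinuousOn.div
    · fun_prop
    · fun_prop
    · rintro ⟨t, z⟩ ⟨ht, -⟩
      have : (0:ℝ) < t := ht
      simp only
      positivity
  refine ContinuousOn.mul (ContinuousOn.mul (Complex.continuous_ofReal.comp_continuousOn h1)
    continuousOn_const) ?_
  exact Complex.continuous_exp.comp_continuousOn
    (ContinuousOn.mul continuousOn_const (Complex.continuous_ofReal.comp_continuousOn h2))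

private theorem pker_cont (t : ℝ) : Continuous (ker N θ t) := by
  unfold ker
  fun_prop

theorem ker_integrable (hc : 0 < Real.cos θ) {t : ℝ} (ht : 0 < t) : Integrable (ker N θ t) := by
  have h1 : Integrable (fun z : E N => C0 N θ * gk N (t / Real.cos θ) z) :=
    (gk_integrable (div_pos ht hc)).const_mul _
  refine h1.mono' (pker_cont t).aestronglyMeasurable ?_
  exact Eventually.of_forall (fun z => (ker_norm hc ht z).le)

theorem ker_int (hθ : 0 ≤ θ) (hθ' : θ < Real.pi / 2) {t : ℝ} (ht : 0 < t) : (∫ z, ker N θ t z) = 1 := by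
  have hc := cos_pos_of hθ hθ'
  have h4 : (0:ℝ) < 4 * Real.pi * t := by positivity
  set b : ℂ := Complex.exp (-(θ : ℂ) * Complex.I) / ((4 * t : ℝ) : ℂ) with hb
  have hbre : 0 < b.re := by
    rw [hb, Complex.div_ofReal_re, pker_exp_re]
    positivity
  have hint := GaussianFourier.integral_cexp_neg_mul_sq_norm (b := b) (V := E N) hbre
  have hfr : Module.finrank ℝ (E N) = N := by simp
  rw [hfr] at hint
  have hker : ∀ z : E N, ker N θ t z = ((((4 * Real.pi * t) ^ (-(N : ℝ) / 2) : ℝ) : ℂ)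
      * Complex.exp (-(((N : ℝ) * θ / 2 : ℝ) : ℂ) * Complex.I)) * Complex.exp (-b * (‖z‖ : ℂ) ^ 2) := by
    intro z
    rw [ker]
    congr 2
    rw [hb]
    push_cast
    ring
  simp_rw [hker]
  rw [integral_const_mul, hint]
  have hpb : (Real.pi : ℂ) / b = ((4 * Real.pi * t : ℝ) : ℂ) * Complex.exp ((θ : ℂ) * Complex.I) := by
    rw [hb, show -(θ : ℂ) * Complex.I = -((θ : ℂ) * Complex.I) by ring, Complex.exp_neg]
    have : Complex.exp ((θ : ℂ) * Complex.I) ≠ 0 := Complex.exp_ne_zero _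
    have ht' : ((t : ℝ) : ℂ) ≠ 0 := by exact_mod_cast ht.ne'
    push_cast
    field_simp
  have hpbne : (Real.pi : ℂ) / b ≠ 0 := by
    rw [hpb]
    exact mul_ne_zero (by exact_mod_cast h4.ne') (Complex.exp_ne_zero _)
  have hlog : Complex.log ((Real.pi : ℂ) / b) = ((Real.log (4 * Real.pi * t) : ℝ) : ℂ)
      + (θ : ℂ) * Complex.I := by
    rw [hpb, Complex.log_ofReal_mul h4 (Complex.exp_ne_zero _), Complex.log_exp]
    · simp
      linarith [Real.pi_pos]
    · simp
      linarith [Real.pi_pos]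
  rw [Complex.cpow_def_of_ne_zero hpbne, hlog, Real.rpow_def_of_pos h4, Complex.ofReal_exp,
    ← Complex.exp_add, ← Complex.exp_add]
  rw [show (1:ℂ) = Complex.exp 0 by rw [Complex.exp_zero]]
  congr 1
  push_cast
  ring

/-- scaling. -/
theorem ker_scale {t : ℝ} (ht : 0 < t) (z : E N) :
    ker N θ t z = ((t ^ (-(N:ℝ)/2) : ℝ) : ℂ) * ker N θ 1 ((1 / Real.sqrt t) • z) := by
  have h1 : ‖(1 / Real.sqrt t) • z‖ ^ 2 = ‖z‖ ^ 2 / t := by
    rw [norm_smul, mul_pow, Real.norm_of_nonneg (by positivity), div_pow, Real.sq_sqrt ht.le]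
    ring
  have h4 : (0:ℝ) < 4 * Real.pi := by positivity
  rw [ker, ker, h1, Real.mul_rpow h4.le ht.le, mul_one (4 * Real.pi)]
  push_cast
  have h2 : (‖z‖ ^ 2 / (4 * t) : ℂ) = ((‖z‖ : ℂ) ^ 2 / t) / (4 * 1) := by
    field_simp
  rw [h2]
  ring

/-- `H ψ s = ∫ K_1(z) ψ(√s z) dz`. -/
private noncomputable def HH (N : ℕ) (θ : ℝ) (ψ : E N → ℝ) (s : ℝ) : ℂ :=
  ∫ z, ker N θ 1 z * (ψ (Real.sqrt s • z) : ℂ)

private theorem HH_scale {s : ℝ} (hs : 0 < s) (ψ : E N → ℝ) :
    (∫ z, ker N θ s z * (ψ z : ℂ)) = HH N θ ψ s := by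
  have hsq : 0 < Real.sqrt s := Real.sqrt_pos.2 hs
  have h1 := MeasureTheory.Measure.integral_comp_smul (volume : Measure (E N))
    (fun z => ker N θ 1 ((1 / Real.sqrt s) • z) * (ψ z : ℂ)) (Real.sqrt s)
  have h2 : ∀ z : E N, (1 / Real.sqrt s) • (Real.sqrt s • z) = z := by
    intro z
    rw [smul_smul, one_div, inv_mul_cancel₀ hsq.ne', one_smul]
  simp_rw [h2] at h1
  have hfr : Module.finrank ℝ (E N) = N := by simp
  rw [hfr] at h1
  rw [HH, h1]
  have h3 : |(Real.sqrt s ^ N)⁻¹| = s ^ (-(N:ℝ)/2) := by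
    rw [abs_of_pos (by positivity), ← Real.rpow_natCast, Real.sqrt_eq_rpow, ← Real.rpow_mul hs.le,
      ← Real.rpow_neg hs.le]
    congr 1
    ring
  rw [h3]
  rw [← integral_smul]
  apply integral_congr_ae
  apply Eventually.of_forall
  intro z
  simp only
  rw [ker_scale hs z, Complex.real_smul]
  ring

private theorem test_bdd {ψ : E N → ℝ} (hψ : Continuous ψ) (hk : HasCompactSupport ψ) :
    ∃ C : ℝ, 0 ≤ C ∧ ∀ x, |ψ x| ≤ C := by
  obtain ⟨C, hC⟩ := hψ.bounded_above_of_compact_support hk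
  refine ⟨C, le_trans (norm_nonneg _) (hC 0), ?_⟩
  intro x
  exact hC x

private theorem HH_cont (hc : 0 < Real.cos θ) {ψ : E N → ℝ} (hψ : Continuous ψ)
    (hk : HasCompactSupport ψ) : Continuous (HH N θ ψ) := by
  obtain ⟨C, hC0, hC⟩ := test_bdd hψ hk
  unfold HH
  apply continuous_of_dominated (bound := fun z => ‖ker N θ 1 z‖ * C)
  · intro s
    apply Continuous.aestronglyMeasurable
    exact (pker_cont 1).mul (Complex.continuous_ofReal.comp (hψ.comp (continuous_const_smul _)))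
  · intro s
    apply Eventually.of_forall
    intro z
    rw [norm_mul]
    apply mul_le_mul_of_nonneg_left _ (norm_nonneg _)
    rw [Complex.norm_real]
    exact hC _
  · exact (ker_integrable hc one_pos).norm.mul_const C
  · apply Eventually.of_forall
    intro z
    apply continuous_const.mul
    apply Complex.continuous_ofReal.comp
    apply hψ.comp
    exact Real.continuous_sqrt.smul continuous_const

private theorem HH_zero (hθ : 0 ≤ θ) (hθ' : θ < Real.pi / 2) (ψ : E N → ℝ) :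
    HH N θ ψ 0 = (ψ 0 : ℂ) := by
  rw [HH]
  simp only [Real.sqrt_zero, zero_smul]
  rw [integral_mul_const, ker_int hθ hθ' one_pos, one_mul]

/-- line derivative of the kernel. -/
private theorem ker_line (z : E N) (i : Fin N) :
    HasLineDerivAt ℝ (ker N θ 1) (-(1/2 : ℂ) * Complex.exp (-(θ : ℂ) * Complex.I) * ((z i : ℝ) : ℂ)
      * ker N θ 1 z) z (ev i) := by
  rw [HasLineDerivAt]
  have h1 : HasDerivAt (fun t : ℝ => ‖z + t • ev i‖ ^ 2 / (4 * 1)) (z i / 2) 0 := by
    have h2 : HasDerivAt (fun t : ℝ => z + t • (ev i : E N)) (ev i) 0 := by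
      have := ((hasDerivAt_id (0:ℝ)).smul_const (ev i : E N)).const_add z
      simpa using this
    have h3 := (hasStrictFDerivAt_norm_sq (z + (0:ℝ) • (ev i : E N))).hasFDerivAt.comp_hasDerivAt
      (0:ℝ) h2
    have h4 : ((2 • (innerSL ℝ) (z + (0:ℝ) • (ev i : E N))) (ev i) : ℝ) = 2 * z i := by
      simp [EuclideanSpace.inner_single_right]
    rw [h4] at h3
    have h5 := h3.div_const (4 * 1)
    have h6 : (2 * z i / (4 * 1) : ℝ) = z i / 2 := by ring
    rw [h6] at h5
    exact h5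
  have h6 : HasDerivAt (fun t : ℝ => ((‖z + t • ev i‖ ^ 2 / (4 * 1) : ℝ) : ℂ)) ((z i / 2 : ℝ) : ℂ) 0 :=
    h1.ofReal_comp
  have h7 := (h6.const_mul (-(Complex.exp (-(θ : ℂ) * Complex.I)))).cexp
  have h8 := h7.const_mul ((((4 * Real.pi * 1) ^ (-(N : ℝ) / 2) : ℝ) : ℂ)
    * Complex.exp (-(((N : ℝ) * θ / 2 : ℝ) : ℂ) * Complex.I))
  have h9 : (fun t : ℝ => ker N θ 1 (z + t • ev i)) = fun t : ℝ =>
      (((4 * Real.pi * 1) ^ (-(N : ℝ) / 2) : ℝ) : ℂ)
    * Complex.exp (-(((N : ℝ) * θ / 2 : ℝ) : ℂ) * Complex.I) *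
      Complex.exp (-(Complex.exp (-(θ : ℂ) * Complex.I)) * ((‖z + t • ev i‖ ^ 2 / (4 * 1) : ℝ) : ℂ)) := by
    rfl
  rw [h9]
  simp only [zero_smul, add_zero] at h8
  have h10 : ker N θ 1 z = (((4 * Real.pi * 1) ^ (-(N : ℝ) / 2) : ℝ) : ℂ)
    * Complex.exp (-(((N : ℝ) * θ / 2 : ℝ) : ℂ) * Complex.I) *
      Complex.exp (-(Complex.exp (-(θ : ℂ) * Complex.I)) * ((‖z‖ ^ 2 / (4 * 1) : ℝ) : ℂ)) := rfl
  rw [h10]
  refine h8.congr_deriv ?_
  push_cast
  ring

private theorem ph_mul : ph θ * Complex.exp (-(θ : ℂ) * Complex.I) = 1 := by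
  rw [ph, ← Complex.exp_add]
  rw [show (θ : ℂ) * Complex.I + -(θ : ℂ) * Complex.I = 0 by ring, Complex.exp_zero]

/-- integration by parts in one direction. -/
private theorem HH_ibp {ψ : E N → ℝ} (hψ : Test ψ) {s : ℝ} (hs : 0 < s) (i : Fin N) :
    (∫ z, ker N θ 1 z * ((z i * pd i ψ (Real.sqrt s • z) : ℝ) : ℂ))
      = 2 * ph θ * (Real.sqrt s : ℂ) * ∫ z, ker N θ 1 z * (pd i (pd i ψ) (Real.sqrt s • z) : ℂ) := by
  have hsq : 0 < Real.sqrt s := Real.sqrt_pos.2 hs
  have hg := hψ.pd i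
  have hgg := hg.pd i
  have hcs : ∀ {f : E N → ℝ}, HasCompactSupport f →
      HasCompactSupport (fun z : E N => f (Real.sqrt s • z)) := by
    intro f hf
    exact hf.comp_smul hsq.ne'
  -- line derivative of `g`
  have hgl : ∀ z : E N, HasLineDerivAt ℝ (fun z : E N => ((pd i ψ (Real.sqrt s • z) : ℝ) : ℂ))
      ((Real.sqrt s * pd i (pd i ψ) (Real.sqrt s • z) : ℝ) : ℂ) z (ev i) := by
    intro z
    rw [HasLineDerivAt]
    have h1 : HasFDerivAt (pd i ψ) (fderiv ℝ (pd i ψ) (Real.sqrt s • z)) (Real.sqrt s • z) :=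
      ((hg.s.differentiable (by simp)) _).hasFDerivAt
    have h2 : HasDerivAt (fun t : ℝ => Real.sqrt s • (z + t • (ev i : E N)))
        (Real.sqrt s • (ev i : E N)) 0 := by
      have h0 : (fun t : ℝ => Real.sqrt s • (z + t • (ev i : E N)))
          = fun t : ℝ => Real.sqrt s • z + t • (Real.sqrt s • (ev i : E N)) := by
        funext t
        rw [smul_add, smul_comm]
      rw [h0]
      have := ((hasDerivAt_id (0:ℝ)).smul_const (Real.sqrt s • (ev i : E N))).const_add
        (Real.sqrt s • z)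
      simpa using this
    have h3 : HasDerivAt (fun t : ℝ => pd i ψ (Real.sqrt s • (z + t • (ev i : E N))))
        (fderiv ℝ (pd i ψ) (Real.sqrt s • z) (Real.sqrt s • (ev i : E N))) 0 := by
      have h1' : HasFDerivAt (pd i ψ) (fderiv ℝ (pd i ψ) (Real.sqrt s • z))
          ((fun t : ℝ => Real.sqrt s • (z + t • (ev i : E N))) 0) := by
        simpa using h1
      exact h1'.comp_hasDerivAt (0:ℝ) h2
    rw [map_smul, smul_eq_mul] at h3
    exact h3.ofReal_comp
  have hcont1 : Continuous (fun z : E N => ((pd i ψ (Real.sqrt s • z) : ℝ) : ℂ)) :=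
    Complex.continuous_ofReal.comp (hg.s.continuous.comp (continuous_const_smul _))
  have hcont2 : Continuous (fun z : E N => ((Real.sqrt s * pd i (pd i ψ) (Real.sqrt s • z) : ℝ) : ℂ)) :=
    Complex.continuous_ofReal.comp
      (continuous_const.mul (hgg.s.continuous.comp (continuous_const_smul _)))
  have hK1 : Continuous (fun z : E N => -(1/2 : ℂ) * Complex.exp (-(θ : ℂ) * Complex.I) *
      ((z i : ℝ) : ℂ) * ker N θ 1 z) := by
    have : Continuous (fun z : E N => ((z i : ℝ) : ℂ)) := by fun_prop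
    exact (continuous_const.mul this).mul (pker_cont 1)
  have hk1 : HasCompactSupport (fun z : E N => ((pd i ψ (Real.sqrt s • z) : ℝ) : ℂ)) :=
    (hcs hg.k).comp_left (g := fun r : ℝ => (r : ℂ)) (by simp)
  have hk2 : HasCompactSupport (fun z : E N =>
      ((Real.sqrt s * pd i (pd i ψ) (Real.sqrt s • z) : ℝ) : ℂ)) :=
    (hcs hgg.k).comp_left (g := fun r : ℝ => ((Real.sqrt s * r : ℝ) : ℂ)) (by simp)
  have key := integral_bilinear_hasLineDerivAt_right_eq_neg_left_of_integrable
    (μ := (volume : Measure (E N))) (B := ContinuousLinearMap.mul ℝ ℂ)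
    (f := ker N θ 1) (f' := fun z => -(1/2 : ℂ) * Complex.exp (-(θ : ℂ) * Complex.I) *
      ((z i : ℝ) : ℂ) * ker N θ 1 z)
    (g := fun z : E N => ((pd i ψ (Real.sqrt s • z) : ℝ) : ℂ))
    (g' := fun z : E N => ((Real.sqrt s * pd i (pd i ψ) (Real.sqrt s • z) : ℝ) : ℂ)) (v := ev i)
    ((hK1.mul hcont1).integrable_of_hasCompactSupport hk1.mul_left)
    (((pker_cont 1).mul hcont2).integrable_of_hasCompactSupport hk2.mul_left)
    (((pker_cont 1).mul hcont1).integrable_of_hasCompactSupport hk1.mul_left)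
    (fun z _ => ker_line z i) (fun z _ => hgl z)
  simp only [ContinuousLinearMap.mul_apply'] at key
  have e1 : (∫ z, ker N θ 1 z * ((Real.sqrt s * pd i (pd i ψ) (Real.sqrt s • z) : ℝ) : ℂ))
      = (Real.sqrt s : ℂ) * ∫ z, ker N θ 1 z * (pd i (pd i ψ) (Real.sqrt s • z) : ℂ) := by
    rw [← integral_const_mul]
    congr 1
    funext z
    push_cast
    ring
  have e2 : (∫ z, -(1/2 : ℂ) * Complex.exp (-(θ : ℂ) * Complex.I) * ((z i : ℝ) : ℂ) * ker N θ 1 z *
      ((pd i ψ (Real.sqrt s • z) : ℝ) : ℂ)) = (-(1/2 : ℂ) * Complex.exp (-(θ : ℂ) * Complex.I)) *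
      ∫ z, ker N θ 1 z * ((z i * pd i ψ (Real.sqrt s • z) : ℝ) : ℂ) := by
    rw [← integral_const_mul]
    congr 1
    funext z
    push_cast
    ring
  rw [e1, e2] at key
  have := ph_mul (θ := θ)
  linear_combination (-2 * ph θ) * key + (-(∫ z, ker N θ 1 z *
    ((z i * pd i ψ (Real.sqrt s • z) : ℝ) : ℂ))) * this

private theorem HH_deriv (hc : 0 < Real.cos θ) {ψ : E N → ℝ} (hψ : Test ψ) {s : ℝ} (hs : 0 < s) :
    HasDerivAt (HH N θ ψ) (ph θ * HH N θ (lap ψ) s) s := by
  -- `χ y = ∇ψ(y)·y`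
  set χ : E N → ℝ := fun y => fderiv ℝ ψ y y with hχ
  have hdψ : Continuous (fderiv ℝ ψ) := hψ.s.continuous_fderiv (by simp)
  have hχc : Continuous χ := hdψ.clm_apply continuous_id
  have hχk : HasCompactSupport χ := by
    have h1 : HasCompactSupport (fderiv ℝ ψ) := hψ.k.fderiv ℝ
    refine h1.mono ?_
    intro y hy
    rw [Function.mem_support] at hy ⊢
    intro h0
    apply hy
    rw [hχ]
    simp only
    rw [h0]
    rfl
  obtain ⟨C, hC0, hC⟩ := test_bdd hχc hχk
  obtain ⟨C', hC0', hC'⟩ := test_bdd hψ.s.continuous hψ.k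
  have hbase := hasDerivAt_integral_of_dominated_loc_of_deriv_le (μ := (volume : Measure (E N)))
    (F := fun (r : ℝ) z => ker N θ 1 z * (ψ (Real.sqrt r • z) : ℂ))
    (F' := fun (r : ℝ) z => ker N θ 1 z * ((χ (Real.sqrt r • z) / (2 * r) : ℝ) : ℂ))
    (bound := fun z => ‖ker N θ 1 z‖ * (C / s)) (x₀ := s) (s := Ioi (s / 2))
    (Ioi_mem_nhds (by linarith))
    (by
      apply Eventually.of_forall
      intro r
      apply Continuous.aestronglyMeasurable
      exact (pker_cont 1).mul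
        (Complex.continuous_ofReal.comp (hψ.s.continuous.comp (continuous_const_smul _))))
    (by
      have : Integrable (fun z : E N => ‖ker N θ 1 z‖ * C') :=
        (ker_integrable hc one_pos).norm.mul_const C'
      refine this.mono' ?_ ?_
      · apply Continuous.aestronglyMeasurable
        exact (pker_cont 1).mul
          (Complex.continuous_ofReal.comp (hψ.s.continuous.comp (continuous_const_smul _)))
      · apply Eventually.of_forall
        intro z
        rw [norm_mul]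
        apply mul_le_mul_of_nonneg_left _ (norm_nonneg _)
        rw [Complex.norm_real]
        exact hC' _)
    (by
      apply Continuous.aestronglyMeasurable
      exact (pker_cont 1).mul (Complex.continuous_ofReal.comp
        ((hχc.comp (continuous_const_smul _)).div_const _)))
    (by
      apply Eventually.of_forall
      intro z r hr
      have hr' : s / 2 < r := hr
      have hr0 : 0 < r := by linarith
      rw [norm_mul]
      apply mul_le_mul_of_nonneg_left _ (norm_nonneg _)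
      rw [Complex.norm_real, norm_div, Real.norm_of_nonneg (by linarith : (0:ℝ) ≤ 2 * r)]
      rw [div_le_div_iff₀ (by linarith) hs]
      have := hC (Real.sqrt r • z)
      rw [Real.norm_eq_abs]
      nlinarith)
    ((ker_integrable hc one_pos).norm.mul_const _)
    (by
      apply Eventually.of_forall
      intro z r hr
      have hr' : s / 2 < r := hr
      have hr0 : 0 < r := by linarith
      have hsq : 0 < Real.sqrt r := Real.sqrt_pos.2 hr0
      have h1 : HasFDerivAt ψ (fderiv ℝ ψ (Real.sqrt r • z)) (Real.sqrt r • z) :=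
        ((hψ.s.differentiable (by simp)) _).hasFDerivAt
      have h2 : HasDerivAt (fun t : ℝ => Real.sqrt t • z) ((1 / (2 * Real.sqrt r)) • z) r :=
        (Real.hasDerivAt_sqrt hr0.ne').smul_const z
      have h3 := h1.comp_hasDerivAt r h2
      have h4 : (fderiv ℝ ψ (Real.sqrt r • z)) ((1 / (2 * Real.sqrt r)) • z)
          = χ (Real.sqrt r • z) / (2 * r) := by
        rw [hχ]
        simp only [map_smul, smul_eq_mul]
        have hrr : Real.sqrt r * Real.sqrt r = r := Real.mul_self_sqrt hr0.le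
        rw [one_div, inv_mul_eq_div, div_eq_div_iff (by positivity) (by positivity)]
        linear_combination (-2 * (fderiv ℝ ψ (Real.sqrt r • z)) z) * hrr
      rw [h4] at h3
      exact (h3.ofReal_comp).const_mul _)
  have h5 := hbase.2
  have h6 : (∫ z, ker N θ 1 z * ((χ (Real.sqrt s • z) / (2 * s) : ℝ) : ℂ))
      = ph θ * HH N θ (lap ψ) s := by
    have hsq : 0 < Real.sqrt s := Real.sqrt_pos.2 hs
    have hss : Real.sqrt s * Real.sqrt s = s := Real.mul_self_sqrt hs.le
    have hexp : ∀ z : E N, χ (Real.sqrt s • z) = ∑ i, Real.sqrt s * (z i * pd i ψ (Real.sqrt s • z)) := by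
      intro z
      have hz : (z : E N) = ∑ i, z i • (ev i : E N) := by
        conv_lhs => rw [← (EuclideanSpace.basisFun (Fin N) ℝ).sum_repr z]
        simp
      rw [hχ]
      simp only [map_smul, smul_eq_mul]
      conv_lhs => rw [hz]
      rw [map_sum, Finset.mul_sum]
      apply Finset.sum_congr rfl
      intro i _
      rw [map_smul, smul_eq_mul, pd, ← hz]
    have hint1 : ∀ i, Integrable (fun z : E N => ker N θ 1 z *
        ((z i * pd i ψ (Real.sqrt s • z) : ℝ) : ℂ)) := by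
      intro i
      have hg := hψ.pd i
      have hk1 : HasCompactSupport (fun z : E N => ((pd i ψ (Real.sqrt s • z) : ℝ) : ℂ)) :=
        (hg.k.comp_smul hsq.ne').comp_left (g := fun r : ℝ => (r : ℂ)) (by simp)
      have hcont1 : Continuous (fun z : E N => ((pd i ψ (Real.sqrt s • z) : ℝ) : ℂ)) :=
        Complex.continuous_ofReal.comp (hg.s.continuous.comp (continuous_const_smul _))
      have hK1 : Continuous (fun z : E N => ker N θ 1 z * ((z i : ℝ) : ℂ)) := by
        have : Continuous (fun z : E N => ((z i : ℝ) : ℂ)) := by fun_prop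
        exact (pker_cont 1).mul this
      have : Integrable (fun z : E N => (ker N θ 1 z * ((z i : ℝ) : ℂ)) *
          ((pd i ψ (Real.sqrt s • z) : ℝ) : ℂ)) :=
        (hK1.mul hcont1).integrable_of_hasCompactSupport hk1.mul_left
      refine this.congr (Eventually.of_forall ?_)
      intro z
      simp only
      push_cast
      ring
    have hint2 : ∀ i, Integrable (fun z : E N => ker N θ 1 z *
        (pd i (pd i ψ) (Real.sqrt s • z) : ℂ)) := by
      intro i
      have hg := (hψ.pd i).pd i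
      have hk1 : HasCompactSupport (fun z : E N => ((pd i (pd i ψ) (Real.sqrt s • z) : ℝ) : ℂ)) :=
        (hg.k.comp_smul hsq.ne').comp_left (g := fun r : ℝ => (r : ℂ)) (by simp)
      have hcont1 : Continuous (fun z : E N => ((pd i (pd i ψ) (Real.sqrt s • z) : ℝ) : ℂ)) :=
        Complex.continuous_ofReal.comp (hg.s.continuous.comp (continuous_const_smul _))
      exact ((pker_cont 1).mul hcont1).integrable_of_hasCompactSupport hk1.mul_left
    have e1 : (∫ z, ker N θ 1 z * ((χ (Real.sqrt s • z) / (2 * s) : ℝ) : ℂ))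
        = ∑ i, ((Real.sqrt s / (2 * s) : ℝ) : ℂ) * ∫ z, ker N θ 1 z *
          ((z i * pd i ψ (Real.sqrt s • z) : ℝ) : ℂ) := by
      have : ∀ z : E N, ker N θ 1 z * ((χ (Real.sqrt s • z) / (2 * s) : ℝ) : ℂ)
          = ∑ i, ((Real.sqrt s / (2 * s) : ℝ) : ℂ) * (ker N θ 1 z *
          ((z i * pd i ψ (Real.sqrt s • z) : ℝ) : ℂ)) := by
        intro z
        rw [hexp z, Finset.sum_div]
        push_cast
        rw [Finset.mul_sum]
        apply Finset.sum_congr rfl
        intro i _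
        ring
      simp_rw [this]
      rw [integral_finsetSum _ (fun i _ => (hint1 i).const_mul _)]
      apply Finset.sum_congr rfl
      intro i _
      rw [integral_const_mul]
    rw [e1]
    have e2 : HH N θ (lap ψ) s = ∑ i, ∫ z, ker N θ 1 z * (pd i (pd i ψ) (Real.sqrt s • z) : ℂ) := by
      rw [HH, ← integral_finsetSum _ (fun i _ => hint2 i)]
      congr 1
      funext z
      rw [lap]
      push_cast
      rw [Finset.mul_sum]
    rw [e2, Finset.mul_sum]
    apply Finset.sum_congr rfl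
    intro i _
    rw [HH_ibp hψ hs i]
    have h7 : ((Real.sqrt s / (2 * s) : ℝ) : ℂ) * (2 * ph θ * (Real.sqrt s : ℂ)) = ph θ := by
      have h8 : ((Real.sqrt s / (2 * s) : ℝ) : ℂ) * (2 * (Real.sqrt s : ℂ)) = 1 := by
        have : (Real.sqrt s / (2 * s)) * (2 * Real.sqrt s) = 1 := by
          rw [div_mul_eq_mul_div, div_eq_one_iff_eq (by positivity)]
          linarith
        exact_mod_cast this
      linear_combination (ph θ) * h8
    rw [← mul_assoc, h7]
  rw [h6] at h5
  exact h5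

/-- action on test functions: `K_t * φ = φ + e^{iθ} ∫_0^t K_s * Δφ ds`. -/
theorem ker_test (hθ : 0 ≤ θ) (hθ' : θ < Real.pi / 2) {φ : E N → ℝ} (hφ : Test φ) {t : ℝ} (ht : 0 < t) (x : E N) :
    (∫ y, ker N θ t (x - y) * (φ y : ℂ))
      = (φ x : ℂ) + ph θ * ∫ s in (0:ℝ)..t, ∫ y, ker N θ s (x - y) * (lap φ y : ℂ) := by
  have hc := cos_pos_of hθ hθ'
  set ψ : E N → ℝ := fun y => φ (x - y) with hψdef
  have hψ : Test ψ := hφ.refl x
  have h1 : ∀ s : ℝ, 0 < s → (∫ y, ker N θ s (x - y) * (φ y : ℂ)) = HH N θ ψ s := by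
    intro s hs
    rw [← HH_scale hs ψ, ← MeasureTheory.integral_sub_left_eq_self
      (fun z => ker N θ s z * (ψ z : ℂ)) volume x]
    congr 1
    funext y
    rw [hψdef]
    simp
  have h2 : ∀ s : ℝ, 0 < s → (∫ y, ker N θ s (x - y) * (lap φ y : ℂ)) = HH N θ (lap ψ) s := by
    intro s hs
    rw [← HH_scale hs (lap ψ), ← MeasureTheory.integral_sub_left_eq_self
      (fun z => ker N θ s z * (lap ψ z : ℂ)) volume x]
    congr 1
    funext y
    rw [hψdef, lap_refl hφ x (x - y)]
    simp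
  have h3 : (∫ s in (0:ℝ)..t, ∫ y, ker N θ s (x - y) * (lap φ y : ℂ))
      = ∫ s in (0:ℝ)..t, HH N θ (lap ψ) s := by
    apply intervalIntegral.integral_congr_ae
    apply Eventually.of_forall
    intro s hs
    rw [uIoc_of_le ht.le] at hs
    exact h2 s hs.1
  have hcont := HH_cont hc hψ.s.continuous hψ.k
  have hcont2 := HH_cont hc hψ.lap.s.continuous hψ.lap.k
  have h4 := intervalIntegral.integral_eq_sub_of_hasDerivAt_of_le ht.le hcont.continuousOn
    (fun s hs => HH_deriv hc hψ hs.1)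
    ((continuous_const.mul hcont2).intervalIntegrable 0 t)
  rw [h1 t ht, h3, ← intervalIntegral.integral_const_mul, h4, HH_zero hθ hθ']
  rw [hψdef]
  simp
end CGL
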