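import Pool.Agent.CGL.PKer
/-! PWEAK: weak time derivative of mild solutions -/
open MeasureTheory Set Filter Topology
namespace CGL
variable {N : ℕ} {α θ γ : ℝ}

private theorem pweakKerMeas (N : ℕ) (θ : ℝ) :
    Measurable (fun p : ℝ × E N => ker N θ p.1 p.2) := by
  unfold ker
  fun_prop

attribute [local irreducible] ker

private noncomputable def pweakM (N : ℕ) (θ : ℝ) (ψ : E N → ℝ) (τ : ℝ) (y : E N) : ℂ :=
  ∫ x, ker N θ τ (y - x) * (ψ x : ℂ)

private theorem pweakMMeas {ψ : E N → ℝ} (hψ : Continuous ψ) :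
    StronglyMeasurable (fun p : ℝ × E N => pweakM N θ ψ p.1 p.2) := by
  unfold pweakM
  have h : Measurable (fun q : (ℝ × E N) × E N => ker N θ q.1.1 (q.1.2 - q.2) * (ψ q.2 : ℂ)) := by
    have h1 : Measurable (fun q : (ℝ × E N) × E N => ker N θ q.1.1 (q.1.2 - q.2)) :=
      (pweakKerMeas N θ).comp (by fun_prop : Measurable
        (fun q : (ℝ × E N) × E N => (q.1.1, q.1.2 - q.2)))
    have h2 : Measurable (fun q : (ℝ × E N) × E N => (ψ q.2 : ℂ)) := by
      have := hψ.measurable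
      fun_prop
    exact h1.mul h2
  exact h.stronglyMeasurable.integral_prod_right'

private theorem pweakProd (hc : 0 < Real.cos θ) {τ : ℝ} (hτ : 0 < τ) {ψ : E N → ℝ}
    (hψ : Integrable ψ) :
    Integrable (fun p : E N × E N => ker N θ τ (p.1 - p.2) * (ψ p.2 : ℂ))
      (volume.prod volume) := by
  have h := (hψ.ofReal (𝕜 := ℂ)).convolution_integrand (ContinuousLinearMap.mul ℂ ℂ)
    (ker_integrable hc hτ)
  simpa [mul_comm] using h

private theorem pweakKerL1 (hc : 0 < Real.cos θ) {τ : ℝ} (hτ : 0 < τ) (x : E N) :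
    (∫ y, ‖ker N θ τ (y - x)‖) = C0 N θ := by
  have h1 : (∫ y, ‖ker N θ τ (y - x)‖) = ∫ y, ‖ker N θ τ y‖ :=
    integral_sub_right_eq_self (fun y => ‖ker N θ τ y‖) x
  rw [h1]
  simp_rw [ker_norm hc hτ]
  rw [integral_const_mul, gk_int (by positivity), mul_one]

private theorem pweakMInt (hc : 0 < Real.cos θ) {τ : ℝ} (hτ : 0 < τ) {ψ : E N → ℝ}
    (hψ : Integrable ψ) : Integrable (pweakM N θ ψ τ) ∧
      (∫ y, ‖pweakM N θ ψ τ y‖) ≤ C0 N θ * ∫ x, |ψ x| := by
  have hp := pweakProd hc hτ hψ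
  have h1 : Integrable (pweakM N θ ψ τ) := hp.integral_prod_left
  refine ⟨h1, ?_⟩
  have hn := hp.norm
  have h2 : (∫ y, ‖pweakM N θ ψ τ y‖)
      ≤ ∫ y, ∫ x, ‖ker N θ τ (y - x) * (ψ x : ℂ)‖ := by
    refine integral_mono h1.norm hn.integral_prod_left fun y => ?_
    exact norm_integral_le_integral_norm _
  refine h2.trans (le_of_eq ?_)
  rw [integral_integral_swap (f := fun (y x : E N) => ‖ker N θ τ (y - x) * (ψ x : ℂ)‖) hn]
  rw [← integral_const_mul]
  congr 1
  funext x
  simp_rw [norm_mul, Complex.norm_real, Real.norm_eq_abs]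
  rw [integral_mul_const, pweakKerL1 hc hτ]

private theorem pweakA (hc : 0 < Real.cos θ) {τ : ℝ} (hτ : 0 < τ) {ψ : E N → ℝ}
    (hψ : Integrable ψ) {h : E N → ℂ} (hh : Continuous h) {B : ℝ} (hB : ∀ y, ‖h y‖ ≤ B) :
    (∫ x, ψ x • ∫ y, ker N θ τ (x - y) * h y) = ∫ y, h y * pweakM N θ ψ τ y := by
  have hp := pweakProd hc hτ hψ
  have hp2 : Integrable (fun p : E N × E N => h p.1 * (ker N θ τ (p.1 - p.2) * (ψ p.2 : ℂ)))
      (volume.prod volume) :=
    hp.bdd_mul (c := B) ((hh.comp continuous_fst).aestronglyMeasurable)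
      (Filter.Eventually.of_forall fun p => hB p.1)
  have e1 : (∫ y, h y * pweakM N θ ψ τ y)
      = ∫ y, ∫ x, h y * (ker N θ τ (y - x) * (ψ x : ℂ)) := by
    congr 1; funext y
    unfold pweakM
    rw [integral_const_mul]
  rw [e1, integral_integral_swap
    (f := fun (y x : E N) => h y * (ker N θ τ (y - x) * (ψ x : ℂ))) hp2]
  congr 1; funext x
  rw [← integral_smul]
  congr 1; funext y
  rw [show x - y = -(y - x) by abel, ker_neg, Complex.real_smul]
  ring

private theorem pweakQbd (hc : 0 < Real.cos θ) {τ : ℝ} (hτ : 0 < τ) {ψ : E N → ℝ}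
    (hψ : Integrable ψ) {h : E N → ℂ} {B : ℝ} (hB0 : 0 ≤ B) (hB : ∀ y, ‖h y‖ ≤ B) :
    ‖∫ y, h y * pweakM N θ ψ τ y‖ ≤ B * (C0 N θ * ∫ x, |ψ x|) := by
  obtain ⟨h1, h2⟩ := pweakMInt hc hτ hψ
  refine (norm_integral_le_integral_norm _).trans ?_
  calc (∫ y, ‖h y * pweakM N θ ψ τ y‖) ≤ ∫ y, B * ‖pweakM N θ ψ τ y‖ := by
        refine integral_mono_of_nonneg (Filter.Eventually.of_forall fun y => norm_nonneg _)
          (h1.norm.const_mul B) (Filter.Eventually.of_forall fun y => ?_)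
        show ‖h y * pweakM N θ ψ τ y‖ ≤ B * ‖pweakM N θ ψ τ y‖
        rw [norm_mul]
        exact mul_le_mul_of_nonneg_right (hB y) (norm_nonneg _)
    _ = B * ∫ y, ‖pweakM N θ ψ τ y‖ := integral_const_mul _ _
    _ ≤ _ := mul_le_mul_of_nonneg_left h2 hB0

private theorem pweakProd2 (hc : 0 < Real.cos θ) {ψ : E N → ℝ} (hψc : Continuous ψ)
    (hψ : Integrable ψ) {h : E N → ℂ} (hh : Continuous h) {B : ℝ} (hB0 : 0 ≤ B)
    (hB : ∀ y, ‖h y‖ ≤ B) (t : ℝ) :
    Integrable (fun p : ℝ × E N => h p.2 * pweakM N θ ψ p.1 p.2)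
      ((volume.restrict (Ioc 0 t)).prod volume) := by
  have hm : StronglyMeasurable (fun p : ℝ × E N => h p.2 * pweakM N θ ψ p.1 p.2) :=
    (hh.comp continuous_snd).stronglyMeasurable.mul (pweakMMeas hψc)
  rw [integrable_prod_iff hm.aestronglyMeasurable]
  constructor
  · rw [ae_restrict_iff' measurableSet_Ioc]
    refine Filter.Eventually.of_forall fun s hs => ?_
    exact (pweakMInt hc hs.1 hψ).1.bdd_mul (c := B) hh.aestronglyMeasurable
      (Filter.Eventually.of_forall hB)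
  · refine Measure.integrableOn_of_bounded (M := B * (C0 N θ * ∫ x, |ψ x|)) (by simp) ?_ ?_
    · exact (hm.norm.integral_prod_right').aestronglyMeasurable
    · rw [ae_restrict_iff' measurableSet_Ioc]
      refine Filter.Eventually.of_forall fun s hs => ?_
      obtain ⟨h1, h2⟩ := pweakMInt hc hs.1 hψ
      rw [Real.norm_eq_abs, abs_of_nonneg (integral_nonneg fun y => norm_nonneg _)]
      calc (∫ y, ‖h y * pweakM N θ ψ s y‖) ≤ ∫ y, B * ‖pweakM N θ ψ s y‖ := by
            refine integral_mono_of_nonneg (Filter.Eventually.of_forall fun y => norm_nonneg _)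
              (h1.norm.const_mul B) (Filter.Eventually.of_forall fun y => ?_)
            show ‖h y * pweakM N θ ψ s y‖ ≤ B * ‖pweakM N θ ψ s y‖
            rw [norm_mul]
            exact mul_le_mul_of_nonneg_right (hB y) (norm_nonneg _)
        _ = B * ∫ y, ‖pweakM N θ ψ s y‖ := integral_const_mul _ _
        _ ≤ _ := mul_le_mul_of_nonneg_left h2 hB0

private theorem pweakTestInt {φ : E N → ℝ} (hφ : Test φ) : Integrable φ :=
  hφ.s.continuous.integrable_of_hasCompactSupport hφ.k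

private theorem pweakC (hθ : 0 ≤ θ) (hθ' : θ < Real.pi / 2) {φ : E N → ℝ} (hφ : Test φ)
    {h : E N → ℂ} (hh : Continuous h) {B : ℝ} (hB0 : 0 ≤ B) (hB : ∀ y, ‖h y‖ ≤ B) {t : ℝ}
    (ht : 0 < t) :
    (∫ y, h y * pweakM N θ φ t y) = (∫ y, φ y • h y)
      + ph θ * ∫ s in (0:ℝ)..t, ∫ y, h y * pweakM N θ (lap φ) s y := by
  have hc := cos_pos_of hθ hθ'
  have hL := hφ.lap
  have hp := pweakProd2 hc hL.s.continuous (pweakTestInt hL) hh hB0 hB t
  have e1 : ∀ y, h y * pweakM N θ φ t y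
      = φ y • h y + ph θ * ∫ s in Ioc (0:ℝ) t, h y * pweakM N θ (lap φ) s y := by
    intro y
    have := ker_test hθ hθ' hφ ht y
    unfold pweakM
    rw [this, intervalIntegral.integral_of_le ht.le, integral_const_mul, Complex.real_smul]
    ring
  simp_rw [e1]
  rw [integral_add, integral_const_mul, intervalIntegral.integral_of_le ht.le]
  · congr 2
    exact (integral_integral_swap (f := fun (s : ℝ) (y : E N) => h y * pweakM N θ (lap φ) s y)
      hp).symm
  · exact ((hφ.s.continuous.smul hh).integrable_of_hasCompactSupport hφ.k.smul_right)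
  · exact hp.integral_prod_right.const_mul _

/-- triangle lemma. -/
private theorem pweakTri {q : ℝ → ℝ → ℂ} (hq : StronglyMeasurable (Function.uncurry q))
    {t B : ℝ} (ht : 0 < t) (hB : ∀ a ∈ Ioc (0:ℝ) t, ∀ b ∈ Icc (0:ℝ) t, ‖q a b‖ ≤ B) :
    IntervalIntegrable (fun s => ∫ r in (0:ℝ)..s, q (s - r) r) volume 0 t ∧
    IntervalIntegrable (fun s => ∫ r in (0:ℝ)..(t - s), q r s) volume 0 t ∧
    (∫ s in (0:ℝ)..t, ∫ r in (0:ℝ)..s, q (s - r) r)
      = ∫ s in (0:ℝ)..t, ∫ r in (0:ℝ)..(t - s), q r s := by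
  set S : Set (ℝ × ℝ) := {p | 0 < p.2 ∧ p.2 < p.1 ∧ p.1 ≤ t} with hS
  have hSm : MeasurableSet S := by
    have h1 : MeasurableSet {p : ℝ × ℝ | 0 < p.2} := measurableSet_lt measurable_const measurable_snd
    have h2 : MeasurableSet {p : ℝ × ℝ | p.2 < p.1} := measurableSet_lt measurable_snd measurable_fst
    have h3 : MeasurableSet {p : ℝ × ℝ | p.1 ≤ t} := measurableSet_le measurable_fst measurable_const
    exact h1.inter (h2.inter h3)
  have hqm : StronglyMeasurable (fun p : ℝ × ℝ => q (p.1 - p.2) p.2) :=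
    hq.comp_measurable (by fun_prop : Measurable (fun p : ℝ × ℝ => (p.1 - p.2, p.2)))
  have hSsub : S ⊆ Icc (0:ℝ) t ×ˢ Icc (0:ℝ) t := by
    rintro ⟨a, b⟩ ⟨h1, h2, h3⟩
    simp only at h1 h2 h3
    exact ⟨⟨(h1.trans h2).le, h3⟩, ⟨h1.le, h2.le.trans h3⟩⟩
  have hSfin : (volume.prod volume) S ≠ ⊤ := by
    refine ((measure_mono hSsub).trans_lt ?_).ne
    rw [Measure.prod_prod]
    exact ENNReal.mul_lt_top (by simp) (by simp)
  have hint : IntegrableOn (fun p : ℝ × ℝ => q (p.1 - p.2) p.2) S (volume.prod volume) := by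
    refine Measure.integrableOn_of_bounded (M := B) hSfin hqm.aestronglyMeasurable ?_
    rw [ae_restrict_iff' hSm]
    refine Filter.Eventually.of_forall fun p hp => ?_
    obtain ⟨h1, h2, h3⟩ := hp
    exact hB _ ⟨by linarith, by linarith⟩ _ ⟨h1.le, by linarith⟩
  set G : ℝ × ℝ → ℂ := S.indicator (fun p : ℝ × ℝ => q (p.1 - p.2) p.2) with hG
  have hGi : Integrable G (volume.prod volume) := (integrable_indicator_iff hSm).mpr hint
  have c1 : ∀ s ∈ Ioc (0:ℝ) t, (∫ r, G (s, r)) = ∫ r in (0:ℝ)..s, q (s - r) r := by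
    intro s hs
    rw [intervalIntegral.integral_of_le hs.1.le, integral_Ioc_eq_integral_Ioo,
      ← integral_indicator measurableSet_Ioo]
    congr 1; funext r
    by_cases h : r ∈ Ioo (0:ℝ) s
    · have : (s, r) ∈ S := ⟨h.1, h.2, hs.2⟩
      rw [hG, indicator_of_mem this, indicator_of_mem h]
    · have : (s, r) ∉ S := fun h' => h ⟨h'.1, h'.2.1⟩
      rw [hG, indicator_of_notMem this, indicator_of_notMem h]
  have c1' : ∀ s, s ∉ Ioc (0:ℝ) t → (∫ r, G (s, r)) = 0 := by
    intro s hs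
    have : (fun r => G (s, r)) = fun _ => 0 := by
      funext r
      rw [hG, indicator_of_notMem]
      rintro ⟨h1, h2, h3⟩
      exact hs ⟨h1.trans h2, h3⟩
    rw [this, integral_zero]
  have c2 : ∀ r ∈ Ioo (0:ℝ) t, (∫ s, G (s, r)) = ∫ a in (0:ℝ)..(t - r), q a r := by
    intro r hr
    have e : (∫ a in (0:ℝ)..(t - r), q a r) = ∫ s in r..t, q (s - r) r := by
      rw [intervalIntegral.integral_comp_sub_right (fun a => q a r) r, sub_self]
    rw [e, intervalIntegral.integral_of_le hr.2.le, ← integral_indicator measurableSet_Ioc]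
    congr 1; funext s
    by_cases h : s ∈ Ioc r t
    · have : (s, r) ∈ S := ⟨hr.1, h.1, h.2⟩
      rw [hG, indicator_of_mem this, indicator_of_mem h]
    · have : (s, r) ∉ S := fun h' => h ⟨h'.2.1, h'.2.2⟩
      rw [hG, indicator_of_notMem this, indicator_of_notMem h]
  have c2' : ∀ r, r ∉ Ioo (0:ℝ) t → (∫ s, G (s, r)) = 0 := by
    intro r hr
    have : (fun s => G (s, r)) = fun _ => 0 := by
      funext s
      rw [hG, indicator_of_notMem]
      rintro ⟨h1, h2, h3⟩
      exact hr ⟨h1, h2.trans_le h3⟩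
    rw [this, integral_zero]
  have i1 : Integrable (fun s => ∫ r, G (s, r)) := hGi.integral_prod_left
  have i2 : Integrable (fun r => ∫ s, G (s, r)) := hGi.integral_prod_right
  have j1 : (∫ s, ∫ r, G (s, r)) = ∫ s in (0:ℝ)..t, ∫ r in (0:ℝ)..s, q (s - r) r := by
    rw [intervalIntegral.integral_of_le ht.le, ← integral_indicator measurableSet_Ioc]
    congr 1; funext s
    by_cases h : s ∈ Ioc (0:ℝ) t
    · rw [indicator_of_mem h, c1 s h]
    · rw [indicator_of_notMem h, c1' s h]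
  have j2 : (∫ r, ∫ s, G (s, r)) = ∫ r in (0:ℝ)..t, ∫ a in (0:ℝ)..(t - r), q a r := by
    rw [intervalIntegral.integral_of_le ht.le, integral_Ioc_eq_integral_Ioo,
      ← integral_indicator measurableSet_Ioo]
    congr 1; funext s
    by_cases h : s ∈ Ioo (0:ℝ) t
    · rw [indicator_of_mem h, c2 s h]
    · rw [indicator_of_notMem h, c2' s h]
  refine ⟨?_, ?_, ?_⟩
  · rw [intervalIntegrable_iff_integrableOn_Ioc_of_le ht.le]
    exact (i1.integrableOn (s := Ioc (0:ℝ) t)).congr_fun c1 measurableSet_Ioc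
  · rw [intervalIntegrable_iff_integrableOn_Ioo_of_le ht.le]
    exact (i2.integrableOn (s := Ioo (0:ℝ) t)).congr_fun c2 measurableSet_Ioo
  · rw [← j1, ← j2]
    exact integral_integral_swap (f := fun (s r : ℝ) => G (s, r)) hGi

/-- space-time duality. -/
private theorem pweakD (hc : 0 < Real.cos θ) {ψ : E N → ℝ} (hψ : Test ψ)
    {g : ℝ → E N → ℂ} (hg : Continuous (Function.uncurry g)) {t B : ℝ} (ht : 0 < t)
    (hB0 : 0 ≤ B) (hB : ∀ s ∈ Icc (0:ℝ) t, ∀ y, ‖g s y‖ ≤ B) :
    (∫ x, ψ x • ∫ s in (0:ℝ)..t, ∫ y, ker N θ (t - s) (x - y) * g s y)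
      = ∫ s in (0:ℝ)..t, ∫ y, g s y * pweakM N θ ψ (t - s) y := by
  have hψi := pweakTestInt hψ
  have hgs : ∀ s, Continuous (g s) := fun s => hg.comp (continuous_const.prodMk continuous_id)
  have hVm : StronglyMeasurable (fun p : ℝ × E N => ∫ y, ker N θ (t - p.1) (p.2 - y) * g p.1 y) := by
    have h : Measurable (fun q : (ℝ × E N) × E N =>
        ker N θ (t - q.1.1) (q.1.2 - q.2) * g q.1.1 q.2) := by
      have h1 : Measurable (fun q : (ℝ × E N) × E N => ker N θ (t - q.1.1) (q.1.2 - q.2)) :=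
        (pweakKerMeas N θ).comp (by fun_prop : Measurable
          (fun q : (ℝ × E N) × E N => (t - q.1.1, q.1.2 - q.2)))
      have h2 : Measurable (fun q : (ℝ × E N) × E N => g q.1.1 q.2) :=
        hg.measurable.comp (by fun_prop : Measurable
          (fun q : (ℝ × E N) × E N => (q.1.1, q.2)))
      exact h1.mul h2
    exact h.stronglyMeasurable.integral_prod_right'
  have hVb : ∀ s ∈ Ioo (0:ℝ) t, ∀ x, ‖∫ y, ker N θ (t - s) (x - y) * g s y‖ ≤ C0 N θ * B := by
    intro s hs x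
    have hts : 0 < t - s := by linarith [hs.2]
    refine (norm_integral_le_integral_norm _).trans ?_
    have hki : Integrable (fun y => ‖ker N θ (t - s) (x - y)‖) :=
      ((ker_integrable (N := N) hc hts).comp_sub_left x).norm
    calc (∫ y, ‖ker N θ (t - s) (x - y) * g s y‖)
        ≤ ∫ y, ‖ker N θ (t - s) (x - y)‖ * B := by
          refine integral_mono_of_nonneg (Filter.Eventually.of_forall fun y => norm_nonneg _)
            (hki.mul_const B) (Filter.Eventually.of_forall fun y => ?_)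
          show ‖ker N θ (t - s) (x - y) * g s y‖ ≤ ‖ker N θ (t - s) (x - y)‖ * B
          rw [norm_mul]
          exact mul_le_mul_of_nonneg_left (hB s ⟨hs.1.le, hs.2.le⟩ y) (norm_nonneg _)
      _ = C0 N θ * B := by
          rw [integral_mul_const]
          congr 1
          rw [← pweakKerL1 (N := N) hc hts x]
          congr 1; funext y
          rw [show x - y = -(y - x) by abel, ker_neg]
  have hprod : Integrable (fun p : ℝ × E N =>
      ψ p.2 • ∫ y, ker N θ (t - p.1) (p.2 - y) * g p.1 y)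
      ((volume.restrict (Ioo 0 t)).prod volume) := by
    have hm : StronglyMeasurable (fun p : ℝ × E N =>
        ψ p.2 • ∫ y, ker N θ (t - p.1) (p.2 - y) * g p.1 y) :=
      (hψ.s.continuous.comp continuous_snd).stronglyMeasurable.smul hVm
    have hpt : ∀ s ∈ Ioo (0:ℝ) t, ∀ x, ‖ψ x • ∫ y, ker N θ (t - s) (x - y) * g s y‖
        ≤ ‖ψ x‖ * (C0 N θ * B) := by
      intro s hs x
      rw [norm_smul]
      exact mul_le_mul_of_nonneg_left (hVb s hs x) (norm_nonneg _)
    rw [integrable_prod_iff hm.aestronglyMeasurable]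
    constructor
    · rw [ae_restrict_iff' measurableSet_Ioo]
      refine Filter.Eventually.of_forall fun s hs => ?_
      refine (hψi.norm.mul_const (C0 N θ * B)).mono'
        (hm.comp_measurable (by fun_prop : Measurable
          (fun x : E N => ((s, x) : ℝ × E N)))).aestronglyMeasurable ?_
      exact Filter.Eventually.of_forall fun x => hpt s hs x
    · refine Measure.integrableOn_of_bounded (M := (∫ x, ‖ψ x‖) * (C0 N θ * B)) (by simp) ?_ ?_
      · exact (hm.norm.integral_prod_right').aestronglyMeasurable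
      · rw [ae_restrict_iff' measurableSet_Ioo]
        refine Filter.Eventually.of_forall fun s hs => ?_
        rw [Real.norm_eq_abs, abs_of_nonneg (integral_nonneg fun y => norm_nonneg _)]
        rw [← integral_mul_const]
        refine integral_mono_of_nonneg (Filter.Eventually.of_forall fun y => norm_nonneg _)
          (hψi.norm.mul_const _) (Filter.Eventually.of_forall fun x => hpt s hs x)
  have e1 : (∫ x, ψ x • ∫ s in (0:ℝ)..t, ∫ y, ker N θ (t - s) (x - y) * g s y)
      = ∫ x, ∫ s in Ioo (0:ℝ) t, ψ x • ∫ y, ker N θ (t - s) (x - y) * g s y := by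
    congr 1; funext x
    rw [intervalIntegral.integral_of_le ht.le, integral_Ioc_eq_integral_Ioo, integral_smul]
  rw [e1, ← integral_integral_swap (f := fun (s : ℝ) (x : E N) =>
    ψ x • ∫ y, ker N θ (t - s) (x - y) * g s y) hprod,
    intervalIntegral.integral_of_le ht.le, integral_Ioc_eq_integral_Ioo]
  refine setIntegral_congr_fun measurableSet_Ioo fun s hs => ?_
  exact pweakA hc (by linarith [hs.2]) hψi (hgs s) (hB s ⟨hs.1.le, hs.2.le⟩)

private theorem pweakU {u0 : ZeroAtInftyContinuousMap (E N) ℂ}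
    {u : ℝ → ZeroAtInftyContinuousMap (E N) ℂ} (hu : IsGlobalMild N α θ γ u0 u) :
    Continuous (Function.uncurry (fun (t : ℝ) (y : E N) => u (max t 0) y)) := by
  have h1 : Continuous (fun t => u (max t 0)) := by
    have h := hu.cont
    rw [← continuousOn_univ]
    refine h.comp (by fun_prop) ?_
    intro t _
    exact le_max_right t (0:ℝ)
  have h2 : Continuous (fun t => (u (max t 0)).toBCF) :=
    ZeroAtInftyContinuousMap.isometry_toBCF.continuous.comp h1
  exact continuous_eval.comp ((h2.comp continuous_fst).prodMk continuous_snd)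

private theorem pweakInnerCont {φ : E N → ℝ} (hφ : Test φ) {g : ℝ → E N → ℂ}
    (hg : Continuous (Function.uncurry g)) : Continuous (fun s => ∫ y, φ y • g s y) := by
  have h1 : (fun s => ∫ y, φ y • g s y) = fun s => ∫ y in tsupport φ, φ y • g s y := by
    funext s
    rw [setIntegral_eq_integral_of_forall_compl_eq_zero]
    intro z hz
    rw [image_eq_zero_of_notMem_tsupport hz, zero_smul]
  rw [h1]
  refine continuous_parametric_integral_of_continuous
    (f := fun (s : ℝ) (y : E N) => φ y • g s y) ?_ hφ.k.isCompact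
  exact (hφ.s.continuous.comp continuous_snd).smul hg

private theorem pweakRhsCont (hα : 0 < α) : Continuous (rhs α θ γ) := by
  unfold rhs
  exact (continuous_const.mul (nl_cont hα)).add (continuous_const.mul continuous_id)

private theorem pweakTested (hc : 0 < Real.cos θ) {ψ : E N → ℝ} (hψ : Test ψ)
    {U0 V : E N → ℂ} (hU0 : Continuous U0) (hV : Continuous V) {B1 : ℝ}
    (hU0b : ∀ y, ‖U0 y‖ ≤ B1) {g : ℝ → E N → ℂ} (hgc : Continuous (Function.uncurry g))
    {s B : ℝ} (hs : 0 < s) (hB0 : 0 ≤ B) (hgb : ∀ r ∈ Icc (0:ℝ) s, ∀ y, ‖g r y‖ ≤ B)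
    (hd : ∀ x, V x = (∫ y, ker N θ s (x - y) * U0 y)
      + ∫ r in (0:ℝ)..s, ∫ y, ker N θ (s - r) (x - y) * g r y) :
    (∫ y, ψ y • V y) = (∫ y, U0 y * pweakM N θ ψ s y)
        + ∫ r in (0:ℝ)..s, ∫ y, g r y * pweakM N θ ψ (s - r) y := by
  have hψi := pweakTestInt hψ
  rw [← pweakD hc hψ hgc hs hB0 hgb, ← pweakA hc hs hψi hU0 hU0b]
  have e1 : ∀ x, ψ x • V x = ψ x • (∫ y, ker N θ s (x - y) * U0 y)
      + ψ x • ∫ r in (0:ℝ)..s, ∫ y, ker N θ (s - r) (x - y) * g r y := by
    intro x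
    rw [hd x, smul_add]
  have iA : Integrable (fun x => ψ x • ∫ y, ker N θ s (x - y) * U0 y) := by
    have hp := pweakProd (N := N) hc hs hψi
    have hp2 : Integrable (fun p : E N × E N => U0 p.1 * (ker N θ s (p.1 - p.2) * (ψ p.2 : ℂ)))
        (volume.prod volume) :=
      hp.bdd_mul (c := B1) ((hU0.comp continuous_fst).aestronglyMeasurable)
        (Filter.Eventually.of_forall fun p => hU0b p.1)
    refine hp2.integral_prod_right.congr (Filter.Eventually.of_forall fun x => ?_)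
    show (∫ y, U0 y * (ker N θ s (y - x) * (ψ x : ℂ))) = ψ x • ∫ y, ker N θ s (x - y) * U0 y
    rw [← integral_smul]
    congr 1; funext y
    rw [show x - y = -(y - x) by abel, ker_neg, Complex.real_smul]
    ring
  have iS : Integrable (fun x => ψ x • V x) :=
    ((hψ.s.continuous.smul hV).integrable_of_hasCompactSupport hψ.k.smul_right)
  have iB : Integrable (fun x => ψ x • ∫ r in (0:ℝ)..s, ∫ y, ker N θ (s - r) (x - y) * g r y) := by
    refine (iS.sub iA).congr (Filter.Eventually.of_forall fun x => ?_)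
    show ψ x • V x - ψ x • (∫ y, ker N θ s (x - y) * U0 y) = _
    rw [e1 x]; ring
  rw [← integral_add iA iB]
  congr 1; funext x
  exact e1 x

private theorem pweakQm {g : ℝ → E N → ℂ} (hgc : Continuous (Function.uncurry g))
    {ψ : E N → ℝ} (hψ : Continuous ψ) :
    StronglyMeasurable (Function.uncurry
      (fun a b : ℝ => ∫ y, g b y * pweakM N θ ψ a y)) := by
  have h : StronglyMeasurable (fun p : (ℝ × ℝ) × E N =>
      g p.1.2 p.2 * pweakM N θ ψ p.1.1 p.2) := by
    have h1 : StronglyMeasurable (fun p : (ℝ × ℝ) × E N => g p.1.2 p.2) :=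
      (hgc.comp (by fun_prop : Continuous (fun p : (ℝ × ℝ) × E N => (p.1.2, p.2)))).stronglyMeasurable
    have h2 : StronglyMeasurable (fun p : (ℝ × ℝ) × E N => pweakM N θ ψ p.1.1 p.2) :=
      (pweakMMeas (N := N) (θ := θ) hψ).comp_measurable
        (by fun_prop : Measurable (fun p : (ℝ × ℝ) × E N => (p.1.1, p.2)))
    exact h1.mul h2
  exact h.integral_prod_right'

private theorem pweakGen (hθ : 0 ≤ θ) (hθ' : θ < Real.pi / 2) {φ : E N → ℝ} (hφ : Test φ)
    {U : ℝ → E N → ℂ} (hU : Continuous (Function.uncurry U)) {B1 : ℝ} (hB1 : 0 ≤ B1)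
    (hU0b : ∀ y, ‖U 0 y‖ ≤ B1) {g : ℝ → E N → ℂ} (hgc : Continuous (Function.uncurry g))
    {t B : ℝ} (ht : 0 < t) (hB0 : 0 ≤ B) (hgb : ∀ r ∈ Icc (0:ℝ) t, ∀ y, ‖g r y‖ ≤ B)
    (hd : ∀ s ∈ Ioc (0:ℝ) t, ∀ x, U s x = (∫ y, ker N θ s (x - y) * U 0 y)
      + ∫ r in (0:ℝ)..s, ∫ y, ker N θ (s - r) (x - y) * g r y) :
    (∫ y, φ y • U t y) = (∫ y, φ y • U 0 y)
      + (ph θ * (∫ s in (0:ℝ)..t, ∫ y, lap φ y • U s y)
        + ∫ s in (0:ℝ)..t, ∫ y, φ y • g s y) := by
  have hc := cos_pos_of hθ hθ'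
  have hgs : ∀ s, Continuous (g s) := fun s => hgc.comp (continuous_const.prodMk continuous_id)
  have hUs : ∀ s, Continuous (U s) := fun s => hU.comp (continuous_const.prodMk continuous_id)
  have tested : ∀ (ψ : E N → ℝ), Test ψ → ∀ s ∈ Ioc (0:ℝ) t,
      (∫ y, ψ y • U s y) = (∫ y, U 0 y * pweakM N θ ψ s y)
        + ∫ r in (0:ℝ)..s, ∫ y, g r y * pweakM N θ ψ (s - r) y := by
    intro ψ hψ s hs
    exact pweakTested hc hψ (hUs 0) (hUs s) hU0b hgc hs.1 hB0
      (fun r hr => hgb r ⟨hr.1, hr.2.trans hs.2⟩) (hd s hs)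
  have hL := hφ.lap
  have hLi := pweakTestInt hL
  have hqm := pweakQm (θ := θ) hgc hL.s.continuous
  obtain ⟨t1, t2, t3⟩ := pweakTri hqm ht (fun a ha b hb =>
    pweakQbd hc ha.1 hLi hB0 (hgb b hb))
  have hq0i : IntervalIntegrable (fun s => ∫ y, U 0 y * pweakM N θ (lap φ) s y) volume 0 t := by
    rw [intervalIntegrable_iff_integrableOn_Ioc_of_le ht.le]
    exact (pweakProd2 hc hL.s.continuous hLi (hUs 0) hB1 hU0b t).integral_prod_left
  have hac : Continuous (fun s => ∫ y, φ y • g s y) := pweakInnerCont hφ hgc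
  have L1 : (∫ s in (0:ℝ)..t, ∫ y, g s y * pweakM N θ φ (t - s) y)
      = (∫ s in (0:ℝ)..t, ∫ y, φ y • g s y)
        + ph θ * ∫ s in (0:ℝ)..t, ∫ r in (0:ℝ)..(t - s), ∫ y, g s y * pweakM N θ (lap φ) r y := by
    rw [← intervalIntegral.integral_const_mul, ← intervalIntegral.integral_add
      (hac.intervalIntegrable _ _) (t2.const_mul _)]
    rw [intervalIntegral.integral_of_le ht.le, intervalIntegral.integral_of_le ht.le,
      integral_Ioc_eq_integral_Ioo, integral_Ioc_eq_integral_Ioo]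
    refine setIntegral_congr_fun measurableSet_Ioo fun s hs => ?_
    exact pweakC hθ hθ' hφ (hgs s) hB0 (hgb s ⟨hs.1.le, hs.2.le⟩) (by linarith [hs.2])
  have R2 : (∫ s in (0:ℝ)..t, ∫ y, lap φ y • U s y)
      = (∫ s in (0:ℝ)..t, ∫ y, U 0 y * pweakM N θ (lap φ) s y)
        + ∫ s in (0:ℝ)..t, ∫ r in (0:ℝ)..s, ∫ y, g r y * pweakM N θ (lap φ) (s - r) y := by
    rw [← intervalIntegral.integral_add hq0i t1]
    rw [intervalIntegral.integral_of_le ht.le, intervalIntegral.integral_of_le ht.le]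
    exact setIntegral_congr_fun measurableSet_Ioc fun s hs => tested (lap φ) hL s hs
  rw [tested φ hφ t ⟨ht, le_refl _⟩, pweakC hθ hθ' hφ (hUs 0) hB1 hU0b ht, L1, R2, t3]
  ring

theorem weak_mild (hα : 0 < α) (hθ : 0 ≤ θ) (hθ' : θ < Real.pi / 2) {u0 : ZeroAtInftyContinuousMap (E N) ℂ}
    {u : ℝ → ZeroAtInftyContinuousMap (E N) ℂ} (hu : IsGlobalMild N α θ γ u0 u)
    {φ : E N → ℝ} (hφ : Test φ) {t : ℝ} (ht : 0 ≤ t) :
    (∫ y, φ y • u t y) = (∫ y, φ y • u0 y)
      + ∫ s in (0:ℝ)..t, (ph θ * (∫ y, lap φ y • u s y) + ∫ y, φ y • rhs α θ γ (u s y)) := by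
  rcases eq_or_lt_of_le ht with h0 | h0
  · rw [← h0, hu.init]; simp
  have hUc := pweakU hu
  have hgc : Continuous (Function.uncurry
      (fun (s : ℝ) (y : E N) => rhs α θ γ (u (max s 0) y))) := (pweakRhsCont hα).comp hUc
  obtain ⟨B1, hB1⟩ := isCompact_Icc.exists_bound_of_continuousOn
    (hu.cont.mono (Icc_subset_Ici_self : Icc (0:ℝ) t ⊆ Ici 0))
  have hB10 : 0 ≤ B1 := (norm_nonneg _).trans (hB1 0 ⟨le_refl _, h0.le⟩)
  have hub : ∀ s ∈ Icc (0:ℝ) t, ∀ y, ‖u s y‖ ≤ B1 := fun s hs y =>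
    ((u s).toBCF.norm_coe_le_norm y).trans (hB1 s hs)
  have hgb : ∀ s ∈ Icc (0:ℝ) t, ∀ y, ‖rhs α θ γ (u (max s 0) y)‖
      ≤ ‖ph θ‖ * (B1 ^ α * B1) + ‖(γ : ℂ)‖ * B1 := by
    intro s hs y
    have h1 := hub s hs y
    rw [max_eq_left hs.1]
    unfold rhs
    refine (norm_add_le _ _).trans ?_
    rw [norm_mul, norm_mul, nl_norm]
    have h2 : ‖u s y‖ ^ α ≤ B1 ^ α := Real.rpow_le_rpow (norm_nonneg _) h1 hα.le
    gcongr
  have hm0 : max (0:ℝ) 0 = 0 := max_self _
  have key := pweakGen (U := fun (s : ℝ) (y : E N) => u (max s 0) y)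
    (g := fun (s : ℝ) (y : E N) => rhs α θ γ (u (max s 0) y)) hθ hθ' hφ hUc hB10
    (by intro y; rw [hm0]; exact hub 0 ⟨le_refl _, h0.le⟩ y) hgc h0 (by positivity) hgb
    (by
      intro s hs x
      rw [max_eq_left hs.1.le, hm0, hu.duhamel s hs.1 x, hu.init]
      congr 1
      refine intervalIntegral.integral_congr fun r hr => ?_
      rw [uIcc_of_le hs.1.le] at hr
      show (∫ y, ker N θ (s - r) (x - y) * (ph θ * nl α (u r y) + (γ : ℂ) * u r y))
        = ∫ y, ker N θ (s - r) (x - y) * rhs α θ γ (u (max r 0) y)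
      rw [max_eq_left hr.1]
      rfl)
  simp only [hm0, hu.init, max_eq_left h0.le] at key
  rw [key]
  congr 1
  have hac := pweakInnerCont hφ hgc
  have hbc := pweakInnerCont hφ.lap hUc
  rw [← intervalIntegral.integral_const_mul, ← intervalIntegral.integral_add
      ((hbc.intervalIntegrable _ _).const_mul _) (hac.intervalIntegrable _ _)]
  refine intervalIntegral.integral_congr fun s hs => ?_
  rw [uIcc_of_le h0.le] at hs
  show ph θ * (∫ y, lap φ y • u (max s 0) y) + (∫ y, φ y • rhs α θ γ (u (max s 0) y))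
    = ph θ * (∫ y, lap φ y • u s y) + ∫ y, φ y • rhs α θ γ (u s y)
  rw [max_eq_left hs.1]

/-- time derivative of `∫ φ v`. -/
theorem weak_deriv (hα : 0 < α) (hθ : 0 ≤ θ) (hθ' : θ < Real.pi / 2) {u0 : ZeroAtInftyContinuousMap (E N) ℂ}
    {u : ℝ → ZeroAtInftyContinuousMap (E N) ℂ} (hu : IsGlobalMild N α θ γ u0 u)
    {φ : E N → ℝ} (hφ : Test φ) {t : ℝ} (ht : 0 < t) :
    HasDerivAt (fun s => ∫ y, φ y • vv γ u s y)
      (ph θ * ((∫ y, lap φ y • vv γ u t y) + ∫ y, φ y • ff α γ u t y)) t := by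
  have hUc := pweakU hu
  have hL := hφ.lap
  have hgc : Continuous (Function.uncurry
      (fun (s : ℝ) (y : E N) => rhs α θ γ (u (max s 0) y))) := (pweakRhsCont hα).comp hUc
  have hac := pweakInnerCont hφ hgc
  have hbc := pweakInnerCont hL hUc
  set F : ℝ → ℂ := fun s => ph θ * (∫ y, lap φ y • u (max s 0) y)
    + ∫ y, φ y • rhs α θ γ (u (max s 0) y) with hF
  have hFc : Continuous F := (continuous_const.mul hbc).add hac
  have hI : ∀ s, 0 ≤ s → (∫ y, φ y • u (max s 0) y)
      = (∫ y, φ y • u0 y) + ∫ r in (0:ℝ)..s, F r := by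
    intro s hs
    rw [max_eq_left hs, weak_mild hα hθ hθ' hu hφ hs]
    congr 1
    refine intervalIntegral.integral_congr fun r hr => ?_
    rw [uIcc_of_le hs] at hr
    show ph θ * (∫ y, lap φ y • u r y) + (∫ y, φ y • rhs α θ γ (u r y))
      = ph θ * (∫ y, lap φ y • u (max r 0) y) + ∫ y, φ y • rhs α θ γ (u (max r 0) y)
    rw [max_eq_left hr.1]
  have hd1 : HasDerivAt (fun s => ∫ y, φ y • u (max s 0) y) (F t) t := by
    have h1 : HasDerivAt (fun s => (∫ y, φ y • u0 y) + ∫ r in (0:ℝ)..s, F r) (F t) t :=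
      (intervalIntegral.integral_hasDerivAt_right (hFc.intervalIntegrable _ _)
        (hFc.stronglyMeasurableAtFilter _ _) hFc.continuousAt).const_add _
    refine h1.congr_of_eventuallyEq ?_
    filter_upwards [lt_mem_nhds ht] with s hs
    exact hI s hs.le
  have hd2 : HasDerivAt (fun s : ℝ => ((Real.exp (-(γ * s)) : ℝ) : ℂ))
      (((Real.exp (-(γ * t)) * (-γ) : ℝ)) : ℂ) t := by
    have h1 : HasDerivAt (fun s : ℝ => Real.exp (-(γ * s))) (Real.exp (-(γ * t)) * (-γ)) t := by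
      have h2 : HasDerivAt (fun s : ℝ => -(γ * s)) (-γ) t := by
        have h3 : HasDerivAt (fun s : ℝ => (-γ) * s) (-γ) t := by
          simpa using (hasDerivAt_id t).const_mul (-γ)
        have e : (fun s : ℝ => -(γ * s)) = fun s => (-γ) * s := by funext s; ring
        rw [e]; exact h3
      exact h2.exp
    exact h1.ofReal_comp
  have hd := hd2.mul hd1
  have e0 : (fun s => ∫ y, φ y • vv γ u s y)
      = (fun s : ℝ => ((Real.exp (-(γ * s)) : ℝ) : ℂ)) * fun s => ∫ y, φ y • u (max s 0) y := by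
    funext s
    show (∫ y, φ y • (((Real.exp (-(γ * s)) : ℝ) : ℂ) * u (max s 0) y))
      = ((Real.exp (-(γ * s)) : ℝ) : ℂ) * ∫ y, φ y • u (max s 0) y
    rw [← integral_const_mul]
    congr 1; funext y
    rw [mul_smul_comm]
  rw [e0]
  refine hd.congr_deriv ?_
  have iu : Integrable (fun y => φ y • u (max t 0) y) :=
    ((hφ.s.continuous.smul (u (max t 0)).continuous).integrable_of_hasCompactSupport
      hφ.k.smul_right)
  have inl : Integrable (fun y => φ y • nl α (u (max t 0) y)) :=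
    ((hφ.s.continuous.smul ((nl_cont hα).comp (u (max t 0)).continuous)).integrable_of_hasCompactSupport
      hφ.k.smul_right)
  have a1 : (∫ y, lap φ y • vv γ u t y)
      = ((Real.exp (-(γ * t)) : ℝ) : ℂ) * ∫ y, lap φ y • u (max t 0) y := by
    rw [← integral_const_mul]
    congr 1; funext y
    unfold vv
    rw [mul_smul_comm]
  have a2 : (∫ y, φ y • ff α γ u t y)
      = ((Real.exp (-(γ * t)) : ℝ) : ℂ) * ∫ y, φ y • nl α (u (max t 0) y) := by
    rw [← integral_const_mul]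
    congr 1; funext y
    have e1 : ff α γ u t y = ((Real.exp (-(γ * t)) : ℝ) : ℂ) * nl α (u (max t 0) y) := by
      unfold ff vv nl
      rw [norm_mul, Complex.norm_real, Real.norm_eq_abs, abs_of_pos (Real.exp_pos _),
        Real.mul_rpow (Real.exp_pos _).le (norm_nonneg _), ← Real.exp_mul]
      push_cast
      have e2 : (Complex.exp (α * γ * t)) * Complex.exp (-(γ * t) * α) = 1 := by
        rw [← Complex.exp_add]
        convert Complex.exp_zero using 2
        ring
      calc Complex.exp (α * γ * t) * (Complex.exp (-(γ * t) * α) * (((‖u (max t 0) y‖ ^ α : ℝ)) : ℂ)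
            * (Complex.exp (-(γ * t)) * u (max t 0) y))
          = (Complex.exp (α * γ * t) * Complex.exp (-(γ * t) * α)) *
            ((((‖u (max t 0) y‖ ^ α : ℝ)) : ℂ) * (Complex.exp (-(γ * t)) * u (max t 0) y)) := by ring
        _ = _ := by rw [e2]; ring
    rw [e1, mul_smul_comm]
  have a3 : (∫ y, φ y • rhs α θ γ (u (max t 0) y))
      = ph θ * (∫ y, φ y • nl α (u (max t 0) y)) + (γ : ℂ) * ∫ y, φ y • u (max t 0) y := by
    rw [← integral_const_mul, ← integral_const_mul, ← integral_add (inl.const_mul _)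
      (iu.const_mul _)]
    congr 1; funext y
    unfold rhs
    rw [smul_add, mul_smul_comm, mul_smul_comm]
  rw [a1, a2]
  show _ + ((Real.exp (-(γ * t)) : ℝ) : ℂ) * (ph θ * (∫ y, lap φ y • u (max t 0) y)
    + ∫ y, φ y • rhs α θ γ (u (max t 0) y)) = _
  rw [a3]
  push_cast
  ring
end CGL
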