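import Pool.Agent.CGL.STool
/-! SBAD: measure of the bad sets -/
open MeasureTheory Set Filter Topology
namespace CGL

/-- a bounded smooth cutoff -/
lemma sbad_theta : ∃ L : ℝ, 0 < L ∧ (∀ u, |deriv Real.smoothTransition u| ≤ L) ∧
    (∀ u, u ≤ 0 → deriv Real.smoothTransition u = 0) ∧
    (∀ u, 1 ≤ u → deriv Real.smoothTransition u = 0) := by
  have hc : Continuous (deriv Real.smoothTransition) :=
    (Real.smoothTransition.contDiff (n := 1)).continuous_deriv le_rfl
  have h0 : ∀ u, u ≤ 0 → deriv Real.smoothTransition u = 0 := by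
    have h1 : Iio (0 : ℝ) ⊆ {u | deriv Real.smoothTransition u = 0} := by
      intro u hu
      have : Real.smoothTransition =ᶠ[𝓝 u] fun _ => (0 : ℝ) := by
        filter_upwards [Iio_mem_nhds hu] with v hv
        exact Real.smoothTransition.zero_of_nonpos (le_of_lt hv)
      simp only [mem_ofPred_eq]
      rw [this.deriv_eq, deriv_const]
    have h2 : IsClosed {u | deriv Real.smoothTransition u = 0} := isClosed_eq hc continuous_const
    have h3 := h2.closure_subset_iff.2 h1
    rw [closure_Iio] at h3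
    exact fun u hu => h3 hu
  have h1 : ∀ u, 1 ≤ u → deriv Real.smoothTransition u = 0 := by
    have h1 : Ioi (1 : ℝ) ⊆ {u | deriv Real.smoothTransition u = 0} := by
      intro u hu
      have : Real.smoothTransition =ᶠ[𝓝 u] fun _ => (1 : ℝ) := by
        filter_upwards [Ioi_mem_nhds hu] with v hv
        exact Real.smoothTransition.one_of_one_le (le_of_lt hv)
      simp only [mem_ofPred_eq]
      rw [this.deriv_eq, deriv_const]
    have h2 : IsClosed {u | deriv Real.smoothTransition u = 0} := isClosed_eq hc continuous_const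
    have h3 := h2.closure_subset_iff.2 h1
    rw [closure_Ioi] at h3
    exact fun u hu => h3 hu
  obtain ⟨L, hL⟩ := isCompact_Icc.exists_bound_of_continuousOn (s := Icc (0 : ℝ) 1)
    hc.continuousOn
  refine ⟨max L 1, lt_of_lt_of_le one_pos (le_max_right _ _), fun u => ?_, h0, h1⟩
  by_cases h2 : u ∈ Icc (0 : ℝ) 1
  · exact (hL u h2).trans (le_max_left _ _)
  · have h3 : deriv Real.smoothTransition u = 0 := by
      rcases lt_or_ge u 0 with h | h
      · exact h0 u h.le
      · apply h1
        by_contra h4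
        exact h2 ⟨h, (not_le.1 h4).le⟩
    rw [h3, abs_zero]
    exact le_trans zero_le_one (le_max_right _ _)

/-- the cutoff of `w` -/
noncomputable def sbadW {N : ℕ} (w : E N → ℂ) (h : ℝ) (x : E N) : ℝ :=
  Real.smoothTransition ((‖w x‖ ^ 2 - h ^ 2 / 4) / (3 * h ^ 2 / 4))

section
variable {N : ℕ} {w : E N → ℂ} {h : ℝ}

lemma sbadW_c1 (hw : ContDiff ℝ 1 w) : ContDiff ℝ 1 (sbadW w h) := by
  unfold sbadW
  apply Real.smoothTransition.contDiff.comp
  apply ContDiff.div_const
  exact (hw.norm_sq ℝ).sub contDiff_const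

lemma sbadW_one (hh : 0 < h) {x : E N} (hx : h ≤ ‖w x‖) : sbadW w h x = 1 := by
  apply Real.smoothTransition.one_of_one_le
  rw [le_div_iff₀ (by positivity)]
  nlinarith

lemma sbadW_zero (hh : 0 < h) {x : E N} (hx : ‖w x‖ < h / 2) : sbadW w h x = 0 := by
  apply Real.smoothTransition.zero_of_nonpos
  apply div_nonpos_of_nonpos_of_nonneg _ (by positivity)
  nlinarith [norm_nonneg (w x)]

/-- derivative bound -/
lemma sbadW_deriv {L : ℝ} (hL : ∀ u, |deriv Real.smoothTransition u| ≤ L)
    (hL0 : ∀ u, u ≤ 0 → deriv Real.smoothTransition u = 0)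
    (hL1 : ∀ u, 1 ≤ u → deriv Real.smoothTransition u = 0) (hLp : 0 < L)
    (hw : ContDiff ℝ 1 w) (hh : 0 < h) (x z : E N) :
    |fderiv ℝ (sbadW w h) x z| ^ 2 ≤
      ({x | h / 2 < ‖w x‖ ∧ ‖w x‖ < h} : Set (E N)).indicator
        (fun x => (8 * L / (3 * h)) ^ 2 * (gsq w x * ‖z‖ ^ 2)) x := by
  obtain ⟨g, hg⟩ : ∃ g : E N → ℝ, g = fun x => (‖w x‖ ^ 2 - h ^ 2 / 4) / (3 * h ^ 2 / 4) :=
    ⟨_, rfl⟩
  have hwd : HasFDerivAt w (fderiv ℝ w x) x := (hw.differentiable (by norm_num) x).hasFDerivAt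
  have hgd : HasFDerivAt g ((3 * h ^ 2 / 4)⁻¹ • (2 • (innerSL ℝ (w x)).comp (fderiv ℝ w x))) x := by
    rw [hg]
    have h1 := (hwd.norm_sq).sub_const (h ^ 2 / 4)
    have h2 := h1.mul_const ((3 * h ^ 2 / 4)⁻¹)
    simpa only [div_eq_mul_inv] using h2
  have hθ : HasDerivAt Real.smoothTransition (deriv Real.smoothTransition (g x)) (g x) :=
    ((Real.smoothTransition.contDiff (n := 1)).differentiable (by norm_num) _).hasDerivAt
  have hW : HasFDerivAt (sbadW w h) (deriv Real.smoothTransition (g x) •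
      ((3 * h ^ 2 / 4)⁻¹ • (2 • (innerSL ℝ (w x)).comp (fderiv ℝ w x)))) x := by
    have h3 := hθ.comp_hasFDerivAt x hgd
    have h4 : sbadW w h = Real.smoothTransition ∘ g := by
      rw [hg]; rfl
    rw [h4]
    exact h3
  rw [hW.fderiv]
  by_cases hx : h / 2 < ‖w x‖ ∧ ‖w x‖ < h
  · rw [indicator_of_mem (show x ∈ {x | h / 2 < ‖w x‖ ∧ ‖w x‖ < h} from hx)]
    have h5 : |(deriv Real.smoothTransition (g x) •
        ((3 * h ^ 2 / 4)⁻¹ • (2 • (innerSL ℝ (w x)).comp (fderiv ℝ w x)))) z| ≤
        8 * L / (3 * h) * ‖fderiv ℝ w x z‖ := by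
      have e : (deriv Real.smoothTransition (g x) •
          ((3 * h ^ 2 / 4)⁻¹ • (2 • (innerSL ℝ (w x)).comp (fderiv ℝ w x)))) z =
          deriv Real.smoothTransition (g x) * ((3 * h ^ 2 / 4)⁻¹ *
            (2 * inner ℝ (w x) (fderiv ℝ w x z))) := by
        simp only [ContinuousLinearMap.smul_apply, ContinuousLinearMap.comp_apply,
          innerSL_apply_apply, smul_eq_mul, nsmul_eq_mul, Nat.cast_ofNat]
      rw [e, abs_mul, abs_mul, abs_mul, abs_of_pos (show (0 : ℝ) < (3 * h ^ 2 / 4)⁻¹ by positivity),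
        abs_of_pos (show (0 : ℝ) < 2 by norm_num)]
      have h6 : |inner ℝ (w x) (fderiv ℝ w x z)| ≤ h * ‖fderiv ℝ w x z‖ :=
        (abs_real_inner_le_norm _ _).trans
          (mul_le_mul_of_nonneg_right hx.2.le (norm_nonneg _))
      calc |deriv Real.smoothTransition (g x)| * ((3 * h ^ 2 / 4)⁻¹ *
            (2 * |inner ℝ (w x) (fderiv ℝ w x z)|)) ≤
            L * ((3 * h ^ 2 / 4)⁻¹ * (2 * (h * ‖fderiv ℝ w x z‖))) := by
            gcongr
            exact hL _
        _ = 8 * L / (3 * h) * ‖fderiv ℝ w x z‖ := by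
            field_simp
            ring
    calc |_| ^ 2 ≤ (8 * L / (3 * h) * ‖fderiv ℝ w x z‖) ^ 2 :=
          pow_le_pow_left₀ (abs_nonneg _) h5 2
      _ = (8 * L / (3 * h)) ^ 2 * ‖fderiv ℝ w x z‖ ^ 2 := by ring
      _ ≤ (8 * L / (3 * h)) ^ 2 * (gsq w x * ‖z‖ ^ 2) :=
          mul_le_mul_of_nonneg_left (fderiv_sq_le w x z) (sq_nonneg _)
  · rw [indicator_of_notMem (show x ∉ {x | h / 2 < ‖w x‖ ∧ ‖w x‖ < h} from hx)]
    have h7 : deriv Real.smoothTransition (g x) = 0 := by
      rw [not_and_or, not_lt, not_lt] at hx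
      rcases hx with hx | hx
      · apply hL0
        rw [hg]
        apply div_nonpos_of_nonpos_of_nonneg _ (by positivity)
        nlinarith [norm_nonneg (w x)]
      · apply hL1
        rw [hg]
        show 1 ≤ (‖w x‖ ^ 2 - h ^ 2 / 4) / (3 * h ^ 2 / 4)
        rw [le_div_iff₀ (by positivity)]
        nlinarith
    rw [h7, zero_smul]
    simp

/-- the increment along a segment -/
lemma sbad_incr {W : E N → ℝ} (hW : ContDiff ℝ 1 W) (x z : E N) :
    ENNReal.ofReal (|W (x + z) - W x| ^ 2) ≤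
      ∫⁻ τ in Icc (0 : ℝ) 1, ENNReal.ofReal (|fderiv ℝ W (x + τ • z) z| ^ 2) := by
  have hder : ∀ τ : ℝ, HasDerivAt (fun τ : ℝ => W (x + τ • z)) (fderiv ℝ W (x + τ • z) z) τ := by
    intro τ
    have h1 : HasDerivAt (fun τ : ℝ => x + τ • z) z τ := by
      have := ((hasDerivAt_id τ).smul_const z).const_add x
      simpa using this
    exact ((hW.differentiable (by norm_num) (x + τ • z)).hasFDerivAt).comp_hasDerivAt τ h1
  have hcont : Continuous fun τ : ℝ => fderiv ℝ W (x + τ • z) z := by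
    have h1 : Continuous fun τ : ℝ => fderiv ℝ W (x + τ • z) :=
      (hW.continuous_fderiv (by norm_num)).comp (by fun_prop)
    exact h1.clm_apply continuous_const
  have hftc : W (x + z) - W x = ∫ τ in (0 : ℝ)..1, fderiv ℝ W (x + τ • z) z := by
    rw [intervalIntegral.integral_eq_sub_of_hasDerivAt (fun τ _ => hder τ)
      (hcont.intervalIntegrable _ _)]
    simp
  have hi2 : IntervalIntegrable (fun τ : ℝ => |fderiv ℝ W (x + τ • z) z| ^ 2) volume 0 1 :=
    (hcont.abs.pow 2).intervalIntegrable _ _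
  have hcs : |W (x + z) - W x| ^ 2 ≤ ∫ τ in (0 : ℝ)..1, |fderiv ℝ W (x + τ • z) z| ^ 2 := by
    obtain ⟨m, hm⟩ : ∃ m, m = ∫ τ in (0 : ℝ)..1, fderiv ℝ W (x + τ • z) z := ⟨_, rfl⟩
    have h0 : 0 ≤ ∫ τ in (0 : ℝ)..1, (fderiv ℝ W (x + τ • z) z - m) ^ 2 :=
      intervalIntegral.integral_nonneg (by norm_num) fun τ _ => sq_nonneg _
    have h1 : (∫ τ in (0 : ℝ)..1, (fderiv ℝ W (x + τ • z) z - m) ^ 2) =
        (∫ τ in (0 : ℝ)..1, (fderiv ℝ W (x + τ • z) z) ^ 2) - m ^ 2 := by
      have e : ∀ τ : ℝ, (fderiv ℝ W (x + τ • z) z - m) ^ 2 =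
          (fderiv ℝ W (x + τ • z) z) ^ 2 - (2 * m) * (fderiv ℝ W (x + τ • z) z) + m ^ 2 := by
        intro τ; ring
      simp_rw [e]
      rw [intervalIntegral.integral_add, intervalIntegral.integral_sub,
        intervalIntegral.integral_const_mul, ← hm, intervalIntegral.integral_const]
      · simp
        ring
      · exact (hcont.pow 2).intervalIntegrable _ _
      · exact (hcont.const_mul _).intervalIntegrable _ _
      · exact ((hcont.pow 2).sub (hcont.const_mul _)).intervalIntegrable _ _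
      · exact continuous_const.intervalIntegrable _ _
    have h2 : (∫ τ in (0 : ℝ)..1, |fderiv ℝ W (x + τ • z) z| ^ 2) =
        ∫ τ in (0 : ℝ)..1, (fderiv ℝ W (x + τ • z) z) ^ 2 := by
      simp_rw [sq_abs]
    rw [h2, sq_abs, hftc, ← hm]
    linarith
  rw [intervalIntegral.integral_of_le (by norm_num), ← integral_Icc_eq_integral_Ioc] at hcs
  refine (ENNReal.ofReal_le_ofReal hcs).trans ?_
  rw [ofReal_integral_eq_lintegral_ofReal]
  · have := (hcont.abs.pow 2).continuousOn.integrableOn_Icc (μ := volume) (a := (0 : ℝ)) (b := 1)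
    exact this
  · exact ae_of_all _ fun τ => sq_nonneg _

end

theorem bad_bound : ∃ C : ℝ, 0 < C ∧ ∀ (N : ℕ) (w : E N → ℂ), Nice w → ∀ (h s : ℝ),
    0 < h → 0 < s →
    volume {x | h ≤ ‖w x‖ ∧ x ∉ Sset w h s}
      ≤ ENNReal.ofReal (C * s ^ 2 / h ^ 2 * ∫ x in {x | h / 2 < ‖w x‖ ∧ ‖w x‖ < h}, gsq w x) := by
  obtain ⟨L, hLp, hL, hL0, hL1⟩ := sbad_theta
  refine ⟨2 * (8 * L / 3) ^ 2, by positivity, ?_⟩
  intro N w hw h s hh hs
  obtain ⟨W, hWdef⟩ : ∃ W, W = sbadW w h := ⟨_, rfl⟩
  have hW1 : ContDiff ℝ 1 W := by rw [hWdef]; exact sbadW_c1 hw.c1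
  obtain ⟨A, hA⟩ : ∃ A : Set (E N), A = {x | h / 2 < ‖w x‖ ∧ ‖w x‖ < h} := ⟨_, rfl⟩
  obtain ⟨Bd, hBd⟩ : ∃ B : Set (E N), B = {x | h ≤ ‖w x‖ ∧ x ∉ Sset w h s} := ⟨_, rfl⟩
  rw [← hA, ← hBd]
  have hcw : Continuous fun x => ‖w x‖ := hw.c1.continuous.norm
  have hAm : MeasurableSet A := by
    rw [hA]
    exact (measurableSet_lt measurable_const hcw.measurable).inter
      (measurableSet_lt hcw.measurable measurable_const)
  obtain ⟨I, hI⟩ : ∃ I : ENNReal, I = ∫⁻ x in A, ENNReal.ofReal (gsq w x) := ⟨_, rfl⟩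
  -- Tonelli for one translation
  have hz : ∀ z : E N, ∫⁻ x, ENNReal.ofReal (|W (x + z) - W x| ^ 2) ≤
      ENNReal.ofReal ((8 * L / (3 * h)) ^ 2 * ‖z‖ ^ 2) * I := by
    intro z
    have hmeas : Measurable fun p : E N × ℝ =>
        ENNReal.ofReal (|fderiv ℝ W (p.1 + p.2 • z) z| ^ 2) := by
      apply Measurable.ennreal_ofReal
      apply Continuous.measurable
      have h1 : Continuous fun p : E N × ℝ => fderiv ℝ W (p.1 + p.2 • z) :=
        (hW1.continuous_fderiv (by norm_num)).comp (by fun_prop)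
      exact ((h1.clm_apply continuous_const).abs).pow 2
    calc ∫⁻ x, ENNReal.ofReal (|W (x + z) - W x| ^ 2)
        ≤ ∫⁻ x, ∫⁻ τ in Icc (0 : ℝ) 1, ENNReal.ofReal (|fderiv ℝ W (x + τ • z) z| ^ 2) :=
          lintegral_mono fun x => sbad_incr hW1 x z
      _ = ∫⁻ τ in Icc (0 : ℝ) 1, ∫⁻ x, ENNReal.ofReal (|fderiv ℝ W (x + τ • z) z| ^ 2) := by
          rw [lintegral_lintegral_swap]
          exact hmeas.aemeasurable
      _ = ∫⁻ τ in Icc (0 : ℝ) 1, ∫⁻ x, ENNReal.ofReal (|fderiv ℝ W x z| ^ 2) := by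
          apply lintegral_congr
          intro τ
          exact lintegral_add_right_eq_self (μ := (volume : Measure (E N)))
            (fun x => ENNReal.ofReal (|fderiv ℝ W x z| ^ 2)) (τ • z)
      _ = ∫⁻ x, ENNReal.ofReal (|fderiv ℝ W x z| ^ 2) := by
          rw [setLIntegral_const, Real.volume_Icc]
          simp
      _ ≤ ∫⁻ x, A.indicator (fun x => ENNReal.ofReal ((8 * L / (3 * h)) ^ 2 * ‖z‖ ^ 2) *
            ENNReal.ofReal (gsq w x)) x := by
          apply lintegral_mono
          intro x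
          have h1 := sbadW_deriv hL hL0 hL1 hLp hw.c1 hh x z
          rw [← hWdef, ← hA] at h1
          show ENNReal.ofReal (|fderiv ℝ W x z| ^ 2) ≤ _
          refine (ENNReal.ofReal_le_ofReal h1).trans (le_of_eq ?_)
          by_cases hx : x ∈ A
          · rw [indicator_of_mem hx, indicator_of_mem hx, ← ENNReal.ofReal_mul (by positivity)]
            congr 1
            ring
          · rw [indicator_of_notMem hx, indicator_of_notMem hx, ENNReal.ofReal_zero]
      _ = ENNReal.ofReal ((8 * L / (3 * h)) ^ 2 * ‖z‖ ^ 2) * I := by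
          rw [lintegral_indicator hAm, lintegral_const_mul, hI]
          exact (gsq_cont hw.c1).measurable.ennreal_ofReal
  -- the lower bound
  have hball : volume (Metric.ball (0 : E N) s) ≠ ⊤ := measure_ball_lt_top.ne
  have hball0 : 0 < volume (Metric.ball (0 : E N) s) := Metric.measure_ball_pos _ _ hs
  have hSm : ∀ x : E N, MeasurableSet ({z | h / 2 ≤ ‖w z‖} ∩ Metric.ball x s) := fun x =>
    (measurableSet_le measurable_const hcw.measurable).inter measurableSet_ball
  have hlow : ∀ x ∈ Bd, (1 / 2 : ENNReal) * volume (Metric.ball (0 : E N) s) ≤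
      ∫⁻ z in Metric.ball (0 : E N) s, ENNReal.ofReal (|W (x + z) - W x| ^ 2) := by
    intro x hx
    rw [hBd] at hx
    obtain ⟨hx1, hx2⟩ := hx
    have hvb : volume (Metric.ball x s) = volume (Metric.ball (0 : E N) s) :=
      Measure.addHaar_ball_center _ _ _
    have h1 : volume.real ({z | h / 2 ≤ ‖w z‖} ∩ Metric.ball x s) <
        (1 / 2) * volume.real (Metric.ball x s) := by
      simpa only [Sset, mem_ofPred_eq, not_le] using hx2
    -- the small set
    have h2 : (1 / 2 : ENNReal) * volume (Metric.ball (0 : E N) s) ≤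
        volume (Metric.ball x s ∩ {z | ‖w z‖ < h / 2}) := by
      have h3 : volume.real (Metric.ball x s ∩ {z | ‖w z‖ < h / 2}) =
          volume.real (Metric.ball x s) - volume.real ({z | h / 2 ≤ ‖w z‖} ∩ Metric.ball x s) := by
        have h4 : Metric.ball x s ∩ {z | ‖w z‖ < h / 2} =
            Metric.ball x s \ ({z | h / 2 ≤ ‖w z‖} ∩ Metric.ball x s) := by
          ext z
          simp only [mem_inter_iff, mem_ofPred_eq, Set.mem_sdiff, not_and]
          constructor
          · rintro ⟨a, b⟩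
            exact ⟨a, fun c => absurd b (not_lt.2 c)⟩
          · rintro ⟨a, b⟩
            exact ⟨a, not_le.1 fun c => b c a⟩
        rw [h4, measureReal_sdiff inter_subset_right (hSm x) (by rw [hvb]; exact hball)]
      have h5 : (1 / 2) * volume.real (Metric.ball x s) ≤
          volume.real (Metric.ball x s ∩ {z | ‖w z‖ < h / 2}) := by
        rw [h3]; linarith
      have h6 : (1 / 2 : ENNReal) * volume (Metric.ball (0 : E N) s) =
          ENNReal.ofReal ((1 / 2) * volume.real (Metric.ball x s)) := by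
        rw [ENNReal.ofReal_mul (by norm_num), measureReal_def, hvb,
          ENNReal.ofReal_toReal hball]
        congr 1
        rw [ENNReal.ofReal_div_of_pos (by norm_num)]
        simp
      rw [h6]
      refine (ENNReal.ofReal_le_ofReal h5).trans ?_
      rw [measureReal_def]
      exact ENNReal.ofReal_toReal_le
    -- translate
    have h7 : ∫⁻ z in Metric.ball (0 : E N) s, ENNReal.ofReal (|W (x + z) - W x| ^ 2) =
        ∫⁻ y in Metric.ball x s, ENNReal.ofReal (|W y - W x| ^ 2) := by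
      rw [← lintegral_indicator measurableSet_ball, ← lintegral_indicator measurableSet_ball]
      rw [← lintegral_add_left_eq_self (μ := (volume : Measure (E N)))
        (fun y => (Metric.ball x s).indicator (fun y => ENNReal.ofReal (|W y - W x| ^ 2)) y) x]
      apply lintegral_congr
      intro z
      by_cases hz : z ∈ Metric.ball (0 : E N) s
      · have hz' : x + z ∈ Metric.ball x s := by
          rw [Metric.mem_ball, dist_eq_norm] at hz ⊢
          simpa using hz
        rw [indicator_of_mem hz, indicator_of_mem hz']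
      · have hz' : x + z ∉ Metric.ball x s := by
          rw [Metric.mem_ball, dist_eq_norm] at hz ⊢
          simpa using hz
        rw [indicator_of_notMem hz, indicator_of_notMem hz']
    rw [h7]
    calc (1 / 2 : ENNReal) * volume (Metric.ball (0 : E N) s)
        ≤ volume (Metric.ball x s ∩ {z | ‖w z‖ < h / 2}) := h2
      _ = ∫⁻ y in Metric.ball x s ∩ {z | ‖w z‖ < h / 2}, 1 := by
          rw [setLIntegral_const, one_mul]
      _ ≤ ∫⁻ y in Metric.ball x s ∩ {z | ‖w z‖ < h / 2}, ENNReal.ofReal (|W y - W x| ^ 2) := by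
          apply setLIntegral_mono' (measurableSet_ball.inter
            (measurableSet_lt hcw.measurable measurable_const))
          intro y hy
          rw [hWdef, sbadW_one hh hx1, sbadW_zero hh hy.2]
          norm_num
      _ ≤ ∫⁻ y in Metric.ball x s, ENNReal.ofReal (|W y - W x| ^ 2) :=
          lintegral_mono_set inter_subset_left
  -- integrate over Bd
  have hmeas2 : Measurable fun p : E N × E N => ENNReal.ofReal (|W (p.1 + p.2) - W p.1| ^ 2) := by
    apply Measurable.ennreal_ofReal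
    apply Continuous.measurable
    have := hW1.continuous
    fun_prop
  have hmain : (1 / 2 : ENNReal) * volume (Metric.ball (0 : E N) s) * volume Bd ≤
      (ENNReal.ofReal ((8 * L / (3 * h)) ^ 2 * s ^ 2) * I) * volume (Metric.ball (0 : E N) s) := by
    calc (1 / 2 : ENNReal) * volume (Metric.ball (0 : E N) s) * volume Bd
        ≤ ∫⁻ x, ∫⁻ z in Metric.ball (0 : E N) s, ENNReal.ofReal (|W (x + z) - W x| ^ 2) := by
          have hm : Measurable fun x => ∫⁻ z in Metric.ball (0 : E N) s,
              ENNReal.ofReal (|W (x + z) - W x| ^ 2) := hmeas2.lintegral_prod_right'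
          refine le_trans ?_ (mul_meas_ge_le_lintegral₀ hm.aemeasurable
            ((1 / 2 : ENNReal) * volume (Metric.ball (0 : E N) s)))
          gcongr
          intro x hx
          exact hlow x hx
      _ = ∫⁻ z in Metric.ball (0 : E N) s, ∫⁻ x, ENNReal.ofReal (|W (x + z) - W x| ^ 2) := by
          rw [lintegral_lintegral_swap]
          exact hmeas2.aemeasurable
      _ ≤ ∫⁻ z in Metric.ball (0 : E N) s,
            (ENNReal.ofReal ((8 * L / (3 * h)) ^ 2 * s ^ 2) * I) := by
          apply setLIntegral_mono' measurableSet_ball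
          intro z hz'
          refine (hz z).trans ?_
          gcongr
          rw [Metric.mem_ball, dist_zero_right] at hz'
          exact hz'.le
      _ = _ := by rw [setLIntegral_const]
  -- cancel
  have hfin : volume Bd ≤ 2 * (ENNReal.ofReal ((8 * L / (3 * h)) ^ 2 * s ^ 2) * I) := by
    have h1 : volume (Metric.ball (0 : E N) s) * volume Bd ≤
        volume (Metric.ball (0 : E N) s) *
          (2 * (ENNReal.ofReal ((8 * L / (3 * h)) ^ 2 * s ^ 2) * I)) := by
      calc volume (Metric.ball (0 : E N) s) * volume Bd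
          = 2 * ((1 / 2 : ENNReal) * volume (Metric.ball (0 : E N) s) * volume Bd) := by
            rw [← mul_assoc, ← mul_assoc, one_div, ENNReal.mul_inv_cancel (by norm_num) (by norm_num),
              one_mul]
        _ ≤ 2 * ((ENNReal.ofReal ((8 * L / (3 * h)) ^ 2 * s ^ 2) * I) *
              volume (Metric.ball (0 : E N) s)) := by gcongr
        _ = _ := by ring
    exact (ENNReal.mul_le_mul_iff_right hball0.ne' hball).1 h1
  refine hfin.trans (le_of_eq ?_)
  have e2 : ∀ X : ℝ, (2 : ENNReal) * ENNReal.ofReal X = ENNReal.ofReal (2 * X) := by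
    intro X
    rw [ENNReal.ofReal_mul (by norm_num)]
    simp
  rw [hI, ← ofReal_integral_eq_lintegral_ofReal hw.g1.integrableOn
    (ae_of_all _ fun x => gsq_nonneg w x), ← ENNReal.ofReal_mul (by positivity), e2]
  congr 1
  field_simp
end CGL
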