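import Pool.Agent.CGL.Defs
/-! SORB: dyadic orbits leave a convex set at most once -/
open MeasureTheory Set Filter Topology
namespace CGL

private lemma sorb_scale (N : ℕ) (f : E N → ENNReal) (hf : Measurable f) (y : E N) (r : ℝ)
    (hr : 0 < r) :
    ∫⁻ x, f x = ∫⁻ z, ENNReal.ofReal (r ^ N) * f (y + r • z) := by
  have h1 : ∫⁻ z, f (y + r • z) = ENNReal.ofReal (|(r ^ N)⁻¹|) * ∫⁻ x, f x := by
    have h2 : ∫⁻ z, f (y + r • z) = ∫⁻ w, f (y + w) ∂(Measure.map (fun z : E N => r • z) volume) := by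
      rw [lintegral_map (by fun_prop) (by fun_prop)]
    rw [h2, Measure.map_addHaar_smul _ hr.ne', lintegral_smul_measure, finrank_euclideanSpace,
      Fintype.card_fin, smul_eq_mul, lintegral_add_left_eq_self (fun w => f w) y]
  rw [lintegral_const_mul _ (by fun_prop), h1, ← mul_assoc, ← ENNReal.ofReal_mul (by positivity),
    abs_of_pos (by positivity), mul_inv_cancel₀ (by positivity), ENNReal.ofReal_one, one_mul]

theorem orbit_bound (N : ℕ) (hN : 1 ≤ N) : ∃ C : ℝ, 0 < C ∧ ∀ (V : Set (E N)), Convex ℝ V →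
    MeasurableSet V → ∀ (y : E N) (s : ℝ), 0 < s →
    (∫⁻ x in {x | x ∈ V ∧ y + (2:ℝ) • (x - y) ∉ V ∧ s ≤ dist x y},
      ENNReal.ofReal (dist x y ^ (-(N:ℝ)))) ≤ ENNReal.ofReal C := by
  refine ⟨(volume (Metric.ball (0 : E N) 2)).toReal + 1, by positivity, ?_⟩
  intro V hV hVm y s hs
  set W : ℤ → Set (E N) := fun j => {x | x ∈ V ∧ y + (2:ℝ) • (x - y) ∉ V ∧
    (2:ℝ) ^ j ≤ dist x y ∧ dist x y < (2:ℝ) ^ (j + 1)} with hW
  set B : ℤ → Set (E N) := fun j => {z | (y + (2:ℝ) ^ j • z) ∈ V ∧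
    y + (2:ℝ) • ((2:ℝ) ^ j • z) ∉ V ∧ 1 ≤ ‖z‖ ∧ ‖z‖ < 2} with hB
  have hWm : ∀ j, MeasurableSet (W j) := by
    intro j
    have h1 : MeasurableSet {x : E N | y + (2:ℝ) • (x - y) ∈ V} := by
      have : Measurable (fun x : E N => y + (2:ℝ) • (x - y)) := by fun_prop
      exact this hVm
    have h2 : MeasurableSet {x : E N | (2:ℝ) ^ j ≤ dist x y} :=
      measurableSet_le measurable_const (by fun_prop)
    have h3 : MeasurableSet {x : E N | dist x y < (2:ℝ) ^ (j + 1)} :=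
      measurableSet_lt (by fun_prop) measurable_const
    exact hVm.inter (h1.compl.inter (h2.inter h3))
  have hBm : ∀ j, MeasurableSet (B j) := by
    intro j
    have h0 : MeasurableSet {z : E N | y + (2:ℝ) ^ j • z ∈ V} := by
      have : Measurable (fun z : E N => y + (2:ℝ) ^ j • z) := by fun_prop
      exact this hVm
    have h1 : MeasurableSet {z : E N | y + (2:ℝ) • ((2:ℝ) ^ j • z) ∈ V} := by
      have : Measurable (fun z : E N => y + (2:ℝ) • ((2:ℝ) ^ j • z)) := by fun_prop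
      exact this hVm
    have h2 : MeasurableSet {z : E N | 1 ≤ ‖z‖} := measurableSet_le measurable_const (by fun_prop)
    have h3 : MeasurableSet {z : E N | ‖z‖ < 2} := measurableSet_lt (by fun_prop) measurable_const
    exact h0.inter (h1.compl.inter (h2.inter h3))
  have hsub : {x | x ∈ V ∧ y + (2:ℝ) • (x - y) ∉ V ∧ s ≤ dist x y} ⊆ ⋃ j, W j := by
    rintro x ⟨h1, h2, h3⟩
    obtain ⟨j, hj⟩ := exists_mem_Ico_zpow (lt_of_lt_of_le hs h3) (one_lt_two : (1:ℝ) < 2)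
    exact mem_iUnion.2 ⟨j, h1, h2, hj.1, hj.2⟩
  have hmeas : Measurable (fun x : E N => ENNReal.ofReal (dist x y ^ (-(N:ℝ)))) := by fun_prop
  have key : ∀ j, (∫⁻ x in W j, ENNReal.ofReal (dist x y ^ (-(N:ℝ)))) =
      ∫⁻ z in B j, ENNReal.ofReal (‖z‖ ^ (-(N:ℝ))) := by
    intro j
    have hr : (0:ℝ) < (2:ℝ) ^ j := by positivity
    rw [← lintegral_indicator (hWm j), ← lintegral_indicator (hBm j),
      sorb_scale N _ (hmeas.indicator (hWm j)) y ((2:ℝ) ^ j) hr]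
    refine lintegral_congr fun z => ?_
    have hd : dist (y + (2:ℝ) ^ j • z) y = (2:ℝ) ^ j * ‖z‖ := by
      rw [dist_eq_norm, add_sub_cancel_left, norm_smul, Real.norm_of_nonneg hr.le]
    have hiff : y + (2:ℝ) ^ j • z ∈ W j ↔ z ∈ B j := by
      simp only [hW, hB, mem_setOf_eq, hd, add_sub_cancel_left]
      rw [zpow_add_one₀ (two_ne_zero), le_mul_iff_one_le_right hr, mul_lt_mul_iff_right₀ hr]
    by_cases hz : z ∈ B j
    · rw [indicator_of_mem (hiff.2 hz), indicator_of_mem hz, hd,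
        ← ENNReal.ofReal_mul (by positivity)]
      congr 1
      rw [Real.mul_rpow hr.le (norm_nonneg z), ← mul_assoc, Real.rpow_neg hr.le, Real.rpow_natCast,
        mul_inv_cancel₀ (by positivity), one_mul]
    · rw [indicator_of_notMem (fun h => hz (hiff.1 h)), indicator_of_notMem hz, mul_zero]
  have hdisj : Pairwise (Function.onFun Disjoint B) := by
    have hlt : ∀ i j : ℤ, i < j → Disjoint (B i) (B j) := by
      intro i j hij
      rw [Set.disjoint_left]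
      rintro z ⟨h1, h2, -, -⟩ ⟨h3, -, -, -⟩
      apply h2
      have e1 : (2:ℝ) • ((2:ℝ) ^ i • z) = (2:ℝ) ^ (i + 1) • z := by
        rw [smul_smul, zpow_add_one₀ (two_ne_zero), mul_comm]
      rw [e1]
      have hi : (2:ℝ) ^ i < (2:ℝ) ^ (i + 1) := zpow_lt_zpow_right₀ one_lt_two (by omega)
      have hj : (2:ℝ) ^ (i + 1) ≤ (2:ℝ) ^ j := zpow_le_zpow_right₀ one_le_two (by omega)
      have hij' : (0:ℝ) < (2:ℝ) ^ j - (2:ℝ) ^ i := by linarith
      set l := ((2:ℝ) ^ (i + 1) - (2:ℝ) ^ i) / ((2:ℝ) ^ j - (2:ℝ) ^ i) with hl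
      have hl0 : 0 ≤ l := div_nonneg (by linarith) hij'.le
      have hl1 : l ≤ 1 := by rw [hl, div_le_one hij']; linarith
      have := hV h1 h3 (sub_nonneg.2 hl1) hl0 (by ring)
      have e2 : (1 - l) • (y + (2:ℝ) ^ i • z) + l • (y + (2:ℝ) ^ j • z) =
          y + (2:ℝ) ^ (i + 1) • z := by
        have e3 : (1 - l) * (2:ℝ) ^ i + l * (2:ℝ) ^ j = (2:ℝ) ^ (i + 1) := by
          have : l * ((2:ℝ) ^ j - (2:ℝ) ^ i) = (2:ℝ) ^ (i + 1) - (2:ℝ) ^ i := by
            rw [hl, div_mul_cancel₀ _ hij'.ne']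
          linarith
        rw [← e3]
        module
      rw [e2] at this
      exact this
    intro i j hij
    rcases lt_or_gt_of_ne hij with h | h
    · exact hlt i j h
    · exact (hlt j i h).symm
  calc (∫⁻ x in {x | x ∈ V ∧ y + (2:ℝ) • (x - y) ∉ V ∧ s ≤ dist x y},
      ENNReal.ofReal (dist x y ^ (-(N:ℝ))))
      ≤ ∫⁻ x in ⋃ j, W j, ENNReal.ofReal (dist x y ^ (-(N:ℝ))) := lintegral_mono_set hsub
    _ ≤ ∑' j, ∫⁻ x in W j, ENNReal.ofReal (dist x y ^ (-(N:ℝ))) := lintegral_iUnion_le _ _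
    _ = ∑' j, ∫⁻ z in B j, ENNReal.ofReal (‖z‖ ^ (-(N:ℝ))) := by simp_rw [key]
    _ = ∫⁻ z in ⋃ j, B j, ENNReal.ofReal (‖z‖ ^ (-(N:ℝ))) := (lintegral_iUnion hBm hdisj _).symm
    _ ≤ ∫⁻ z in ⋃ j, B j, 1 := by
        refine setLIntegral_mono measurable_const fun z hz => ?_
        obtain ⟨j, hj⟩ := mem_iUnion.1 hz
        rw [← ENNReal.ofReal_one]
        refine ENNReal.ofReal_le_ofReal ?_
        exact Real.rpow_le_one_of_one_le_of_nonpos hj.2.2.1 (by simp)
    _ = volume (⋃ j, B j) := by simp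
    _ ≤ volume (Metric.ball (0 : E N) 2) := by
        refine measure_mono fun z hz => ?_
        obtain ⟨j, hj⟩ := mem_iUnion.1 hz
        simpa using hj.2.2.2
    _ = ENNReal.ofReal ((volume (Metric.ball (0 : E N) 2)).toReal) := by
        rw [ENNReal.ofReal_toReal measure_ball_lt_top.ne]
    _ ≤ _ := ENNReal.ofReal_le_ofReal (by linarith)
end CGL
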