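import Pool.Agent.CGL.STool
import Pool.Agent.CGL.SOrb
/-! SCELL: the one-cell Hardy inequality in a convex cell -/
open MeasureTheory Set Filter Topology
namespace CGL

/-- change of variables for homotheties centred at `y`. -/
theorem scell_homothety {N : ℕ} (f : E N → ENNReal) (hf : Measurable f) (y : E N) {r : ℝ}
    (hr : 0 < r) :
    ∫⁻ x, f (y + r • (x - y)) = ENNReal.ofReal ((r ^ N)⁻¹) * ∫⁻ x, f x := by
  have h1 : ∫⁻ x, f (y + r • (x - y)) = ∫⁻ x, f (y + r • x) :=
    lintegral_sub_right_eq_self (fun x => f (y + r • x)) y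
  have h2 : ∫⁻ x, f (y + r • x) = ENNReal.ofReal ((r ^ N)⁻¹) * ∫⁻ x, f (y + x) := by
    have h0 := Measure.map_addHaar_smul (volume : Measure (E N)) (r := r) hr.ne'
    have h3 : ∫⁻ x, f (y + r • x)
        = ∫⁻ x, f (y + x) ∂(Measure.map (fun x : E N => r • x) volume) := by
      rw [lintegral_map (f := fun x : E N => f (y + x)) (hf.comp (measurable_const_add y))
        (measurable_const_smul r)]
    rw [h3, h0, lintegral_smul_measure, finrank_euclideanSpace, Fintype.card_fin,
      abs_of_pos (by positivity), smul_eq_mul]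
  rw [h1, h2, lintegral_add_left_eq_self]

/-- Cauchy-Schwarz on an interval of length one. -/
theorem scell_cs {g : ℝ → ℝ} (hg : Continuous g) :
    (∫ l in (1:ℝ)..2, g l) ^ 2 ≤ ∫ l in (1:ℝ)..2, (g l) ^ 2 := by
  set c := ∫ l in (1:ℝ)..2, g l with hc
  have h0 : 0 ≤ ∫ l in (1:ℝ)..2, (g l - c) ^ 2 :=
    intervalIntegral.integral_nonneg (by norm_num) fun l _ => sq_nonneg _
  have h1 : (∫ l in (1:ℝ)..2, (g l - c) ^ 2)
      = (∫ l in (1:ℝ)..2, (g l) ^ 2) - 2 * c * (∫ l in (1:ℝ)..2, g l) + c ^ 2 := by
    have e : (fun l => (g l - c) ^ 2) = fun l => ((g l) ^ 2 - 2 * c * g l) + c ^ 2 := by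
      funext l; ring
    rw [e, intervalIntegral.integral_add, intervalIntegral.integral_sub,
      intervalIntegral.integral_const_mul, intervalIntegral.integral_const]
    · norm_num
    · exact (hg.pow 2).intervalIntegrable _ _
    · exact (continuous_const.mul hg).intervalIntegrable _ _
    · exact ((hg.pow 2).sub (continuous_const.mul hg)).intervalIntegrable _ _
    · exact continuous_const.intervalIntegrable _ _
  rw [h1, ← hc] at h0
  nlinarith

theorem scell_seg {N : ℕ} (w : E N → ℂ) (hw : ContDiff ℝ 1 w) (y z : E N) :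
    ‖w (y + (2:ℝ) • z) - w (y + z)‖ ^ 2
      ≤ ‖z‖ ^ 2 * ∫ l in (1:ℝ)..2, gsq w (y + l • z) := by
  have hline : ∀ l : ℝ, HasDerivAt (fun l : ℝ => y + l • z) z l := by
    intro l
    have := ((hasDerivAt_id l).smul_const z).const_add y
    simpa using this
  have hcl : Continuous fun l : ℝ => y + l • z :=
    continuous_const.add (continuous_id.smul continuous_const)
  have hd : ∀ l : ℝ, HasDerivAt (fun l : ℝ => w (y + l • z)) (fderiv ℝ w (y + l • z) z) l := by
    intro l
    have h1 : HasFDerivAt w (fderiv ℝ w (y + l • z)) (y + l • z) :=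
      (hw.differentiable one_ne_zero _).hasFDerivAt
    exact h1.comp_hasDerivAt l (hline l)
  have hcd : Continuous fun l : ℝ => fderiv ℝ w (y + l • z) z :=
    ((hw.continuous_fderiv one_ne_zero).comp hcl).clm_apply continuous_const
  have hgc : Continuous fun l : ℝ => gsq w (y + l • z) := (gsq_cont hw).comp hcl
  have hint := intervalIntegral.integral_eq_sub_of_hasDerivAt (a := 1) (b := 2)
    (fun l _ => hd l) (hcd.intervalIntegrable _ _)
  have h1 : ‖w (y + (2:ℝ) • z) - w (y + z)‖ ≤ ∫ l in (1:ℝ)..2, ‖fderiv ℝ w (y + l • z) z‖ := by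
    have := intervalIntegral.norm_integral_le_integral_norm (a := 1) (b := 2)
      (f := fun l : ℝ => fderiv ℝ w (y + l • z) z) (μ := volume) (by norm_num)
    rw [hint] at this
    simpa using this
  calc ‖w (y + (2:ℝ) • z) - w (y + z)‖ ^ 2
      ≤ (∫ l in (1:ℝ)..2, ‖fderiv ℝ w (y + l • z) z‖) ^ 2 :=
        pow_le_pow_left₀ (norm_nonneg _) h1 2
    _ ≤ ∫ l in (1:ℝ)..2, ‖fderiv ℝ w (y + l • z) z‖ ^ 2 := scell_cs hcd.norm
    _ ≤ ∫ l in (1:ℝ)..2, ‖z‖ ^ 2 * gsq w (y + l • z) := by
        apply intervalIntegral.integral_mono_on (by norm_num)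
          ((hcd.norm.pow 2).intervalIntegrable _ _)
          ((continuous_const.mul hgc).intervalIntegrable _ _)
        intro l _
        have := fderiv_sq_le w (y + l • z) z
        simp only [Pi.mul_apply, Pi.pow_apply]
        linarith
    _ = ‖z‖ ^ 2 * ∫ l in (1:ℝ)..2, gsq w (y + l • z) := by
        rw [intervalIntegral.integral_const_mul]

theorem one_cell (N : ℕ) (hN : 3 ≤ N) : ∃ C : ℝ, 0 < C ∧ ∀ (w : E N → ℂ), Nice w →
    ∀ (V : Set (E N)), Convex ℝ V → MeasurableSet V → ∀ (y : E N) (s : ℝ), 0 < s →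
    (∫ x in {x | x ∈ V ∧ s ≤ dist x y},
        (min ‖w x‖ (dist x y ^ (-((N:ℝ) - 2) / 2))) ^ 2 / dist x y ^ 2)
      ≤ C * (1 + (∫ x in V, gsq w x) + ∫ x in V, ‖w x‖ ^ (2 * (N:ℝ) / ((N:ℝ) - 2))) := by
  obtain ⟨C0, hC0, horb⟩ := orbit_bound N (by omega)
  refine ⟨4 * (C0 + 3), by positivity, ?_⟩
  intro w hw V hVc hVm y s hs
  have hN' : (3:ℝ) ≤ N := by exact_mod_cast hN
  have hN2 : (0:ℝ) < (N:ℝ) - 2 := by linarith
  set m : E N → ℝ := fun x => min ‖w x‖ (dist x y ^ (-((N:ℝ) - 2) / 2)) with hm
  set S : Set (E N) := {x | x ∈ V ∧ s ≤ dist x y} with hS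
  have hSm : MeasurableSet S :=
    hVm.inter (measurableSet_le measurable_const (measurable_id.dist measurable_const))
  have hwc : Continuous w := hw.c1.continuous
  have hmm : Measurable m := by
    apply Measurable.min hwc.norm.measurable
    exact ((measurable_id.dist measurable_const)).pow_const _
  have hdm : Measurable fun x : E N => dist x y := measurable_id.dist measurable_const
  have hm0 : ∀ x, 0 ≤ m x := fun x => le_min (norm_nonneg _) (by positivity)
  -- the integrand
  set q : E N → ℝ := fun x => m x ^ 2 / dist x y ^ 2 with hq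
  have hqm : Measurable q := (hmm.pow_const 2).div (hdm.pow_const 2)
  have hq0 : ∀ x, 0 ≤ q x := fun x => by positivity
  have hgm : Measurable (gsq w) := (gsq_cont hw.c1).measurable
  have hg0 : ∀ x, 0 ≤ gsq w x := gsq_nonneg w
  set β : ℝ := 2 * (N:ℝ) / ((N:ℝ) - 2) with hβ
  have hβ2 : 2 ≤ β := by rw [hβ, le_div_iff₀ hN2]; linarith
  -- indicator functions in ENNReal
  set h : E N → ENNReal := S.indicator fun x => ENNReal.ofReal (q x) with hh
  set p : E N → ENNReal := V.indicator fun x => ENNReal.ofReal (‖w x‖ ^ β) with hp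
  set g : E N → ENNReal := V.indicator fun x => ENNReal.ofReal (gsq w x) with hg
  have hhm : Measurable h := (hqm.ennreal_ofReal).indicator hSm
  have hpm : Measurable p :=
    ((hwc.norm.measurable.pow_const β).ennreal_ofReal).indicator hVm
  have hgmm : Measurable g := (hgm.ennreal_ofReal).indicator hVm
  set S1 : Set (E N) := {x | x ∈ V ∧ y + (2:ℝ) • (x - y) ∉ V ∧ s ≤ dist x y} with hS1
  have hhomo : Continuous fun x : E N => y + (2:ℝ) • (x - y) :=
    by fun_prop
  have hS1m : MeasurableSet S1 := by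
    have : S1 = (V ∩ ((fun x : E N => y + (2:ℝ) • (x - y)) ⁻¹' V)ᶜ)
        ∩ {x | s ≤ dist x y} := by
      ext x
      simp only [hS1, Set.mem_ofPred_eq, mem_inter_iff, mem_compl_iff, mem_preimage]
      tauto
    rw [this]
    exact (hVm.inter (hhomo.measurable hVm).compl).inter
      (measurableSet_le measurable_const hdm)
  set T1 : E N → ENNReal := S1.indicator fun x => ENNReal.ofReal (dist x y ^ (-(N:ℝ))) with hT1
  have hT1m : Measurable T1 := ((hdm.pow_const _).ennreal_ofReal).indicator hS1m
  set T4 : E N → ENNReal := fun x => ∫⁻ l in Ioc (1:ℝ) 2, g (y + l • (x - y)) with hT4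
  -- pointwise inequality
  have hpt : ∀ x, h x ≤ T1 x + ENNReal.ofReal (2 ^ N) * p (y + (2:ℝ) • (x - y))
      + 6 * h (y + (2:ℝ) • (x - y)) + 3 * T4 x := by
    intro x
    by_cases hxS : x ∈ S
    swap
    · simp [hh, hxS]
    have hxV : x ∈ V := hxS.1
    have hxs : s ≤ dist x y := hxS.2
    have hdpos : 0 < dist x y := lt_of_lt_of_le hs hxs
    set x' : E N := y + (2:ℝ) • (x - y) with hx'
    have hd' : dist x' y = 2 * dist x y := by
      rw [hx', dist_eq_norm, dist_eq_norm, add_sub_cancel_left, norm_smul]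
      norm_num
    have hhx : h x = ENNReal.ofReal (q x) := by simp [hh, hxS]
    -- crude bound
    have hcrude : q x ≤ dist x y ^ (-(N:ℝ)) := by
      have h1 : m x ≤ dist x y ^ (-((N:ℝ) - 2) / 2) := min_le_right _ _
      have h2 : m x ^ 2 ≤ (dist x y ^ (-((N:ℝ) - 2) / 2)) ^ 2 :=
        pow_le_pow_left₀ (hm0 x) h1 2
      have h3 : (dist x y ^ (-((N:ℝ) - 2) / 2)) ^ 2 = dist x y ^ (-(N:ℝ)) * dist x y ^ 2 := by
        rw [← Real.rpow_natCast, ← Real.rpow_mul hdpos.le, ← Real.rpow_natCast,
          ← Real.rpow_add hdpos]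
        congr 1; push_cast; ring
      rw [hq]
      simp only
      rw [div_le_iff₀ (by positivity)]
      linarith
    by_cases hx'V : x' ∈ V
    swap
    · have hx1 : x ∈ S1 := ⟨hxV, hx'V, hxs⟩
      have : T1 x = ENNReal.ofReal (dist x y ^ (-(N:ℝ))) := by simp [hT1, hx1]
      calc h x ≤ T1 x := by rw [hhx, this]; exact ENNReal.ofReal_le_ofReal hcrude
        _ ≤ _ := by
          rw [add_assoc, add_assoc]; exact le_self_add
    by_cases hbig : dist x' y ^ (-((N:ℝ) - 2) / 2) < ‖w x'‖
    · -- case (ii)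
      have hd'pos : 0 < dist x' y := by rw [hd']; positivity
      have h1 : dist x' y ^ (-(N:ℝ)) ≤ ‖w x'‖ ^ β := by
        have : dist x' y ^ (-(N:ℝ)) = (dist x' y ^ (-((N:ℝ) - 2) / 2)) ^ β := by
          rw [← Real.rpow_mul hd'pos.le]
          congr 1
          rw [hβ]; field_simp
        rw [this]
        exact Real.rpow_le_rpow (by positivity) hbig.le (by linarith)
      have h2 : dist x y ^ (-(N:ℝ)) = 2 ^ N * dist x' y ^ (-(N:ℝ)) := by
        rw [hd', Real.mul_rpow (by norm_num) hdpos.le, ← mul_assoc, ← Real.rpow_natCast,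
          ← Real.rpow_add (by norm_num)]
        simp
      have h3 : q x ≤ 2 ^ N * ‖w x'‖ ^ β := by
        calc q x ≤ dist x y ^ (-(N:ℝ)) := hcrude
          _ = 2 ^ N * dist x' y ^ (-(N:ℝ)) := h2
          _ ≤ _ := by gcongr
      have h4 : p x' = ENNReal.ofReal (‖w x'‖ ^ β) := by simp [hp, hx'V]
      calc h x ≤ ENNReal.ofReal (2 ^ N) * p x' := by
            rw [hhx, h4, ← ENNReal.ofReal_mul (by positivity)]
            exact ENNReal.ofReal_le_ofReal h3
        _ ≤ _ := by
          rw [add_assoc, add_assoc]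
          exact le_trans le_self_add le_add_self
    · -- case (iii)
      push Not at hbig
      have hx'S : x' ∈ S := ⟨hx'V, by rw [hd']; linarith⟩
      have hmx' : m x' = ‖w x'‖ := by rw [hm]; exact min_eq_left hbig
      have hz : ‖x - y‖ = dist x y := (dist_eq_norm x y).symm
      have hseg := scell_seg w hw.c1 y (x - y)
      rw [hz] at hseg
      have hxx : y + (x - y) = x := by abel
      rw [hxx, ← hx'] at hseg
      set I : ℝ := ∫ l in (1:ℝ)..2, gsq w (y + l • (x - y)) with hI
      have hI0 : 0 ≤ I := intervalIntegral.integral_nonneg (by norm_num) fun l _ => hg0 _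
      have hmx : m x ^ 2 ≤ (3/2) * m x' ^ 2 + 3 * (dist x y ^ 2 * I) := by
        have h1 : m x ≤ ‖w x‖ := min_le_left _ _
        have h2 : ‖w x‖ ≤ ‖w x'‖ + ‖w x' - w x‖ := by
          have := norm_sub_norm_le (w x) (w x')
          rw [norm_sub_rev] at this
          linarith
        have h3 : m x ^ 2 ≤ (‖w x'‖ + ‖w x' - w x‖) ^ 2 :=
          pow_le_pow_left₀ (hm0 x) (h1.trans h2) 2
        rw [hmx']
        nlinarith [sq_nonneg (‖w x'‖ - 2 * ‖w x' - w x‖)]
      have hqx : q x ≤ 6 * q x' + 3 * I := by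
        rw [hq]
        simp only
        rw [hd', div_le_iff₀ (by positivity)]
        have e : (6 * (m x' ^ 2 / (2 * dist x y) ^ 2) + 3 * I) * dist x y ^ 2
            = (3/2) * m x' ^ 2 + 3 * (dist x y ^ 2 * I) := by
          field_simp; ring
        rw [e]; exact hmx
      have hhx' : h x' = ENNReal.ofReal (q x') := by simp [hh, hx'S]
      have hT4x : T4 x = ENNReal.ofReal I := by
        have hcl : Continuous fun l : ℝ => y + l • (x - y) :=
          continuous_const.add (continuous_id.smul continuous_const)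
        have hgc : Continuous fun l : ℝ => gsq w (y + l • (x - y)) := (gsq_cont hw.c1).comp hcl
        rw [hI, intervalIntegral.integral_of_le (by norm_num),
          ofReal_integral_eq_lintegral_ofReal]
        · rw [hT4]
          simp only
          apply setLIntegral_congr_fun measurableSet_Ioc
          intro l hl
          have hmem : y + l • (x - y) ∈ V := by
            have h1 : y + l • (x - y) = (2 - l) • x + (l - 1) • x' := by
              rw [hx']
              module
            rw [h1]
            exact hVc hxV hx'V (by linarith [hl.2]) (by linarith [hl.1]) (by ring)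
          simp [hg, hmem]
        · exact (hgc.integrableOn_Ioc)
        · exact Filter.Eventually.of_forall fun l => hg0 _
      calc h x ≤ 6 * h x' + 3 * T4 x := by
            rw [hhx, hhx', hT4x]
            have e6 : (6:ENNReal) = ENNReal.ofReal 6 := by norm_num
            have e3 : (3:ENNReal) = ENNReal.ofReal 3 := by norm_num
            rw [e6, e3, ← ENNReal.ofReal_mul (by norm_num), ← ENNReal.ofReal_mul (by norm_num),
              ← ENNReal.ofReal_add (by have := hq0 x'; positivity) (by positivity)]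
            exact ENNReal.ofReal_le_ofReal hqx
        _ ≤ _ := by
          rw [add_assoc]
          exact le_add_self
  -- integrate
  have hint : ∫⁻ x, h x ≤ ENNReal.ofReal C0 + (∫⁻ x, p x)
      + ENNReal.ofReal (3/4) * (∫⁻ x, h x) + 3 * ∫⁻ x, g x := by
    have hTm : Measurable fun x : E N => y + (2:ℝ) • (x - y) := hhomo.measurable
    have hcont2 : Continuous fun z : E N × ℝ => y + z.2 • (z.1 - y) :=
      continuous_const.add (continuous_snd.smul (continuous_fst.sub continuous_const))
    have hT4m : Measurable T4 := by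
      apply Measurable.lintegral_prod_right'
        (f := fun z : E N × ℝ => g (y + z.2 • (z.1 - y)))
      exact hgmm.comp hcont2.measurable
    have hpc : Measurable fun x : E N => p (y + (2:ℝ) • (x - y)) := hpm.comp hTm
    have hhc : Measurable fun x : E N => h (y + (2:ℝ) • (x - y)) := hhm.comp hTm
    have hT4int : ∫⁻ x, T4 x ≤ ∫⁻ x, g x := by
      rw [hT4]
      rw [lintegral_lintegral_swap]
      · calc ∫⁻ l in Ioc (1:ℝ) 2, ∫⁻ x, g (y + l • (x - y))
            ≤ ∫⁻ l in Ioc (1:ℝ) 2, ∫⁻ x, g x := by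
              apply setLIntegral_mono measurable_const
              intro l hl
              have hl0 : 0 < l := by linarith [hl.1]
              rw [scell_homothety g hgmm y hl0]
              have : ENNReal.ofReal ((l ^ N)⁻¹) ≤ 1 := by
                rw [ENNReal.ofReal_le_one]
                exact inv_le_one_of_one_le₀ (one_le_pow₀ hl.1.le)
              calc ENNReal.ofReal ((l ^ N)⁻¹) * ∫⁻ x, g x ≤ 1 * ∫⁻ x, g x := by gcongr
                _ = _ := one_mul _
          _ = ∫⁻ x, g x := by
              rw [setLIntegral_const, Real.volume_Ioc]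
              norm_num
      · exact (hgmm.comp hcont2.measurable).aemeasurable
    calc ∫⁻ x, h x ≤ ∫⁻ x, (T1 x + ENNReal.ofReal (2 ^ N) * p (y + (2:ℝ) • (x - y))
          + 6 * h (y + (2:ℝ) • (x - y)) + 3 * T4 x) := lintegral_mono hpt
      _ = (∫⁻ x, T1 x) + ENNReal.ofReal (2 ^ N) * (∫⁻ x, p (y + (2:ℝ) • (x - y)))
          + 6 * (∫⁻ x, h (y + (2:ℝ) • (x - y))) + 3 * ∫⁻ x, T4 x := by
          rw [lintegral_add_right _ (hT4m.const_mul 3), lintegral_add_right _
            (hhc.const_mul 6), lintegral_add_left hT1m,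
            lintegral_const_mul _ hpc, lintegral_const_mul _ hhc,
            lintegral_const_mul _ hT4m]
      _ ≤ _ := by
          rw [scell_homothety p hpm y (by norm_num), scell_homothety h hhm y (by norm_num)]
          have e1 : ∫⁻ x, T1 x ≤ ENNReal.ofReal C0 := by
            rw [hT1, lintegral_indicator hS1m]
            exact horb V hVc hVm y s hs
          have e2 : ENNReal.ofReal (2 ^ N) * (ENNReal.ofReal (((2:ℝ) ^ N)⁻¹) * ∫⁻ x, p x)
              = ∫⁻ x, p x := by
            rw [← mul_assoc, ← ENNReal.ofReal_mul (by positivity),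
              mul_inv_cancel₀ (by positivity), ENNReal.ofReal_one, one_mul]
          have e3 : 6 * (ENNReal.ofReal (((2:ℝ) ^ N)⁻¹) * ∫⁻ x, h x)
              ≤ ENNReal.ofReal (3/4) * ∫⁻ x, h x := by
            rw [← mul_assoc]
            gcongr
            have e6 : (6:ENNReal) = ENNReal.ofReal 6 := by norm_num
            rw [e6, ← ENNReal.ofReal_mul (by norm_num)]
            apply ENNReal.ofReal_le_ofReal
            have h8 : (8:ℝ) ≤ 2 ^ N := by
              calc (8:ℝ) = 2 ^ 3 := by norm_num
                _ ≤ 2 ^ N := pow_le_pow_right₀ (by norm_num) hN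
            have : ((2:ℝ) ^ N)⁻¹ ≤ 1 / 8 := by
              rw [inv_eq_one_div]
              exact one_div_le_one_div_of_le (by norm_num) h8
            linarith
          rw [e2]
          gcongr
  -- finiteness
  have hqint : IntegrableOn q S := by
    have hdom : Integrable (fun x => ‖w x‖ ^ 2 / s ^ 2) := hw.l2.div_const _
    refine Integrable.mono' hdom.integrableOn hqm.aestronglyMeasurable ?_
    rw [ae_restrict_iff' hSm]
    refine Filter.Eventually.of_forall fun x hx => ?_
    rw [Real.norm_of_nonneg (hq0 x), hq]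
    simp only
    have h1 : m x ≤ ‖w x‖ := min_le_left _ _
    have h2 : s ≤ dist x y := hx.2
    have h3 := hm0 x
    gcongr
  have hHeq : ∫⁻ x, h x = ENNReal.ofReal (∫ x in S, q x) := by
    rw [hh, lintegral_indicator hSm, ofReal_integral_eq_lintegral_ofReal hqint
      (Filter.Eventually.of_forall hq0)]
  have hPeq : ∫⁻ x, p x = ENNReal.ofReal (∫ x in V, ‖w x‖ ^ β) := by
    rw [hp, lintegral_indicator hVm, ofReal_integral_eq_lintegral_ofReal
      (hw.int_pow hβ2).integrableOn (Filter.Eventually.of_forall fun x => by positivity)]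
  have hGeq : ∫⁻ x, g x = ENNReal.ofReal (∫ x in V, gsq w x) := by
    rw [hg, lintegral_indicator hVm, ofReal_integral_eq_lintegral_ofReal
      hw.g1.integrableOn (Filter.Eventually.of_forall hg0)]
  set A : ℝ := ∫ x in S, q x with hA
  set P : ℝ := ∫ x in V, ‖w x‖ ^ β with hPdef
  set G : ℝ := ∫ x in V, gsq w x with hGdef
  have hA0 : 0 ≤ A := integral_nonneg hq0
  have hP0 : 0 ≤ P := integral_nonneg fun x => by positivity
  have hG0 : 0 ≤ G := integral_nonneg hg0
  rw [hHeq, hPeq, hGeq] at hint
  have e3 : (3:ENNReal) = ENNReal.ofReal 3 := by norm_num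
  rw [e3, ← ENNReal.ofReal_mul (by norm_num), ← ENNReal.ofReal_mul (by norm_num),
    ← ENNReal.ofReal_add (by positivity) (by positivity),
    ← ENNReal.ofReal_add (by positivity) (by positivity),
    ← ENNReal.ofReal_add (by positivity) (by positivity),
    ENNReal.ofReal_le_ofReal_iff (by positivity)] at hint
  have hfin : A ≤ 4 * (C0 + P + 3 * G) := by linarith
  calc A ≤ 4 * (C0 + P + 3 * G) := hfin
    _ ≤ 4 * (C0 + 3) * (1 + G + P) := by nlinarith [mul_nonneg hC0.le hG0, mul_nonneg hC0.le hP0]
end CGL
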