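import Pool.Agent.CGL.Defs
/-! SJ1: size of `J(x) = ∫ (r(y)² + |x-y|²)^{-(N+2)/2} dy` for a 1-Lipschitz `r` -/
open MeasureTheory Set Filter Topology
namespace CGL
variable {N : ℕ}

/-- the weight attached to `r`. -/
noncomputable def Jf (r : E N → ℝ) (x : E N) : ℝ :=
  ∫ y, (r y ^ 2 + dist x y ^ 2) ^ (-((N:ℝ) + 2) / 2)

private theorem sj1_eq (β ρ : ℝ) (hρ : 0 < ρ) (x y : E N) :
    (ρ ^ 2 + dist x y ^ 2) ^ (-β / 2) =
      ρ ^ (-β) * (1 + ‖ρ⁻¹ • (x - y)‖ ^ 2) ^ (-β / 2) := by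
  have h1 : ρ ^ 2 + dist x y ^ 2 = ρ ^ 2 * (1 + ‖ρ⁻¹ • (x - y)‖ ^ 2) := by
    rw [norm_smul, Real.norm_eq_abs, abs_of_pos (inv_pos.2 hρ), dist_eq_norm]
    field_simp
  rw [h1, Real.mul_rpow (by positivity) (by positivity)]
  congr 1
  rw [← Real.rpow_natCast ρ 2, ← Real.rpow_mul hρ.le]
  congr 1
  push_cast
  ring

/-- model integrals: `∫ (ρ² + |x-y|²)^{-β/2} dy = C ρ^{N-β}` for `β > N`. -/
theorem model_int (N : ℕ) (β : ℝ) (hβ : (N:ℝ) < β) : ∃ C : ℝ, 0 < C ∧ ∀ (x : E N) (ρ : ℝ), 0 < ρ →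
    Integrable (fun y : E N => (ρ ^ 2 + dist x y ^ 2) ^ (-β / 2)) ∧
    (∫ y : E N, (ρ ^ 2 + dist x y ^ 2) ^ (-β / 2)) = C * ρ ^ ((N:ℝ) - β) := by
  have hfin : Module.finrank ℝ (E N) = N := by simp [E]
  have hI : Integrable (fun z : E N => (1 + ‖z‖ ^ 2) ^ (-β / 2)) :=
    integrable_rpow_neg_one_add_norm_sq (by rw [hfin]; exact hβ)
  refine ⟨∫ z : E N, (1 + ‖z‖ ^ 2) ^ (-β / 2), ?_, ?_⟩
  · rw [integral_pos_iff_support_of_nonneg (fun z => by positivity) hI]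
    have : Function.support (fun z : E N => (1 + ‖z‖ ^ 2) ^ (-β / 2)) = univ := by
      ext z
      simp only [Function.mem_support, mem_univ, iff_true]
      positivity
    rw [this]
    exact Measure.measure_univ_pos.2 (NeZero.ne _)
  · intro x ρ hρ
    have hρ' : ρ⁻¹ ≠ 0 := (inv_pos.2 hρ).ne'
    have hI2 : Integrable (fun z : E N => (1 + ‖ρ⁻¹ • z‖ ^ 2) ^ (-β / 2)) :=
      (integrable_comp_smul_iff volume (fun z : E N => (1 + ‖z‖ ^ 2) ^ (-β / 2)) hρ').2 hI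
    have hI3 : Integrable (fun y : E N => (1 + ‖ρ⁻¹ • (x - y)‖ ^ 2) ^ (-β / 2)) :=
      hI2.comp_sub_left x
    constructor
    · refine (hI3.const_mul (ρ ^ (-β))).congr (Eventually.of_forall fun y => ?_)
      exact (sj1_eq β ρ hρ x y).symm
    · calc (∫ y : E N, (ρ ^ 2 + dist x y ^ 2) ^ (-β / 2))
          = ∫ y : E N, ρ ^ (-β) * (1 + ‖ρ⁻¹ • (x - y)‖ ^ 2) ^ (-β / 2) := by
            congr 1; funext y; exact sj1_eq β ρ hρ x y
        _ = ρ ^ (-β) * ∫ y : E N, (1 + ‖ρ⁻¹ • (x - y)‖ ^ 2) ^ (-β / 2) :=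
            integral_const_mul _ _
        _ = ρ ^ (-β) * ∫ y : E N, (1 + ‖ρ⁻¹ • y‖ ^ 2) ^ (-β / 2) := by
            rw [integral_sub_left_eq_self (fun y : E N => (1 + ‖ρ⁻¹ • y‖ ^ 2) ^ (-β / 2))]
        _ = ρ ^ (-β) * (ρ ^ N * ∫ y : E N, (1 + ‖y‖ ^ 2) ^ (-β / 2)) := by
            rw [Measure.integral_comp_inv_smul_of_nonneg volume
              (fun y : E N => (1 + ‖y‖ ^ 2) ^ (-β / 2)) hρ.le, hfin, smul_eq_mul]
        _ = _ := by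
            rw [sub_eq_add_neg, Real.rpow_add hρ, Real.rpow_natCast]
            ring

/-- comparison: for 1-Lipschitz `r ≥ m > 0`, `(r(y)²+|x-y|²)^{-β/2}` is comparable to
`(r(x)²+|x-y|²)^{-β/2}`. -/
theorem ker_le (N : ℕ) {r : E N → ℝ} (hr : ∀ x y, |r x - r y| ≤ dist x y) (hr0 : ∀ x, 0 < r x)
    (x y : E N) : (r x ^ 2 + dist x y ^ 2) / 4 ≤ r y ^ 2 + dist x y ^ 2 ∧
      r y ^ 2 + dist x y ^ 2 ≤ 4 * (r x ^ 2 + dist x y ^ 2) := by
  have h := abs_le.1 (hr x y)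
  have h1 := hr0 x
  have h2 := hr0 y
  have h3 : 0 ≤ dist x y := dist_nonneg
  generalize dist x y = d at *
  generalize r x = a at *
  generalize r y = b at *
  constructor
  · nlinarith [sq_nonneg (b - d)]
  · nlinarith [sq_nonneg (a - d)]

/-- general upper bound for the kernels with exponent `β > N`. -/
theorem Jbeta_le (N : ℕ) (β : ℝ) (hβ : (N:ℝ) < β) : ∃ C : ℝ, 0 < C ∧ ∀ (r : E N → ℝ),
    (∀ x y, |r x - r y| ≤ dist x y) → (∀ x, 0 < r x) → ∀ x,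
      Integrable (fun y => (r y ^ 2 + dist x y ^ 2) ^ (-β / 2)) ∧
      (∫ y, (r y ^ 2 + dist x y ^ 2) ^ (-β / 2)) ≤ C * r x ^ ((N:ℝ) - β) := by
  obtain ⟨C, hC, h⟩ := model_int N β hβ
  have hβ0 : 0 < β := lt_of_le_of_lt (Nat.cast_nonneg N) hβ
  refine ⟨4 ^ (β / 2) * C, by positivity, fun r hr hr0 x => ?_⟩
  obtain ⟨hI, hv⟩ := h x (r x) (hr0 x)
  have hcr : Continuous r := by
    have : LipschitzWith 1 r := LipschitzWith.of_dist_le_mul fun a b => by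
      rw [Real.dist_eq, NNReal.coe_one, one_mul]; exact hr a b
    exact this.continuous
  have hcont : Continuous (fun y : E N => (r y ^ 2 + dist x y ^ 2) ^ (-β / 2)) := by
    apply Continuous.rpow_const
    · exact (hcr.pow 2).add ((continuous_const.dist continuous_id).pow 2)
    · intro y
      left
      have := hr0 y
      positivity
  have hb : ∀ y, (r y ^ 2 + dist x y ^ 2) ^ (-β / 2) ≤
      4 ^ (β / 2) * (r x ^ 2 + dist x y ^ 2) ^ (-β / 2) := by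
    intro y
    have h1 := (ker_le N hr hr0 x y).1
    have h2 := hr0 x
    have h3 : 0 < (r x ^ 2 + dist x y ^ 2) := by positivity
    calc (r y ^ 2 + dist x y ^ 2) ^ (-β / 2) ≤ ((r x ^ 2 + dist x y ^ 2) / 4) ^ (-β / 2) :=
          Real.rpow_le_rpow_of_nonpos (by positivity) h1 (by linarith)
      _ = 4 ^ (β / 2) * (r x ^ 2 + dist x y ^ 2) ^ (-β / 2) := by
          rw [Real.div_rpow h3.le (by norm_num), neg_div, Real.rpow_neg (by norm_num : (0:ℝ) ≤ 4)]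
          field_simp
  have hI2 : Integrable (fun y => (r y ^ 2 + dist x y ^ 2) ^ (-β / 2)) := by
    refine (hI.const_mul (4 ^ (β / 2))).mono' hcont.aestronglyMeasurable
      (Eventually.of_forall fun y => ?_)
    rw [Real.norm_eq_abs, abs_of_nonneg (by positivity)]
    exact hb y
  refine ⟨hI2, ?_⟩
  calc (∫ y, (r y ^ 2 + dist x y ^ 2) ^ (-β / 2))
      ≤ ∫ y, 4 ^ (β / 2) * (r x ^ 2 + dist x y ^ 2) ^ (-β / 2) :=
        integral_mono hI2 (hI.const_mul _) hb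
    _ = 4 ^ (β / 2) * ∫ y, (r x ^ 2 + dist x y ^ 2) ^ (-β / 2) := integral_const_mul _ _
    _ = _ := by rw [hv]; ring

theorem Jf_size (N : ℕ) : ∃ C : ℝ, 0 < C ∧ ∀ (r : E N → ℝ), (∀ x y, |r x - r y| ≤ dist x y) →
    (∀ x, 0 < r x) → ∀ x, 1 / C ≤ r x ^ 2 * Jf r x ∧ r x ^ 2 * Jf r x ≤ C := by
  have hβ : (N:ℝ) < (N:ℝ) + 2 := by linarith
  obtain ⟨C, hC, h⟩ := model_int N ((N:ℝ) + 2) hβ
  obtain ⟨C', hC', h'⟩ := Jbeta_le N ((N:ℝ) + 2) hβ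
  have h4 : (0:ℝ) < 4 ^ (((N:ℝ) + 2) / 2) := by positivity
  refine ⟨max C' (4 ^ (((N:ℝ) + 2) / 2) / C), lt_max_of_lt_left hC', fun r hr hr0 x => ?_⟩
  obtain ⟨hI, hv⟩ := h x (r x) (hr0 x)
  obtain ⟨hI', hv'⟩ := h' r hr hr0 x
  have hrx := hr0 x
  have hpow : r x ^ 2 * r x ^ ((N:ℝ) - ((N:ℝ) + 2)) = 1 := by
    rw [← Real.rpow_natCast (r x) 2, ← Real.rpow_add hrx]
    push_cast
    rw [show (2:ℝ) + ((N:ℝ) - ((N:ℝ) + 2)) = 0 by ring, Real.rpow_zero]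
  constructor
  · have hb : ∀ y, (4 ^ (((N:ℝ) + 2) / 2))⁻¹ * (r x ^ 2 + dist x y ^ 2) ^ (-((N:ℝ) + 2) / 2) ≤
        (r y ^ 2 + dist x y ^ 2) ^ (-((N:ℝ) + 2) / 2) := by
      intro y
      have h1 := (ker_le N hr hr0 x y).2
      have h2 := hr0 y
      have h3 : 0 < (r x ^ 2 + dist x y ^ 2) := by positivity
      have hN : (0:ℝ) ≤ N := Nat.cast_nonneg N
      calc (4 ^ (((N:ℝ) + 2) / 2))⁻¹ * (r x ^ 2 + dist x y ^ 2) ^ (-((N:ℝ) + 2) / 2)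
          = (4 * (r x ^ 2 + dist x y ^ 2)) ^ (-((N:ℝ) + 2) / 2) := by
            rw [Real.mul_rpow (by norm_num) h3.le]
            congr 1
            rw [neg_div, Real.rpow_neg (by norm_num : (0:ℝ) ≤ 4)]
        _ ≤ _ := Real.rpow_le_rpow_of_nonpos (by positivity) h1 (by linarith)
    have hlow : (4 ^ (((N:ℝ) + 2) / 2))⁻¹ * (C * r x ^ ((N:ℝ) - ((N:ℝ) + 2))) ≤ Jf r x := by
      rw [← hv, ← integral_const_mul]
      exact integral_mono (hI.const_mul _) hI' hb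
    calc 1 / max C' (4 ^ (((N:ℝ) + 2) / 2) / C) ≤ 1 / (4 ^ (((N:ℝ) + 2) / 2) / C) :=
          one_div_le_one_div_of_le (by positivity) (le_max_right _ _)
      _ = (4 ^ (((N:ℝ) + 2) / 2))⁻¹ * C * (r x ^ 2 * r x ^ ((N:ℝ) - ((N:ℝ) + 2))) := by
          rw [hpow]; field_simp
      _ = r x ^ 2 * ((4 ^ (((N:ℝ) + 2) / 2))⁻¹ * (C * r x ^ ((N:ℝ) - ((N:ℝ) + 2)))) := by ring
      _ ≤ r x ^ 2 * Jf r x := mul_le_mul_of_nonneg_left hlow (by positivity)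
  · calc r x ^ 2 * Jf r x ≤ r x ^ 2 * (C' * r x ^ ((N:ℝ) - ((N:ℝ) + 2))) :=
          mul_le_mul_of_nonneg_left hv' (by positivity)
      _ = C' * (r x ^ 2 * r x ^ ((N:ℝ) - ((N:ℝ) + 2))) := by ring
      _ = C' := by rw [hpow, mul_one]
      _ ≤ _ := le_max_left _ _
end CGL
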