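import Pool.Agent.CGL.Defs
/-! SR: the function `r = √rsq` -/
open MeasureTheory Set Filter Topology
namespace CGL
variable {N : ℕ}

theorem rsq_le_R (Sd : Finset (E N × ℝ)) (R : ℝ) (x : E N) : rsq Sd R x ≤ R ^ 2 := by
  unfold rsq
  exact (Finset.fold_min_le _).2 (Or.inl le_rfl)
theorem rsq_le_seed (Sd : Finset (E N × ℝ)) (R : ℝ) (x : E N) {p : E N × ℝ} (hp : p ∈ Sd) :
    rsq Sd R x ≤ p.2 ^ 2 + dist x p.1 ^ 2 := by
  unfold rsq
  exact (Finset.fold_min_le _).2 (Or.inr ⟨p, hp, le_rfl⟩)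
theorem rsq_attained (Sd : Finset (E N × ℝ)) (R : ℝ) (x : E N) :
    rsq Sd R x = R ^ 2 ∨ ∃ p ∈ Sd, rsq Sd R x = p.2 ^ 2 + dist x p.1 ^ 2 := by
  have h : rsq Sd R x ≤ rsq Sd R x := le_rfl
  have h2 := h
  unfold rsq at h2
  rw [Finset.fold_min_le] at h2
  rcases h2 with h2 | ⟨p, hp, h2⟩
  · exact Or.inl (le_antisymm (rsq_le_R Sd R x) h2)
  · exact Or.inr ⟨p, hp, le_antisymm (rsq_le_seed Sd R x hp) h2⟩
/-- positive lower bound. -/
theorem rsq_lower (Sd : Finset (E N × ℝ)) {R : ℝ} (hR : 0 < R) (hS : ∀ p ∈ Sd, 0 < p.2) :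
    ∃ m : ℝ, 0 < m ∧ ∀ x, m ^ 2 ≤ rsq Sd R x := by
  refine ⟨Sd.fold min R (fun p => p.2), ?_, ?_⟩
  · exact (Finset.lt_fold_min _).2 ⟨hR, hS⟩
  · intro x
    have h0 : 0 < Sd.fold min R (fun p => p.2) := (Finset.lt_fold_min _).2 ⟨hR, hS⟩
    unfold rsq
    refine (Finset.le_fold_min _).2 ⟨?_, ?_⟩
    · have h1 : Sd.fold min R (fun p => p.2) ≤ R := (Finset.fold_min_le _).2 (Or.inl le_rfl)
      exact pow_le_pow_left₀ h0.le h1 2
    · intro p hp
      have h1 : Sd.fold min R (fun p => p.2) ≤ p.2 :=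
        (Finset.fold_min_le _).2 (Or.inr ⟨p, hp, le_rfl⟩)
      have h2 := pow_le_pow_left₀ h0.le h1 2
      have h3 : 0 ≤ dist x p.1 ^ 2 := sq_nonneg _
      linarith
theorem rsq_cont (Sd : Finset (E N × ℝ)) (R : ℝ) : Continuous (rsq Sd R) := by
  classical
  unfold rsq
  induction Sd using Finset.induction_on with
  | empty => simpa using continuous_const
  | insert a s ha ih =>
    have h : (fun x : E N => (insert a s).fold min (R ^ 2) (fun p => p.2 ^ 2 + dist x p.1 ^ 2))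
        = fun x => min (a.2 ^ 2 + dist x a.1 ^ 2)
            (s.fold min (R ^ 2) (fun p => p.2 ^ 2 + dist x p.1 ^ 2)) := by
      funext x
      rw [Finset.fold_insert ha]
    rw [h]
    exact Continuous.min (by fun_prop) ih

private theorem sqrt_rsq_le (Sd : Finset (E N × ℝ)) {R : ℝ} (x y : E N) :
    Real.sqrt (rsq Sd R x) ≤ Real.sqrt (rsq Sd R y) + dist x y := by
  rcases rsq_attained Sd R y with h | ⟨p, hp, h⟩
  · have h1 : Real.sqrt (rsq Sd R x) ≤ Real.sqrt (rsq Sd R y) := by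
      rw [h]
      exact Real.sqrt_le_sqrt (rsq_le_R Sd R x)
    have := dist_nonneg (x := x) (y := y)
    linarith
  · rw [h]
    have h1 : Real.sqrt (rsq Sd R x) ≤ Real.sqrt (p.2 ^ 2 + dist x p.1 ^ 2) :=
      Real.sqrt_le_sqrt (rsq_le_seed Sd R x hp)
    refine h1.trans ?_
    have ha : 0 ≤ dist y p.1 := dist_nonneg
    have hb : 0 ≤ dist x y := dist_nonneg
    have hc : 0 ≤ dist x p.1 := dist_nonneg
    have ht : dist x p.1 ≤ dist x y + dist y p.1 := dist_triangle _ _ _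
    have hs0 : 0 ≤ p.2 ^ 2 + dist y p.1 ^ 2 := by positivity
    have hs : dist y p.1 ≤ Real.sqrt (p.2 ^ 2 + dist y p.1 ^ 2) := by
      apply Real.le_sqrt_of_sq_le
      nlinarith [sq_nonneg p.2]
    have hsq : Real.sqrt (p.2 ^ 2 + dist y p.1 ^ 2) ^ 2 = p.2 ^ 2 + dist y p.1 ^ 2 :=
      Real.sq_sqrt hs0
    refine Real.sqrt_le_iff.2 ⟨by positivity, ?_⟩
    have h3 : dist x p.1 ^ 2 ≤ (dist x y + dist y p.1) ^ 2 := pow_le_pow_left₀ hc ht 2
    nlinarith [mul_le_mul_of_nonneg_left hs hb]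
/-- `√rsq` is 1-Lipschitz. -/
theorem sqrt_rsq_lip (Sd : Finset (E N × ℝ)) {R : ℝ} (hR : 0 < R) (hS : ∀ p ∈ Sd, 0 < p.2)
    (x y : E N) : |Real.sqrt (rsq Sd R x) - Real.sqrt (rsq Sd R y)| ≤ dist x y := by
  have h1 := sqrt_rsq_le Sd (R := R) x y
  have h2 := sqrt_rsq_le Sd (R := R) y x
  rw [dist_comm] at h2
  rw [abs_le]
  constructor <;> linarith
end CGL
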