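import Pool.Agent.CGL.STool
import Pool.Agent.CGL.SR
import Pool.Agent.CGL.SJ1
/-! SCOSTA: `∫ |w|²/r² ≤ C (F + D + Σ s^{N-2-4/α}) + M/R²` -/
open MeasureTheory Set Filter Topology
namespace CGL

/-- pointwise inequality for one value of `σ`. -/
theorem scosta_pt {α a σ : ℝ} (hα : 0 < α) (ha : 0 ≤ a) (hσ : 0 < σ) :
    a ^ 2 / σ ≤ a ^ (α + 2) + σ ^ (-(2 + 4 / α) / 2) := by
  have h1 : 0 ≤ a ^ (α + 2) := Real.rpow_nonneg ha _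
  have h2 : 0 < σ ^ (-(2 + 4 / α) / 2) := Real.rpow_pos_of_pos hσ _
  rcases eq_or_lt_of_le ha with h0 | h0
  · rw [← h0] at h1 ⊢
    simp only [ne_eq, OfNat.ofNat_ne_zero, not_false_eq_true, zero_pow, zero_div]
    linarith
  by_cases h : 1 / σ ≤ a ^ α
  · have h3 : a ^ 2 / σ ≤ a ^ (α + 2) := by
      rw [Real.rpow_add h0, Real.rpow_two]
      calc a ^ 2 / σ = (1 / σ) * a ^ 2 := by ring
        _ ≤ a ^ α * a ^ 2 := mul_le_mul_of_nonneg_right h (sq_nonneg a)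
    linarith
  · push Not at h
    have h3 : a ^ 2 ≤ σ ^ (-(2 / α)) := by
      have h4 : (a ^ α) ^ (2 / α) ≤ (1 / σ) ^ (2 / α) :=
        Real.rpow_le_rpow (Real.rpow_nonneg ha _) h.le (by positivity)
      rw [← Real.rpow_mul ha, mul_div_cancel₀ _ hα.ne', Real.rpow_two, one_div,
        Real.inv_rpow hσ.le, ← Real.rpow_neg hσ.le] at h4
      exact h4
    have h5 : σ ^ (-(2 + 4 / α) / 2) = σ ^ (-(2 / α)) / σ := by
      have h6 : -(2 + 4 / α) / 2 = -(2 / α) - 1 := by ring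
      rw [h6, Real.rpow_sub_one hσ.ne']
    rw [h5]
    have h6 : a ^ 2 / σ ≤ σ ^ (-(2 / α)) / σ := div_le_div_of_nonneg_right h3 hσ.le
    linarith

/-- subcritical case (pointwise inequality + `model_int`). -/
theorem cost_sub (N : ℕ) (α : ℝ) (hα : 0 < α) (hsub : ((N:ℝ) - 2) * α < 4) :
    ∃ C : ℝ, 0 < C ∧ ∀ (w : E N → ℂ), Nice w → ∀ (Sd : Finset (E N × ℝ)) (R : ℝ), 0 < R →
      (∀ p ∈ Sd, 0 < p.2) →
      (∫ x, ‖w x‖ ^ 2 / rsq Sd R x)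
        ≤ C * ((∫ x, ‖w x‖ ^ (α + 2)) + (∫ x, gsq w x) + ∑ p ∈ Sd, p.2 ^ ((N:ℝ) - 2 - 4 / α))
          + (∫ x, ‖w x‖ ^ 2) / R ^ 2 := by
  have hβ : (N : ℝ) < 2 + 4 / α := by
    have h1 : (N : ℝ) - 2 < 4 / α := by
      rw [lt_div_iff₀ hα]
      exact hsub
    linarith
  obtain ⟨Cm, hCm, hmod⟩ := model_int N (2 + 4 / α) hβ
  refine ⟨1 + Cm, by positivity, ?_⟩
  intro w hw Sd R hR hS
  have hF : Integrable (fun x => ‖w x‖ ^ (α + 2)) := hw.int_pow (by linarith)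
  have hM : Integrable (fun x => ‖w x‖ ^ 2 / R ^ 2) := hw.l2.div_const _
  have hseed : ∀ p ∈ Sd, Integrable (fun x : E N =>
      (p.2 ^ 2 + dist x p.1 ^ 2) ^ (-(2 + 4 / α) / 2)) := by
    intro p hp
    have h1 := (hmod p.1 p.2 (hS p hp)).1
    refine h1.congr (Filter.Eventually.of_forall fun x => ?_)
    simp only [dist_comm]
  have hseedv : ∀ p ∈ Sd, (∫ x : E N, (p.2 ^ 2 + dist x p.1 ^ 2) ^ (-(2 + 4 / α) / 2)) =
      Cm * p.2 ^ ((N:ℝ) - 2 - 4 / α) := by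
    intro p hp
    have h1 := (hmod p.1 p.2 (hS p hp)).2
    have h2 : (N : ℝ) - 2 - 4 / α = (N : ℝ) - (2 + 4 / α) := by ring
    rw [h2, ← h1]
    congr 1
    funext x
    rw [dist_comm]
  have hsum : Integrable (fun x : E N => ∑ p ∈ Sd,
      (p.2 ^ 2 + dist x p.1 ^ 2) ^ (-(2 + 4 / α) / 2)) := integrable_finset_sum _ hseed
  have hterm : ∀ (x : E N), ∀ p ∈ Sd, 0 < p.2 ^ 2 + dist x p.1 ^ 2 := by
    intro x p hp
    have := hS p hp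
    positivity
  have hrpos : ∀ x, 0 < rsq Sd R x := by
    intro x
    rcases rsq_attained Sd R x with h | ⟨p, hp, h⟩
    · rw [h]; positivity
    · rw [h]; exact hterm x p hp
  have hpt : ∀ x, ‖w x‖ ^ 2 / rsq Sd R x ≤ ‖w x‖ ^ (α + 2) +
      (∑ p ∈ Sd, (p.2 ^ 2 + dist x p.1 ^ 2) ^ (-(2 + 4 / α) / 2)) + ‖w x‖ ^ 2 / R ^ 2 := by
    intro x
    have h1 : 0 ≤ ‖w x‖ ^ (α + 2) := Real.rpow_nonneg (norm_nonneg _) _
    have h2 : 0 ≤ ∑ p ∈ Sd, (p.2 ^ 2 + dist x p.1 ^ 2) ^ (-(2 + 4 / α) / 2) :=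
      Finset.sum_nonneg fun p hp => (Real.rpow_pos_of_pos (hterm x p hp) _).le
    have h3 : 0 ≤ ‖w x‖ ^ 2 / R ^ 2 := by positivity
    rcases rsq_attained Sd R x with h | ⟨p, hp, h⟩
    · rw [h]
      linarith
    · rw [h]
      have h4 := scosta_pt hα (norm_nonneg (w x)) (hterm x p hp)
      have h5 : (p.2 ^ 2 + dist x p.1 ^ 2) ^ (-(2 + 4 / α) / 2) ≤
          ∑ p ∈ Sd, (p.2 ^ 2 + dist x p.1 ^ 2) ^ (-(2 + 4 / α) / 2) :=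
        Finset.single_le_sum (f := fun p : E N × ℝ =>
          (p.2 ^ 2 + dist x p.1 ^ 2) ^ (-(2 + 4 / α) / 2))
          (fun q hq => (Real.rpow_pos_of_pos (hterm x q hq) _).le) hp
      linarith
  have hint : Integrable (fun x => ‖w x‖ ^ (α + 2) +
      (∑ p ∈ Sd, (p.2 ^ 2 + dist x p.1 ^ 2) ^ (-(2 + 4 / α) / 2)) + ‖w x‖ ^ 2 / R ^ 2) :=
    (hF.add hsum).add hM
  have hmain : (∫ x, ‖w x‖ ^ 2 / rsq Sd R x) ≤ ∫ x, (‖w x‖ ^ (α + 2) +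
      (∑ p ∈ Sd, (p.2 ^ 2 + dist x p.1 ^ 2) ^ (-(2 + 4 / α) / 2)) + ‖w x‖ ^ 2 / R ^ 2) := by
    apply integral_mono_of_nonneg _ hint (Filter.Eventually.of_forall hpt)
    refine Filter.Eventually.of_forall fun x => ?_
    have := hrpos x
    positivity
  have hval : (∫ x, (‖w x‖ ^ (α + 2) +
      (∑ p ∈ Sd, (p.2 ^ 2 + dist x p.1 ^ 2) ^ (-(2 + 4 / α) / 2)) + ‖w x‖ ^ 2 / R ^ 2)) =
      (∫ x, ‖w x‖ ^ (α + 2)) + (∑ p ∈ Sd, Cm * p.2 ^ ((N:ℝ) - 2 - 4 / α)) +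
        (∫ x, ‖w x‖ ^ 2) / R ^ 2 := by
    rw [integral_add (f := fun x => ‖w x‖ ^ (α + 2) +
      (∑ p ∈ Sd, (p.2 ^ 2 + dist x p.1 ^ 2) ^ (-(2 + 4 / α) / 2))) (hF.add hsum) hM,
      integral_add hF hsum, integral_finset_sum _ hseed, Finset.sum_congr rfl hseedv,
      integral_div]
  rw [hval, ← Finset.mul_sum] at hmain
  have hF0 : 0 ≤ ∫ x, ‖w x‖ ^ (α + 2) :=
    integral_nonneg fun x => Real.rpow_nonneg (norm_nonneg _) _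
  have hD0 : 0 ≤ ∫ x, gsq w x := integral_nonneg fun x => gsq_nonneg w x
  have hS0 : 0 ≤ ∑ p ∈ Sd, p.2 ^ ((N:ℝ) - 2 - 4 / α) :=
    Finset.sum_nonneg fun p hp => (Real.rpow_pos_of_pos (hS p hp) _).le
  have hCF : 0 ≤ Cm * ∫ x, ‖w x‖ ^ (α + 2) := mul_nonneg hCm.le hF0
  have hCD : 0 ≤ (1 + Cm) * ∫ x, gsq w x := mul_nonneg (by linarith) hD0
  have hexp : (1 + Cm) * ((∫ x, ‖w x‖ ^ (α + 2)) + (∫ x, gsq w x) +
      ∑ p ∈ Sd, p.2 ^ ((N:ℝ) - 2 - 4 / α)) =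
      (∫ x, ‖w x‖ ^ (α + 2)) + Cm * (∫ x, ‖w x‖ ^ (α + 2)) + (1 + Cm) * (∫ x, gsq w x) +
      (∑ p ∈ Sd, p.2 ^ ((N:ℝ) - 2 - 4 / α)) + Cm * ∑ p ∈ Sd, p.2 ^ ((N:ℝ) - 2 - 4 / α) := by
    ring
  rw [hexp]
  linarith
end CGL
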