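import Pool.Agent.CGL.STool
import Pool.Agent.CGL.SR
import Pool.Agent.CGL.SCell
/-! SCOSTB: `∫ |w|²/r² ≤ C (F + D + Σ s^{N-2-4/α}) + M/R²` -/
open MeasureTheory Set Filter Topology
namespace CGL

/-- `σ_p(x) = s² + |x - y|²` for the seed `p = (y, s)`. -/
noncomputable def scb_sig {N : ℕ} (p : E N × ℝ) (x : E N) : ℝ := p.2 ^ 2 + dist x p.1 ^ 2

theorem scb_sig_cont {N : ℕ} (p : E N × ℝ) : Continuous (scb_sig p) := by
  unfold scb_sig; fun_prop

/-- the linear functional `x ↦ 2⟨q - p, x⟩`. -/
noncomputable def scb_lin {N : ℕ} (p q : E N × ℝ) (x : E N) : ℝ := 2 * inner ℝ (q.1 - p.1) x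

theorem scb_lin_isLinear {N : ℕ} (p q : E N × ℝ) : IsLinearMap ℝ (scb_lin p q) where
  map_add x y := by unfold scb_lin; rw [inner_add_right]; ring
  map_smul c x := by unfold scb_lin; rw [inner_smul_right, smul_eq_mul]; ring

theorem scb_sig_sub {N : ℕ} (p q : E N × ℝ) (x : E N) :
    scb_sig p x - scb_sig q x
      = scb_lin p q x - (q.2 ^ 2 + ‖q.1‖ ^ 2 - p.2 ^ 2 - ‖p.1‖ ^ 2) := by
  unfold scb_sig scb_lin
  rw [dist_eq_norm, dist_eq_norm, norm_sub_sq_real, norm_sub_sq_real, inner_sub_left,
    real_inner_comm x p.1, real_inner_comm x q.1]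
  ring

/-- the cell of the seed `p` (ties broken by `e`). -/
def scb_cell {N : ℕ} (Sd : Finset (E N × ℝ)) (R : ℝ) (e : E N × ℝ → ℕ) (p : E N × ℝ) :
    Set (E N) :=
  {x | scb_sig p x < R ^ 2} ∩ (⋂ q ∈ Sd, ({x | e q < e p → scb_sig p x < scb_sig q x}
    ∩ {x | e p < e q → scb_sig p x ≤ scb_sig q x}))

theorem scb_mem_cell {N : ℕ} {Sd : Finset (E N × ℝ)} {R : ℝ} {e : E N × ℝ → ℕ} {p : E N × ℝ}
    {x : E N} : x ∈ scb_cell Sd R e p ↔ scb_sig p x < R ^ 2 ∧ ∀ q ∈ Sd,
      (e q < e p → scb_sig p x < scb_sig q x) ∧ (e p < e q → scb_sig p x ≤ scb_sig q x) := by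
  unfold scb_cell
  simp only [mem_inter_iff, Set.mem_ofPred_eq, mem_iInter]

theorem scb_convex {N : ℕ} (Sd : Finset (E N × ℝ)) (R : ℝ) (e : E N × ℝ → ℕ) (p : E N × ℝ) :
    Convex ℝ (scb_cell Sd R e p) := by
  unfold scb_cell
  apply Convex.inter
  · have : {x | scb_sig p x < R ^ 2} = Metric.ball p.1 (Real.sqrt (R ^ 2 - p.2 ^ 2)) := by
      ext x
      rw [Metric.mem_ball, Real.lt_sqrt dist_nonneg]
      simp only [Set.mem_ofPred_eq, scb_sig]
      constructor <;> intro h <;> linarith
    rw [this]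
    exact convex_ball _ _
  · apply convex_iInter
    intro q
    apply convex_iInter
    intro _
    apply Convex.inter
    · by_cases h : e q < e p
      · have : {x | e q < e p → scb_sig p x < scb_sig q x}
            = {x | scb_lin p q x < q.2 ^ 2 + ‖q.1‖ ^ 2 - p.2 ^ 2 - ‖p.1‖ ^ 2} := by
          ext x
          simp only [Set.mem_ofPred_eq, h, true_imp_iff]
          have := scb_sig_sub p q x
          constructor <;> intro h' <;> linarith
        rw [this]
        exact convex_halfSpace_lt (scb_lin_isLinear p q) _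
      · have : {x | e q < e p → scb_sig p x < scb_sig q x} = univ := by
          ext x
          simp [h]
        rw [this]; exact convex_univ
    · by_cases h : e p < e q
      · have : {x | e p < e q → scb_sig p x ≤ scb_sig q x}
            = {x | scb_lin p q x ≤ q.2 ^ 2 + ‖q.1‖ ^ 2 - p.2 ^ 2 - ‖p.1‖ ^ 2} := by
          ext x
          simp only [Set.mem_ofPred_eq, h, true_imp_iff]
          have := scb_sig_sub p q x
          constructor <;> intro h' <;> linarith
        rw [this]
        exact convex_halfSpace_le (scb_lin_isLinear p q) _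
      · have : {x | e p < e q → scb_sig p x ≤ scb_sig q x} = univ := by
          ext x
          simp [h]
        rw [this]; exact convex_univ

theorem scb_meas {N : ℕ} (Sd : Finset (E N × ℝ)) (R : ℝ) (e : E N × ℝ → ℕ) (p : E N × ℝ) :
    MeasurableSet (scb_cell Sd R e p) := by
  unfold scb_cell
  apply MeasurableSet.inter
  · exact measurableSet_lt (scb_sig_cont p).measurable measurable_const
  · apply Finset.measurableSet_biInter
    intro q _
    apply MeasurableSet.inter
    · by_cases h : e q < e p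
      · simp only [h, true_imp_iff]
        exact measurableSet_lt (scb_sig_cont p).measurable (scb_sig_cont q).measurable
      · simp [h]
    · by_cases h : e p < e q
      · simp only [h, true_imp_iff]
        exact measurableSet_le (scb_sig_cont p).measurable (scb_sig_cont q).measurable
      · simp [h]

theorem scb_disj {N : ℕ} {Sd : Finset (E N × ℝ)} {R : ℝ} {e : E N × ℝ → ℕ}
    (he : InjOn e (Sd : Set (E N × ℝ))) :
    (Sd : Set (E N × ℝ)).Pairwise (Function.onFun Disjoint (scb_cell Sd R e)) := by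
  have key : ∀ p ∈ Sd, ∀ q ∈ Sd, e p < e q → ∀ x, x ∈ scb_cell Sd R e p →
      x ∈ scb_cell Sd R e q → False := by
    intro p hp q hq hlt x hxp hxq
    have h1 := ((scb_mem_cell.1 hxp).2 q hq).2 hlt
    have h2 := ((scb_mem_cell.1 hxq).2 p hp).1 hlt
    linarith
  intro p hp q hq hpq
  rw [Function.onFun, Set.disjoint_left]
  intro x hxp hxq
  rcases lt_trichotomy (e p) (e q) with h | h | h
  · exact key p hp q hq h x hxp hxq
  · exact hpq (he hp hq h)
  · exact key q hq p hp h x hxq hxp

theorem scb_cover {N : ℕ} (Sd : Finset (E N × ℝ)) (R : ℝ) (e : E N × ℝ → ℕ) (x : E N)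
    (hx : rsq Sd R x < R ^ 2) :
    ∃ p ∈ Sd, x ∈ scb_cell Sd R e p ∧ rsq Sd R x = scb_sig p x := by
  classical
  set A := Sd.filter (fun p => rsq Sd R x = scb_sig p x) with hA
  have hne : A.Nonempty := by
    rcases rsq_attained Sd R x with h | ⟨p, hp, h⟩
    · exact absurd h hx.ne
    · exact ⟨p, Finset.mem_filter.2 ⟨hp, h⟩⟩
  obtain ⟨p, hpA, hmin⟩ := Finset.exists_min_image A e hne
  obtain ⟨hp, hpe⟩ := Finset.mem_filter.1 hpA
  refine ⟨p, hp, scb_mem_cell.2 ⟨by rw [← hpe]; exact hx, fun q hq => ⟨fun hlt => ?_, fun _ => ?_⟩⟩,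
    hpe⟩
  · have h1 : rsq Sd R x ≤ scb_sig q x := rsq_le_seed Sd R x hq
    rcases h1.lt_or_eq with h | h
    · rw [← hpe]; exact h
    · exact absurd (hmin q (Finset.mem_filter.2 ⟨hq, h⟩)) (not_le.2 hlt)
  · rw [← hpe]
    exact rsq_le_seed Sd R x hq

/-- critical case (Hardy inequality in the convex power cells of the seeds). -/
theorem cost_crit (N : ℕ) (α : ℝ) (hα : 0 < α) (hcr : ((N:ℝ) - 2) * α = 4) :
    ∃ C : ℝ, 0 < C ∧ ∀ (w : E N → ℂ), Nice w → ∀ (Sd : Finset (E N × ℝ)) (R : ℝ), 0 < R →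
      (∀ p ∈ Sd, 0 < p.2) →
      (∫ x, ‖w x‖ ^ 2 / rsq Sd R x)
        ≤ C * ((∫ x, ‖w x‖ ^ (α + 2)) + (∫ x, gsq w x) + ∑ p ∈ Sd, p.2 ^ ((N:ℝ) - 2 - 4 / α))
          + (∫ x, ‖w x‖ ^ 2) / R ^ 2 := by
  have hN2 : (0:ℝ) < (N:ℝ) - 2 := by
    by_contra h
    push Not at h
    nlinarith
  have hN3 : 3 ≤ N := by
    have : (2:ℝ) < N := by linarith
    have : 2 < N := by exact_mod_cast this
    omega
  have hNpos : (0:ℝ) < N := by linarith
  have h4α : 4 / α = (N:ℝ) - 2 := by field_simp; linarith
  have hαeq : α = 4 / ((N:ℝ) - 2) := by field_simp; linarith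
  obtain ⟨C1, hC1, hcell⟩ := one_cell N hN3
  set vN : ℝ := volume.real (Metric.ball (0 : E N) 1) with hvN
  have hvN0 : 0 ≤ vN := measureReal_nonneg
  refine ⟨2 * C1 + 1 + vN, by positivity, ?_⟩
  intro w hw Sd R hR hSd
  have hexp : 2 * (N:ℝ) / ((N:ℝ) - 2) = α + 2 := by rw [hαeq]; field_simp; ring
  obtain ⟨e, he⟩ := Set.countable_iff_exists_injOn.1 (Sd.finite_toSet.countable)
  set V : E N × ℝ → Set (E N) := scb_cell Sd R e with hV
  have hVm : ∀ p, MeasurableSet (V p) := scb_meas Sd R e
  have hVc : ∀ p, Convex ℝ (V p) := scb_convex Sd R e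
  have hwc : Continuous w := hw.c1.continuous
  obtain ⟨m, hm0, hmr⟩ := rsq_lower Sd hR hSd
  have hrpos : ∀ x, 0 < rsq Sd R x := fun x => lt_of_lt_of_le (by positivity) (hmr x)
  have hF : Integrable fun x => ‖w x‖ ^ (α + 2) := hw.int_pow (by linarith)
  have hsig0 : ∀ p ∈ Sd, ∀ x, 0 < scb_sig p x := by
    intro p hp x
    have := hSd p hp
    unfold scb_sig
    positivity
  have hint1 : Integrable fun x => ‖w x‖ ^ 2 / R ^ 2 := hw.l2.div_const _
  -- integrand on a cell
  have hintp : ∀ p ∈ Sd, Integrable fun x => ‖w x‖ ^ 2 / scb_sig p x := by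
    intro p hp
    have hp2 := hSd p hp
    refine Integrable.mono' (hw.l2.div_const (p.2 ^ 2)) ?_ ?_
    · exact ((hwc.norm.pow 2).measurable.div
        (scb_sig_cont p).measurable).aestronglyMeasurable
    · refine Filter.Eventually.of_forall fun x => ?_
      rw [Real.norm_of_nonneg (by have := hsig0 p hp x; positivity)]
      apply div_le_div_of_nonneg_left (by positivity) (by positivity)
      unfold scb_sig
      nlinarith [sq_nonneg (dist x p.1)]
  have hstep1 : (∫ x, ‖w x‖ ^ 2 / rsq Sd R x)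
      ≤ (∫ x, ‖w x‖ ^ 2) / R ^ 2 + ∑ p ∈ Sd, ∫ x in V p, ‖w x‖ ^ 2 / scb_sig p x := by
    have hsum : Integrable fun x => ∑ p ∈ Sd, (V p).indicator
        (fun x => ‖w x‖ ^ 2 / scb_sig p x) x :=
      integrable_finsetSum _ fun p hp => (hintp p hp).indicator (hVm p)
    calc (∫ x, ‖w x‖ ^ 2 / rsq Sd R x)
        ≤ ∫ x, (‖w x‖ ^ 2 / R ^ 2 + ∑ p ∈ Sd, (V p).indicator
            (fun x => ‖w x‖ ^ 2 / scb_sig p x) x) := by
          apply integral_mono_of_nonneg
          · exact Filter.Eventually.of_forall fun x => by have := hrpos x; positivity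
          · exact hint1.add hsum
          · refine Filter.Eventually.of_forall fun x => ?_
            simp only
            have hs0 : ∀ p ∈ Sd, 0 ≤ (V p).indicator
                (fun x => ‖w x‖ ^ 2 / scb_sig p x) x := by
              intro p hp
              apply indicator_nonneg
              intro x _
              have := hsig0 p hp x
              positivity
            rcases (rsq_le_R Sd R x).lt_or_eq with h | h
            · obtain ⟨p, hp, hxV, hxr⟩ := scb_cover Sd R e x h
              have h1 : (V p).indicator (fun x => ‖w x‖ ^ 2 / scb_sig p x) x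
                  ≤ ∑ p ∈ Sd, (V p).indicator (fun x => ‖w x‖ ^ 2 / scb_sig p x) x :=
                Finset.single_le_sum (f := fun p => (V p).indicator
                  (fun x => ‖w x‖ ^ 2 / scb_sig p x) x) hs0 hp
              rw [indicator_of_mem hxV] at h1
              rw [hxr]
              have : 0 ≤ ‖w x‖ ^ 2 / R ^ 2 := by positivity
              linarith
            · rw [h]
              have := Finset.sum_nonneg hs0
              linarith
      _ = _ := by
          rw [integral_add hint1 hsum, integral_div, integral_finsetSum]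
          · congr 1
            apply Finset.sum_congr rfl
            intro p _
            rw [integral_indicator (hVm p)]
          · exact fun p hp => (hintp p hp).indicator (hVm p)
  have hstep2 : ∀ p ∈ Sd, (∫ x in V p, ‖w x‖ ^ 2 / scb_sig p x)
      ≤ (C1 + vN) + C1 * (∫ x in V p, gsq w x)
        + (C1 + 1) * ∫ x in V p, ‖w x‖ ^ (α + 2) := by
    intro p hp
    have hs : 0 < p.2 := hSd p hp
    have hc := hcell w hw (V p) (hVc p) (hVm p) p.1 p.2 hs
    rw [hexp] at hc
    set Q : E N → ℝ := fun x => (min ‖w x‖ (dist x p.1 ^ (-((N:ℝ) - 2) / 2))) ^ 2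
      / dist x p.1 ^ 2 with hQ
    set S : Set (E N) := {x | x ∈ V p ∧ p.2 ≤ dist x p.1} with hS
    have hdm : Measurable fun x : E N => dist x p.1 := measurable_id.dist measurable_const
    have hSm : MeasurableSet S := (hVm p).inter (measurableSet_le measurable_const hdm)
    have hQm : Measurable Q := by
      apply Measurable.div
      · exact (hwc.norm.measurable.min (hdm.pow_const _)).pow_const 2
      · exact hdm.pow_const 2
    have hQ0 : ∀ x, 0 ≤ Q x := fun x => by positivity
    have hQint : IntegrableOn Q S := by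
      refine Integrable.mono' (hw.l2.div_const (p.2 ^ 2)).integrableOn
        hQm.aestronglyMeasurable ?_
      rw [ae_restrict_iff' hSm]
      refine Filter.Eventually.of_forall fun x hx => ?_
      rw [Real.norm_of_nonneg (hQ0 x), hQ]
      simp only
      have h1 : min ‖w x‖ (dist x p.1 ^ (-((N:ℝ) - 2) / 2)) ≤ ‖w x‖ := min_le_left _ _
      have h2 : p.2 ≤ dist x p.1 := hx.2
      have h3 : 0 ≤ min ‖w x‖ (dist x p.1 ^ (-((N:ℝ) - 2) / 2)) :=
        le_min (norm_nonneg _) (by positivity)
      gcongr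
    set Bs : Set (E N) := Metric.ball p.1 p.2 with hBs
    have hpw : ∀ x ∈ V p, ‖w x‖ ^ 2 / scb_sig p x
        ≤ S.indicator Q x + ‖w x‖ ^ (α + 2) + Bs.indicator (fun _ => p.2 ^ (-(N:ℝ))) x := by
      intro x hx
      have hkey : ∀ d : ℝ, 0 < d → d ^ 2 ≤ scb_sig p x →
          ‖w x‖ ^ 2 / scb_sig p x ≤ ‖w x‖ ^ (α + 2)
            + (min ‖w x‖ (d ^ (-((N:ℝ) - 2) / 2))) ^ 2 / d ^ 2 := by
        intro d hd hds
        have h1 : ‖w x‖ ^ 2 / scb_sig p x ≤ ‖w x‖ ^ 2 / d ^ 2 :=
          div_le_div_of_nonneg_left (by positivity) (by positivity) hds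
        by_cases hb : ‖w x‖ ≤ d ^ (-((N:ℝ) - 2) / 2)
        · rw [min_eq_left hb]
          have : 0 ≤ ‖w x‖ ^ (α + 2) := by positivity
          linarith
        · push Not at hb
          have hwpos : 0 < ‖w x‖ := lt_trans (by positivity) hb
          have h2 : (d ^ 2)⁻¹ ≤ ‖w x‖ ^ α := by
            have e1 : (d ^ 2)⁻¹ = (d ^ (-((N:ℝ) - 2) / 2)) ^ α := by
              rw [← Real.rpow_mul hd.le, ← Real.rpow_natCast, ← Real.rpow_neg hd.le]
              congr 1
              push_cast
              linarith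
            rw [e1]
            exact Real.rpow_le_rpow (by positivity) hb.le hα.le
          have h3 : ‖w x‖ ^ 2 / d ^ 2 ≤ ‖w x‖ ^ (α + 2) := by
            rw [Real.rpow_add hwpos, div_eq_mul_inv, mul_comm]
            have e2 : ‖w x‖ ^ (2:ℝ) = ‖w x‖ ^ 2 := Real.rpow_natCast _ 2
            rw [e2]
            gcongr
          have : 0 ≤ (min ‖w x‖ (d ^ (-((N:ℝ) - 2) / 2))) ^ 2 / d ^ 2 := by positivity
          linarith
      by_cases hd : p.2 ≤ dist x p.1
      · have hxS : x ∈ S := ⟨hx, hd⟩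
        have hdpos : 0 < dist x p.1 := lt_of_lt_of_le hs hd
        rw [indicator_of_mem hxS]
        have := hkey (dist x p.1) hdpos (by unfold scb_sig; nlinarith [sq_nonneg p.2])
        have h0 : 0 ≤ Bs.indicator (fun _ => p.2 ^ (-(N:ℝ))) x :=
          indicator_nonneg (fun _ _ => by positivity) x
        rw [hQ]
        simp only
        linarith
      · push Not at hd
        have hxB : x ∈ Bs := Metric.mem_ball.2 hd
        rw [indicator_of_mem hxB]
        have := hkey p.2 hs (by unfold scb_sig; nlinarith [sq_nonneg (dist x p.1)])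
        have h0 : 0 ≤ S.indicator Q x := indicator_nonneg (fun x _ => hQ0 x) x
        have h1 : (min ‖w x‖ (p.2 ^ (-((N:ℝ) - 2) / 2))) ^ 2 / p.2 ^ 2 ≤ p.2 ^ (-(N:ℝ)) := by
          have h2 : (min ‖w x‖ (p.2 ^ (-((N:ℝ) - 2) / 2))) ^ 2
              ≤ (p.2 ^ (-((N:ℝ) - 2) / 2)) ^ 2 :=
            pow_le_pow_left₀ (le_min (norm_nonneg _) (by positivity)) (min_le_right _ _) 2
          have h3 : (p.2 ^ (-((N:ℝ) - 2) / 2)) ^ 2 = p.2 ^ (-(N:ℝ)) * p.2 ^ 2 := by
            rw [← Real.rpow_natCast, ← Real.rpow_mul hs.le, ← Real.rpow_natCast,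
              ← Real.rpow_add hs]
            congr 1; push_cast; ring
          rw [div_le_iff₀ (by positivity)]
          linarith
        linarith
    have hB : IntegrableOn (Bs.indicator fun _ => p.2 ^ (-(N:ℝ))) (V p) := by
      apply Integrable.integrableOn
      rw [integrable_indicator_iff measurableSet_ball]
      exact integrableOn_const (measure_ball_lt_top.ne)
    have hQi : IntegrableOn (S.indicator Q) (V p) := by
      apply Integrable.integrableOn
      rw [integrable_indicator_iff hSm]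
      exact hQint
    have hBval : (∫ x in V p, Bs.indicator (fun _ => p.2 ^ (-(N:ℝ))) x) ≤ vN := by
      calc (∫ x in V p, Bs.indicator (fun _ => p.2 ^ (-(N:ℝ))) x)
          ≤ ∫ x, Bs.indicator (fun _ => p.2 ^ (-(N:ℝ))) x := by
            apply setIntegral_le_integral
            · rw [integrable_indicator_iff measurableSet_ball]
              exact integrableOn_const (measure_ball_lt_top.ne)
            · exact Filter.Eventually.of_forall fun x =>
                indicator_nonneg (fun _ _ => by positivity) x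
        _ = vN := by
            rw [integral_indicator measurableSet_ball, setIntegral_const, smul_eq_mul]
            have hb : volume.real (Metric.ball p.1 p.2) = p.2 ^ N * vN := by
              have : Nonempty (Fin N) := ⟨⟨0, by omega⟩⟩
              rw [Measure.real, Measure.addHaar_ball volume p.1 hs.le, ENNReal.toReal_mul,
                ENNReal.toReal_ofReal (by positivity), finrank_euclideanSpace, Fintype.card_fin]
              rfl
            rw [hb, Real.rpow_neg hs.le, Real.rpow_natCast]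
            field_simp
    have hQval : (∫ x in V p, S.indicator Q x) = ∫ x in S, Q x := by
      rw [setIntegral_indicator hSm]
      congr 2
      ext x
      simp only [hS, mem_inter_iff, Set.mem_ofPred_eq]
      tauto
    calc (∫ x in V p, ‖w x‖ ^ 2 / scb_sig p x)
        ≤ ∫ x in V p, (S.indicator Q x + ‖w x‖ ^ (α + 2)
            + Bs.indicator (fun _ => p.2 ^ (-(N:ℝ))) x) := by
          apply setIntegral_mono_on (hintp p hp).integrableOn
            ((hQi.add hF.integrableOn).add hB) (hVm p) hpw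
      _ = (∫ x in S, Q x) + (∫ x in V p, ‖w x‖ ^ (α + 2))
            + ∫ x in V p, Bs.indicator (fun _ => p.2 ^ (-(N:ℝ))) x := by
          have hsumi : Integrable (fun x => S.indicator Q x + ‖w x‖ ^ (α + 2))
              (volume.restrict (V p)) := hQi.add hF.integrableOn
          rw [integral_add hsumi hB, integral_add hQi hF.integrableOn, hQval]
      _ ≤ C1 * (1 + (∫ x in V p, gsq w x) + ∫ x in V p, ‖w x‖ ^ (α + 2))
            + (∫ x in V p, ‖w x‖ ^ (α + 2)) + vN := by
          gcongr
      _ = _ := by ring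
  -- sum over the cells
  have hsumg : ∑ p ∈ Sd, (∫ x in V p, gsq w x) ≤ ∫ x, gsq w x := by
    rw [← integral_biUnion_finset Sd (fun p _ => hVm p) (scb_disj he)
      (fun p _ => hw.g1.integrableOn)]
    exact setIntegral_le_integral hw.g1 (Filter.Eventually.of_forall (gsq_nonneg w))
  have hsumF : ∑ p ∈ Sd, (∫ x in V p, ‖w x‖ ^ (α + 2)) ≤ ∫ x, ‖w x‖ ^ (α + 2) := by
    rw [← integral_biUnion_finset Sd (fun p _ => hVm p) (scb_disj he)
      (fun p _ => hF.integrableOn)]
    exact setIntegral_le_integral hF (Filter.Eventually.of_forall fun x => by positivity)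
  have hcard : ∑ p ∈ Sd, p.2 ^ ((N:ℝ) - 2 - 4 / α) = (Sd.card : ℝ) := by
    rw [h4α, sub_self]
    simp
  rw [hcard]
  have hF0 : 0 ≤ ∫ x, ‖w x‖ ^ (α + 2) := integral_nonneg fun x => by positivity
  have hG0 : 0 ≤ ∫ x, gsq w x := integral_nonneg (gsq_nonneg w)
  have htot : ∑ p ∈ Sd, (∫ x in V p, ‖w x‖ ^ 2 / scb_sig p x)
      ≤ Sd.card * (C1 + vN) + C1 * (∫ x, gsq w x) + (C1 + 1) * ∫ x, ‖w x‖ ^ (α + 2) := by
    calc ∑ p ∈ Sd, (∫ x in V p, ‖w x‖ ^ 2 / scb_sig p x)
        ≤ ∑ p ∈ Sd, ((C1 + vN) + C1 * (∫ x in V p, gsq w x)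
            + (C1 + 1) * ∫ x in V p, ‖w x‖ ^ (α + 2)) := Finset.sum_le_sum hstep2
      _ = Sd.card * (C1 + vN) + C1 * (∑ p ∈ Sd, ∫ x in V p, gsq w x)
            + (C1 + 1) * ∑ p ∈ Sd, ∫ x in V p, ‖w x‖ ^ (α + 2) := by
          rw [Finset.sum_add_distrib, Finset.sum_add_distrib, Finset.sum_const, nsmul_eq_mul,
            Finset.mul_sum, Finset.mul_sum]
      _ ≤ _ := by gcongr
  have hcd : (0:ℝ) ≤ Sd.card := by positivity
  nlinarith [mul_nonneg hC1.le hF0, mul_nonneg hC1.le hG0, mul_nonneg hC1.le hcd,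
    mul_nonneg hvN0 hF0, mul_nonneg hvN0 hG0, mul_nonneg hvN0 hcd]
end CGL
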