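import Pool.Agent.CGL.SJ1
/-! SJ2: derivatives of `Jf r` -/
open MeasureTheory Set Filter Topology
namespace CGL

section
variable {N : ℕ}

/-- the kernel. -/
private noncomputable def sj2K (r : E N → ℝ) (q : ℝ) (x y : E N) : ℝ :=
  (r y ^ 2 + dist x y ^ 2) ^ (-q / 2)

private theorem sj2K_nn (r : E N → ℝ) (q : ℝ) (x y : E N) : 0 ≤ sj2K r q x y := by
  unfold sj2K; positivity

private theorem sj2_cr {r : E N → ℝ} (hr : ∀ x y, |r x - r y| ≤ dist x y) : Continuous r := by
  have : LipschitzWith 1 r := LipschitzWith.of_dist_le_mul fun a b => by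
    rw [Real.dist_eq, NNReal.coe_one, one_mul]; exact hr a b
  exact this.continuous

private theorem sj2K_cont {r : E N → ℝ} (hr : ∀ x y, |r x - r y| ≤ dist x y)
    (hr0 : ∀ x, 0 < r x) (q : ℝ) : Continuous (fun p : E N × E N => sj2K r q p.1 p.2) := by
  unfold sj2K
  apply Continuous.rpow_const
  · exact (((sj2_cr hr).comp continuous_snd).pow 2).add ((continuous_fst.dist continuous_snd).pow 2)
  · intro p
    left
    have := hr0 p.2
    positivity

/-- local comparison. -/
private theorem sj2K_loc {r : E N → ℝ} {m : ℝ} (hm : 0 < m) (hr0 : ∀ x, m ≤ r x) {q : ℝ}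
    (hq : 0 ≤ q) (x x0 y : E N) (h : dist x x0 ≤ m) :
    sj2K r q x y ≤ 3 ^ (q / 2) * sj2K r q x0 y := by
  unfold sj2K
  have hry : 0 < r y := hm.trans_le (hr0 y)
  have h1 : dist x0 y ≤ dist x x0 + dist x y := by
    rw [dist_comm x x0]; exact dist_triangle _ _ _
  have h2 : r y ^ 2 + dist x0 y ^ 2 ≤ 3 * (r y ^ 2 + dist x y ^ 2) := by
    have h3 := hr0 y
    have h4 : 0 ≤ dist x0 y := dist_nonneg
    have h5 : 0 ≤ dist x y := dist_nonneg
    have h6 : dist x0 y ≤ r y + dist x y := by linarith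
    nlinarith [sq_nonneg (r y - dist x y)]
  have h3 : 0 < r y ^ 2 + dist x0 y ^ 2 := by positivity
  calc (r y ^ 2 + dist x y ^ 2) ^ (-q / 2) ≤ ((r y ^ 2 + dist x0 y ^ 2) / 3) ^ (-q / 2) :=
        Real.rpow_le_rpow_of_nonpos (by positivity) (by linarith) (by linarith)
    _ = 3 ^ (q / 2) * (r y ^ 2 + dist x0 y ^ 2) ^ (-q / 2) := by
        rw [Real.div_rpow h3.le (by norm_num), neg_div, Real.rpow_neg (by norm_num : (0:ℝ) ≤ 3)]
        field_simp

private theorem sj2_cont {r : E N → ℝ} {m : ℝ} (hm : 0 < m) (hmr : ∀ x, m ≤ r x)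
    (hr : ∀ x y, |r x - r y| ≤ dist x y) {q C : ℝ} (hq : (N:ℝ) < q) (hC : 0 ≤ C)
    {f : E N → E N → ℝ} (hf : Continuous (Function.uncurry f))
    (hb : ∀ x y, |f x y| ≤ C * sj2K r q x y) : Continuous (fun x => ∫ y, f x y) := by
  have hr0 : ∀ x, 0 < r x := fun x => hm.trans_le (hmr x)
  obtain ⟨C', -, hI⟩ := Jbeta_le N q hq
  have hq0 : 0 ≤ q := (Nat.cast_nonneg N).trans hq.le
  rw [continuous_iff_continuousAt]
  intro x0
  refine continuousAt_of_dominated (bound := fun y => C * (3 ^ (q / 2) * sj2K r q x0 y))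
    ?_ ?_ ?_ ?_
  · refine Eventually.of_forall fun x => ?_
    exact (hf.comp (Continuous.prodMk_right x)).aestronglyMeasurable
  · filter_upwards [Metric.closedBall_mem_nhds x0 hm] with x hx
    refine Eventually.of_forall fun y => ?_
    rw [Real.norm_eq_abs]
    exact (hb x y).trans (mul_le_mul_of_nonneg_left (sj2K_loc hm hmr hq0 x x0 y hx) hC)
  · exact ((hI r hr hr0 x0).1.const_mul (3 ^ (q / 2))).const_mul C
  · refine Eventually.of_forall fun y => ?_
    exact (hf.comp (Continuous.prodMk_left y)).continuousAt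

private theorem sj2_deriv {r : E N → ℝ} {m : ℝ} (hm : 0 < m) (hmr : ∀ x, m ≤ r x)
    (hr : ∀ x y, |r x - r y| ≤ dist x y) {q C q' C' : ℝ} (hq : (N:ℝ) < q)
    (hq' : (N:ℝ) < q') (hC' : 0 ≤ C')
    {f f' : E N → E N → ℝ} (hf : Continuous (Function.uncurry f))
    (hf' : Continuous (Function.uncurry f'))
    (hb : ∀ x y, |f x y| ≤ C * sj2K r q x y) (hb' : ∀ x y, |f' x y| ≤ C' * sj2K r q' x y)
    (i : Fin N) (hd : ∀ x y (s : ℝ), HasDerivAt (fun s : ℝ => f (x + s • ev i) y)
      (f' (x + s • ev i) y) s) (x : E N) :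
    HasLineDerivAt ℝ (fun x => ∫ y, f x y) (∫ y, f' x y) x (ev i) := by
  have hr0 : ∀ x, 0 < r x := fun x => hm.trans_le (hmr x)
  obtain ⟨D, -, hI⟩ := Jbeta_le N q hq
  obtain ⟨D', -, hI'⟩ := Jbeta_le N q' hq'
  have hq0 : 0 ≤ q' := (Nat.cast_nonneg N).trans hq'.le
  unfold HasLineDerivAt
  have hmeas : ∀ x, AEStronglyMeasurable (f x) volume := fun x =>
    (hf.comp (Continuous.prodMk_right x)).aestronglyMeasurable
  have hmeas' : ∀ x, AEStronglyMeasurable (f' x) volume := fun x =>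
    (hf'.comp (Continuous.prodMk_right x)).aestronglyMeasurable
  have key := hasDerivAt_integral_of_dominated_loc_of_deriv_le (μ := (volume : Measure (E N)))
    (F := fun (s : ℝ) y => f (x + s • ev i) y) (F' := fun (s : ℝ) y => f' (x + s • ev i) y)
    (x₀ := (0:ℝ)) (s := Metric.ball 0 m)
    (bound := fun y => C' * (3 ^ (q' / 2) * sj2K r q' x y)) (Metric.ball_mem_nhds 0 hm)
    (Eventually.of_forall fun s => hmeas _) ?_ (hmeas' _) ?_ ?_ ?_
  · have h2 := key.2
    simp only [zero_smul, add_zero] at h2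
    exact h2
  · simp only [zero_smul, add_zero]
    refine ((hI r hr hr0 x).1.const_mul C).mono' (hmeas x) (Eventually.of_forall fun y => ?_)
    rw [Real.norm_eq_abs]
    exact hb x y
  · refine Eventually.of_forall fun y s hs => ?_
    rw [Real.norm_eq_abs]
    refine (hb' _ y).trans (mul_le_mul_of_nonneg_left ?_ hC')
    apply sj2K_loc hm hmr hq0
    rw [dist_eq_norm, add_sub_cancel_left, norm_smul]
    rw [mem_ball_zero_iff] at hs
    have : ‖(ev i : E N)‖ = 1 := by simp
    rw [this, mul_one]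
    exact hs.le
  · exact ((hI' r hr hr0 x).1.const_mul (3 ^ (q' / 2))).const_mul C'
  · refine Eventually.of_forall fun y s _ => hd x y s

private theorem sj2_cauchy {r : E N → ℝ} (hr0 : ∀ x, 0 < r x) (i : Fin N) (x y : E N) :
    |x i - y i| ≤ (r y ^ 2 + dist x y ^ 2) ^ ((1:ℝ) / 2) := by
  have h1 : |x i - y i| ≤ dist x y := by
    rw [dist_eq_norm]
    exact PiLp.norm_apply_le (x - y) i
  have h2 : dist x y = (dist x y ^ 2) ^ ((1:ℝ) / 2) := by
    rw [← Real.sqrt_eq_rpow, Real.sqrt_sq dist_nonneg]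
  refine h1.trans ?_
  conv_lhs => rw [h2]
  apply Real.rpow_le_rpow (by positivity) _ (by norm_num)
  have := sq_nonneg (r y)
  linarith

private theorem sj2_dK {r : E N → ℝ} (hr0 : ∀ x, 0 < r x) (q : ℝ) (i : Fin N) (x y : E N)
    (s : ℝ) : HasDerivAt (fun s : ℝ => sj2K r q (x + s • ev i) y)
      (-q * ((x + s • ev i) i - y i) * sj2K r (q + 2) (x + s • ev i) y) s := by
  have h0 : HasDerivAt (fun s : ℝ => (x + s • ev i) - y) (ev i) s := by
    have := (((hasDerivAt_id s).smul_const (ev i : E N)).const_add x).sub_const y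
    simpa using this
  have h1 := h0.norm_sq
  have hry := hr0 y
  have h2 : HasDerivAt (fun s : ℝ => r y ^ 2 + dist (x + s • ev i) y ^ 2)
      (2 * ((x + s • ev i) i - y i)) s := by
    have h3 := h1.const_add (r y ^ 2)
    have e : (fun s : ℝ => r y ^ 2 + dist (x + s • ev i) y ^ 2) =
        fun s : ℝ => r y ^ 2 + ‖(x + s • ev i) - y‖ ^ 2 := by
      funext s; rw [dist_eq_norm]
    rw [e]
    refine h3.congr_deriv ?_
    rw [EuclideanSpace.inner_single_right]
    simp
  have h3 := h2.rpow_const (p := -q / 2) (Or.inl (by positivity))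
  unfold sj2K
  refine h3.congr_deriv ?_
  rw [show -q / 2 - 1 = -(q + 2) / 2 by ring]
  ring

private theorem sj2_mul {r : E N → ℝ} (hr0 : ∀ x, 0 < r x) (q a : ℝ) (x y : E N) :
    (r y ^ 2 + dist x y ^ 2) ^ (a / 2) * sj2K r q x y = sj2K r (q - a) x y := by
  unfold sj2K
  have hry := hr0 y
  rw [← Real.rpow_add (by positivity)]
  congr 1
  ring

end

theorem Jf_deriv (N : ℕ) : ∃ C : ℝ, 0 < C ∧ ∀ (r : E N → ℝ) (m : ℝ), 0 < m → (∀ x, m ≤ r x) →
    (∀ x y, |r x - r y| ≤ dist x y) →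
    ∃ dJ ddJ : Fin N → E N → ℝ, Continuous (Jf r) ∧ (∀ i, Continuous (dJ i)) ∧
      (∀ i, Continuous (ddJ i)) ∧
      (∀ i x, HasLineDerivAt ℝ (Jf r) (dJ i x) x (ev i)) ∧
      (∀ i x, HasLineDerivAt ℝ (dJ i) (ddJ i x) x (ev i)) ∧
      (∀ i x, |dJ i x| * r x ^ 3 ≤ C) ∧ (∀ i x, |ddJ i x| * r x ^ 4 ≤ C) := by
  have hN0 : (0:ℝ) ≤ N := Nat.cast_nonneg N
  set β : ℝ := (N:ℝ) + 2 with hβ
  have hβ0 : 0 < β := by linarith
  obtain ⟨C3, hC3, h3⟩ := Jbeta_le N (β + 1) (by linarith)
  obtain ⟨C4, hC4, h4⟩ := Jbeta_le N (β + 2) (by linarith)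
  refine ⟨β * C3 + (β + β * (β + 2)) * C4, by positivity, fun r m hm hmr hr => ?_⟩
  have hr0 : ∀ x, 0 < r x := fun x => hm.trans_le (hmr x)
  -- the integrands
  have cK : ∀ q, Continuous (fun p : E N × E N => sj2K r q p.1 p.2) := sj2K_cont hr hr0
  have cx : ∀ i : Fin N, Continuous (fun p : E N × E N => p.1 i - p.2 i) := by
    intro i
    fun_prop
  have b0 : ∀ x y, |sj2K r β x y| ≤ 1 * sj2K r β x y := by
    intro x y
    rw [one_mul, abs_of_nonneg (sj2K_nn r β x y)]
  have b1 : ∀ (i : Fin N) x y, |-β * (x i - y i) * sj2K r (β + 2) x y| ≤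
      β * sj2K r (β + 1) x y := by
    intro i x y
    rw [abs_mul, abs_mul, abs_neg, abs_of_pos hβ0, abs_of_nonneg (sj2K_nn r _ x y), mul_assoc]
    apply mul_le_mul_of_nonneg_left _ hβ0.le
    calc |x i - y i| * sj2K r (β + 2) x y
        ≤ (r y ^ 2 + dist x y ^ 2) ^ ((1:ℝ) / 2) * sj2K r (β + 2) x y :=
          mul_le_mul_of_nonneg_right (sj2_cauchy hr0 i x y) (sj2K_nn r _ x y)
      _ = sj2K r (β + 1) x y := by
          rw [sj2_mul hr0]
          congr 1
          ring
  have b2 : ∀ (i : Fin N) x y, |-β * sj2K r (β + 2) x y +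
      β * (β + 2) * (x i - y i) ^ 2 * sj2K r (β + 4) x y| ≤
      (β + β * (β + 2)) * sj2K r (β + 2) x y := by
    intro i x y
    have e1 : (x i - y i) ^ 2 * sj2K r (β + 4) x y ≤ sj2K r (β + 2) x y := by
      have hc := sj2_cauchy hr0 i x y
      have hpos : 0 ≤ r y ^ 2 + dist x y ^ 2 := by positivity
      calc (x i - y i) ^ 2 * sj2K r (β + 4) x y
          = |x i - y i| ^ 2 * sj2K r (β + 4) x y := by rw [sq_abs]
        _ ≤ ((r y ^ 2 + dist x y ^ 2) ^ ((1:ℝ) / 2)) ^ 2 * sj2K r (β + 4) x y :=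
            mul_le_mul_of_nonneg_right (pow_le_pow_left₀ (abs_nonneg _) hc 2) (sj2K_nn r _ x y)
        _ = (r y ^ 2 + dist x y ^ 2) ^ ((2:ℝ) / 2) * sj2K r (β + 4) x y := by
            congr 1
            rw [← Real.rpow_natCast, ← Real.rpow_mul hpos]
            norm_num
        _ = sj2K r (β + 2) x y := by
            rw [sj2_mul hr0]
            congr 1
            ring
    have e2 := sj2K_nn r (β + 2) x y
    have e3 : 0 ≤ (x i - y i) ^ 2 * sj2K r (β + 4) x y :=
      mul_nonneg (sq_nonneg _) (sj2K_nn r _ x y)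
    have e4 : 0 < β * (β + 2) := by positivity
    rw [abs_le]
    have e5 : β * (β + 2) * (x i - y i) ^ 2 * sj2K r (β + 4) x y =
      (β * (β + 2)) * ((x i - y i) ^ 2 * sj2K r (β + 4) x y) := by ring
    rw [e5]
    have e6 := mul_le_mul_of_nonneg_left e1 e4.le
    have e7 := mul_nonneg e4.le e3
    have e8 := mul_nonneg e4.le e2
    have e9 := mul_nonneg hβ0.le e2
    constructor <;> nlinarith
  have c0 : Continuous (Function.uncurry (sj2K r β)) := cK β
  have c1 : ∀ i : Fin N, Continuous (Function.uncurry fun x y : E N =>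
      -β * (x i - y i) * sj2K r (β + 2) x y) := fun i =>
    (continuous_const.mul (cx i)).mul (cK (β + 2))
  have c2 : ∀ i : Fin N, Continuous (Function.uncurry fun x y : E N =>
      -β * sj2K r (β + 2) x y + β * (β + 2) * (x i - y i) ^ 2 * sj2K r (β + 4) x y) := fun i =>
    (continuous_const.mul (cK (β + 2))).add
      ((continuous_const.mul ((cx i).pow 2)).mul (cK (β + 4)))
  have hJ : Jf r = fun x => ∫ y, sj2K r β x y := rfl
  refine ⟨fun i x => ∫ y, -β * (x i - y i) * sj2K r (β + 2) x y,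
    fun i x => ∫ y, (-β * sj2K r (β + 2) x y +
      β * (β + 2) * (x i - y i) ^ 2 * sj2K r (β + 4) x y), ?_, ?_, ?_, ?_, ?_, ?_, ?_⟩
  · rw [hJ]
    exact sj2_cont hm hmr hr (q := β) (by linarith) zero_le_one c0 b0
  · intro i
    exact sj2_cont hm hmr hr (q := β + 1) (by linarith) hβ0.le (c1 i) (b1 i)
  · intro i
    exact sj2_cont hm hmr hr (q := β + 2) (by linarith) (by positivity) (c2 i) (b2 i)
  · intro i x
    rw [hJ]
    exact sj2_deriv hm hmr hr (q := β) (q' := β + 1) (by linarith) (by linarith) hβ0.le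
      c0 (c1 i) b0 (b1 i) i (fun x y s => sj2_dK hr0 β i x y s) x
  · intro i x
    refine sj2_deriv hm hmr hr (q := β + 1) (q' := β + 2) (by linarith) (by linarith)
      (by positivity) (c1 i) (c2 i) (b1 i) (b2 i) i (fun x y s => ?_) x
    have e1 := sj2_dK hr0 (β + 2) i x y s
    have e2 : HasDerivAt (fun s : ℝ => -β * ((x + s • ev i) i - y i)) (-β) s := by
      have h5 : HasDerivAt (fun s : ℝ => -β * (x i + s - y i)) (-β) s := by
        have := (((hasDerivAt_id s).const_add (x i)).sub_const (y i)).const_mul (-β)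
        simpa using this
      have e : (fun s : ℝ => -β * ((x + s • ev i) i - y i)) =
          fun s : ℝ => -β * (x i + s - y i) := by
        funext s
        simp
      rw [e]
      exact h5
    refine (e2.mul e1).congr_deriv ?_
    rw [show β + 2 + 2 = β + 4 by ring]
    ring
  · intro i x
    have hI := (h3 r hr hr0 x).1
    have hle := (h3 r hr hr0 x).2
    have hrx := hr0 x
    have e1 : |∫ y, -β * (x i - y i) * sj2K r (β + 2) x y| ≤ β * (C3 * r x ^ ((N:ℝ) - (β + 1))) := by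
      calc |∫ y, -β * (x i - y i) * sj2K r (β + 2) x y|
          ≤ ∫ y, β * sj2K r (β + 1) x y := by
            rw [← Real.norm_eq_abs]
            exact norm_integral_le_of_norm_le (hI.const_mul β)
              (Eventually.of_forall fun y => by rw [Real.norm_eq_abs]; exact b1 i x y)
        _ = β * ∫ y, sj2K r (β + 1) x y := integral_const_mul _ _
        _ ≤ _ := mul_le_mul_of_nonneg_left hle hβ0.le
    have e2 : r x ^ ((N:ℝ) - (β + 1)) * r x ^ 3 = 1 := by
      rw [← Real.rpow_natCast (r x) 3, ← Real.rpow_add hrx, hβ]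
      push_cast
      rw [show (N:ℝ) - ((N:ℝ) + 2 + 1) + 3 = 0 by ring, Real.rpow_zero]
    calc |∫ y, -β * (x i - y i) * sj2K r (β + 2) x y| * r x ^ 3
        ≤ β * (C3 * r x ^ ((N:ℝ) - (β + 1))) * r x ^ 3 :=
          mul_le_mul_of_nonneg_right e1 (by positivity)
      _ = β * C3 * (r x ^ ((N:ℝ) - (β + 1)) * r x ^ 3) := by ring
      _ = β * C3 := by rw [e2, mul_one]
      _ ≤ _ := by
        have : 0 ≤ (β + β * (β + 2)) * C4 := by positivity
        linarith
  · intro i x
    have hI := (h4 r hr hr0 x).1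
    have hle := (h4 r hr hr0 x).2
    have hrx := hr0 x
    have e1 : |∫ y, (-β * sj2K r (β + 2) x y +
        β * (β + 2) * (x i - y i) ^ 2 * sj2K r (β + 4) x y)| ≤
        (β + β * (β + 2)) * (C4 * r x ^ ((N:ℝ) - (β + 2))) := by
      calc |∫ y, (-β * sj2K r (β + 2) x y +
          β * (β + 2) * (x i - y i) ^ 2 * sj2K r (β + 4) x y)|
          ≤ ∫ y, (β + β * (β + 2)) * sj2K r (β + 2) x y := by
            rw [← Real.norm_eq_abs]
            exact norm_integral_le_of_norm_le (hI.const_mul _)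
              (Eventually.of_forall fun y => by rw [Real.norm_eq_abs]; exact b2 i x y)
        _ = (β + β * (β + 2)) * ∫ y, sj2K r (β + 2) x y := integral_const_mul _ _
        _ ≤ _ := mul_le_mul_of_nonneg_left hle (by positivity)
    have e2 : r x ^ ((N:ℝ) - (β + 2)) * r x ^ 4 = 1 := by
      rw [← Real.rpow_natCast (r x) 4, ← Real.rpow_add hrx, hβ]
      push_cast
      rw [show (N:ℝ) - ((N:ℝ) + 2 + 2) + 4 = 0 by ring, Real.rpow_zero]
    calc |∫ y, (-β * sj2K r (β + 2) x y +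
        β * (β + 2) * (x i - y i) ^ 2 * sj2K r (β + 4) x y)| * r x ^ 4
        ≤ (β + β * (β + 2)) * (C4 * r x ^ ((N:ℝ) - (β + 2))) * r x ^ 4 :=
          mul_le_mul_of_nonneg_right e1 (by positivity)
      _ = (β + β * (β + 2)) * C4 * (r x ^ ((N:ℝ) - (β + 2)) * r x ^ 4) := by ring
      _ = (β + β * (β + 2)) * C4 := by rw [e2, mul_one]
      _ ≤ _ := by
        have : 0 ≤ β * C3 := by positivity
        linarith
end CGL
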