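import Pool.Agent.CGL.STool
import Pool.Agent.CGL.SBad
/-! SPERS: half of `∫|w|^{α+2}` is seen by the weight -/
open MeasureTheory Set Filter Topology
namespace CGL

private lemma spers_hk_lt {k l : ℤ} (h : hk k < hk l) : k < l := by
  unfold hk at h
  exact (zpow_lt_zpow_iff_right₀ one_lt_two).1 h

private lemma spers_hk_mono {k l : ℤ} (h : k ≤ l) : hk k ≤ hk l := by
  unfold hk
  exact zpow_le_zpow_right₀ one_le_two h

/-- the part of `∫|w|^{α+2}` outside finitely many shells is small -/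
private lemma spers_tail (N : ℕ) (α : ℝ) (hα : 0 < α) (w : E N → ℂ) (hw : Nice w) (ε : ℝ)
    (hε : 0 < ε) : ∃ K : ℕ,
      (∫ x, indicator {x | ¬ (hk (-(K:ℤ)) ≤ ‖w x‖ ∧ ‖w x‖ < hk ((K:ℤ) + 1))}
        (fun x => ‖w x‖ ^ (α + 2)) x) < ε := by
  have hint := hw.int_pow (β := α + 2) (by linarith)
  have hwc : Continuous w := hw.c1.continuous
  have hm : ∀ K : ℕ, MeasurableSet {x : E N | ¬ (hk (-(K:ℤ)) ≤ ‖w x‖ ∧ ‖w x‖ < hk ((K:ℤ) + 1))} := by
    intro K
    refine MeasurableSet.compl (MeasurableSet.inter ?_ ?_)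
    · exact measurableSet_le measurable_const hwc.norm.measurable
    · exact measurableSet_lt hwc.norm.measurable measurable_const
  have hlim : Tendsto (fun K : ℕ => ∫ x, indicator
      {x | ¬ (hk (-(K:ℤ)) ≤ ‖w x‖ ∧ ‖w x‖ < hk ((K:ℤ) + 1))} (fun x => ‖w x‖ ^ (α + 2)) x) atTop
      (𝓝 (∫ _ : E N, (0:ℝ))) := by
    refine tendsto_integral_of_dominated_convergence (fun x => ‖w x‖ ^ (α + 2))
      (fun K => hint.aestronglyMeasurable.indicator (hm K)) hint
      (fun K => Eventually.of_forall fun x => ?_) (Eventually.of_forall fun x => ?_)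
    · rw [Real.norm_eq_abs, abs_of_nonneg (indicator_nonneg (fun y _ => by positivity) x)]
      exact indicator_le_self' (fun y _ => by positivity) x
    · by_cases h0 : ‖w x‖ = 0
      · refine tendsto_const_nhds.congr fun K => ?_
        by_cases hx : x ∈ {x : E N | ¬ (hk (-(K:ℤ)) ≤ ‖w x‖ ∧ ‖w x‖ < hk ((K:ℤ) + 1))}
        · rw [indicator_of_mem hx, h0, Real.zero_rpow (by linarith)]
        · rw [indicator_of_notMem hx]
      · have hpos : 0 < ‖w x‖ := lt_of_le_of_ne (norm_nonneg _) (Ne.symm h0)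
        obtain ⟨k, hk1, hk2⟩ := exists_shell hpos
        refine tendsto_const_nhds.congr' ?_
        filter_upwards [eventually_ge_atTop k.natAbs] with K hK
        rw [indicator_of_notMem]
        simp only [mem_setOf_eq, not_not]
        exact ⟨(spers_hk_mono (by omega)).trans hk1, hk2.trans_le (spers_hk_mono (by omega))⟩
  rw [integral_zero] at hlim
  exact ((tendsto_order.1 hlim).2 ε hε).exists

theorem pers (N : ℕ) (α : ℝ) (hα : 0 < α) (CJ : ℝ) (hCJ : 0 < CJ) :
    ∃ c1 : ℝ, 0 < c1 ∧ ∀ (w : E N → ℂ), Nice w →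
      (∫ x, gsq w x) ≤ 2 * (∫ x, ‖w x‖ ^ (α + 2)) → 0 < (∫ x, ‖w x‖ ^ (α + 2)) →
      ∃ K : ℕ, ∀ J : E N → ℝ, Continuous J → (∀ x, 0 < J x) →
        (∀ k : ℤ, k ∈ Icc (-(K:ℤ)) K → ∀ x ∈ Sset w (hk k) (sk α c1 k),
          1 / (CJ * (5 * sk α c1 k ^ 2)) ≤ J x) →
        (1 / 2) * (∫ x, ‖w x‖ ^ (α + 2))
          ≤ ∫ x, (min ‖w x‖ ((J x) ^ (1 / α))) ^ (α + 2) := by
  obtain ⟨C, hC, hbad⟩ := bad_bound
  set q : ℝ := min (2 ^ (-α) / (5 * CJ)) (1 / (8 * C * 2 ^ (α + 2))) with hq
  have hq0 : 0 < q := lt_min (by positivity) (by positivity)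
  have hc2 : (Real.sqrt q) ^ 2 = q := Real.sq_sqrt hq0.le
  refine ⟨Real.sqrt q, Real.sqrt_pos.2 hq0, ?_⟩
  intro w hw hD hF
  have hwc : Continuous w := hw.c1.continuous
  set F := ∫ x, ‖w x‖ ^ (α + 2) with hFdef
  obtain ⟨K, hK⟩ := spers_tail N α hα w hw (F / 4) (by linarith)
  refine ⟨K, ?_⟩
  intro J hJc hJ0 hJ
  set c1 := Real.sqrt q with hc1
  have hc10 : 0 < c1 := Real.sqrt_pos.2 hq0
  have hint := hw.int_pow (β := α + 2) (by linarith)
  -- the bad sets and their measurable hulls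
  set bad : ℤ → Set (E N) := fun k => {x | hk k ≤ ‖w x‖ ∧ x ∉ Sset w (hk k) (sk α c1 k)} with hbaddef
  set A : ℤ → Set (E N) := fun k => {x | hk k / 2 < ‖w x‖ ∧ ‖w x‖ < hk k} with hA
  have hAm : ∀ k, MeasurableSet (A k) := fun k =>
    (measurableSet_lt measurable_const hwc.norm.measurable).inter
      (measurableSet_lt hwc.norm.measurable measurable_const)
  set T : ℤ → Set (E N) := fun k => toMeasurable volume (bad k) with hT
  have hTm : ∀ k, MeasurableSet (T k) := fun k => measurableSet_toMeasurable _ _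
  have hTv : ∀ k, volume (T k) ≤
      ENNReal.ofReal (C * sk α c1 k ^ 2 / (hk k) ^ 2 * ∫ x in A k, gsq w x) := by
    intro k
    rw [hT]
    simp only [measure_toMeasurable]
    exact hbad N w hw (hk k) (sk α c1 k) (hk_pos k) (sk_pos hc10 k)
  have hAi : ∀ k, 0 ≤ ∫ x in A k, gsq w x := fun k =>
    integral_nonneg fun x => gsq_nonneg w x
  have hTf : ∀ k, volume (T k) ≠ ⊤ := fun k => ((hTv k).trans_lt ENNReal.ofReal_lt_top).ne
  have hTr : ∀ k, (2 * hk k) ^ (α + 2) * volume.real (T k) ≤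
      (1 / 8) * ∫ x in A k, gsq w x := by
    intro k
    have hh := hk_pos k
    have h1 : volume.real (T k) ≤ C * sk α c1 k ^ 2 / (hk k) ^ 2 * ∫ x in A k, gsq w x := by
      rw [Measure.real]
      refine (ENNReal.toReal_mono ENNReal.ofReal_ne_top (hTv k)).trans_eq ?_
      exact ENNReal.toReal_ofReal (mul_nonneg (by positivity) (hAi k))
    calc (2 * hk k) ^ (α + 2) * volume.real (T k)
        ≤ (2 * hk k) ^ (α + 2) * (C * sk α c1 k ^ 2 / (hk k) ^ 2 * ∫ x in A k, gsq w x) :=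
          mul_le_mul_of_nonneg_left h1 (by positivity)
      _ = (2 ^ (α + 2) * C * q) * ∫ x in A k, gsq w x := by
          rw [sk_sq, hc1, hc2, Real.mul_rpow (by norm_num) hh.le, Real.rpow_add hh, Real.rpow_neg hh.le,
            Real.rpow_two]
          field_simp
      _ ≤ (1 / 8) * ∫ x in A k, gsq w x := by
          refine mul_le_mul_of_nonneg_right ?_ (hAi k)
          have h2 : q ≤ 1 / (8 * C * 2 ^ (α + 2)) := min_le_right _ _
          calc (2 ^ (α + 2) * C * q) ≤ 2 ^ (α + 2) * C * (1 / (8 * C * 2 ^ (α + 2))) := by gcongr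
            _ = 1 / 8 := by field_simp
  -- sum over the shells
  have hsum : (∑ k ∈ Finset.Icc (-(K:ℤ)) K, ∫ x in A k, gsq w x) ≤ ∫ x, gsq w x := by
    have hdis : Set.Pairwise (↑(Finset.Icc (-(K:ℤ)) K)) (Function.onFun Disjoint A) := by
      have hlt : ∀ i j : ℤ, i < j → Disjoint (A i) (A j) := by
        intro i j hij
        rw [Set.disjoint_left]
        rintro x ⟨-, h2⟩ ⟨h3, -⟩
        have h4 : hk (i + 1) ≤ hk j := spers_hk_mono (by omega)
        rw [hk_succ] at h4
        linarith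
      intro i _ j _ hij
      rcases lt_or_gt_of_ne hij with h | h
      · exact hlt i j h
      · exact (hlt j i h).symm
    rw [← integral_biUnion_finset _ (fun k _ => hAm k) hdis (fun k _ => hw.g1.integrableOn)]
    exact setIntegral_le_integral hw.g1 (Eventually.of_forall fun x => gsq_nonneg w x)
  -- the pointwise inequality
  set Out : Set (E N) := {x | ¬ (hk (-(K:ℤ)) ≤ ‖w x‖ ∧ ‖w x‖ < hk ((K:ℤ) + 1))} with hOut
  have hOutm : MeasurableSet Out :=
    MeasurableSet.compl ((measurableSet_le measurable_const hwc.norm.measurable).inter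
      (measurableSet_lt hwc.norm.measurable measurable_const))
  have hg0 : ∀ x, 0 ≤ (min ‖w x‖ ((J x) ^ (1 / α))) ^ (α + 2) := fun x =>
    Real.rpow_nonneg (le_min (norm_nonneg _) (Real.rpow_nonneg (hJ0 x).le _)) _
  have hgf : ∀ x, (min ‖w x‖ ((J x) ^ (1 / α))) ^ (α + 2) ≤ ‖w x‖ ^ (α + 2) := fun x =>
    Real.rpow_le_rpow (le_min (norm_nonneg _) (Real.rpow_nonneg (hJ0 x).le _)) (min_le_left _ _)
      (by linarith)
  have hgc : Continuous (fun x => (min ‖w x‖ ((J x) ^ (1 / α))) ^ (α + 2)) := by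
    refine Continuous.rpow_const (hwc.norm.min (hJc.rpow_const fun x => Or.inl (hJ0 x).ne')) ?_
    intro x
    right
    linarith
  have hgi : Integrable (fun x => (min ‖w x‖ ((J x) ^ (1 / α))) ^ (α + 2)) :=
    hint.mono' hgc.aestronglyMeasurable (Eventually.of_forall fun x => by
      rw [Real.norm_eq_abs, abs_of_nonneg (hg0 x)]; exact hgf x)
  have hpt : ∀ x, ‖w x‖ ^ (α + 2) - (min ‖w x‖ ((J x) ^ (1 / α))) ^ (α + 2) ≤
      indicator Out (fun x => ‖w x‖ ^ (α + 2)) x +
        ∑ k ∈ Finset.Icc (-(K:ℤ)) K, indicator (T k) (fun _ => (2 * hk k) ^ (α + 2)) x := by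
    intro x
    have hs0 : ∀ k ∈ Finset.Icc (-(K:ℤ)) K,
        0 ≤ indicator (T k) (fun _ => (2 * hk k) ^ (α + 2)) x := fun k _ =>
      indicator_nonneg (fun _ _ => Real.rpow_nonneg (by have := hk_pos k; positivity) _) x
    have hi0 : 0 ≤ indicator Out (fun x => ‖w x‖ ^ (α + 2)) x :=
      indicator_nonneg (fun y _ => by positivity) x
    by_cases hx : x ∈ Out
    · have := Finset.sum_nonneg hs0
      rw [indicator_of_mem hx]
      linarith [hg0 x]
    · rw [hOut, mem_setOf_eq, not_not] at hx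
      obtain ⟨hx1, hx2⟩ := hx
      have hpos : 0 < ‖w x‖ := (hk_pos _).trans_le hx1
      obtain ⟨k, hk1, hk2⟩ := exists_shell hpos
      have hkK : k ∈ Finset.Icc (-(K:ℤ)) K := by
        rw [Finset.mem_Icc]
        have e1 := spers_hk_lt (hk1.trans_lt hx2)
        have e2 := spers_hk_lt (hx1.trans_lt hk2)
        omega
      by_cases hS : x ∈ Sset w (hk k) (sk α c1 k)
      · have hJx := hJ k (Finset.mem_Icc.1 hkK) x hS
        have hle : ‖w x‖ ≤ (J x) ^ (1 / α) := by
          have hh := hk_pos k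
          have h1 : (2 * hk k) ^ α ≤ J x := by
            refine le_trans ?_ hJx
            rw [sk_sq, hc1, hc2, Real.mul_rpow (by norm_num) hh.le, Real.rpow_neg hh.le]
            have h2 : q ≤ 2 ^ (-α) / (5 * CJ) := min_le_left _ _
            have h3 : CJ * (5 * (q * (hk k ^ α)⁻¹)) ≤ CJ * (5 * ((2 ^ (-α) / (5 * CJ)) * (hk k ^ α)⁻¹)) := by
              gcongr
            have h4 : CJ * (5 * ((2 ^ (-α) / (5 * CJ)) * (hk k ^ α)⁻¹)) = 1 / (2 ^ α * hk k ^ α) := by
              rw [Real.rpow_neg (by norm_num)]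
              field_simp
            rw [h4] at h3
            have h5 : (2:ℝ) ^ α * hk k ^ α = 1 / (1 / (2 ^ α * hk k ^ α)) := by
              rw [one_div_one_div]
            rw [h5]
            exact one_div_le_one_div_of_le (by positivity) h3
          calc ‖w x‖ ≤ 2 * hk k := by rw [hk_succ] at hk2; exact hk2.le
            _ = ((2 * hk k) ^ α) ^ (1 / α) := by
                rw [← Real.rpow_mul (by positivity), mul_one_div_cancel hα.ne', Real.rpow_one]
            _ ≤ (J x) ^ (1 / α) := Real.rpow_le_rpow (by positivity) h1 (by positivity)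
        rw [min_eq_left hle, sub_self]
        exact add_nonneg hi0 (Finset.sum_nonneg hs0)
      · have hxT : x ∈ T k := subset_toMeasurable _ _ (show x ∈ bad k from ⟨hk1, hS⟩)
        have h1 : ‖w x‖ ^ (α + 2) ≤ (2 * hk k) ^ (α + 2) := by
          rw [hk_succ] at hk2
          exact Real.rpow_le_rpow (norm_nonneg _) hk2.le (by linarith)
        have h2 := Finset.single_le_sum hs0 hkK
        rw [indicator_of_mem hxT] at h2
        linarith [hg0 x]
  have hTi : ∀ k, Integrable (indicator (T k) (fun _ : E N => (2 * hk k) ^ (α + 2))) := fun k =>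
    (integrable_indicator_iff (hTm k)).2 (integrableOn_const (hs := hTf k))
  have hmain : (∫ x, (‖w x‖ ^ (α + 2) - (min ‖w x‖ ((J x) ^ (1 / α))) ^ (α + 2))) ≤
      (∫ x, indicator Out (fun x => ‖w x‖ ^ (α + 2)) x) +
        ∑ k ∈ Finset.Icc (-(K:ℤ)) K, (2 * hk k) ^ (α + 2) * volume.real (T k) := by
    have h1 : (∑ k ∈ Finset.Icc (-(K:ℤ)) K, (2 * hk k) ^ (α + 2) * volume.real (T k)) =
        ∫ x, ∑ k ∈ Finset.Icc (-(K:ℤ)) K, indicator (T k) (fun _ => (2 * hk k) ^ (α + 2)) x := by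
      rw [integral_finset_sum _ (fun k _ => hTi k)]
      refine Finset.sum_congr rfl fun k _ => ?_
      rw [integral_indicator (hTm k), setIntegral_const, smul_eq_mul, mul_comm]
    rw [h1, ← integral_add (hint.indicator hOutm) (integrable_finset_sum _ fun k _ => hTi k)]
    exact integral_mono (hint.sub hgi)
      ((hint.indicator hOutm).add (integrable_finset_sum _ fun k _ => hTi k)) hpt
  rw [integral_sub hint hgi] at hmain
  have hfin : (∑ k ∈ Finset.Icc (-(K:ℤ)) K, (2 * hk k) ^ (α + 2) * volume.real (T k)) ≤ F / 4 := by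
    calc (∑ k ∈ Finset.Icc (-(K:ℤ)) K, (2 * hk k) ^ (α + 2) * volume.real (T k))
        ≤ ∑ k ∈ Finset.Icc (-(K:ℤ)) K, (1 / 8) * ∫ x in A k, gsq w x :=
          Finset.sum_le_sum fun k _ => hTr k
      _ = (1 / 8) * ∑ k ∈ Finset.Icc (-(K:ℤ)) K, ∫ x in A k, gsq w x := by
          rw [Finset.mul_sum]
      _ ≤ (1 / 8) * (2 * F) := by
          refine mul_le_mul_of_nonneg_left (hsum.trans hD) (by norm_num)
      _ = F / 4 := by ring
  linarith
end CGL
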