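import Pool.Agent.CGL.SR
import Pool.Agent.CGL.SJ1
import Pool.Agent.CGL.SJ2
/-! SWT: the weight attached to a finite set of seeds -/
open MeasureTheory Set Filter Topology
namespace CGL

theorem exists_wt (N : ℕ) : ∃ C : ℝ, 0 < C ∧ ∀ (Sd : Finset (E N × ℝ)) (R : ℝ), 0 < R →
    (∀ p ∈ Sd, 0 < p.2) → ∃ W : Wt N C R, ∀ x,
      1 / C ≤ rsq Sd R x * W.J x ∧ rsq Sd R x * W.J x ≤ C := by
  obtain ⟨C1, hC1, hsize⟩ := Jf_size N
  obtain ⟨C2, hC2, hder⟩ := Jf_deriv N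
  have hpos : 0 < C1 + C2 ^ 2 * C1 ^ 3 + C2 * C1 ^ 2 := by positivity
  refine ⟨C1 + C2 ^ 2 * C1 ^ 3 + C2 * C1 ^ 2, hpos, ?_⟩
  intro Sd R hR hS
  obtain ⟨C, hC⟩ : ∃ C, C = C1 + C2 ^ 2 * C1 ^ 3 + C2 * C1 ^ 2 := ⟨_, rfl⟩
  rw [← hC]
  rw [← hC] at hpos
  have hC1C : C1 ≤ C := by
    rw [hC]
    have h1 : 0 ≤ C2 ^ 2 * C1 ^ 3 := by positivity
    have h2 : 0 ≤ C2 * C1 ^ 2 := by positivity
    linarith
  have hC2C : C2 ^ 2 * C1 ^ 3 ≤ C := by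
    rw [hC]
    have h2 : 0 ≤ C2 * C1 ^ 2 := by positivity
    linarith
  have hC3C : C2 * C1 ^ 2 ≤ C := by
    rw [hC]
    have h1 : 0 ≤ C2 ^ 2 * C1 ^ 3 := by positivity
    linarith
  obtain ⟨m, hm, hml⟩ := rsq_lower Sd hR hS
  obtain ⟨r, hr⟩ : ∃ r : E N → ℝ, r = fun x => Real.sqrt (rsq Sd R x) := ⟨_, rfl⟩
  have hrm : ∀ x, m ≤ r x := by
    intro x
    rw [hr]
    exact Real.le_sqrt_of_sq_le (hml x)
  have hr0 : ∀ x, 0 < r x := fun x => lt_of_lt_of_le hm (hrm x)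
  have hrsq : ∀ x, r x ^ 2 = rsq Sd R x := by
    intro x
    rw [hr]
    exact Real.sq_sqrt ((sq_nonneg m).trans (hml x))
  have hlip : ∀ x y, |r x - r y| ≤ dist x y := by
    intro x y
    rw [hr]
    exact sqrt_rsq_lip Sd hR hS x y
  obtain ⟨dJ, ddJ, hcJ, hcdJ, hcddJ, hJ, hdJ, hb1, hb2⟩ := hder r m hm hrm hlip
  have hsz := hsize r hlip hr0
  have hone : ∀ x, 1 ≤ C1 * (r x ^ 2 * Jf r x) := by
    intro x
    have h1 := (hsz x).1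
    rw [div_le_iff₀ hC1] at h1
    linarith
  have hJpos : ∀ x, 0 < Jf r x := by
    intro x
    have h1 := hone x
    have h2 : 0 < r x ^ 2 := by have := hr0 x; positivity
    by_contra h3
    push Not at h3
    have h4 : r x ^ 2 * Jf r x ≤ 0 := mul_nonpos_of_nonneg_of_nonpos h2.le h3
    have h5 : C1 * (r x ^ 2 * Jf r x) ≤ 0 := mul_nonpos_of_nonneg_of_nonpos hC1.le h4
    linarith
  have hRr : ∀ x, r x ^ 2 ≤ R ^ 2 := by
    intro x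
    rw [hrsq x]
    exact rsq_le_R Sd R x
  refine ⟨⟨Jf r, dJ, ddJ, hcJ, hcdJ, hcddJ, hJ, hdJ, ?_, ?_, ?_, ?_⟩, ?_⟩
  · intro x
    rw [div_le_iff₀ (by positivity)]
    calc (1 : ℝ) ≤ C1 * (r x ^ 2 * Jf r x) := hone x
      _ ≤ C * (R ^ 2 * Jf r x) := by
        have h1 := hJpos x
        have h2 := hRr x
        have h3 : 0 ≤ r x ^ 2 := sq_nonneg _
        gcongr
      _ = Jf r x * (C * R ^ 2) := by ring
  · intro i x
    have h1 := hJpos x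
    have h2 := hr0 x
    have h3 : 1 ≤ (C1 * (r x ^ 2 * Jf r x)) ^ 3 := one_le_pow₀ (hone x)
    have h4 : dJ i x ^ 2 * (r x ^ 3) ^ 2 ≤ C2 ^ 2 := by
      have h5 := hb1 i x
      have h6 : 0 ≤ |dJ i x| * r x ^ 3 := by positivity
      have h7 := pow_le_pow_left₀ h6 h5 2
      rw [mul_pow, sq_abs] at h7
      exact h7
    calc dJ i x ^ 2 = dJ i x ^ 2 * 1 := by ring
      _ ≤ dJ i x ^ 2 * (C1 * (r x ^ 2 * Jf r x)) ^ 3 :=
        mul_le_mul_of_nonneg_left h3 (sq_nonneg _)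
      _ = (dJ i x ^ 2 * (r x ^ 3) ^ 2) * (C1 ^ 3 * Jf r x ^ 3) := by ring
      _ ≤ C2 ^ 2 * (C1 ^ 3 * Jf r x ^ 3) := mul_le_mul_of_nonneg_right h4 (by positivity)
      _ = (C2 ^ 2 * C1 ^ 3) * Jf r x ^ 3 := by ring
      _ ≤ C * Jf r x ^ 3 := mul_le_mul_of_nonneg_right hC2C (by positivity)
  · intro i x
    have h1 := hJpos x
    have h2 := hr0 x
    have h3 : 1 ≤ (C1 * (r x ^ 2 * Jf r x)) ^ 2 := one_le_pow₀ (hone x)
    calc |ddJ i x| = |ddJ i x| * 1 := by ring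
      _ ≤ |ddJ i x| * (C1 * (r x ^ 2 * Jf r x)) ^ 2 :=
        mul_le_mul_of_nonneg_left h3 (abs_nonneg _)
      _ = (|ddJ i x| * r x ^ 4) * (C1 ^ 2 * Jf r x ^ 2) := by ring
      _ ≤ C2 * (C1 ^ 2 * Jf r x ^ 2) := mul_le_mul_of_nonneg_right (hb2 i x) (by positivity)
      _ = (C2 * C1 ^ 2) * Jf r x ^ 2 := by ring
      _ ≤ C * Jf r x ^ 2 := mul_le_mul_of_nonneg_right hC3C (by positivity)
  · refine ⟨C1 / m ^ 2, fun x => ?_⟩
    rw [le_div_iff₀ (by positivity)]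
    have h1 := hJpos x
    calc Jf r x * m ^ 2 ≤ Jf r x * r x ^ 2 := by
          apply mul_le_mul_of_nonneg_left _ h1.le
          exact pow_le_pow_left₀ hm.le (hrm x) 2
      _ = r x ^ 2 * Jf r x := by ring
      _ ≤ C1 := (hsz x).2
  · intro x
    change 1 / C ≤ rsq Sd R x * Jf r x ∧ rsq Sd R x * Jf r x ≤ C
    rw [← hrsq x]
    refine ⟨le_trans ?_ (hsz x).1, (hsz x).2.trans hC1C⟩
    exact one_div_le_one_div_of_le hC1 hC1C
end CGL
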