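import Pool.Agent.CGL.SNet
import Pool.Agent.CGL.SWt
import Pool.Agent.CGL.SCostA
import Pool.Agent.CGL.SCostB
import Pool.Agent.CGL.SPers
/-! SMAIN: the static theorem -/
open MeasureTheory Set Filter Topology
namespace CGL

/-- the constant of a weight may be increased. -/
theorem smain_mono {N : ℕ} {C1 C R : ℝ} (hC1 : 0 < C1) (hC : C1 ≤ C) (hR : 0 < R)
    (W1 : Wt N C1 R) : ∃ W : Wt N C R, W.J = W1.J := by
  have hJ : ∀ x, 0 < W1.J x := fun x => lt_of_lt_of_le (by positivity) (W1.lower x)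
  refine ⟨⟨W1.J, W1.dJ, W1.ddJ, W1.cJ, W1.cdJ, W1.cddJ, W1.hJ, W1.hdJ, ?_, ?_, ?_, W1.upper⟩, rfl⟩
  · intro x
    refine le_trans ?_ (W1.lower x)
    apply one_div_le_one_div_of_le (by positivity)
    exact mul_le_mul_of_nonneg_right hC (sq_nonneg R)
  · intro i x
    refine (W1.bdJ i x).trans ?_
    have := hJ x
    exact mul_le_mul_of_nonneg_right hC (by positivity)
  · intro i x
    refine (W1.bddJ i x).trans ?_
    exact mul_le_mul_of_nonneg_right hC (sq_nonneg _)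

theorem smain_cost (N : ℕ) (α : ℝ) (hα : 0 < α) (hcrit : ((N:ℝ) - 2) * α ≤ 4) :
    ∃ C : ℝ, 0 < C ∧ ∀ (w : E N → ℂ), Nice w → ∀ (Sd : Finset (E N × ℝ)) (R : ℝ), 0 < R →
      (∀ p ∈ Sd, 0 < p.2) →
      (∫ x, ‖w x‖ ^ 2 / rsq Sd R x)
        ≤ C * ((∫ x, ‖w x‖ ^ (α + 2)) + (∫ x, gsq w x) + ∑ p ∈ Sd, p.2 ^ ((N:ℝ) - 2 - 4 / α))
          + (∫ x, ‖w x‖ ^ 2) / R ^ 2 := by
  rcases lt_or_eq_of_le hcrit with h | h
  · exact cost_sub N α hα h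
  · exact cost_crit N α hα h

theorem static_main (N : ℕ) (hN : 1 ≤ N) (α : ℝ) (hα : 0 < α) (hcrit : ((N:ℝ) - 2) * α ≤ 4) :
    ∃ C : ℝ, 0 < C ∧ ∀ (w : E N → ℂ), Nice w →
      (∫ x, gsq w x) ≤ 2 * (∫ x, ‖w x‖ ^ (α + 2)) → 0 < (∫ x, ‖w x‖ ^ (α + 2)) →
      ∀ R : ℝ, 0 < R → ∃ W : Wt N C R,
        (1 / 2) * (∫ x, ‖w x‖ ^ (α + 2))
            ≤ (∫ x, (min ‖w x‖ ((W.J x) ^ (1 / α))) ^ (α + 2)) ∧
        (∫ x, W.J x * ‖w x‖ ^ 2)
            ≤ C * ((∫ x, ‖w x‖ ^ (α + 2)) + (∫ x, ‖w x‖ ^ 2) / R ^ 2) := by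
  obtain ⟨C1, hC1, hwt⟩ := exists_wt N
  obtain ⟨c1, hc1, hpers⟩ := pers N α hα C1 hC1
  obtain ⟨Cn, hCn, hseeds⟩ := exists_seeds N α c1 hα hc1
  obtain ⟨Cc, hCc, hcost⟩ := smain_cost N α hα hcrit
  obtain ⟨C, hC⟩ : ∃ C, C = C1 + C1 * (Cc * (3 + Cn)) := ⟨_, rfl⟩
  have hC1C : C1 ≤ C := by
    rw [hC]
    have : 0 ≤ C1 * (Cc * (3 + Cn)) := by positivity
    linarith
  have hC2C : C1 * (Cc * (3 + Cn)) ≤ C := by
    rw [hC]
    linarith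
  have hCpos : 0 < C := lt_of_lt_of_le hC1 hC1C
  refine ⟨C, hCpos, ?_⟩
  intro w hw hDF hF R hR
  obtain ⟨K, hK⟩ := hpers w hw hDF hF
  obtain ⟨Sd, hSd, hSsum, hSnear⟩ := hseeds w hw K
  obtain ⟨W1, hW1⟩ := hwt Sd R hR hSd
  obtain ⟨W, hWJ⟩ := smain_mono hC1 hC1C hR W1
  have hJpos : ∀ x, 0 < W1.J x := fun x => lt_of_lt_of_le (by positivity) (W1.lower x)
  obtain ⟨m, hm, hml⟩ := rsq_lower Sd hR hSd
  have hrpos : ∀ x, 0 < rsq Sd R x := fun x => lt_of_lt_of_le (by positivity) (hml x)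
  refine ⟨W, ?_, ?_⟩
  · rw [hWJ]
    refine hK W1.J W1.cJ hJpos ?_
    intro k hk x hx
    obtain ⟨p, hp, hp2, hdist⟩ := hSnear k hk x hx
    have hs : 0 < sk α c1 k := sk_pos hc1 k
    have h1 : rsq Sd R x ≤ 5 * sk α c1 k ^ 2 := by
      have h2 := rsq_le_seed Sd R x hp
      rw [hp2] at h2 hdist
      have h3 : dist x p.1 ^ 2 ≤ (2 * sk α c1 k) ^ 2 :=
        pow_le_pow_left₀ dist_nonneg hdist.le 2
      linarith [h3]
    have h2 := (hW1 x).1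
    rw [div_le_iff₀ hC1] at h2
    rw [div_le_iff₀ (by positivity)]
    calc (1 : ℝ) ≤ rsq Sd R x * W1.J x * C1 := h2
      _ ≤ (5 * sk α c1 k ^ 2) * W1.J x * C1 := by
        have h3 := hJpos x
        gcongr
      _ = W1.J x * (C1 * (5 * sk α c1 k ^ 2)) := by ring
  · rw [hWJ]
    have hint : Integrable (fun x => ‖w x‖ ^ 2 / rsq Sd R x) := by
      refine Integrable.mono' (hw.l2.div_const (m ^ 2)) ?_ ?_
      · apply Continuous.aestronglyMeasurable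
        exact ((hw.c1.continuous.norm).pow 2).div (rsq_cont Sd R) (fun x => (hrpos x).ne')
      · refine Filter.Eventually.of_forall fun x => ?_
        rw [Real.norm_of_nonneg (div_nonneg (sq_nonneg _) (hrpos x).le)]
        exact div_le_div_of_nonneg_left (sq_nonneg _) (by positivity) (hml x)
    have h1 : (∫ x, W1.J x * ‖w x‖ ^ 2) ≤ C1 * ∫ x, ‖w x‖ ^ 2 / rsq Sd R x := by
      rw [← integral_const_mul]
      apply integral_mono_of_nonneg _ (hint.const_mul C1)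
      · refine Filter.Eventually.of_forall fun x => ?_
        change W1.J x * ‖w x‖ ^ 2 ≤ C1 * (‖w x‖ ^ 2 / rsq Sd R x)
        have h2 := (hW1 x).2
        have h3 := hrpos x
        have h4 : W1.J x ≤ C1 / rsq Sd R x := by
          rw [le_div_iff₀ h3]
          linarith
        calc W1.J x * ‖w x‖ ^ 2 ≤ (C1 / rsq Sd R x) * ‖w x‖ ^ 2 :=
              mul_le_mul_of_nonneg_right h4 (sq_nonneg _)
          _ = C1 * (‖w x‖ ^ 2 / rsq Sd R x) := by ring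
      · refine Filter.Eventually.of_forall fun x => ?_
        have := hJpos x
        positivity
    have h2 := hcost w hw Sd R hR hSd
    have hF0 : 0 ≤ ∫ x, ‖w x‖ ^ (α + 2) := hF.le
    have hM0 : 0 ≤ (∫ x, ‖w x‖ ^ 2) / R ^ 2 :=
      div_nonneg (integral_nonneg fun x => sq_nonneg _) (sq_nonneg R)
    have h3 : (∫ x, ‖w x‖ ^ (α + 2)) + (∫ x, gsq w x) +
        ∑ p ∈ Sd, p.2 ^ ((N:ℝ) - 2 - 4 / α) ≤ (3 + Cn) * ∫ x, ‖w x‖ ^ (α + 2) := by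
      linarith
    have h4 : C1 * (∫ x, ‖w x‖ ^ 2 / rsq Sd R x) ≤
        C1 * (Cc * ((3 + Cn) * ∫ x, ‖w x‖ ^ (α + 2)) + (∫ x, ‖w x‖ ^ 2) / R ^ 2) := by
      apply mul_le_mul_of_nonneg_left _ hC1.le
      refine h2.trans ?_
      exact add_le_add (mul_le_mul_of_nonneg_left h3 hCc.le) le_rfl
    calc (∫ x, W1.J x * ‖w x‖ ^ 2) ≤
          C1 * (Cc * ((3 + Cn) * ∫ x, ‖w x‖ ^ (α + 2)) + (∫ x, ‖w x‖ ^ 2) / R ^ 2) :=
          h1.trans h4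
      _ = (C1 * (Cc * (3 + Cn))) * (∫ x, ‖w x‖ ^ (α + 2)) +
          C1 * ((∫ x, ‖w x‖ ^ 2) / R ^ 2) := by ring
      _ ≤ C * (∫ x, ‖w x‖ ^ (α + 2)) + C * ((∫ x, ‖w x‖ ^ 2) / R ^ 2) :=
          add_le_add (mul_le_mul_of_nonneg_right hC2C hF0) (mul_le_mul_of_nonneg_right hC1C hM0)
      _ = C * ((∫ x, ‖w x‖ ^ (α + 2)) + (∫ x, ‖w x‖ ^ 2) / R ^ 2) := by ring
end CGL
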