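import Pool.Agent.CGL.STool
/-! SNET: maximal separated nets of seeds -/
open MeasureTheory Set Filter Topology
namespace CGL

/-- the volume of balls. -/
theorem snet_ball {N : ℕ} (y : E N) {s : ℝ} (hs : 0 < s) :
    volume.real (Metric.ball y s) = s ^ N * volume.real (Metric.ball (0 : E N) 1) := by
  have h := Measure.addHaar_ball_of_pos (volume : Measure (E N)) y hs
  rw [finrank_euclideanSpace_fin] at h
  rw [Measure.real, h, ENNReal.toReal_mul, ENNReal.toReal_ofReal (by positivity), Measure.real]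

theorem snet_ball_pos {N : ℕ} (y : E N) {s : ℝ} (hs : 0 < s) :
    0 < volume.real (Metric.ball y s) := by
  rw [Measure.real, ENNReal.toReal_pos_iff]
  exact ⟨Metric.measure_ball_pos _ _ hs, measure_ball_lt_top⟩

theorem snet_ball_eq {N : ℕ} (y : E N) {s : ℝ} (hs : 0 < s) :
    volume.real (Metric.ball y s) = volume.real (Metric.ball (0 : E N) s) := by
  rw [snet_ball y hs, snet_ball 0 hs]

/-- separated subsets of `Sset` are small. -/
theorem snet_card {N : ℕ} {w : E N → ℂ} (hw : Nice w) {h s : ℝ} (hh : 0 < h) (hs : 0 < s)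
    (Y : Finset (E N)) (hY : ∀ y ∈ Y, y ∈ Sset w h s)
    (hsep : ∀ x ∈ Y, ∀ y ∈ Y, x ≠ y → 2 * s ≤ dist x y) :
    (Y.card : ℝ) * volume.real (Metric.ball (0 : E N) s) ≤ 2 * volume.real {z | h / 2 ≤ ‖w z‖} := by
  have hfin : volume {z | h / 2 ≤ ‖w z‖} < ⊤ := hw.finite_level (by positivity)
  have hmeas : MeasurableSet {z | h / 2 ≤ ‖w z‖} :=
    (isClosed_le continuous_const hw.c1.continuous.norm).measurableSet
  have h1 : ∑ y ∈ Y, volume.real ({z | h / 2 ≤ ‖w z‖} ∩ Metric.ball y s) =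
      volume.real (⋃ y ∈ Y, ({z | h / 2 ≤ ‖w z‖} ∩ Metric.ball y s)) := by
    symm
    apply measureReal_biUnion_finset
    · intro x hx y hy hxy
      refine Disjoint.mono inter_subset_right inter_subset_right ?_
      apply Metric.ball_disjoint_ball
      have := hsep x hx y hy hxy
      linarith
    · intro y _
      exact hmeas.inter measurableSet_ball
    · intro y _
      exact (measure_mono inter_subset_left).trans_lt hfin |>.ne
  have h2 : volume.real (⋃ y ∈ Y, ({z | h / 2 ≤ ‖w z‖} ∩ Metric.ball y s)) ≤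
      volume.real {z | h / 2 ≤ ‖w z‖} := by
    apply measureReal_mono _ hfin.ne
    exact iUnion₂_subset fun y _ => inter_subset_left
  have h3 : (Y.card : ℝ) * ((1 / 2) * volume.real (Metric.ball (0 : E N) s)) ≤
      ∑ y ∈ Y, volume.real ({z | h / 2 ≤ ‖w z‖} ∩ Metric.ball y s) := by
    rw [← nsmul_eq_mul]
    apply Finset.card_nsmul_le_sum
    intro y hy
    have := hY y hy
    unfold Sset at this
    rw [Set.mem_ofPred_eq, snet_ball_eq y hs] at this
    exact this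
  linarith

theorem exists_net {N : ℕ} {w : E N → ℂ} (hw : Nice w) {h s : ℝ} (hh : 0 < h) (hs : 0 < s) :
    ∃ Y : Finset (E N), (∀ y ∈ Y, y ∈ Sset w h s) ∧
      (∀ x ∈ Sset w h s, ∃ y ∈ Y, dist x y < 2 * s) ∧
      (Y.card : ℝ) * volume.real (Metric.ball (0 : E N) s) ≤ 2 * volume.real {z | h / 2 ≤ ‖w z‖} := by
  classical
  have hpos := snet_ball_pos (0 : E N) hs
  set B : ℝ := 2 * volume.real {z | h / 2 ≤ ‖w z‖} / volume.real (Metric.ball (0 : E N) s) with hB
  -- the set of cardinalities of admissible sets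
  set P : ℕ → Prop := fun m => ∃ Y : Finset (E N), Y.card = m ∧ (∀ y ∈ Y, y ∈ Sset w h s) ∧
    ∀ x ∈ Y, ∀ y ∈ Y, x ≠ y → 2 * s ≤ dist x y with hP
  have hbd : ∀ m, P m → m ≤ ⌊B⌋₊ := by
    rintro m ⟨Y, rfl, hY, hsep⟩
    apply Nat.le_floor
    rw [hB, le_div_iff₀ hpos]
    exact snet_card hw hh hs Y hY hsep
  have h0 : P 0 := ⟨∅, by simp, by simp, by simp⟩
  set m := Nat.findGreatest P ⌊B⌋₊ with hm
  obtain ⟨Y, hYm, hY, hsep⟩ : P m := Nat.findGreatest_spec (Nat.zero_le _) h0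
  refine ⟨Y, hY, ?_, snet_card hw hh hs Y hY hsep⟩
  intro x hx
  by_contra hcon
  push Not at hcon
  have hxY : x ∉ Y := by
    intro hxY
    have := hcon x hxY
    rw [dist_self] at this
    linarith
  have h1 : P (m + 1) := by
    refine ⟨insert x Y, by rw [Finset.card_insert_of_notMem hxY, hYm], ?_, ?_⟩
    · intro y hy
      rcases Finset.mem_insert.1 hy with rfl | hy
      · exact hx
      · exact hY y hy
    · intro a ha b hb hab
      rcases Finset.mem_insert.1 ha with ha' | ha'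
      · rcases Finset.mem_insert.1 hb with hb' | hb'
        · exact absurd (ha'.trans hb'.symm) hab
        · rw [ha']
          exact hcon b hb'
      · rcases Finset.mem_insert.1 hb with hb' | hb'
        · rw [hb', dist_comm]
          exact hcon a ha'
        · exact hsep a ha' b hb' hab
  have h2 := Nat.le_findGreatest (hbd _ h1) h1
  omega

/-- all seeds with heights `2^k`, `|k| ≤ K`. -/
theorem exists_seeds (N : ℕ) (α c1 : ℝ) (hα : 0 < α) (hc1 : 0 < c1) :
    ∃ C : ℝ, 0 < C ∧ ∀ (w : E N → ℂ), Nice w → ∀ K : ℕ,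
      ∃ Sd : Finset (E N × ℝ), (∀ p ∈ Sd, 0 < p.2) ∧
        (∑ p ∈ Sd, p.2 ^ ((N:ℝ) - 2 - 4 / α)) ≤ C * ∫ x, ‖w x‖ ^ (α + 2) ∧
        ∀ k : ℤ, k ∈ Icc (-(K:ℤ)) K → ∀ x ∈ Sset w (hk k) (sk α c1 k),
          ∃ p ∈ Sd, p.2 = sk α c1 k ∧ dist x p.1 < 2 * p.2 := by
  classical
  set v : ℝ := volume.real (Metric.ball (0 : E N) 1) with hv
  have hv0 : 0 < v := snet_ball_pos _ one_pos
  refine ⟨2 / v * c1 ^ (-2 - 4 / α) * (2 * 2 ^ (α + 2)), by positivity, ?_⟩
  intro w hw K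
  have hnet : ∀ k : ℤ, ∃ Y : Finset (E N), (∀ y ∈ Y, y ∈ Sset w (hk k) (sk α c1 k)) ∧
      (∀ x ∈ Sset w (hk k) (sk α c1 k), ∃ y ∈ Y, dist x y < 2 * sk α c1 k) ∧
      (Y.card : ℝ) * volume.real (Metric.ball (0 : E N) (sk α c1 k)) ≤
        2 * volume.real {z | hk k / 2 ≤ ‖w z‖} :=
    fun k => exists_net hw (hk_pos k) (sk_pos hc1 k)
  choose Y hY1 hY2 hY3 using hnet
  refine ⟨(Finset.Icc (-(K:ℤ)) K).biUnion (fun k => (Y k).image (fun y => (y, sk α c1 k))),
    ?_, ?_, ?_⟩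
  · intro p hp
    obtain ⟨k, -, hp⟩ := Finset.mem_biUnion.1 hp
    obtain ⟨y, -, rfl⟩ := Finset.mem_image.1 hp
    exact sk_pos hc1 k
  · set g : E N × ℝ → ℝ := fun p => p.2 ^ ((N:ℝ) - 2 - 4 / α) with hg
    have hterm : ∀ k ∈ Finset.Icc (-(K:ℤ)) K,
        ∑ p ∈ (Y k).image (fun y => (y, sk α c1 k)), |g p| ≤
        2 / v * c1 ^ (-2 - 4 / α) *
          ((hk k) ^ (α + 2) * volume.real {x | hk k / 2 ≤ ‖w x‖}) := by
      intro k _
      have hs := sk_pos (α := α) hc1 k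
      have hhk := hk_pos k
      have h1 : ∑ p ∈ (Y k).image (fun y => (y, sk α c1 k)), |g p| =
          (Y k).card * (sk α c1 k) ^ ((N:ℝ) - 2 - 4 / α) := by
        rw [Finset.sum_image (fun a _ b _ hab => (Prod.mk.inj hab).1)]
        simp only [hg]
        rw [Finset.sum_const, nsmul_eq_mul, abs_of_pos (Real.rpow_pos_of_pos hs _)]
      rw [h1]
      have h2 := hY3 k
      rw [snet_ball 0 hs] at h2
      have h3 : (sk α c1 k) ^ ((N:ℝ) - 2 - 4 / α) =
          (sk α c1 k) ^ N * (sk α c1 k) ^ (-2 - 4 / α) := by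
        rw [← Real.rpow_natCast, ← Real.rpow_add hs]
        congr 1
        ring
      have h4 : (sk α c1 k) ^ (-2 - 4 / α) = c1 ^ (-2 - 4 / α) * (hk k) ^ (α + 2) := by
        unfold sk
        rw [Real.mul_rpow hc1.le (Real.rpow_nonneg hhk.le _), ← Real.rpow_mul hhk.le]
        congr 2
        field_simp
        ring
      rw [h3, h4]
      have h5 : ((Y k).card : ℝ) * (sk α c1 k) ^ N ≤
          2 / v * volume.real {z | hk k / 2 ≤ ‖w z‖} := by
        rw [div_mul_eq_mul_div, le_div_iff₀ hv0, mul_assoc]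
        exact h2
      have h6 : 0 ≤ c1 ^ (-2 - 4 / α) * (hk k) ^ (α + 2) := by positivity
      calc ((Y k).card : ℝ) * ((sk α c1 k) ^ N * (c1 ^ (-2 - 4 / α) * (hk k) ^ (α + 2)))
          = ((Y k).card : ℝ) * (sk α c1 k) ^ N * (c1 ^ (-2 - 4 / α) * (hk k) ^ (α + 2)) := by ring
        _ ≤ 2 / v * volume.real {z | hk k / 2 ≤ ‖w z‖} *
            (c1 ^ (-2 - 4 / α) * (hk k) ^ (α + 2)) := mul_le_mul_of_nonneg_right h5 h6
        _ = _ := by ring
    have hsum : ∀ (s : Finset ℤ) (A : ℤ → Finset (E N × ℝ)),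
        ∑ p ∈ s.biUnion A, |g p| ≤ ∑ k ∈ s, ∑ p ∈ A k, |g p| := by
      intro s A
      induction s using Finset.induction_on with
      | empty => simp
      | insert a s ha ih =>
        rw [Finset.biUnion_insert, Finset.sum_insert ha]
        have h1 : ∑ p ∈ A a ∪ s.biUnion A, |g p| ≤
            ∑ p ∈ A a, |g p| + ∑ p ∈ s.biUnion A, |g p| := by
          rw [← Finset.sum_union_inter]
          exact le_add_of_nonneg_right (Finset.sum_nonneg fun _ _ => abs_nonneg _)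
        linarith
    calc ∑ p ∈ (Finset.Icc (-(K:ℤ)) K).biUnion
          (fun k => (Y k).image (fun y => (y, sk α c1 k))), g p
        ≤ ∑ p ∈ (Finset.Icc (-(K:ℤ)) K).biUnion
          (fun k => (Y k).image (fun y => (y, sk α c1 k))), |g p| :=
          Finset.sum_le_sum fun p _ => le_abs_self _
      _ ≤ ∑ k ∈ Finset.Icc (-(K:ℤ)) K,
          ∑ p ∈ (Y k).image (fun y => (y, sk α c1 k)), |g p| := hsum _ _
      _ ≤ ∑ k ∈ Finset.Icc (-(K:ℤ)) K, 2 / v * c1 ^ (-2 - 4 / α) *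
          ((hk k) ^ (α + 2) * volume.real {x | hk k / 2 ≤ ‖w x‖}) := Finset.sum_le_sum hterm
      _ = 2 / v * c1 ^ (-2 - 4 / α) * ∑ k ∈ Finset.Icc (-(K:ℤ)) K,
          (hk k) ^ (α + 2) * volume.real {x | hk k / 2 ≤ ‖w x‖} := by rw [Finset.mul_sum]
      _ ≤ 2 / v * c1 ^ (-2 - 4 / α) * (2 * 2 ^ (α + 2) * ∫ x, ‖w x‖ ^ (α + 2)) :=
          mul_le_mul_of_nonneg_left (level_sum hw hα _) (by positivity)
      _ = _ := by ring
  · intro k hk' x hx
    obtain ⟨y, hy, hd⟩ := hY2 k x hx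
    refine ⟨(y, sk α c1 k), ?_, rfl, hd⟩
    refine Finset.mem_biUnion.2 ⟨k, Finset.mem_Icc.2 ⟨hk'.1, hk'.2⟩, ?_⟩
    exact Finset.mem_image_of_mem _ hy
end CGL
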