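import Pool.Agent.CGL.Defs
/-! STOOL: small static facts -/
open MeasureTheory Set Filter Topology
namespace CGL
variable {N : ℕ}

/-- `|Dw(x) z|² ≤ |∇w(x)|² |z|²`. -/
theorem fderiv_sq_le (w : E N → ℂ) (x z : E N) :
    ‖fderiv ℝ w x z‖ ^ 2 ≤ gsq w x * ‖z‖ ^ 2 := by
  have hz : z = ∑ i : Fin N, z i • ev i := by
    conv_lhs => rw [← (EuclideanSpace.basisFun (Fin N) ℝ).sum_repr z]
    simp
  have h1 : fderiv ℝ w x z = ∑ i : Fin N, z i • fderiv ℝ w x (ev i) := by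
    conv_lhs => rw [hz]
    rw [map_sum]
    simp only [map_smul]
  have h2 : ‖fderiv ℝ w x z‖ ≤ ∑ i : Fin N, |z i| * ‖fderiv ℝ w x (ev i)‖ := by
    rw [h1]
    refine (norm_sum_le _ _).trans (le_of_eq ?_)
    refine Finset.sum_congr rfl fun i _ => ?_
    rw [norm_smul, Real.norm_eq_abs]
  have h3 : (∑ i : Fin N, |z i| * ‖fderiv ℝ w x (ev i)‖) ^ 2 ≤
      (∑ i : Fin N, |z i| ^ 2) * ∑ i : Fin N, ‖fderiv ℝ w x (ev i)‖ ^ 2 :=
    Finset.sum_mul_sq_le_sq_mul_sq _ _ _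
  have h4 : ∑ i : Fin N, |z i| ^ 2 = ‖z‖ ^ 2 := by
    rw [EuclideanSpace.norm_sq_eq]
    simp
  calc ‖fderiv ℝ w x z‖ ^ 2 ≤ (∑ i : Fin N, |z i| * ‖fderiv ℝ w x (ev i)‖) ^ 2 :=
        pow_le_pow_left₀ (norm_nonneg _) h2 2
    _ ≤ _ := h3
    _ = gsq w x * ‖z‖ ^ 2 := by rw [h4, gsq, mul_comm]

theorem gsq_nonneg (w : E N → ℂ) (x : E N) : 0 ≤ gsq w x :=
  Finset.sum_nonneg fun _ _ => sq_nonneg _

theorem gsq_cont {w : E N → ℂ} (hw : ContDiff ℝ 1 w) : Continuous (gsq w) := by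
  unfold gsq
  refine continuous_finset_sum _ fun i _ => ?_
  exact (((hw.continuous_fderiv (by norm_num)).clm_apply continuous_const).norm).pow 2

/-- `|w|^β` is integrable for `β ≥ 2`. -/
theorem Nice.int_pow {w : E N → ℂ} (hw : Nice w) {β : ℝ} (hβ : 2 ≤ β) :
    Integrable (fun x => ‖w x‖ ^ β) := by
  obtain ⟨C, hC⟩ := hw.bdd
  have hcont : Continuous fun x => ‖w x‖ ^ β :=
    hw.c1.continuous.norm.rpow_const fun x => Or.inr (by linarith)
  refine (hw.l2.const_mul ((max C 1) ^ (β - 2))).mono' hcont.aestronglyMeasurable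
    (ae_of_all _ fun x => ?_)
  rw [Real.norm_of_nonneg (Real.rpow_nonneg (norm_nonneg _) _)]
  rcases (norm_nonneg (w x)).eq_or_lt with h | h
  · rw [← h, Real.zero_rpow (by linarith)]
    positivity
  · have e : ‖w x‖ ^ β = ‖w x‖ ^ (β - 2) * ‖w x‖ ^ 2 := by
      rw [← Real.rpow_natCast, ← Real.rpow_add h]
      congr 1
      push_cast
      ring
    rw [e]
    apply mul_le_mul_of_nonneg_right _ (sq_nonneg _)
    exact Real.rpow_le_rpow (norm_nonneg _) ((hC x).trans (le_max_left _ _)) (by linarith)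

theorem Nice.finite_level {w : E N → ℂ} (hw : Nice w) {h : ℝ} (hh : 0 < h) :
    volume {x | h ≤ ‖w x‖} < ⊤ := by
  have h1 := hw.l2.measure_norm_ge_lt_top (ε := h ^ 2) (by positivity)
  refine lt_of_le_of_lt (measure_mono ?_) h1
  intro x hx
  simp only [mem_ofPred_eq] at hx ⊢
  rw [Real.norm_of_nonneg (sq_nonneg _)]
  exact pow_le_pow_left₀ hh.le hx 2

theorem hk_pos (k : ℤ) : 0 < hk k := by unfold hk; positivity
theorem sk_pos {α c1 : ℝ} (hc : 0 < c1) (k : ℤ) : 0 < sk α c1 k := by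
  unfold sk; have := hk_pos k; positivity
theorem hk_succ (k : ℤ) : hk (k + 1) = 2 * hk k := by
  unfold hk; rw [zpow_add₀ (by norm_num)]; ring
/-- `s_k² = c₁² h_k^{-α}`. -/
theorem sk_sq {α c1 : ℝ} (k : ℤ) : sk α c1 k ^ 2 = c1 ^ 2 * (hk k) ^ (-α) := by
  unfold sk
  rw [mul_pow, ← Real.rpow_natCast ((hk k) ^ (-(α / 2))) 2, ← Real.rpow_mul (hk_pos k).le]
  congr 2
  push_cast
  ring

/-- every positive number lies in a dyadic shell. -/
theorem exists_shell {t : ℝ} (ht : 0 < t) : ∃ k : ℤ, hk k ≤ t ∧ t < hk (k + 1) := by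
  obtain ⟨k, h1, h2⟩ := exists_mem_Ico_zpow (x := t) (y := (2 : ℝ)) ht (by norm_num)
  exact ⟨k, h1, h2⟩

/-- dyadic sums. -/
theorem dyadic_sum (s : Finset ℤ) (β X : ℝ) (hβ : 2 ≤ β) (hX : 0 ≤ X) :
    (∑ k ∈ s with hk k ≤ X, (hk k) ^ β) ≤ 2 * X ^ β := by
  rcases hX.eq_or_lt with h0 | h0
  · subst h0
    rw [Finset.filter_false_of_mem (fun k _ => not_le.2 (hk_pos k)), Finset.sum_empty]
    exact mul_nonneg (by norm_num) (Real.rpow_nonneg le_rfl _)
  obtain ⟨K, h1, h2⟩ := exists_shell h0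
  have hle : ∀ k ∈ s.filter (fun k => hk k ≤ X), k ≤ K := by
    intro k hk'
    have h3 : hk k ≤ X := (Finset.mem_filter.1 hk').2
    have h4 : hk k < hk (K + 1) := lt_of_le_of_lt h3 h2
    have h5 : k < K + 1 := (zpow_lt_zpow_iff_right₀ (by norm_num : (1 : ℝ) < 2)).1 h4
    omega
  have hterm : ∀ k ∈ s.filter (fun k => hk k ≤ X), (hk k) ^ β ≤
      X ^ β * (1 / 4 : ℝ) ^ (K - k).toNat := by
    intro k hk'
    have h3 := hle k hk'
    obtain ⟨n, hn⟩ : ∃ n : ℕ, K - k = n := ⟨(K - k).toNat, by omega⟩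
    have h4 : hk K = hk k * 2 ^ n := by
      unfold hk
      rw [show K = k + n by omega, zpow_add₀ (by norm_num), zpow_natCast]
    have h5 : hk k ≤ X * (1 / 2 : ℝ) ^ n := by
      have : hk k = hk K * (1 / 2 : ℝ) ^ n := by
        rw [h4, mul_assoc, ← mul_pow]
        norm_num
      rw [this]
      exact mul_le_mul_of_nonneg_right h1 (by positivity)
    have h6 : (hk k) ^ β ≤ (X * (1 / 2 : ℝ) ^ n) ^ β :=
      Real.rpow_le_rpow (hk_pos k).le h5 (by linarith)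
    refine h6.trans ?_
    rw [Real.mul_rpow hX (by positivity), show (K - k).toNat = n by omega]
    apply mul_le_mul_of_nonneg_left _ (Real.rpow_nonneg hX _)
    have h7 : ((1 / 2 : ℝ) ^ n) ^ β ≤ ((1 / 2 : ℝ) ^ n) ^ (2 : ℝ) :=
      Real.rpow_le_rpow_of_exponent_ge (by positivity) (pow_le_one₀ (by norm_num) (by norm_num)) hβ
    refine h7.trans (le_of_eq ?_)
    rw [show (2 : ℝ) = ((2 : ℕ) : ℝ) by norm_num, Real.rpow_natCast, ← pow_mul, mul_comm n 2,
      pow_mul]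
    norm_num
  have hinj : Set.InjOn (fun k => (K - k).toNat) (s.filter (fun k => hk k ≤ X) : Finset ℤ) := by
    intro a ha b hb hab
    have h3 := hle a ha
    have h4 := hle b hb
    simp only at hab
    omega
  calc (∑ k ∈ s with hk k ≤ X, (hk k) ^ β) ≤
      ∑ k ∈ s with hk k ≤ X, X ^ β * (1 / 4 : ℝ) ^ (K - k).toNat := Finset.sum_le_sum hterm
    _ = X ^ β * ∑ k ∈ s with hk k ≤ X, (1 / 4 : ℝ) ^ (K - k).toNat := by rw [Finset.mul_sum]
    _ = X ^ β * ∑ j ∈ (s.filter (fun k => hk k ≤ X)).image (fun k => (K - k).toNat),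
          (1 / 4 : ℝ) ^ j := by rw [Finset.sum_image hinj]
    _ ≤ X ^ β * 2 := by
        apply mul_le_mul_of_nonneg_left _ (Real.rpow_nonneg hX _)
        have h8 : Summable fun j : ℕ => (1 / 4 : ℝ) ^ j :=
          summable_geometric_of_lt_one (by norm_num) (by norm_num)
        have h9 := h8.sum_le_tsum ((s.filter (fun k => hk k ≤ X)).image (fun k => (K - k).toNat))
          (fun i _ => by positivity)
        rw [tsum_geometric_of_lt_one (by norm_num) (by norm_num)] at h9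
        refine h9.trans ?_
        norm_num
    _ = 2 * X ^ β := by ring

/-- level-set sum: `Σ_k h_k^{α+2} |{|w| ≥ h_k/2}| ≤ C ∫|w|^{α+2}`. -/
theorem level_sum {w : E N → ℂ} (hw : Nice w) {α : ℝ} (hα : 0 < α) (s : Finset ℤ) :
    (∑ k ∈ s, (hk k) ^ (α + 2) * volume.real {x | hk k / 2 ≤ ‖w x‖})
      ≤ 2 * 2 ^ (α + 2) * ∫ x, ‖w x‖ ^ (α + 2) := by
  have hm : ∀ k : ℤ, MeasurableSet {x | hk k / 2 ≤ ‖w x‖} := fun k =>
    measurableSet_le measurable_const hw.c1.continuous.norm.measurable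
  have h1 : ∀ k : ℤ, (hk k) ^ (α + 2) * volume.real {x | hk k / 2 ≤ ‖w x‖} =
      ∫ x, ({x | hk k / 2 ≤ ‖w x‖} : Set (E N)).indicator (fun _ => (hk k) ^ (α + 2)) x := by
    intro k
    rw [integral_indicator (hm k), setIntegral_const, smul_eq_mul, mul_comm]
  have hi : ∀ k : ℤ, Integrable
      (({x | hk k / 2 ≤ ‖w x‖} : Set (E N)).indicator (fun _ => (hk k) ^ (α + 2))) := by
    intro k
    rw [integrable_indicator_iff (hm k)]
    exact integrableOn_const (hw.finite_level (half_pos (hk_pos k))).ne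
  rw [Finset.sum_congr rfl fun k _ => h1 k, ← integral_finset_sum s fun k _ => hi k,
    ← integral_const_mul]
  apply integral_mono (integrable_finset_sum s fun k _ => hi k)
    ((hw.int_pow (by linarith)).const_mul _)
  intro x
  show (∑ k ∈ s, ({x | hk k / 2 ≤ ‖w x‖} : Set (E N)).indicator (fun _ => (hk k) ^ (α + 2)) x) ≤
    2 * 2 ^ (α + 2) * ‖w x‖ ^ (α + 2)
  have h2 := dyadic_sum s (α + 2) (2 * ‖w x‖) (by linarith) (by positivity)
  rw [Real.mul_rpow (by norm_num) (norm_nonneg _), ← mul_assoc] at h2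
  refine le_trans (le_of_eq ?_) h2
  rw [Finset.sum_filter]
  refine Finset.sum_congr rfl fun k _ => ?_
  rw [indicator_apply]
  simp only [mem_ofPred_eq]
  congr 1
  rw [div_le_iff₀ (by norm_num : (0 : ℝ) < 2), mul_comm]

end CGL
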