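import Pool.Agent.CGL.Mb
import Pool.Agent.CGL.Bw
import Pool.Agent.CGL.SMain
/-! THA: the core inequality; THC: energy positivity -/
open MeasureTheory Set Filter Topology
namespace CGL

/-- the initial value is nice. -/
theorem tha_nice {N : ℕ} {α θ γ T : ℝ} (hT : 0 < T) (A : ASol N α θ γ T) :
    Nice (A.v 0) ∧ gsq (A.v 0) = A.dsq 0 := by
  have h0 : (0:ℝ) ∈ Icc (0:ℝ) T := ⟨le_rfl, hT.le⟩
  have hg : gsq (A.v 0) = A.dsq 0 := by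
    funext x
    unfold gsq ASol.dsq
    apply Finset.sum_congr rfl
    intro i _
    have h1 : DifferentiableAt ℝ (A.v 0) x := (A.c1.differentiable one_ne_zero) x
    have h2 := (A.hv i 0 h0 x).lineDeriv
    rw [h1.lineDeriv_eq_fderiv] at h2
    rw [h2]
  refine ⟨⟨A.c1, ?_, ?_, ?_⟩, hg⟩
  · exact adm_slice A.gok (adm_normsq A.dom_v) h0
  · obtain ⟨C, hC⟩ := A.Gb
    exact ⟨C, fun x => (A.bv 0 h0 x).trans (hC x)⟩
  · rw [hg]
    exact adm_slice A.gok A.adm_dsq h0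

/-- the final arithmetic. -/
theorem tha_arith {lam kap0 L Mb C1 A1 A2 ε1 ε2 a x e κ ρ En F M2 Q P Mr : ℝ}
    (hlam : 0 < lam) (hlam1 : lam ≤ 1) (hk0 : 0 ≤ kap0) (hk1 : kap0 ≤ 1)
    (hε1 : ε1 = lam / 8) (hε2 : 0 < ε2) (hMb : 0 < Mb) (hC1 : 0 < C1)
    (hA1 : 0 < A1) (hA2 : 0 < A2) (hL : 0 < L)
    (ha : 0 ≤ a) (hκ : 0 ≤ κ) (hρ : 0 ≤ ρ) (hMr : 0 ≤ Mr)
    (hF : 0 ≤ F)
    (hE : 2 * e = x - kap0 * a)
    (h1 : e ≤ En + ε1 * x + (A1 / ε1) * (κ + ρ))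
    (h2 : lam * a ≤ 2 * e + ε2 * M2 + (A2 / ε2) * (κ + ρ))
    (h3 : M2 ≤ Mb * (Q + κ)) (h4 : Q ≤ C1 * (F + Mr))
    (h5 : (1 / 2) * F ≤ P) (h6 : P ≤ L * (lam / 2) * a + 4 * κ)
    (hsmall : L * (ε2 * (Mb * C1)) ≤ 1 / 4) :
    F ≤ 16 * L * max En 0 + 4 * (L * (4 * (A1 / ε1) + ε2 * Mb + A2 / ε2) + 4) * (κ + ρ) + Mr := by
  have hε1p : 0 < ε1 := by rw [hε1]; linarith
  have hEn : En ≤ max En 0 := le_max_left _ _
  have hEn0 : 0 ≤ max En 0 := le_max_right _ _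
  have hkr : 0 ≤ κ + ρ := by linarith
  have hA1e : 0 ≤ (A1 / ε1) * (κ + ρ) := by positivity
  have hA2e : 0 ≤ (A2 / ε2) * (κ + ρ) := by positivity
  have hx : x = 2 * e + kap0 * a := by linarith
  rw [hx] at h1
  -- bound for `e`
  have he : e ≤ 2 * (max En 0 + ε1 * (kap0 * a) + (A1 / ε1) * (κ + ρ)) := by
    have hka : 0 ≤ ε1 * (kap0 * a) := by positivity
    rcases le_or_gt e 0 with h | h
    · have : 0 ≤ 2 * (max En 0 + ε1 * (kap0 * a) + (A1 / ε1) * (κ + ρ)) := by positivity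
      linarith
    · have h7 : ε1 * (2 * e) ≤ e / 2 := by
        have h8 : ε1 ≤ 1 / 8 := by rw [hε1]; linarith
        have h9 : ε1 * (2 * e) ≤ (1 / 8) * (2 * e) := mul_le_mul_of_nonneg_right h8 (by linarith)
        linarith
      have h10 : ε1 * (2 * e + kap0 * a) = ε1 * (2 * e) + ε1 * (kap0 * a) := by ring
      linarith
  have hka2 : 4 * (ε1 * (kap0 * a)) ≤ lam / 2 * a := by
    rw [hε1]
    have h7 : kap0 * a ≤ 1 * a := mul_le_mul_of_nonneg_right hk1 ha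
    have h8 : lam * (kap0 * a) ≤ lam * (1 * a) := mul_le_mul_of_nonneg_left h7 hlam.le
    linarith
  have hM2 : ε2 * M2 ≤ (ε2 * (Mb * C1)) * (F + Mr) + (ε2 * Mb) * (κ + ρ) := by
    have h7 : Mb * (Q + κ) ≤ Mb * (C1 * (F + Mr) + (κ + ρ)) :=
      mul_le_mul_of_nonneg_left (by linarith) hMb.le
    have h8 := mul_le_mul_of_nonneg_left (h3.trans h7) hε2.le
    calc ε2 * M2 ≤ ε2 * (Mb * (C1 * (F + Mr) + (κ + ρ))) := h8
      _ = (ε2 * (Mb * C1)) * (F + Mr) + (ε2 * Mb) * (κ + ρ) := by ring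
  -- bound for `a`
  have hA : lam / 2 * a ≤ 4 * max En 0 + (4 * (A1 / ε1) + ε2 * Mb + A2 / ε2) * (κ + ρ) +
      (ε2 * (Mb * C1)) * (F + Mr) := by
    have h7 : (4 * (A1 / ε1) + ε2 * Mb + A2 / ε2) * (κ + ρ) =
        4 * ((A1 / ε1) * (κ + ρ)) + (ε2 * Mb) * (κ + ρ) + (A2 / ε2) * (κ + ρ) := by ring
    rw [h7]
    linarith
  have hLA := mul_le_mul_of_nonneg_left hA hL.le
  have hFM : L * ((ε2 * (Mb * C1)) * (F + Mr)) ≤ 1 / 4 * (F + Mr) := by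
    calc L * ((ε2 * (Mb * C1)) * (F + Mr)) = (L * (ε2 * (Mb * C1))) * (F + Mr) := by ring
      _ ≤ 1 / 4 * (F + Mr) := mul_le_mul_of_nonneg_right hsmall (by linarith)
  have h7 : L * (4 * max En 0 + (4 * (A1 / ε1) + ε2 * Mb + A2 / ε2) * (κ + ρ) +
      (ε2 * (Mb * C1)) * (F + Mr)) = 4 * L * max En 0 +
      L * (4 * (A1 / ε1) + ε2 * Mb + A2 / ε2) * (κ + ρ) +
      L * ((ε2 * (Mb * C1)) * (F + Mr)) := by ring
  rw [h7] at hLA
  have h8 : L * (lam / 2 * a) = L * (lam / 2) * a := by ring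
  rw [h8] at hLA
  have h9 : 4 * (L * (4 * (A1 / ε1) + ε2 * Mb + A2 / ε2) + 4) * (κ + ρ) =
      4 * (L * (4 * (A1 / ε1) + ε2 * Mb + A2 / ε2) * (κ + ρ)) + 16 * κ + 16 * ρ := by ring
  rw [h9]
  linarith

theorem core_ineq (N : ℕ) (hN : 1 ≤ N) (α θ : ℝ) (hα : 0 < α) (hcrit : ((N:ℝ) - 2) * α ≤ 4)
    (hc : 0 < Real.cos θ) :
    ∃ C : ℝ, 0 < C ∧ ∀ (γ R : ℝ), 0 ≤ γ → 0 < R → ∀ A : ASol N α θ γ (C * R ^ 2),
      A.D 0 ≤ 2 * A.F 0 → 0 < A.F 0 →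
      A.F 0 ≤ C * (max (A.En 0) 0 + A.Kap (C * R ^ 2) + A.Rho (C * R ^ 2) + A.M 0 / R ^ 2) := by
  obtain ⟨C1, hC1, hstat⟩ := static_main N hN α hα hcrit
  obtain ⟨K, hK, hstw⟩ := exists_stw N C1 hC1
  obtain ⟨A1, hA1, hact1⟩ := act1 N K hK
  obtain ⟨A2, hA2, hact2⟩ := act2 N K hK
  obtain ⟨Mb, hMb, hmb⟩ := mb N K hK
  obtain ⟨lam, hlam⟩ : ∃ lam : ℝ, lam = α / (α + 2) := ⟨_, rfl⟩
  have hlam0 : 0 < lam := by rw [hlam]; positivity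
  have hlam1 : lam ≤ 1 := by
    rw [hlam, div_le_one (by positivity)]
    linarith
  obtain ⟨L, hL⟩ : ∃ L : ℝ, L = 2 ^ (α + 2) * 2 / lam := ⟨_, rfl⟩
  have hL0 : 0 < L := by rw [hL]; positivity
  have hLlam : L * (lam / 2) = 2 ^ (α + 2) := by
    rw [hL]
    field_simp
  obtain ⟨ε2, hε2⟩ : ∃ ε2 : ℝ, ε2 = 1 / (1 + 4 * (L * (Mb * C1))) := ⟨_, rfl⟩
  have hden : 0 < 1 + 4 * (L * (Mb * C1)) := by positivity
  have hε20 : 0 < ε2 := by rw [hε2]; positivity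
  have hε21 : ε2 ≤ 1 := by
    rw [hε2, div_le_one hden]
    have : 0 < 4 * (L * (Mb * C1)) := by positivity
    linarith
  have hsmall : L * (ε2 * (Mb * C1)) ≤ 1 / 4 := by
    have h1 : L * (ε2 * (Mb * C1)) = (L * (Mb * C1)) / (1 + 4 * (L * (Mb * C1))) := by
      rw [hε2]; ring
    rw [h1, div_le_iff₀ hden]
    linarith
  obtain ⟨ε1, hε1⟩ : ∃ ε1 : ℝ, ε1 = lam / 8 := ⟨_, rfl⟩
  have hε10 : 0 < ε1 := by rw [hε1]; linarith
  have hε11 : ε1 ≤ 1 := by rw [hε1]; linarith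
  obtain ⟨B, hB⟩ : ∃ B : ℝ, B = 4 * (L * (4 * (A1 / ε1) + ε2 * Mb + A2 / ε2) + 4) := ⟨_, rfl⟩
  have hB0 : 0 < B := by rw [hB]; positivity
  obtain ⟨C, hC⟩ : ∃ C : ℝ, C = C1 + 16 * L + B + 1 := ⟨_, rfl⟩
  have hC0 : 0 < C := by rw [hC]; positivity
  refine ⟨C, hC0, ?_⟩
  intro γ R hγ hR A hD hF
  have hT : 0 < C * R ^ 2 := by positivity
  obtain ⟨hnice, hg⟩ := tha_nice hT A
  have hD' : (∫ x, gsq (A.v 0) x) ≤ 2 * ∫ x, ‖A.v 0 x‖ ^ (α + 2) := by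
    rw [hg]
    exact hD
  obtain ⟨W, hW1, hW2⟩ := hstat (A.v 0) hnice hD' hF R hR
  have hC1C : C1 * R ^ 2 ≤ C * R ^ 2 := by
    apply mul_le_mul_of_nonneg_right _ (sq_nonneg R)
    rw [hC]
    have : 0 < 16 * L := by positivity
    linarith
  obtain ⟨S⟩ := hstw R (C * R ^ 2) W hR hC1C
  have hJ : ∀ x, 0 < W.J x := fun x => lt_of_lt_of_le (by positivity) (W.lower x)
  have hκ : 0 ≤ A.Kap (C * R ^ 2) :=
    intervalIntegral.integral_nonneg hT.le fun t _ => integral_nonneg fun x => sq_nonneg _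
  have hρ : 0 ≤ A.Rho (C * R ^ 2) :=
    intervalIntegral.integral_nonneg hT.le fun t _ => integral_nonneg fun x => sq_nonneg _
  have hMr : 0 ≤ A.M 0 / R ^ 2 := div_nonneg (integral_nonneg fun x => sq_nonneg _) (sq_nonneg R)
  have ha : 0 ≤ A.IF S := by
    apply II_nonneg hT.le
    intro t ht x
    have h1 := S.a_nonneg t ht x
    have h2 : 0 ≤ ‖A.v t x‖ ^ (α + 2) := Real.rpow_nonneg (norm_nonneg _) _
    have h3 := (Real.exp_pos (α * γ * t)).le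
    positivity
  have e1 := IE_eq A hα hT S
  have e2 := hact1 α θ γ (C * R ^ 2) W.J hα hc hγ hT A S ε1 hε10 hε11
  have e3 := hact2 α θ γ (C * R ^ 2) W.J hα hc hγ hT A S ε2 hε20 hε21
  have e4 := hmb α θ γ (C * R ^ 2) W.J hα hT W.cJ hJ W.upper A S
  have e5 := per A hα hγ hT W.cJ hJ S
  have hk0 : (0:ℝ) ≤ 2 / (α + 2) := by positivity
  have hk1 : 2 / (α + 2) ≤ (1:ℝ) := by
    rw [div_le_one (by positivity)]
    linarith
  rw [← hlam] at e3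
  rw [← hLlam] at e5
  have hmain := tha_arith hlam0 hlam1 hk0 hk1 hε1 hε20 hMb hC1 hA1 hA2 hL0 ha hκ hρ hMr
    hF.le e1 e2 e3 e4 hW2 hW1 e5 hsmall
  rw [← hB] at hmain
  have hEn0 : 0 ≤ max (A.En 0) 0 := le_max_right _ _
  have hL16 : 16 * L ≤ C := by rw [hC]; linarith
  have hBC : B ≤ C := by rw [hC]; linarith
  have h1C : 1 ≤ C := by rw [hC]; linarith
  calc A.F 0 ≤ 16 * L * max (A.En 0) 0 + B * (A.Kap (C * R ^ 2) + A.Rho (C * R ^ 2)) +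
        1 * (A.M 0 / R ^ 2) := by
        rw [one_mul]
        exact hmain
    _ ≤ C * max (A.En 0) 0 + C * (A.Kap (C * R ^ 2) + A.Rho (C * R ^ 2)) +
        C * (A.M 0 / R ^ 2) := by
        apply add_le_add
        · apply add_le_add
          · exact mul_le_mul_of_nonneg_right hL16 hEn0
          · exact mul_le_mul_of_nonneg_right hBC (by linarith)
        · exact mul_le_mul_of_nonneg_right h1C hMr
    _ = C * (max (A.En 0) 0 + A.Kap (C * R ^ 2) + A.Rho (C * R ^ 2) + A.M 0 / R ^ 2) := by ring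
end CGL
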