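import Pool.Agent.CGL.Tool
/-! WEN: weighted energy identity -/
open MeasureTheory Set Filter Topology
namespace CGL
variable {N : ℕ} {α θ γ T : ℝ}

/-- density of the derivative of the weighted energy (without the `∂_t w` term). -/
noncomputable def ASol.diss (A : ASol N α θ γ T) (w : ℝ → E N → ℝ) (dw : Fin N → ℝ → E N → ℝ)
    (t : ℝ) (x : E N) : ℝ :=
  -(Real.cos θ) * (w t x * ‖A.vt t x‖ ^ 2)
    + w t x * ((starRingEnd ℂ) (A.R t x) * A.vt t x).re
    - (∑ i, dw i t x * ((starRingEnd ℂ) (A.dv i t x) * A.vt t x).re)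
    - (α * γ * Real.exp (α * γ * t) / (α + 2)) * (w t x * ‖A.v t x‖ ^ (α + 2))

private theorem wen_inner (z u : ℂ) : ((starRingEnd ℂ) z * u).re = inner ℝ z u := by
  rw [Complex.inner, mul_comm]

private theorem wen_nl_cont (hα : 0 < α) : Continuous (nl α) := by
  unfold nl
  exact (Complex.continuous_ofReal.comp (continuous_norm.rpow_const fun _ => Or.inr hα.le)).mul
    continuous_id

private theorem wen_dom_nl (A : ASol N α θ γ T) (hα : 0 < α) :
    Dom T A.G (fun t x => nl α (A.v t x)) := by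
  obtain ⟨B, hB⟩ := A.Gb
  have hB0 : 0 ≤ B := (A.G0 0).trans (hB 0)
  refine ⟨(wen_nl_cont hα).comp A.cv, B ^ α, by positivity, fun t ht x => ?_⟩
  unfold nl
  rw [norm_mul, Complex.norm_real, Real.norm_of_nonneg (by positivity)]
  exact mul_le_mul (Real.rpow_le_rpow (norm_nonneg _) ((A.bv t ht x).trans (hB x)) hα.le)
    (A.bv t ht x) (norm_nonneg _) (by positivity)

/-- time derivative of the energy density. -/
private noncomputable def wen_edt (A : ASol N α θ γ T) (t : ℝ) (x : E N) : ℝ :=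
  (∑ i, ((starRingEnd ℂ) (A.dv i t x) * A.dvt i t x).re)
    - Real.exp (α * γ * t) * ((starRingEnd ℂ) (nl α (A.v t x)) * A.vt t x).re
    - (α * γ * Real.exp (α * γ * t) / (α + 2)) * ‖A.v t x‖ ^ (α + 2)

private theorem wen_edt_adm (A : ASol N α θ γ T) (hα : 0 < α) : Adm T A.G (wen_edt A) := by
  have h1 : Adm T A.G (fun t x => ∑ i, ((starRingEnd ℂ) (A.dv i t x) * A.dvt i t x).re) :=
    adm_sum Finset.univ fun i _ => adm_re A.G0 (A.dom_dv i) (A.dom_dvt i)
  have h2 : Adm T A.G (fun t x => Real.exp (α * γ * t)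
      * ((starRingEnd ℂ) (nl α (A.v t x)) * A.vt t x).re) :=
    adm_wmul (w := fun t _ => Real.exp (α * γ * t)) (bdd_time (by fun_prop))
      (adm_re A.G0 (wen_dom_nl A hα) A.dom_vt)
  have h3 : Adm T A.G (fun t x => (α * γ * Real.exp (α * γ * t) / (α + 2))
      * ‖A.v t x‖ ^ (α + 2)) :=
    adm_wmul (w := fun t _ => α * γ * Real.exp (α * γ * t) / (α + 2)) (bdd_time (by fun_prop))
      (A.adm_vp hα)
  exact adm_sub (adm_sub h1 h2) h3

private theorem wen_ed_deriv (A : ASol N α θ γ T) (hα : 0 < α) {t : ℝ} (ht : t ∈ Ioo (0:ℝ) T)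
    (x : E N) : HasDerivAt (fun s => A.ed s x) (wen_edt A t x) t := by
  have h1 : ∀ i, HasDerivAt (fun s => ‖A.dv i s x‖ ^ 2)
      (2 * ((starRingEnd ℂ) (A.dv i t x) * A.dvt i t x).re) t := by
    intro i
    have := (A.hdt i t ht x).norm_sq
    rw [wen_inner]; exact this
  have h2 : HasDerivAt (fun s => ‖A.v s x‖ ^ (α + 2))
      ((α + 2) * ((starRingEnd ℂ) (nl α (A.v t x)) * A.vt t x).re) t := by
    have := (hasFDerivAt_norm_rpow (A.v t x) (p := α + 2) (by linarith)).comp_hasDerivAt t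
      (A.ht t ht x)
    refine this.congr_deriv ?_
    simp only [add_sub_cancel_right, smul_apply, smul_eq_mul,
      innerSL_apply_apply]
    rw [← wen_inner]
    unfold nl
    simp only [map_mul, Complex.conj_ofReal]
    rw [mul_assoc ((‖A.v t x‖ ^ α : ℝ) : ℂ), Complex.re_ofReal_mul]
    ring
  have h3 : HasDerivAt (fun s => Real.exp (α * γ * s) / (α + 2))
      (α * γ * Real.exp (α * γ * t) / (α + 2)) t := by
    have : HasDerivAt (fun s => Real.exp (α * γ * s)) (Real.exp (α * γ * t) * (α * γ)) t := by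
      have h := ((hasDerivAt_id t).const_mul (α * γ)).exp
      simpa using h
    refine (this.div_const (α + 2)).congr_deriv ?_
    ring
  have h4 : HasDerivAt (fun s => ∑ i, ‖A.dv i s x‖ ^ 2)
      (∑ i, 2 * ((starRingEnd ℂ) (A.dv i t x) * A.dvt i t x).re) t :=
    HasDerivAt.fun_sum fun i _ => h1 i
  have h5 := (h4.div_const 2).sub (h3.mul h2)
  refine h5.congr_deriv ?_
  unfold wen_edt
  rw [← Finset.mul_sum]
  have : α + 2 ≠ 0 := by linarith
  field_simp
  ring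

private theorem wen_split3 {s f g h : E N → ℝ} (hf : Integrable f) (hg : Integrable g)
    (hh : Integrable h) (he : ∀ x, s x = f x - g x - h x) :
    (∫ x, s x) = (∫ x, f x) - (∫ x, g x) - ∫ x, h x := by
  have hs : s = fun x => f x - g x - h x := funext he
  have h1 : Integrable (fun x => f x - g x) := hf.sub hg
  rw [hs, integral_sub h1 hh, integral_sub hf hg]

private theorem wen_split4 {s f g h k : E N → ℝ} (hf : Integrable f) (hg : Integrable g)
    (hh : Integrable h) (hk : Integrable k) (he : ∀ x, s x = - f x - g x - h x - k x) :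
    (∫ x, s x) = - (∫ x, f x) - (∫ x, g x) - (∫ x, h x) - ∫ x, k x := by
  have hs : s = fun x => - f x - g x - h x - k x := funext he
  have h1 : Integrable (fun x => - f x) := hf.neg
  have h2 : Integrable (fun x => - f x - g x) := h1.sub hg
  have h3 : Integrable (fun x => - f x - g x - h x) := h2.sub hh
  rw [hs, integral_sub h3 hk, integral_sub h2 hh, integral_sub h1 hg, integral_neg]

private theorem wen_main (A : ASol N α θ γ T) (hα : 0 < α)
    (w : ℝ → E N → ℝ) (dw : Fin N → ℝ → E N → ℝ)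
    (hw : Bdd T w) (hdw : ∀ i, Bdd T (dw i))
    (h2 : ∀ i, ∀ t ∈ Icc (0:ℝ) T, ∀ x, HasLineDerivAt ℝ (w t) (dw i t x) x (ev i))
    {t : ℝ} (ht : t ∈ Icc (0:ℝ) T) :
    (∫ x, w t x * wen_edt A t x) = ∫ x, A.diss w dw t x := by
  have sc : ∀ {f : ℝ → E N → ℂ}, Continuous (Function.uncurry f) → Continuous (f t) :=
    fun hf => hf.comp (Continuous.prodMk_right t)
  have scr : ∀ {f : ℝ → E N → ℝ}, Continuous (Function.uncurry f) → Continuous (f t) :=
    fun hf => hf.comp (Continuous.prodMk_right t)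
  obtain ⟨hwc, Cw, hCw, hwb⟩ := hw
  have hw' : Bdd T w := ⟨hwc, Cw, hCw, hwb⟩
  -- integration by parts
  have ibp : ∀ i, (∫ x, w t x * ((starRingEnd ℂ) (A.dv i t x) * A.dvt i t x).re)
      = - (∫ x, w t x * ((starRingEnd ℂ) (A.ddv i t x) * A.vt t x).re)
        - (∫ x, dw i t x * ((starRingEnd ℂ) (A.dv i t x) * A.vt t x).re) := by
    intro i
    obtain ⟨hdc, Cd, hCd, hdb⟩ := hdw i
    set C := max 1 (max Cw Cd) with hC
    have hC1 : (1:ℝ) ≤ C := le_max_left _ _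
    have up : ∀ x, A.G x ≤ C * A.G x := fun x => by
      have := A.G0 x; nlinarith
    exact slice_ibp A.gok (sc (A.cdv i)) (sc A.cvt) (sc (A.cddv i)) (sc (A.cdvt i)) (scr hwc)
      (scr hdc) (A.hdv i t ht) (A.hvtx i t ht) (h2 i t ht) (C := C)
      (fun x => (A.bdv i t ht x).trans (up x)) (fun x => (A.bvt t ht x).trans (up x))
      (fun x => (A.bddv i t ht x).trans (up x)) (fun x => (A.bdvt i t ht x).trans (up x))
      (fun x => (hwb t ht x).trans ((le_max_left _ _).trans (le_max_right _ _)))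
      (fun x => (hdb t ht x).trans ((le_max_right _ _).trans (le_max_right _ _)))
  have a1 : ∀ i, Integrable (fun x => w t x * ((starRingEnd ℂ) (A.dv i t x) * A.dvt i t x).re) :=
    fun i => adm_slice A.gok (adm_wmul hw' (adm_re A.G0 (A.dom_dv i) (A.dom_dvt i))) ht
  have a2 : ∀ i, Integrable (fun x => w t x * ((starRingEnd ℂ) (A.ddv i t x) * A.vt t x).re) :=
    fun i => adm_slice A.gok (adm_wmul hw' (adm_re A.G0 (A.dom_ddv i) A.dom_vt)) ht
  have a3 : ∀ i, Integrable (fun x => dw i t x * ((starRingEnd ℂ) (A.dv i t x) * A.vt t x).re) :=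
    fun i => adm_slice A.gok (adm_wmul (hdw i) (adm_re A.G0 (A.dom_dv i) A.dom_vt)) ht
  have a4 : Integrable (fun x => w t x * (Real.exp (α * γ * t)
      * ((starRingEnd ℂ) (nl α (A.v t x)) * A.vt t x).re)) :=
    adm_slice A.gok (adm_wmul hw' (adm_wmul (w := fun t _ => Real.exp (α * γ * t))
      (bdd_time (by fun_prop)) (adm_re A.G0 (wen_dom_nl A hα) A.dom_vt))) ht
  have a5 : Integrable (fun x => w t x * ((α * γ * Real.exp (α * γ * t) / (α + 2))
      * ‖A.v t x‖ ^ (α + 2))) :=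
    adm_slice A.gok (adm_wmul hw' (adm_wmul
      (w := fun t _ => α * γ * Real.exp (α * γ * t) / (α + 2)) (bdd_time (by fun_prop))
      (A.adm_vp hα))) ht
  have e1 : (∫ x, w t x * wen_edt A t x)
      = (∑ i, ∫ x, w t x * ((starRingEnd ℂ) (A.dv i t x) * A.dvt i t x).re)
        - (∫ x, w t x * (Real.exp (α * γ * t)
          * ((starRingEnd ℂ) (nl α (A.v t x)) * A.vt t x).re))
        - ∫ x, w t x * ((α * γ * Real.exp (α * γ * t) / (α + 2)) * ‖A.v t x‖ ^ (α + 2)) := by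
    rw [← integral_finsetSum _ fun i _ => a1 i]
    refine wen_split3 (integrable_finsetSum _ fun i _ => a1 i) a4 a5 fun x => ?_
    simp only [wen_edt, mul_sub, Finset.mul_sum]
  have e2 : (∫ x, A.diss w dw t x)
      = -(∑ i, ∫ x, w t x * ((starRingEnd ℂ) (A.ddv i t x) * A.vt t x).re)
        - (∑ i, ∫ x, dw i t x * ((starRingEnd ℂ) (A.dv i t x) * A.vt t x).re)
        - (∫ x, w t x * (Real.exp (α * γ * t)
          * ((starRingEnd ℂ) (nl α (A.v t x)) * A.vt t x).re))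
        - ∫ x, w t x * ((α * γ * Real.exp (α * γ * t) / (α + 2)) * ‖A.v t x‖ ^ (α + 2)) := by
    rw [← integral_finsetSum _ fun i _ => a2 i, ← integral_finsetSum _ fun i _ => a3 i]
    refine wen_split4 (integrable_finsetSum _ fun i _ => a2 i)
      (integrable_finsetSum _ fun i _ => a3 i) a4 a5 fun x => ?_
    simp only [ASol.diss]
    -- the equation
    have hph : (starRingEnd ℂ) (ph θ) * ph θ = 1 := by
      rw [← Complex.normSq_eq_conj_mul_self]
      unfold ph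
      rw [Complex.normSq_eq_norm_sq, Complex.norm_exp_ofReal_mul_I]; simp
    have heq := A.eq t ht x
    have h3 : (∑ i, A.ddv i t x) + ((Real.exp (α * γ * t) : ℝ) : ℂ) * nl α (A.v t x)
        = (starRingEnd ℂ) (ph θ) * A.vt t x - A.R t x := by
      rw [heq, ← mul_assoc, hph]; ring
    have h4 : ((starRingEnd ℂ) ((∑ i, A.ddv i t x)
        + ((Real.exp (α * γ * t) : ℝ) : ℂ) * nl α (A.v t x)) * A.vt t x).re
        = Real.cos θ * ‖A.vt t x‖ ^ 2 - ((starRingEnd ℂ) (A.R t x) * A.vt t x).re := by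
      rw [h3, map_sub, map_mul, Complex.conj_conj, sub_mul, Complex.sub_re]
      congr 1
      rw [mul_assoc, ← Complex.normSq_eq_conj_mul_self, Complex.re_mul_ofReal,
        Complex.normSq_eq_norm_sq]
      congr 1
      unfold ph
      exact Complex.exp_ofReal_mul_I_re θ
    have h5 : ((starRingEnd ℂ) ((∑ i, A.ddv i t x)
        + ((Real.exp (α * γ * t) : ℝ) : ℂ) * nl α (A.v t x)) * A.vt t x).re
        = (∑ i, ((starRingEnd ℂ) (A.ddv i t x) * A.vt t x).re)
          + Real.exp (α * γ * t) * ((starRingEnd ℂ) (nl α (A.v t x)) * A.vt t x).re := by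
      rw [map_add, map_sum, map_mul, Complex.conj_ofReal, add_mul, Complex.add_re,
        Finset.sum_mul, Complex.re_sum, mul_assoc, Complex.re_ofReal_mul]
    have h6 : (∑ i, ((starRingEnd ℂ) (A.ddv i t x) * A.vt t x).re)
        = Real.cos θ * ‖A.vt t x‖ ^ 2 - ((starRingEnd ℂ) (A.R t x) * A.vt t x).re
          - Real.exp (α * γ * t) * ((starRingEnd ℂ) (nl α (A.v t x)) * A.vt t x).re := by
      linarith [h4, h5]
    rw [← Finset.mul_sum, h6]
    ring
  rw [e1, e2]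
  simp_rw [ibp]
  rw [Finset.sum_sub_distrib, Finset.sum_neg_distrib]

theorem adm_diss (A : ASol N α θ γ T) (hα : 0 < α) (w : ℝ → E N → ℝ) (dw : Fin N → ℝ → E N → ℝ)
    (hw : Bdd T w) (hdw : ∀ i, Bdd T (dw i)) : Adm T A.G (A.diss w dw) := by
  have h1 : Adm T A.G (fun t x => -(Real.cos θ) * (w t x * ‖A.vt t x‖ ^ 2)) :=
    adm_cmul _ (adm_wmul hw (adm_normsq A.dom_vt))
  have h2 : Adm T A.G (fun t x => w t x * ((starRingEnd ℂ) (A.R t x) * A.vt t x).re) :=
    adm_wmul hw (adm_re A.G0 A.dom_R A.dom_vt)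
  have h3 : Adm T A.G (fun t x => ∑ i, dw i t x * ((starRingEnd ℂ) (A.dv i t x) * A.vt t x).re) :=
    adm_sum Finset.univ fun i _ => adm_wmul (hdw i) (adm_re A.G0 (A.dom_dv i) A.dom_vt)
  have h4 : Adm T A.G (fun t x => (α * γ * Real.exp (α * γ * t) / (α + 2))
      * (w t x * ‖A.v t x‖ ^ (α + 2))) :=
    adm_wmul (w := fun t _ => α * γ * Real.exp (α * γ * t) / (α + 2)) (bdd_time (by fun_prop))
      (adm_wmul hw (A.adm_vp hα))
  exact adm_sub (adm_sub (adm_add h1 h2) h3) h4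

theorem wenergy (A : ASol N α θ γ T) (hα : 0 < α)
    (w wt : ℝ → E N → ℝ) (dw : Fin N → ℝ → E N → ℝ)
    (hw : Bdd T w) (hwt : Bdd T wt) (hdw : ∀ i, Bdd T (dw i))
    (h1 : ∀ t ∈ Ioo (0:ℝ) T, ∀ x, HasDerivAt (fun s => w s x) (wt t x) t)
    (h2 : ∀ i, ∀ t ∈ Icc (0:ℝ) T, ∀ x, HasLineDerivAt ℝ (w t) (dw i t x) x (ev i)) :
    ∀ t ∈ Ioo (0:ℝ) T, HasDerivAt (fun s => ∫ x, w s x * A.ed s x)
      ((∫ x, wt t x * A.ed t x) + ∫ x, A.diss w dw t x) t := by
  intro t ht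
  have ht' : t ∈ Icc (0:ℝ) T := ⟨ht.1.le, ht.2.le⟩
  have h3 := adm_hasDeriv A.gok (adm_wmul hw (A.adm_ed hα))
    (adm_add (adm_wmul hwt (A.adm_ed hα)) (adm_wmul hw (wen_edt_adm A hα)))
    (fun s hs x => by
      have := (h1 s hs x).mul (wen_ed_deriv A hα hs x)
      exact this) t ht
  refine h3.congr_deriv ?_
  rw [integral_add (adm_slice A.gok (adm_wmul hwt (A.adm_ed hα)) ht')
    (adm_slice A.gok (adm_wmul hw (wen_edt_adm A hα)) ht'), wen_main A hα w dw hw hdw h2 ht']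

/-- integrated form. -/
theorem wenergy_int (A : ASol N α θ γ T) (hα : 0 < α)
    (w wt : ℝ → E N → ℝ) (dw : Fin N → ℝ → E N → ℝ)
    (hw : Bdd T w) (hwt : Bdd T wt) (hdw : ∀ i, Bdd T (dw i))
    (h1 : ∀ t ∈ Ioo (0:ℝ) T, ∀ x, HasDerivAt (fun s => w s x) (wt t x) t)
    (h2 : ∀ i, ∀ t ∈ Icc (0:ℝ) T, ∀ x, HasLineDerivAt ℝ (w t) (dw i t x) x (ev i))
    {S : ℝ} (hS : S ∈ Icc (0:ℝ) T) :
    (∫ x, w S x * A.ed S x) - (∫ x, w 0 x * A.ed 0 x)
      = (∫ t in (0:ℝ)..S, ∫ x, wt t x * A.ed t x) + ∫ t in (0:ℝ)..S, ∫ x, A.diss w dw t x := by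
  have h0 : (0:ℝ) ∈ Icc (0:ℝ) T := ⟨le_rfl, hS.1.trans hS.2⟩
  have i1 := adm_ii A.gok (adm_wmul hwt (A.adm_ed hα)) h0 hS
  have i2 := adm_ii A.gok (adm_diss A hα w dw hw hdw) h0 hS
  rw [← intervalIntegral.integral_add i1 i2]
  rw [intervalIntegral.integral_eq_sub_of_hasDerivAt_of_le
    (f := fun t => ∫ x, w t x * A.ed t x) hS.1
    ((adm_contOn A.gok (adm_wmul hw (A.adm_ed hα))).mono (Icc_subset_Icc_right hS.2))
    (fun t ht => wenergy A hα w wt dw hw hwt hdw h1 h2 t ⟨ht.1, ht.2.trans_le hS.2⟩)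
    (i1.add i2)]

/-- the plain energy: `∫ ed = En`. -/
theorem int_ed (A : ASol N α θ γ T) (hα : 0 < α) {t : ℝ} (ht : t ∈ Icc (0:ℝ) T) :
    (∫ x, A.ed t x) = A.En t := by
  have i1 : Integrable (fun x => A.dsq t x / 2) := (adm_slice A.gok A.adm_dsq ht).div_const 2
  have i2 : Integrable (fun x => Real.exp (α * γ * t) / (α + 2) * ‖A.v t x‖ ^ (α + 2)) :=
    (adm_slice A.gok (A.adm_vp hα) ht).const_mul _
  unfold ASol.ed ASol.En ASol.D ASol.F
  rw [integral_sub i1 i2, integral_div, integral_const_mul]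

private theorem wen_one (A : ASol N α θ γ T) (hα : 0 < α) :
    ∀ t ∈ Ioo (0:ℝ) T, HasDerivAt (fun s => ∫ x, A.ed s x)
      (∫ x, A.diss (fun _ _ => (1:ℝ)) (fun _ _ _ => (0:ℝ)) t x) t := by
  intro t ht
  have := wenergy A hα (fun _ _ => (1:ℝ)) (fun _ _ => (0:ℝ)) (fun _ _ _ => (0:ℝ))
    (bdd_const 1) (bdd_const 0) (fun _ => bdd_const 0)
    (fun t _ x => by simpa using hasDerivAt_const t (1:ℝ))
    (fun i t _ x => by
      unfold HasLineDerivAt; simpa using hasDerivAt_const (0:ℝ) (1:ℝ)) t ht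
  simpa using this

/-- derivative of the energy. -/
theorem energy_deriv (A : ASol N α θ γ T) (hα : 0 < α) :
    ∀ t ∈ Ioo (0:ℝ) T, HasDerivAt A.En
      (-(Real.cos θ) * (∫ x, ‖A.vt t x‖ ^ 2)
        + (∫ x, ((starRingEnd ℂ) (A.R t x) * A.vt t x).re)
        - α * γ * Real.exp (α * γ * t) / (α + 2) * A.F t) t := by
  intro t ht
  have ht' : t ∈ Icc (0:ℝ) T := ⟨ht.1.le, ht.2.le⟩
  have h1 := wen_one A hα t ht
  have h2 : HasDerivAt A.En (∫ x, A.diss (fun _ _ => (1:ℝ)) (fun _ _ _ => (0:ℝ)) t x) t := by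
    refine h1.congr_of_eventuallyEq ?_
    filter_upwards [Ioo_mem_nhds ht.1 ht.2] with s hs
    exact (int_ed A hα ⟨hs.1.le, hs.2.le⟩).symm
  refine h2.congr_deriv ?_
  have i1 : Integrable (fun x => -(Real.cos θ) * ‖A.vt t x‖ ^ 2) :=
    (adm_slice A.gok (adm_normsq A.dom_vt) ht').const_mul _
  have i2 : Integrable (fun x => ((starRingEnd ℂ) (A.R t x) * A.vt t x).re) :=
    adm_slice A.gok (adm_re A.G0 A.dom_R A.dom_vt) ht'
  have i3 : Integrable (fun x => α * γ * Real.exp (α * γ * t) / (α + 2)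
      * ‖A.v t x‖ ^ (α + 2)) := (adm_slice A.gok (A.adm_vp hα) ht').const_mul _
  have : (∫ x, A.diss (fun _ _ => (1:ℝ)) (fun _ _ _ => (0:ℝ)) t x)
      = ∫ x, (-(Real.cos θ) * ‖A.vt t x‖ ^ 2 + ((starRingEnd ℂ) (A.R t x) * A.vt t x).re)
        - α * γ * Real.exp (α * γ * t) / (α + 2) * ‖A.v t x‖ ^ (α + 2) := by
    refine integral_congr_ae (ae_of_all _ fun x => ?_)
    simp [ASol.diss]
  have i12 : Integrable (fun x => -(Real.cos θ) * ‖A.vt t x‖ ^ 2
      + ((starRingEnd ℂ) (A.R t x) * A.vt t x).re) := i1.add i2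
  rw [this, integral_sub i12 i3, integral_add i1 i2, integral_const_mul,
    integral_const_mul]
  rfl

theorem energy_cont (A : ASol N α θ γ T) (hα : 0 < α) : ContinuousOn A.En (Icc (0:ℝ) T) :=
  (adm_contOn A.gok (A.adm_ed hα)).congr fun _ ht => (int_ed A hα ht).symm

/-- Theorem B: dissipation bound. -/
theorem kap_bound (A : ASol N α θ γ T) (hα : 0 < α) (hγ : 0 ≤ γ) (hc : 0 < Real.cos θ)
    {S : ℝ} (hS : S ∈ Icc (0:ℝ) T) :
    Real.cos θ * A.Kap S ≤ 2 * (A.En 0 - A.En S) + (1 / Real.cos θ) * A.Rho S := by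
  set c := Real.cos θ with hcdef
  have h0 : (0:ℝ) ∈ Icc (0:ℝ) T := ⟨le_rfl, hS.1.trans hS.2⟩
  have hS' : S ≤ T := hS.2
  have e := wenergy_int A hα (fun _ _ => (1:ℝ)) (fun _ _ => (0:ℝ)) (fun _ _ _ => (0:ℝ))
    (bdd_const 1) (bdd_const 0) (fun _ => bdd_const 0)
    (fun t _ x => by simpa using hasDerivAt_const t (1:ℝ))
    (fun i t _ x => by
      unfold HasLineDerivAt; simpa using hasDerivAt_const (0:ℝ) (1:ℝ)) hS
  simp only [one_mul, zero_mul, integral_zero, intervalIntegral.integral_zero, zero_add] at e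
  rw [int_ed A hα hS, int_ed A hα h0] at e
  have hdiss : Adm T A.G (A.diss (fun _ _ => (1:ℝ)) (fun _ _ _ => (0:ℝ))) :=
    adm_diss A hα _ _ (bdd_const 1) (fun _ => bdd_const 0)
  have a1 := adm_normsq A.dom_vt
  have a2 := adm_normsq A.dom_R
  have hbd : (∫ t in (0:ℝ)..S, ∫ x, A.diss (fun _ _ => (1:ℝ)) (fun _ _ _ => (0:ℝ)) t x)
      ≤ ∫ t in (0:ℝ)..S, ∫ x, (-(c / 2) * ‖A.vt t x‖ ^ 2 + 1 / (2 * c) * ‖A.R t x‖ ^ 2) := by
    have hadm := adm_add (adm_cmul (-(c / 2)) a1) (adm_cmul (1 / (2 * c)) a2)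
    refine intervalIntegral.integral_mono_on hS.1 (adm_ii A.gok hdiss h0 hS)
      (adm_ii A.gok hadm h0 hS) fun t ht => ?_
    have ht' : t ∈ Icc (0:ℝ) T := ⟨ht.1, ht.2.trans hS'⟩
    refine integral_mono (adm_slice A.gok hdiss ht') (adm_slice A.gok hadm ht') fun x => ?_
    simp only [ASol.diss, one_mul, zero_mul, Finset.sum_const_zero, sub_zero]
    have h1 : ((starRingEnd ℂ) (A.R t x) * A.vt t x).re ≤ ‖A.R t x‖ * ‖A.vt t x‖ := by
      calc ((starRingEnd ℂ) (A.R t x) * A.vt t x).re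
          ≤ ‖(starRingEnd ℂ) (A.R t x) * A.vt t x‖ := Complex.re_le_norm _
        _ = ‖A.R t x‖ * ‖A.vt t x‖ := by rw [norm_mul, Complex.norm_conj]
    have h2 : ‖A.R t x‖ * ‖A.vt t x‖ ≤ c / 2 * ‖A.vt t x‖ ^ 2 + 1 / (2 * c) * ‖A.R t x‖ ^ 2 := by
      have hsq := sq_nonneg (c * ‖A.vt t x‖ - ‖A.R t x‖)
      have : c / 2 * ‖A.vt t x‖ ^ 2 + 1 / (2 * c) * ‖A.R t x‖ ^ 2 - ‖A.R t x‖ * ‖A.vt t x‖
          = (c * ‖A.vt t x‖ - ‖A.R t x‖) ^ 2 / (2 * c) := by
        field_simp; ring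
      have h3 : 0 ≤ (c * ‖A.vt t x‖ - ‖A.R t x‖) ^ 2 / (2 * c) := by positivity
      linarith
    have h3 : 0 ≤ α * γ * Real.exp (α * γ * t) / (α + 2) * ‖A.v t x‖ ^ (α + 2) := by
      have : 0 ≤ α * γ := mul_nonneg hα.le hγ
      positivity
    have : -c * ‖A.vt t x‖ ^ 2 + c / 2 * ‖A.vt t x‖ ^ 2 = -(c / 2) * ‖A.vt t x‖ ^ 2 := by ring
    linarith
  have hsplit : (∫ t in (0:ℝ)..S, ∫ x, (-(c / 2) * ‖A.vt t x‖ ^ 2 + 1 / (2 * c) * ‖A.R t x‖ ^ 2))
      = -(c / 2) * A.Kap S + 1 / (2 * c) * A.Rho S := by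
    unfold ASol.Kap ASol.Rho
    rw [← intervalIntegral.integral_const_mul, ← intervalIntegral.integral_const_mul,
      ← intervalIntegral.integral_add ((adm_ii A.gok a1 h0 hS).const_mul _)
        ((adm_ii A.gok a2 h0 hS).const_mul _)]
    refine intervalIntegral.integral_congr fun t ht => ?_
    rw [uIcc_of_le hS.1] at ht
    have ht' : t ∈ Icc (0:ℝ) T := ⟨ht.1, ht.2.trans hS'⟩
    have := integral_add ((adm_slice A.gok a1 ht').const_mul (-(c / 2)))
      ((adm_slice A.gok a2 ht').const_mul (1 / (2 * c)))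
    simp only [integral_const_mul] at this
    exact this
  rw [hsplit] at hbd
  rw [← e] at hbd
  have : 1 / c * A.Rho S = 2 * (1 / (2 * c) * A.Rho S) := by field_simp
  rw [this]
  linarith
end CGL
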